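import Pool.Agent.TH604.ST.Stm

/-!
# Project ST: joins of classes, mean change of the number of classes and of `kap` (helper959)
-/

set_option autoImplicit false

namespace Pool.Agent.TH604.ST.Kn

open Finset Equiv Pool.Agent.W805.LR Pool.Agent.TH604.ST

section

variable {V : Type} [Fintype V]

theorem cnt_congr {P Q : V → Prop} (h : ∀ v, P v ↔ Q v) : cnt P = cnt Q := by
  have : P = Q := funext fun v => propext (h v)
  rw [this]

theorem cnt_or {P Q : V → Prop} (h : ∀ v, P v → ¬ Q v) :
    cnt (fun v => P v ∨ Q v) = cnt P + cnt Q := by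
  classical
  unfold cnt
  rw [← sum_add_distrib]
  refine sum_congr rfl fun v _ => ?_
  by_cases hp : P v
  · simp [hp, h v hp]
  · simp [hp]

theorem one_le_csz (R : Setoid V) (v : V) : 1 ≤ csz R v := by
  classical
  unfold csz cnt
  have := single_le_sum (f := fun w => if R.r v w then (1 : ℝ) else 0)
    (fun w _ => by split_ifs <;> norm_num) (mem_univ v)
  simpa [R.iseqv.refl v] using this

theorem csz_pos (R : Setoid V) (v : V) : 0 < csz R v := zero_lt_one.trans_le (one_le_csz R v)

theorem csz_eq (R : Setoid V) {v w : V} (h : R.r v w) : csz R v = csz R w := by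
  unfold csz
  refine cnt_congr fun u => ⟨fun hu => ?_, fun hu => ?_⟩
  · exact R.iseqv.trans (R.iseqv.symm h) hu
  · exact R.iseqv.trans h hu

theorem join_r (R : Setoid V) (x y v w : V) : (join R x y).r v w ↔
    (R.r v w ∨ ((R.r x v ∨ R.r y v) ∧ (R.r x w ∨ R.r y w))) := Iff.rfl

theorem join_le (R S : Setoid V) (x y : V) : join R x y ≤ S ↔ R ≤ S ∧ S.r x y := by
  constructor
  · intro h
    exact ⟨fun a b hab => h (Or.inl hab),
      h (Or.inr ⟨Or.inl (R.iseqv.refl x), Or.inr (R.iseqv.refl y)⟩)⟩
  · rintro ⟨h1, h2⟩ a b hab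
    rcases hab with hab | ⟨ha, hb⟩
    · exact h1 hab
    · have hxa : S.r x a := by
        rcases ha with ha | ha
        · exact h1 ha
        · exact S.iseqv.trans h2 (h1 ha)
      have hxb : S.r x b := by
        rcases hb with hb | hb
        · exact h1 hb
        · exact S.iseqv.trans h2 (h1 hb)
      exact S.iseqv.trans (S.iseqv.symm hxa) hxb

theorem join_eq {R : Setoid V} {x y : V} (h : R.r x y) : join R x y = R := by
  refine le_antisymm ((join_le R R x y).2 ⟨le_rfl, h⟩) ?_
  exact ((join_le R (join R x y) x y).1 le_rfl).1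

theorem join_comm (R : Setoid V) (x y u v : V) :
    join (join R x y) u v = join (join R u v) x y := by
  have h : ∀ S : Setoid V, join (join R x y) u v ≤ S ↔ join (join R u v) x y ≤ S := by
    intro S
    rw [join_le, join_le, join_le, join_le]
    tauto
  exact le_antisymm ((h _).2 le_rfl) ((h _).1 le_rfl)

theorem csz_join {R : Setoid V} {x y : V} (h : ¬ R.r x y) {v : V} (hv : R.r x v ∨ R.r y v) :
    csz (join R x y) v = csz R x + csz R y := by
  unfold csz
  rw [← cnt_or]
  · refine cnt_congr fun w => ?_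
    rw [join_r]
    constructor
    · rintro (hw | ⟨-, hw⟩)
      · rcases hv with hv | hv
        · exact Or.inl (R.iseqv.trans hv hw)
        · exact Or.inr (R.iseqv.trans hv hw)
      · exact hw
    · exact fun hw => Or.inr ⟨hv, hw⟩
  · intro w h1 h2
    exact h (R.iseqv.trans h1 (R.iseqv.symm h2))

theorem csz_join' {R : Setoid V} {x y v : V} (h1 : ¬ R.r x v) (h2 : ¬ R.r y v) :
    csz (join R x y) v = csz R v := by
  unfold csz
  refine cnt_congr fun w => ?_
  rw [join_r]
  constructor
  · rintro (hw | ⟨h3 | h3, -⟩)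
    · exact hw
    · exact absurd h3 h1
    · exact absurd h3 h2
  · exact Or.inl

end

theorem jn : S_JN := by
  intro V _ _ R x y
  exact ⟨one_le_csz R, fun v w => csz_eq R, join_eq,
    fun h => ⟨fun v hv => csz_join h hv, fun v h1 h2 => csz_join' h1 h2⟩, join_comm R x y⟩

section merge

variable {V : Type} [Fintype V] [DecidableEq V]

/-- the sum over the classes of a function of the size -/
noncomputable def Ph (φ : ℝ → ℝ) (R : Setoid V) : ℝ := ∑ v, φ (csz R v) / csz R v

theorem NK_eq (R : Setoid V) : NK R = Ph (fun _ => 1) R := rfl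

theorem kap_eq (h : ℝ) (R : Setoid V) : kap h R = Ph (fun s => 1 - Real.exp (-(h * s))) R := rfl

theorem Ph_join (φ : ℝ → ℝ) {R : Setoid V} {x y : V} (h : ¬ R.r x y) :
    Ph φ (join R x y) = Ph φ R + (φ (csz R x + csz R y) - φ (csz R x) - φ (csz R y)) := by
  classical
  have hx := csz_pos R x
  have hy := csz_pos R y
  set c : ℝ := φ (csz R x + csz R y) / (csz R x + csz R y) with hc
  have key : ∀ v, φ (csz (join R x y) v) / csz (join R x y) v = φ (csz R v) / csz R v +
      ((if R.r x v then (1 : ℝ) else 0) * (c - φ (csz R x) / csz R x) +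
        (if R.r y v then (1 : ℝ) else 0) * (c - φ (csz R y) / csz R y)) := by
    intro v
    by_cases h1 : R.r x v
    · have h2 : ¬ R.r y v := fun h2 => h (R.iseqv.trans h1 (R.iseqv.symm h2))
      rw [csz_join h (Or.inl h1), if_pos h1, if_neg h2, ← csz_eq R h1]
      ring
    · by_cases h2 : R.r y v
      · rw [csz_join h (Or.inr h2), if_neg h1, if_pos h2, ← csz_eq R h2]
        ring
      · rw [csz_join' h1 h2, if_neg h1, if_neg h2]
        ring
  unfold Ph
  rw [sum_congr rfl fun v _ => key v, sum_add_distrib, sum_add_distrib, ← sum_mul, ← sum_mul]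
  have e1 : ∑ v, (if R.r x v then (1 : ℝ) else 0) = csz R x := rfl
  have e2 : ∑ v, (if R.r y v then (1 : ℝ) else 0) = csz R y := rfl
  rw [e1, e2, hc]
  have : csz R x + csz R y ≠ 0 := by linarith
  field_simp
  ring

theorem nn_pos [Nonempty V] : 0 < nn V := by
  unfold nn
  exact_mod_cast Fintype.card_pos

theorem stp_sub [Nonempty V] (F : Setoid V → ℝ) (R : Setoid V) :
    stp (unif V) Tj F R - F R = (∑ x, ∑ y, (F (join R x y) - F R)) / nn V ^ 2 := by
  have hn : nn V ≠ 0 := nn_pos.ne'
  unfold stp unif Tj
  rw [← mul_sum, Fintype.sum_prod_type]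
  have h1 : ∑ x : V, ∑ y : V, (F (join R x y) - F R) =
      (∑ x : V, ∑ y : V, F (join R x y)) - nn V ^ 2 * F R := by
    simp only [sum_sub_distrib, sum_const, card_univ, nsmul_eq_mul]
    unfold nn
    ring
  rw [h1]
  field_simp

theorem sum_csz (R : Setoid V) : ∑ x, csz R x = nn V ^ 2 * cc R := by
  unfold cc
  rcases isEmpty_or_nonempty V with h | h
  · simp
  · have hn : nn V ≠ 0 := nn_pos.ne'
    field_simp

end merge

theorem kn : S_KN := by
  classical
  intro V _ _ _ R h hh
  have hn : 0 < nn V := nn_pos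
  have hn2 : 0 < nn V ^ 2 := pow_pos hn 2
  have hcz : ∀ x : V, csz R x = ∑ y, (if R.r x y then (1 : ℝ) else 0) := fun x => rfl
  have hph0 : ∀ v, 0 ≤ 1 - Real.exp (-(h * csz R v)) := by
    intro v
    have h1 := csz_pos R v
    have : Real.exp (-(h * csz R v)) ≤ 1 := Real.exp_le_one_iff.2 (by nlinarith)
    linarith
  have hph1 : ∀ v, 1 - Real.exp (-(h * csz R v)) ≤ 1 := by
    intro v
    have := Real.exp_pos (-(h * csz R v))
    linarith
  refine ⟨?_, ?_, ?_, ?_⟩
  · rw [stp_sub]
    have h1 : ∀ x y : V, NK (join R x y) - NK R = (if R.r x y then (1 : ℝ) else 0) - 1 := by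
      intro x y
      split_ifs with hxy
      · rw [join_eq hxy]
        ring
      · rw [NK_eq, NK_eq, Ph_join _ hxy]
        ring
    simp only [h1, sum_sub_distrib, ← hcz, sum_csz, sum_const, card_univ, nsmul_eq_mul, mul_one]
    have h2 : (Fintype.card V : ℝ) = nn V := rfl
    rw [h2]
    field_simp
    ring
  · rw [stp_sub, div_le_iff₀ hn2]
    have h1 : ∀ x y : V, kap h (join R x y) - kap h R ≤ (if R.r x y then (1 : ℝ) else 0) -
        (1 - Real.exp (-(h * csz R x))) * (1 - Real.exp (-(h * csz R y))) := by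
      intro x y
      split_ifs with hxy
      · rw [join_eq hxy, sub_self]
        have := mul_le_one₀ (hph1 x) (hph0 y) (hph1 y)
        linarith
      · rw [kap_eq, kap_eq, Ph_join _ hxy]
        have : Real.exp (-(h * (csz R x + csz R y))) =
            Real.exp (-(h * csz R x)) * Real.exp (-(h * csz R y)) := by
          rw [← Real.exp_add]
          congr 1
          ring
        rw [this]
        apply le_of_eq
        ring
    refine (sum_le_sum fun x _ => sum_le_sum fun y _ => h1 x y).trans ?_
    simp only [sum_sub_distrib, ← hcz, sum_csz, ← mul_sum, ← sum_mul]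
    apply le_of_eq
    unfold mass
    field_simp
    simp only [sum_sub_distrib]
    ring
  · rw [kap_eq]
    exact sum_nonneg fun v _ => div_nonneg (hph0 v) (csz_pos R v).le
  · have h1 : ∀ v ∈ (univ : Finset V), (1 - Real.exp (-(h * csz R v))) / csz R v ≤ h := by
      intro v _
      rw [div_le_iff₀ (csz_pos R v)]
      have := Real.add_one_le_exp (-(h * csz R v))
      linarith
    have h2 := sum_le_sum h1
    rw [sum_const, card_univ, nsmul_eq_mul] at h2
    unfold kap nn
    linarith

end Pool.Agent.TH604.ST.Kn
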