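import Pool.Agent.TH604.ST.Stm
import Pool.Agent.W333.LR.PA

/-!
# Mean-field perturbation of random stirring: the potential
-/

set_option autoImplicit false
set_option linter.unusedSectionVars false

namespace Pool.Agent.TH604.ST.Pot

open Finset Equiv Pool.Agent.W805.LR Pool.Agent.TH604.ST MeasureTheory

section aux

variable {V : Type} [Fintype V] [DecidableEq V]

lemma cnt_eq' (P : V → Prop) [DecidablePred P] : cnt P = ∑ v, if P v then (1 : ℝ) else 0 := by
  unfold cnt
  refine Finset.sum_congr rfl fun v _ => ?_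
  congr

lemma cnt_nonneg' (P : V → Prop) : 0 ≤ cnt P := by
  unfold cnt
  exact Finset.sum_nonneg fun v _ => by split_ifs <;> norm_num

lemma cnt_mono' {P Q : V → Prop} (h : ∀ v, P v → Q v) : cnt P ≤ cnt Q := by
  unfold cnt
  refine Finset.sum_le_sum fun v _ => ?_
  by_cases hp : P v
  · simp [hp, h v hp]
  · rw [if_neg hp]; split_ifs <;> norm_num

lemma cnt_le_nn (P : V → Prop) : cnt P ≤ nn V := by
  have : cnt (fun _ : V => True) = nn V := by unfold cnt nn; simp
  rw [← this]; exact cnt_mono' fun _ _ => trivial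

lemma one_le_cnt' {P : V → Prop} (v : V) (h : P v) : 1 ≤ cnt P := by
  classical
  unfold cnt
  calc (1 : ℝ) = if P v then (1 : ℝ) else 0 := by simp [h]
    _ ≤ ∑ v, if P v then (1 : ℝ) else 0 :=
        Finset.single_le_sum (f := fun v => if P v then (1 : ℝ) else 0)
          (fun v _ => by split_ifs <;> norm_num) (Finset.mem_univ v)

lemma one_le_len' (g : Perm V) (v : V) : 1 ≤ len g v := one_le_cnt' v (Perm.SameCycle.refl g v)

lemma one_le_csz (R : Setoid V) (v : V) : 1 ≤ csz R v := one_le_cnt' v (R.iseqv.refl v)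

lemma nn_pos [Nonempty V] : 0 < nn V := by
  unfold nn; exact_mod_cast Fintype.card_pos

/-- An equivalence relation containing all the pairs `(v, g v)` contains the cycles. -/
lemma rel_of_sameCycle (R : Setoid V) (g : Perm V) (h : ∀ v, R.r v (g v)) {x y : V}
    (hxy : g.SameCycle x y) : R.r x y := by
  obtain ⟨n, rfl⟩ := Pool.Agent.W333.LR.exists_nat_pow hxy
  clear hxy
  induction n with
  | zero => simp
  | succ n ih =>
    rw [pow_succ', Perm.mul_apply]
    exact R.iseqv.trans ih (h _)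

lemma ref_step (z : Perm V × Setoid V) (hz : Ref z) (e : V × V) : Ref (Tp e z) := by
  intro x y hxy
  refine rel_of_sameCycle (join z.2 e.1 e.2) (swap e.1 e.2 * z.1) ?_ hxy
  intro v
  have hv : z.2.r v (z.1 v) := hz v (z.1 v) (Perm.sameCycle_apply_right.2 (Perm.SameCycle.refl _ _))
  rw [Perm.mul_apply]
  by_cases h1 : z.1 v = e.1
  · rw [h1, swap_apply_left]
    rw [h1] at hv
    exact Or.inr ⟨Or.inl (z.2.iseqv.symm hv), Or.inr (z.2.iseqv.refl _)⟩
  · by_cases h2 : z.1 v = e.2
    · rw [h2, swap_apply_right]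
      rw [h2] at hv
      exact Or.inr ⟨Or.inr (z.2.iseqv.symm hv), Or.inl (z.2.iseqv.refl _)⟩
    · rw [swap_apply_of_ne_of_ne h1 h2]
      exact Or.inl hv

lemma frac_nonneg [Nonempty V] (s : ℝ) (g : Perm V) : 0 ≤ frac s g :=
  div_nonneg (cnt_nonneg' _) nn_pos.le

lemma frac_le_one [Nonempty V] (s : ℝ) (g : Perm V) : frac s g ≤ 1 := by
  unfold frac
  rw [div_le_one nn_pos]
  exact cnt_le_nn _

end aux

theorem ref : S_REF := by
  intro V _ _ _ z hz
  have hlen : ∀ v, len z.1 v ≤ csz z.2 v := fun v => cnt_mono' fun w hw => hz v w hw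
  refine ⟨fun e => ref_step z hz e, hlen, ?_, ?_⟩
  · unfold NK NG
    refine Finset.sum_le_sum fun v _ => ?_
    exact one_div_le_one_div_of_le (lt_of_lt_of_le one_pos (one_le_len' z.1 v)) (hlen v)
  · intro h s hh hs
    classical
    have hn := nn_pos (V := V)
    unfold frac mass
    rw [div_add' _ _ _ hn.ne', div_le_div_iff_of_pos_right hn, cnt_eq']
    have e1 : Real.exp (-(h * s)) * nn V = ∑ _v : V, Real.exp (-(h * s)) := by
      rw [Finset.sum_const, Finset.card_univ, nsmul_eq_mul]; unfold nn; ring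
    rw [e1, ← Finset.sum_add_distrib]
    refine Finset.sum_le_sum fun v _ => ?_
    split_ifs with hv
    · have h1 : Real.exp (-(h * csz z.2 v)) ≤ Real.exp (-(h * s)) := by
        apply Real.exp_le_exp.2
        have := mul_le_mul_of_nonneg_left (hv.trans (hlen v)) hh.le
        linarith
      linarith
    · have h1 : Real.exp (-(h * csz z.2 v)) ≤ 1 := by
        apply Real.exp_le_one_iff.2
        have : 0 ≤ h * csz z.2 v := mul_nonneg hh.le (le_trans zero_le_one (one_le_csz z.2 v))
        linarith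
      have h2 := Real.exp_pos (-(h * s))
      linarith

lemma stp_pot {V : Type} [Fintype V] [DecidableEq V] (h s : ℝ) (z : Perm V × Setoid V) :
    stp (unif V) Tp (pot h s) z = stp (unif V) Tg (NE s) z.1 - stp (unif V) Tj (kap h) z.2
      + stp (unif V) Tj NK z.2 - stp (unif V) Tg NG z.1 := by
  unfold stp
  rw [← Finset.sum_sub_distrib, ← Finset.sum_add_distrib, ← Finset.sum_sub_distrib]
  refine Finset.sum_congr rfl fun e _ => ?_
  unfold pot Tp
  ring

theorem pot_le (hGG : S_GG) (hKN : S_KN) (hREF : S_REF) (V : Type) [Fintype V] [DecidableEq V]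
    [Nonempty V] (h ε : ℝ) (hh : 0 < h) (hε : 0 < ε) (z : Perm V × Setoid V) (hz : Ref z) :
    ST.pot h (ε * nn V) z ≤ 1 / ε := by
  obtain ⟨-, -, -, g4⟩ := hGG V z.1 ε hε
  obtain ⟨-, -, k3, -⟩ := hKN V z.2 h hh
  obtain ⟨-, -, r3, -⟩ := hREF V z hz
  unfold ST.pot
  linarith

lemma alg_key (m f e : ℝ) (f0 : 0 ≤ f) (f1 : f ≤ 1) (he : 0 ≤ e) (h : f ≤ m + e) :
    (m - f) ^ 2 - 2 * e ≤ m ^ 2 - f ^ 2 := by
  have h1 : -(2 * e) ≤ 2 * f * (m - f) := by
    have h2 : f * (m + e - f) ≥ 0 := mul_nonneg f0 (by linarith)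
    have h3 : (1 - f) * e ≥ 0 := mul_nonneg (by linarith) he
    nlinarith
  nlinarith

theorem pot : S_GG → S_KN → S_REF → S_POT := by
  intro hGG hKN hREF V _ _ _ h ε hh hε
  refine ⟨fun z hz => ⟨?_, pot_le hGG hKN hREF V h ε hh hε z hz⟩, ?_⟩
  · obtain ⟨g1, g2, g3, g4⟩ := hGG V z.1 ε hε
    obtain ⟨k1, k2, k3, k4⟩ := hKN V z.2 h hh
    obtain ⟨r1, r2, r3, r4⟩ := hREF V z hz
    have r := r4 h (ε * nn V) hh (mul_pos hε nn_pos)
    rw [stp_pot]
    have e0 : ST.pot h (ε * nn V) z =
      NE (ε * nn V) z.1 - kap h z.2 + NK z.2 - NG z.1 := rfl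
    rw [e0]
    have f0 := frac_nonneg (ε * nn V) z.1
    have f1 := frac_le_one (ε * nn V) z.1
    have he := Real.exp_pos (-(h * (ε * nn V)))
    have key := alg_key (mass h z.2) (frac (ε * nn V) z.1) (Real.exp (-(h * (ε * nn V))))
      f0 f1 he.le r
    linarith
  · intro g
    obtain ⟨g1, g2, g3, g4⟩ := hGG V g ε hε
    obtain ⟨k1, k2, k3, k4⟩ := hKN V (Perm.SameCycle.setoid g) h hh
    have e0 : NK (Perm.SameCycle.setoid g) = NG g := rfl
    have e1 : ST.pot h (ε * nn V) (g, Perm.SameCycle.setoid g) =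
      NE (ε * nn V) g - kap h (Perm.SameCycle.setoid g) + NK (Perm.SameCycle.setoid g) - NG g := rfl
    rw [e1, e0]
    linarith

lemma prb_unif (V : Type) [Fintype V] [Nonempty V] : Prb (unif V) := by
  refine ⟨fun e => ?_, ?_⟩
  · unfold unif; positivity
  · unfold unif
    rw [Finset.sum_const, Finset.card_univ, Fintype.card_prod, nsmul_eq_mul]
    have hn : (Fintype.card V : ℝ) ≠ 0 := by
      exact_mod_cast Fintype.card_ne_zero
    unfold nn
    push_cast
    field_simp

lemma finite_setoid (V : Type) [Fintype V] : Finite (Setoid V) := by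
  classical
  refine Finite.of_injective (fun R : Setoid V => (fun x y => R.r x y : V → V → Prop)) ?_
  intro R R' hR
  ext x y
  have := congrFun (congrFun hR x) y
  simp only at this
  exact iff_of_eq this

lemma bdd_of_finite {X : Type} [Finite X] (F : X → ℝ) : Bdd F := by
  obtain ⟨B, hB⟩ := (Set.finite_range fun x => |F x|).bddAbove
  exact ⟨B, fun x => hB ⟨x, rfl⟩⟩

theorem fill : S_DER → S_MON → S_LIN → S_POT → S_REF → S_FILL := by
  intro hDER hMON hLIN hPOT hREF V _ _ _ h ε S g hh hε hS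
  have : Finite (Setoid V) := finite_setoid V
  have hp : Prb (unif V) := prb_unif V
  obtain ⟨hP1, hP2⟩ := hPOT V h ε hh hε
  obtain ⟨x, hx⟩ : ∃ x : Perm V × Setoid V, x = (g, Perm.SameCycle.setoid g) := ⟨_, rfl⟩
  have hxR : Ref x := by rw [hx]; intro a b hab; exact hab
  rw [← hx]
  obtain ⟨F, hF⟩ : ∃ F : Perm V × Setoid V → ℝ, F = ST.pot h (ε * nn V) := ⟨_, rfl⟩
  obtain ⟨G, hG⟩ : ∃ G : Perm V × Setoid V → ℝ,
    G = fun z => (mass h z.2 - frac (ε * nn V) z.1) ^ 2 := ⟨_, rfl⟩
  obtain ⟨c, hc⟩ : ∃ c : ℝ, c = 6 * ε + 3 * Real.exp (-(h * (ε * nn V))) := ⟨_, rfl⟩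
  rw [← hG, ← hc]
  have hinv : ∀ (i : V × V) (y : Perm V × Setoid V), Ref y → Ref (Tp i y) :=
    fun i y hy => (hREF V y hy).1 i
  have hder := fun s => hDER _ _ (unif V) Tp hp F (bdd_of_finite F) s x
  have hderG := fun s => hDER _ _ (unif V) Tp hp G (bdd_of_finite G) s x
  have hcontG : Continuous fun s => poi (unif V) Tp s G x :=
    continuous_iff_continuousAt.2 fun s => (hderG s).continuousAt
  have hderD := fun s => hDER _ _ (unif V) Tp hp (fun y => stp (unif V) Tp F y - F y)
    (bdd_of_finite _) s x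
  have hcontD : Continuous fun s => poi (unif V) Tp s (fun y => stp (unif V) Tp F y - F y) x :=
    continuous_iff_continuousAt.2 fun s => (hderD s).continuousAt
  obtain ⟨hlin, hconst, hzero⟩ := hLIN _ _ (unif V) Tp hp
  have hptw : ∀ s, 0 ≤ s → poi (unif V) Tp s G x ≤
      poi (unif V) Tp s (fun y => stp (unif V) Tp F y - F y) x + c := by
    intro s hs
    have h1 := hMON _ _ (unif V) Tp hp Ref hinv G
      (fun y => 1 * (stp (unif V) Tp F y - F y) + 1 * (fun _ => c) y)
      (bdd_of_finite _) (bdd_of_finite _) (fun y hy => by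
        have := (hP1 y hy).1
        rw [hG, hF, hc]
        simp only
        linarith) s hs x hxR
    have h2 := hlin (fun y => stp (unif V) Tp F y - F y) (fun _ => c) (bdd_of_finite _)
      (bdd_of_finite _) 1 1 s x
    rw [h2, hconst] at h1
    linarith
  have hint : ∫ s in (0 : ℝ)..S, poi (unif V) Tp s (fun y => stp (unif V) Tp F y - F y) x =
      poi (unif V) Tp S F x - poi (unif V) Tp 0 F x :=
    intervalIntegral.integral_eq_sub_of_hasDerivAt (fun s _ => hder s)
      (hcontD.intervalIntegrable _ _)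
  have hle : ∫ s in (0 : ℝ)..S, poi (unif V) Tp s G x ≤
      ∫ s in (0 : ℝ)..S, (poi (unif V) Tp s (fun y => stp (unif V) Tp F y - F y) x + c) := by
    apply intervalIntegral.integral_mono_on hS (hcontG.intervalIntegrable _ _)
      ((hcontD.add continuous_const).intervalIntegrable _ _)
    intro s hs
    exact hptw s hs.1
  rw [intervalIntegral.integral_add (hcontD.intervalIntegrable _ _)
    (continuous_const.intervalIntegrable _ _), hint, intervalIntegral.integral_const] at hle
  have hup : poi (unif V) Tp S F x ≤ 1 / ε := by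
    have h1 := hMON _ _ (unif V) Tp hp Ref hinv F (fun _ => 1 / ε) (bdd_of_finite _)
      (bdd_of_finite _) (fun y hy => by rw [hF]; exact (hP1 y hy).2) S hS x hxR
    rwa [hconst] at h1
  have hlo : -(h * nn V) ≤ poi (unif V) Tp 0 F x := by
    rw [hzero, hF, hx]
    exact hP2 g
  rw [sub_zero, smul_eq_mul] at hle
  linarith

lemma setoid_merge {V : Type} [Fintype V] [DecidableEq V] (g : Perm V) (x y : V)
    (h : ¬ g.SameCycle x y) :
    Perm.SameCycle.setoid (swap x y * g) = join (Perm.SameCycle.setoid g) x y := by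
  ext v w
  change (swap x y * g).SameCycle v w ↔ (g.SameCycle v w ∨ ((g.SameCycle x v ∨ g.SameCycle y v) ∧
    (g.SameCycle x w ∨ g.SameCycle y w)))
  by_cases hv : g.SameCycle x v ∨ g.SameCycle y v
  · rw [Pool.Agent.W333.LR.merge_in h hv w]
    constructor
    · intro hw; exact Or.inr ⟨hv, hw⟩
    · rintro (hw | hw)
      · rcases hv with hv | hv
        · exact Or.inl (hv.trans hw)
        · exact Or.inr (hv.trans hw)
      · exact hw.2
  · have h1 : ¬ g.SameCycle x v := fun h' => hv (Or.inl h')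
    have h2 : ¬ g.SameCycle y v := fun h' => hv (Or.inr h')
    rw [Pool.Agent.W333.LR.merge_out h1 h2 w]
    constructor
    · intro hw; exact Or.inl hw
    · rintro (hw | hw)
      · exact hw
      · exact absurd hw.1 hv

theorem bdg : S_JN → S_MS → S_BDG := by
  intro _ hMS V _ _ _ h hh
  refine ⟨fun g v => rfl, fun x y g => ?_⟩
  have hn := nn_pos (V := V)
  by_cases hxy : x = y
  · subst hxy
    have e : swap x x * g = g := by rw [swap_self]; exact one_mul g
    rw [e, sub_self, abs_zero]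
    positivity
  · by_cases hs : g.SameCycle x y
    · have h1 := Pool.Agent.W333.LR.not_same_split hxy hs
      have h2 := setoid_merge (swap x y * g) x y h1
      rw [← mul_assoc, swap_mul_self, one_mul] at h2
      obtain ⟨-, -, h3, -⟩ := hMS V (Perm.SameCycle.setoid (swap x y * g)) h hh
      have h4 := h3 x y
      rw [← h2] at h4
      rw [abs_sub_comm]
      exact h4
    · rw [setoid_merge g x y hs]
      obtain ⟨-, -, h3, -⟩ := hMS V (Perm.SameCycle.setoid g) h hh
      exact h3 x y

end Pool.Agent.TH604.ST.Pot
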