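import Pool.Agent.TH604.ST.Stm5
import Pool.Agent.TH604.ST.Kn
import Pool.Agent.TH604.ST.Pot
import Pool.Agent.W805.LR.Cons

/-!
# Project ST: mean cycle length at small times (job 5583, helper900)
-/

set_option autoImplicit false
set_option maxHeartbeats 400000

namespace Pool.Agent.TH604.ST.Chi

open Finset Equiv Pool.Agent.W805.LR Pool.Agent.TH604.ST

section words

variable {E : Type} [Fintype E]

/-- Sum over the words of length `m`, with weights `c`. -/
noncomputable def Sm (c : E → ℝ) : ℕ → (List E → ℝ) → ℝ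
  | 0, Φ => Φ []
  | m + 1, Φ => ∑ e, c e * Sm c m (fun w => Φ (e :: w))

/-- Sum over the positions of a word: marked letter and the remaining word. -/
noncomputable def ds : (E → List E → ℝ) → List E → ℝ
  | _, [] => 0
  | H, e :: w => H e w + ds (fun e' r => H e' (e :: r)) w

lemma Sm_mono {c : E → ℝ} (hc : ∀ e, 0 ≤ c e) (m : ℕ) : ∀ Φ Ψ : List E → ℝ, (∀ w, Φ w ≤ Ψ w) →
    Sm c m Φ ≤ Sm c m Ψ := by
  induction m with
  | zero => intro Φ Ψ h; exact h []
  | succ m ih =>
    intro Φ Ψ h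
    exact sum_le_sum fun e _ => mul_le_mul_of_nonneg_left (ih _ _ fun w => h _) (hc e)

lemma Sm_add (c : E → ℝ) (m : ℕ) : ∀ Φ Ψ : List E → ℝ,
    Sm c m (fun w => Φ w + Ψ w) = Sm c m Φ + Sm c m Ψ := by
  induction m with
  | zero => intro Φ Ψ; rfl
  | succ m ih =>
    intro Φ Ψ
    simp only [Sm, ih, mul_add, sum_add_distrib]

lemma Sm_sum {ι : Type} [Fintype ι] (c : E → ℝ) (m : ℕ) : ∀ Φ : ι → List E → ℝ,
    Sm c m (fun w => ∑ i, Φ i w) = ∑ i, Sm c m (Φ i) := by
  induction m with
  | zero => intro Φ; rfl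
  | succ m ih =>
    intro Φ
    simp only [Sm, ih, mul_sum]
    rw [sum_comm]

lemma Sm_mul (c : E → ℝ) (a : ℝ) (m : ℕ) : ∀ Φ : List E → ℝ,
    Sm c m (fun w => a * Φ w) = a * Sm c m Φ := by
  induction m with
  | zero => intro Φ; rfl
  | succ m ih =>
    intro Φ
    simp only [Sm, ih, mul_sum]
    exact sum_congr rfl fun e _ => by ring

lemma Sm_one (c : E → ℝ) (m : ℕ) : Sm c m (fun _ => 1) = (∑ e, c e) ^ m := by
  induction m with
  | zero => simp [Sm]
  | succ m ih =>
    simp only [Sm, ih]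
    rw [← sum_mul, pow_succ']

lemma Sm_const (c : E → ℝ) (m : ℕ) (a : ℝ) : Sm c m (fun _ => a) = a * (∑ e, c e) ^ m := by
  have h := Sm_mul c a m (fun _ => 1)
  rw [Sm_one] at h
  rw [← h]
  simp

lemma Sm_ds (c : E → ℝ) (m : ℕ) : ∀ H : E → List E → ℝ,
    Sm c (m + 1) (ds H) = ((m : ℝ) + 1) * ∑ e, c e * Sm c m (H e) := by
  induction m with
  | zero =>
    intro H
    simp [Sm, ds]
  | succ m ih =>
    intro H
    have e1 : Sm c (m + 1 + 1) (ds H) = ∑ e, c e * (Sm c (m + 1) (H e) +
        Sm c (m + 1) (ds fun e' r => H e' (e :: r))) := by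
      rw [Sm]
      refine sum_congr rfl fun e _ => ?_
      rw [← Sm_add]
      rfl
    rw [e1]
    simp only [ih, mul_add, sum_add_distrib]
    have e2 : ∑ e, c e * (((m : ℝ) + 1) * ∑ e', c e' * Sm c m (fun r => H e' (e :: r))) =
        ((m : ℝ) + 1) * ∑ e', c e' * Sm c (m + 1) (H e') := by
      simp only [Sm, mul_sum]
      rw [sum_comm]
      refine sum_congr rfl fun e' _ => sum_congr rfl fun e _ => ?_
      ring
    rw [e2]
    push_cast
    ring

lemma ds_nonneg (w : List E) : ∀ H : E → List E → ℝ, (∀ e r, 0 ≤ H e r) → 0 ≤ ds H w := by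
  induction w with
  | nil => intro H _; exact le_rfl
  | cons e w ih =>
    intro H h
    exact add_nonneg (h _ _) (ih _ fun e' r => h _ _)

lemma le_ds (e : E) (l2 : List E) (l1 : List E) : ∀ H : E → List E → ℝ, (∀ e r, 0 ≤ H e r) →
    H e (l1 ++ l2) ≤ ds H (l1 ++ e :: l2) := by
  induction l1 with
  | nil =>
    intro H h
    show H e l2 ≤ H e l2 + _
    have := ds_nonneg l2 (fun e' r => H e' (e :: r)) fun e' r => h _ _
    linarith
  | cons a l1 ih =>
    intro H h
    show H e (a :: (l1 ++ l2)) ≤ H a (l1 ++ e :: l2) + ds (fun e' r => H e' (a :: r)) (l1 ++ e :: l2)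
    have h1 := ih (fun e' r => H e' (a :: r)) fun e' r => h _ _
    have h2 := h a (l1 ++ e :: l2)
    linarith

lemma ds_sum {ι : Type} [Fintype ι] (w : List E) : ∀ H : ι → E → List E → ℝ,
    ds (fun e r => ∑ i, H i e r) w = ∑ i, ds (H i) w := by
  induction w with
  | nil => intro H; simp [ds]
  | cons e w ih =>
    intro H
    simp only [ds, ih, sum_add_distrib]

end words

section classes

variable {V : Type} [Fintype V] [DecidableEq V]

/-- The partition generated by the letters of a word. -/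
def cl : List (V × V) → Setoid V
  | [] => ⊥
  | e :: w => join (cl w) e.1 e.2

/-- The product of the transpositions of a word. -/
def pr : List (V × V) → Perm V
  | [] => 1
  | e :: w => swap e.1 e.2 * pr w

omit [DecidableEq V] in
lemma cl_mark (e : V × V) (l2 : List (V × V)) (l1 : List (V × V)) :
    cl (l1 ++ e :: l2) = join (cl (l1 ++ l2)) e.1 e.2 := by
  induction l1 with
  | nil => rfl
  | cons a l1 ih =>
    show join (cl (l1 ++ e :: l2)) a.1 a.2 = join (join (cl (l1 ++ l2)) a.1 a.2) e.1 e.2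
    rw [ih, Kn.join_comm]

omit [DecidableEq V] in
/-- The step (*). -/
lemma star (w : List (V × V)) : ∀ v u : V, v ≠ u → (cl w).r v u →
    ∃ (l1 : List (V × V)) (e : V × V) (l2 : List (V × V)), w = l1 ++ e :: l2 ∧
      ((e.1 = v ∧ (cl (l1 ++ l2)).r e.2 u) ∨ (e.2 = v ∧ (cl (l1 ++ l2)).r e.1 u)) := by
  induction w with
  | nil =>
    intro v u hvu h
    exact absurd h hvu
  | cons f w ih =>
    intro v u hvu h
    by_cases h0 : (cl w).r v u
    · obtain ⟨l1, e, l2, hw, h1⟩ := ih v u hvu h0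
      refine ⟨f :: l1, e, l2, by rw [hw]; rfl, ?_⟩
      rcases h1 with ⟨h1, h2⟩ | ⟨h1, h2⟩
      · exact Or.inl ⟨h1, Or.inl h2⟩
      · exact Or.inr ⟨h1, Or.inl h2⟩
    · -- a general step
      have gen : ∀ a b : V, (a = f.1 ∧ b = f.2) ∨ (a = f.2 ∧ b = f.1) → (cl w).r a v →
          (cl w).r b u → ∃ (l1 : List (V × V)) (e : V × V) (l2 : List (V × V)),
          f :: w = l1 ++ e :: l2 ∧
          ((e.1 = v ∧ (cl (l1 ++ l2)).r e.2 u) ∨ (e.2 = v ∧ (cl (l1 ++ l2)).r e.1 u)) := by
        intro a b hab ha hb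
        by_cases hva : v = a
        · refine ⟨[], f, w, rfl, ?_⟩
          rcases hab with ⟨h1, h2⟩ | ⟨h1, h2⟩
          · exact Or.inl ⟨by rw [hva, h1], by rw [← h2]; exact hb⟩
          · exact Or.inr ⟨by rw [hva, h1], by rw [← h2]; exact hb⟩
        · obtain ⟨l1, e, l2, hw, h1⟩ := ih v a hva ((cl w).iseqv.symm ha)
          have hcl : cl w = join (cl (l1 ++ l2)) e.1 e.2 := by rw [hw, cl_mark]
          have hb2 : (cl (l1 ++ l2)).r b u := by
            have hb1 := hb
            rw [hcl] at hb1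
            rcases hb1 with hb1 | ⟨-, hb1⟩
            · exact hb1
            · exfalso
              apply h0
              have hv : (cl (l1 ++ l2)).r e.1 v ∨ (cl (l1 ++ l2)).r e.2 v := by
                rcases h1 with ⟨h1, -⟩ | ⟨h1, -⟩
                · left; rw [h1]
                · right; rw [h1]
              rw [hcl]
              exact Or.inr ⟨hv, hb1⟩
          have hj : ∀ z : V, (cl (l1 ++ l2)).r z a → (cl (f :: l1 ++ l2)).r z u := by
            intro z hz
            have hz' := (cl (l1 ++ l2)).iseqv.symm hz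
            show (join (cl (l1 ++ l2)) f.1 f.2).r z u
            rcases hab with ⟨h3, h4⟩ | ⟨h3, h4⟩
            · exact Or.inr ⟨Or.inl (by rw [← h3]; exact hz'), Or.inr (by rw [← h4]; exact hb2)⟩
            · exact Or.inr ⟨Or.inr (by rw [← h3]; exact hz'), Or.inl (by rw [← h4]; exact hb2)⟩
          refine ⟨f :: l1, e, l2, by rw [hw]; rfl, ?_⟩
          rcases h1 with ⟨h1, h2⟩ | ⟨h1, h2⟩
          · exact Or.inl ⟨h1, hj _ h2⟩
          · exact Or.inr ⟨h1, hj _ h2⟩
      rcases h with h | ⟨h1, h2⟩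
      · exact absurd h h0
      · rcases h1 with h1 | h1
        · rcases h2 with h2 | h2
          · exact absurd ((cl w).iseqv.trans ((cl w).iseqv.symm h1) h2) h0
          · exact gen f.1 f.2 (Or.inl ⟨rfl, rfl⟩) h1 h2
        · rcases h2 with h2 | h2
          · exact gen f.2 f.1 (Or.inr ⟨rfl, rfl⟩) h1 h2
          · exact absurd ((cl w).iseqv.trans ((cl w).iseqv.symm h1) h2) h0

/-- The number of `u` in the class of the other end of a letter at `v`. -/
noncomputable def GG (v : V) (e : V × V) (r : List (V × V)) : ℝ :=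
  (if e.1 = v then csz (cl r) e.2 else 0) + (if e.2 = v then csz (cl r) e.1 else 0)

open Classical in
lemma csz_sum (R : Setoid V) (v : V) : csz R v = ∑ u, if R.r v u then (1 : ℝ) else 0 := by
  unfold csz cnt
  refine sum_congr rfl fun u _ => ?_
  congr

/-- KEY. -/
lemma key (w : List (V × V)) (v : V) : csz (cl w) v ≤ 1 + ds (GG v) w := by
  classical
  obtain ⟨H, hH⟩ : ∃ H : V → V × V → List (V × V) → ℝ, H = fun u e r =>
    (if e.1 = v then (if (cl r).r e.2 u then (1 : ℝ) else 0) else 0) +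
    (if e.2 = v then (if (cl r).r e.1 u then (1 : ℝ) else 0) else 0) := ⟨_, rfl⟩
  have hH0 : ∀ u e r, 0 ≤ H u e r := by
    intro u e r
    rw [hH]
    refine add_nonneg ?_ ?_ <;> · split_ifs <;> norm_num
  have e1 : GG v = fun e r => ∑ u, H u e r := by
    funext e r
    rw [hH]
    simp only [sum_add_distrib]
    unfold GG
    congr 1
    · split_ifs with h
      · rw [csz_sum]
      · simp
    · split_ifs with h
      · rw [csz_sum]
      · simp
  rw [e1, ds_sum, csz_sum]
  have h2 : ∀ u ∈ (univ : Finset V), (if (cl w).r v u then (1 : ℝ) else 0) ≤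
      (if v = u then (1 : ℝ) else 0) + ds (H u) w := by
    intro u _
    have hd := ds_nonneg w (H u) (hH0 u)
    by_cases hvu : v = u
    · rw [if_pos hvu]
      split_ifs <;> linarith
    · rw [if_neg hvu]
      split_ifs with h
      · obtain ⟨l1, e, l2, hw, h1⟩ := star w v u hvu h
        have h3 := le_ds e l2 l1 (H u) (hH0 u)
        rw [← hw] at h3
        have h4 : 1 ≤ H u e (l1 ++ l2) := by
          simp only [hH]
          rcases h1 with ⟨h5, h6⟩ | ⟨h5, h6⟩
          · rw [if_pos h5, if_pos h6]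
            refine le_add_of_nonneg_right ?_
            split_ifs <;> norm_num
          · rw [if_pos h5, if_pos h6]
            refine le_add_of_nonneg_left ?_
            split_ifs <;> norm_num
        linarith
      · linarith
  refine (sum_le_sum h2).trans (le_of_eq ?_)
  rw [sum_add_distrib, Finset.sum_ite_eq univ v]
  simp

lemma sum_GG (e : V × V) (r : List (V × V)) :
    ∑ v, GG v e r = csz (cl r) e.2 + csz (cl r) e.1 := by
  unfold GG
  rw [sum_add_distrib, Finset.sum_ite_eq univ e.1, Finset.sum_ite_eq univ e.2]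
  simp

lemma ref_word (w : List (V × V)) : Ref (pr w, cl w) := by
  induction w with
  | nil =>
    intro x y hxy
    have : x = y := by
      obtain ⟨n, hn⟩ := hxy
      simpa [pr] using hn
    subst this
    exact (cl ([] : List (V × V))).iseqv.refl x
  | cons e w ih => exact Pot.ref_step (pr w, cl w) ih e

lemma len_le [Nonempty V] (w : List (V × V)) (v : V) : len (pr w) v ≤ csz (cl w) v :=
  (Pot.ref V (pr w, cl w) (ref_word w)).2.1 v

lemma ring_words (J : V → V → ℝ) (m : ℕ) : ∀ F : Perm V → ℝ, ∑ g, ringSum J m g * F g =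
    Sm (fun e : V × V => J e.1 e.2 / 2) m (fun w => F (pr w)) := by
  induction m with
  | zero =>
    intro F
    classical
    simp only [ringSum, Sm, pr, ite_mul, one_mul, zero_mul]
    rw [Finset.sum_ite_eq' univ (1 : Perm V)]
    simp
  | succ m ih =>
    intro F
    simp only [ringSum, Sm, sum_mul]
    rw [sum_comm, Fintype.sum_prod_type]
    refine sum_congr rfl fun x _ => ?_
    rw [sum_comm]
    refine sum_congr rfl fun y _ => ?_
    have h1 := ih (fun g => F (swap x y * g))
    have e1 : (fun w : List (V × V) => F (pr ((x, y) :: w))) =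
        fun w => F (swap x y * pr w) := rfl
    rw [e1, ← h1, mul_sum, ← Equiv.sum_comp (Equiv.mulLeft (swap x y))
      (fun g => J x y / 2 * (ringSum J m g * F (swap x y * g)))]
    refine sum_congr rfl fun g _ => ?_
    simp only [Equiv.coe_mulLeft]
    rw [← mul_assoc (swap x y) (swap x y) g, swap_mul_self, one_mul]
    ring

/-- The sum of the sizes of the classes over the words of length `m`. -/
noncomputable def Y (J : V → V → ℝ) (m : ℕ) : ℝ :=
  ∑ v, Sm (fun e : V × V => J e.1 e.2 / 2) m (fun w => csz (cl w) v)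

lemma rate_eq (J : V → V → ℝ) : ∑ e : V × V, J e.1 e.2 / 2 = rate J := by
  rw [Fintype.sum_prod_type]
  rfl

lemma csz_le (R : Setoid V) (v : V) : csz R v ≤ nn V := Pot.cnt_le_nn _

lemma Y_nonneg {J : V → V → ℝ} (hJ : ∀ x y, 0 ≤ J x y) (m : ℕ) : 0 ≤ Y J m := by
  refine sum_nonneg fun v _ => ?_
  have h := Sm_mono (c := fun e : V × V => J e.1 e.2 / 2)
    (fun e => div_nonneg (hJ _ _) (by norm_num)) m (fun _ => 0) (fun w => csz (cl w) v)
    (fun w => (Kn.csz_pos _ _).le)
  rw [Sm_const, zero_mul] at h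
  exact h

lemma Y_le {J : V → V → ℝ} (hJ : ∀ x y, 0 ≤ J x y) (m : ℕ) :
    Y J m ≤ nn V * (nn V * rate J ^ m) := by
  have h1 : ∀ v ∈ (univ : Finset V), Sm (fun e : V × V => J e.1 e.2 / 2) m
      (fun w => csz (cl w) v) ≤ nn V * rate J ^ m := by
    intro v _
    have h := Sm_mono (c := fun e : V × V => J e.1 e.2 / 2)
      (fun e => div_nonneg (hJ _ _) (by norm_num)) m (fun w => csz (cl w) v) (fun _ => nn V)
      (fun w => csz_le _ _)
    rwa [Sm_const, rate_eq] at h
  have h2 := sum_le_sum h1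
  rw [sum_const, card_univ, nsmul_eq_mul] at h2
  exact h2

lemma Y_zero (J : V → V → ℝ) : Y J 0 = nn V := by
  classical
  have h1 : ∀ v ∈ (univ : Finset V), Sm (fun e : V × V => J e.1 e.2 / 2) 0
      (fun w => csz (cl w) v) = 1 := by
    intro v _
    show csz (cl ([] : List (V × V))) v = 1
    rw [csz_sum]
    have h2 : ∀ u : V, (cl ([] : List (V × V))).r v u ↔ v = u := fun u => Iff.rfl
    simp only [h2]
    rw [Finset.sum_ite_eq univ v]
    simp
  unfold Y
  rw [sum_congr rfl h1, sum_const, card_univ, nsmul_eq_mul, mul_one]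
  rfl

lemma Y_succ {J : V → V → ℝ} {Δ : ℝ} (hJ : ∀ x y, 0 ≤ J x y) (hs : ∀ x y, J x y = J y x)
    (hΔ : ∀ x, ∑ y, J x y ≤ Δ) (m : ℕ) :
    Y J (m + 1) ≤ nn V * rate J ^ (m + 1) + ((m : ℝ) + 1) * (Δ * Y J m) := by
  have hc : ∀ e : V × V, 0 ≤ J e.1 e.2 / 2 := fun e => div_nonneg (hJ _ _) (by norm_num)
  have h1 : ∀ v ∈ (univ : Finset V), Sm (fun e : V × V => J e.1 e.2 / 2) (m + 1)
      (fun w => csz (cl w) v) ≤ rate J ^ (m + 1) + ((m : ℝ) + 1) *
        ∑ e : V × V, J e.1 e.2 / 2 * Sm (fun e : V × V => J e.1 e.2 / 2) m (GG v e) := by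
    intro v _
    have h := Sm_mono hc (m + 1) (fun w => csz (cl w) v) (fun w => 1 + ds (GG v) w)
      (fun w => key w v)
    rw [Sm_add, Sm_one, rate_eq] at h
    refine h.trans (le_of_eq ?_)
    rw [Sm_ds]
  refine (sum_le_sum h1).trans ?_
  rw [sum_add_distrib, sum_const, card_univ, nsmul_eq_mul, ← mul_sum, sum_comm]
  refine add_le_add le_rfl (mul_le_mul_of_nonneg_left ?_ (by positivity))
  have h2 : ∀ e : V × V, ∑ v, J e.1 e.2 / 2 * Sm (fun e : V × V => J e.1 e.2 / 2) m (GG v e) =
      J e.1 e.2 / 2 * (Sm (fun e : V × V => J e.1 e.2 / 2) m (fun w => csz (cl w) e.2) +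
        Sm (fun e : V × V => J e.1 e.2 / 2) m (fun w => csz (cl w) e.1)) := by
    intro e
    rw [← mul_sum, ← Sm_sum, ← Sm_add]
    congr 2
    funext w
    exact sum_GG e w
  simp only [h2]
  obtain ⟨a, ha⟩ : ∃ a : V → ℝ, a = fun v => Sm (fun e : V × V => J e.1 e.2 / 2) m
    (fun w => csz (cl w) v) := ⟨_, rfl⟩
  have ha0 : ∀ v, 0 ≤ a v := by
    intro v
    rw [ha]
    have h := Sm_mono hc m (fun _ => 0) (fun w => csz (cl w) v) (fun w => (Kn.csz_pos _ _).le)
    rw [Sm_const, zero_mul] at h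
    exact h
  have h3 : Y J m = ∑ v, a v := by rw [ha]; rfl
  have h4 : ∑ e : V × V, J e.1 e.2 / 2 * (a e.2 + a e.1) ≤ Δ * ∑ v, a v := by
    rw [Fintype.sum_prod_type]
    simp only [mul_add, sum_add_distrib]
    have e1 : ∑ x, ∑ y, J x y / 2 * a y = ∑ x, ∑ y, J x y / 2 * a x := by
      rw [sum_comm]
      refine sum_congr rfl fun x _ => sum_congr rfl fun y _ => ?_
      rw [hs y x]
    rw [e1, ← sum_add_distrib, mul_sum]
    refine sum_le_sum fun x _ => ?_
    rw [← sum_add_distrib]
    have e2 : ∑ y, (J x y / 2 * a x + J x y / 2 * a x) = (∑ y, J x y) * a x := by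
      rw [sum_mul]
      exact sum_congr rfl fun y _ => by ring
    rw [e2]
    exact mul_le_mul_of_nonneg_right (hΔ x) (ha0 x)
  rw [h3]
  rw [ha] at h4
  rw [ha]
  exact h4

end classes

theorem chi : Pool.Agent.TH604.ST.S_CHI := by
  intro V _ _ _ J Δ t hJ hs hΔ ht htΔ
  have hn : 0 < nn V := Kn.nn_pos
  have hR : 0 ≤ rate J := sum_nonneg fun x _ => sum_nonneg fun y _ =>
    div_nonneg (hJ x y) (by norm_num)
  have hΔ0 : 0 ≤ Δ := by
    obtain ⟨x⟩ := ‹Nonempty V›
    exact (sum_nonneg fun y _ => hJ x y).trans (hΔ x)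
  have hc : ∀ e : V × V, 0 ≤ J e.1 e.2 / 2 := fun e => div_nonneg (hJ _ _) (by norm_num)
  obtain ⟨a, ha⟩ : ∃ a : ℕ → ℝ, a = fun m => t ^ m / (m.factorial : ℝ) * Y J m := ⟨_, rfl⟩
  obtain ⟨b, hb⟩ : ∃ b : ℕ → ℝ, b = fun m => (t * rate J) ^ m / (m.factorial : ℝ) := ⟨_, rfl⟩
  have hbs : Summable b := by rw [hb]; exact Real.summable_pow_div_factorial _
  have hbt : ∑' m, b m = Real.exp (t * rate J) := by
    rw [hb, Real.exp_eq_exp_ℝ, NormedSpace.exp_eq_tsum_div]
  have ha0 : ∀ m, 0 ≤ a m := by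
    intro m
    rw [ha]
    exact mul_nonneg (by positivity) (Y_nonneg hJ m)
  have has : Summable a := by
    refine Summable.of_nonneg_of_le ha0 (fun m => ?_) (hbs.mul_left (nn V * nn V))
    simp only [ha, hb]
    have h1 := mul_le_mul_of_nonneg_left (Y_le hJ m)
      (by positivity : (0 : ℝ) ≤ t ^ m / (m.factorial : ℝ))
    refine h1.trans (le_of_eq ?_)
    rw [mul_pow]
    ring
  have hstep : ∀ m, a (m + 1) ≤ nn V * b (m + 1) + t * Δ * a m := by
    intro m
    simp only [ha, hb]
    have h1 := mul_le_mul_of_nonneg_left (Y_succ hJ hs hΔ m)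
      (by positivity : (0 : ℝ) ≤ t ^ (m + 1) / ((m + 1).factorial : ℝ))
    refine h1.trans (le_of_eq ?_)
    have hf : (((m + 1).factorial : ℕ) : ℝ) = ((m : ℝ) + 1) * (m.factorial : ℝ) := by
      rw [Nat.factorial_succ]
      push_cast
      ring
    have hm : (m : ℝ) + 1 ≠ 0 := by positivity
    have hm2 : (m.factorial : ℝ) ≠ 0 := by positivity
    have e1 : t ^ (m + 1) / (((m + 1).factorial : ℕ) : ℝ) * (((m : ℝ) + 1) * (Δ * Y J m)) =
        t * Δ * (t ^ m / (m.factorial : ℝ) * Y J m) := by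
      rw [hf, pow_succ]
      field_simp
    rw [mul_add, e1, mul_pow]
    ring
  have hA : ∑' m, a m ≤ nn V * Real.exp (t * rate J) + t * Δ * ∑' m, a m := by
    have h0 : ∑' m, a m = a 0 + ∑' m, a (m + 1) := has.tsum_eq_zero_add
    have h1 : ∑' m, a (m + 1) ≤ ∑' m, (nn V * b (m + 1) + t * Δ * a m) :=
      ((summable_nat_add_iff 1).2 has).tsum_le_tsum hstep
        ((((summable_nat_add_iff 1).2 hbs).mul_left _).add (has.mul_left _))
    have h2 : ∑' m, (nn V * b (m + 1) + t * Δ * a m) =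
        nn V * ∑' m, b (m + 1) + t * Δ * ∑' m, a m := by
      rw [Summable.tsum_add (((summable_nat_add_iff 1).2 hbs).mul_left _) (has.mul_left _),
        tsum_mul_left, tsum_mul_left]
    have h3 : ∑' m, b m = b 0 + ∑' m, b (m + 1) := hbs.tsum_eq_zero_add
    have h4 : b 0 = 1 := by rw [hb]; simp
    have h5 : a 0 = nn V := by rw [ha]; simp [Y_zero]
    rw [hbt, h4] at h3
    rw [h2] at h1
    rw [h5] at h0
    have h6 : nn V * Real.exp (t * rate J) = nn V + nn V * ∑' m, b (m + 1) := by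
      rw [h3]; ring
    linarith
  -- the expectation
  obtain ⟨F, hF⟩ : ∃ F : Perm V → ℝ, F = fun g => (∑ v, len g v) / nn V := ⟨_, rfl⟩
  have hE : ∑ g, stirMass J t g * F g =
      ∑' m : ℕ, t ^ m / (m.factorial : ℝ) * ∑ g, ringSum J m g * F g := by
    unfold stirMass
    simp only [← tsum_mul_right]
    rw [← Summable.tsum_finsetSum fun g _ => (Pool.Agent.W762.LR.QS.summ J t g).mul_right (F g)]
    refine tsum_congr fun m => ?_
    rw [mul_sum]
    exact sum_congr rfl fun g _ => by ring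
  have hterm0 : ∀ m : ℕ, 0 ≤ t ^ m / (m.factorial : ℝ) * ∑ g, ringSum J m g * F g := by
    intro m
    refine mul_nonneg (by positivity) ?_
    rw [ring_words]
    have h := Sm_mono hc m (fun _ => 0) (fun w => F (pr w)) (fun w => by
      rw [hF]
      exact div_nonneg (sum_nonneg fun v _ => Pot.cnt_nonneg' _) hn.le)
    rw [Sm_const, zero_mul] at h
    exact h
  have hterm : ∀ m : ℕ, t ^ m / (m.factorial : ℝ) * ∑ g, ringSum J m g * F g ≤
      a m / nn V := by
    intro m
    rw [ring_words, ha]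
    have h1 : Sm (fun e : V × V => J e.1 e.2 / 2) m (fun w => F (pr w)) ≤ Y J m / nn V := by
      have h2 := Sm_mono hc m (fun w => F (pr w))
        (fun w => (nn V)⁻¹ * ∑ v, csz (cl w) v) (fun w => by
          rw [hF]
          show (∑ v, len (pr w) v) / nn V ≤ _
          rw [div_eq_inv_mul]
          exact mul_le_mul_of_nonneg_left (sum_le_sum fun v _ => len_le w v)
            (inv_nonneg.2 hn.le))
      rw [Sm_mul, Sm_sum] at h2
      refine h2.trans (le_of_eq ?_)
      unfold Y
      rw [div_eq_inv_mul]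
    refine (mul_le_mul_of_nonneg_left h1 (by positivity)).trans (le_of_eq ?_)
    ring
  have hle : ∑ g, stirMass J t g * F g ≤ (∑' m, a m) / nn V := by
    rw [hE, ← tsum_div_const]
    exact (Summable.of_nonneg_of_le hterm0 hterm (has.div_const _)).tsum_le_tsum hterm
      (has.div_const _)
  have hS : (∑' m, a m) * (1 - t * Δ) ≤ nn V * Real.exp (t * rate J) := by linarith
  have hpos : 0 < 1 - t * Δ := by linarith
  have hS' : (∑' m, a m) / nn V ≤ Real.exp (t * rate J) / (1 - t * Δ) := by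
    rw [div_le_div_iff₀ hn hpos]
    linarith
  have hfin := mul_le_mul_of_nonneg_left (hle.trans hS') (Real.exp_pos (-(t * rate J))).le
  have e1 : stE J t (fun g => (∑ v, len g v) / nn V) =
      Real.exp (-(t * rate J)) * ∑ g, stirMass J t g * F g := by
    rw [hF]; rfl
  rw [e1]
  refine hfin.trans (le_of_eq ?_)
  rw [← mul_div_assoc, ← Real.exp_add, neg_add_cancel, Real.exp_zero]

end Pool.Agent.TH604.ST.Chi
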