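import Pool.Agent.TH604.ST.Stm4

/-!
# The sum of the `k` largest cycle lengths (job ST-TOP, helper695)
-/

set_option autoImplicit false

namespace Pool.Agent.TH604.ST.Tops

open Finset Equiv Pool.Agent.W805.LR
open Pool.Agent.TH268.PD (top Cyc cyOf top_set_bdd top_set_empty top_zero_mem top_nonneg)

theorem top_anti {Γ : Type} [Finite Γ] (u : Γ → ℝ) (hu : ∀ γ, 0 ≤ u γ) : Antitone (top u) := by
  intro i j hij
  by_cases h : {x : ℝ | j + 1 ≤ Nat.card {γ : Γ // x ≤ u γ}} = ∅
  · have h1 : top u j = 0 := by
      unfold top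
      rw [h, Real.sSup_empty]
    rw [h1]
    exact top_nonneg u hu i
  · exact csSup_le_csSup (top_set_bdd u i) (Set.nonempty_iff_ne_empty.2 h)
      (fun x hx => by rw [Set.mem_ofPred_eq] at hx ⊢; omega)

/-- the values in decreasing order -/
theorem exists_enum {Γ : Type} [Finite Γ] (u : Γ → ℝ) :
    ∃ e : Fin (Nat.card Γ) ≃ Γ, ∀ i : Fin (Nat.card Γ), top u i = u (e i) := by
  classical
  obtain ⟨e0⟩ : Nonempty (Fin (Nat.card Γ) ≃ Γ) := ⟨(Finite.equivFin Γ).symm⟩
  have hmono := Tuple.monotone_sort (fun j => -u (e0 j))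
  obtain ⟨e, he⟩ : ∃ e : Fin (Nat.card Γ) ≃ Γ, e = (Tuple.sort (fun j => -u (e0 j))).trans e0 :=
    ⟨_, rfl⟩
  have hanti : ∀ a b : Fin (Nat.card Γ), a ≤ b → u (e b) ≤ u (e a) := by
    intro a b hab
    have h := hmono hab
    simp only [Function.comp_apply] at h
    rw [he]
    simp only [Equiv.trans_apply]
    linarith
  refine ⟨e, fun i => ?_⟩
  unfold top
  apply IsGreatest.csSup_eq
  constructor
  · rw [Set.mem_ofPred_eq]
    have h1 : Nat.card (Fin ((i : ℕ) + 1)) ≤ Nat.card {γ : Γ // u (e i) ≤ u γ} := by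
      refine Nat.card_le_card_of_injective
        (fun j : Fin ((i : ℕ) + 1) => (⟨e ⟨j, by omega⟩, hanti _ _ (by
          rw [Fin.le_def]; simp only; omega)⟩ : {γ : Γ // u (e i) ≤ u γ})) ?_
      intro a b hab
      have h2 := e.injective (congrArg (fun t => t.1) hab)
      rw [Fin.mk.injEq] at h2
      exact Fin.ext h2
    rwa [Nat.card_eq_fintype_card, Fintype.card_fin] at h1
  · intro x hx
    rw [Set.mem_ofPred_eq] at hx
    by_contra h
    rw [not_le] at h
    have h1 : Nat.card {γ : Γ // x ≤ u γ} ≤ Nat.card (Fin (i : ℕ)) := by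
      refine Nat.card_le_card_of_injective
        (fun γ : {γ : Γ // x ≤ u γ} => (⟨(e.symm γ.1 : Fin (Nat.card Γ)), by
          by_contra h3
          rw [not_lt] at h3
          have h4 := hanti i (e.symm γ.1) h3
          rw [Equiv.apply_symm_apply] at h4
          linarith [γ.2]⟩ : Fin (i : ℕ))) ?_
      intro a b hab
      rw [Fin.mk.injEq] at hab
      exact Subtype.ext (e.symm.injective (Fin.ext hab))
    rw [Nat.card_eq_fintype_card (α := Fin (i : ℕ)), Fintype.card_fin] at h1
    omega

theorem sum_top {Γ : Type} [Fintype Γ] (u : Γ → ℝ) (φ : ℝ → ℝ) :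
    ∑ i ∈ range (Nat.card Γ), φ (top u i) = ∑ γ, φ (u γ) := by
  obtain ⟨e, he⟩ := exists_enum u
  rw [← Fin.sum_univ_eq_sum_range (fun i => φ (top u i)), ← e.sum_comp]
  exact Finset.sum_congr rfl fun i _ => by rw [he]

theorem top_zero {Γ : Type} [Finite Γ] (u : Γ → ℝ) {i : ℕ} (h : Nat.card Γ ≤ i) :
    top u i = 0 := by
  unfold top
  rw [top_set_empty u i (by omega), Real.sSup_empty]

section perm
variable {V : Type} [Fintype V] [DecidableEq V]

omit [DecidableEq V] in
theorem card_cnt (P : V → Prop) : (Nat.card {w : V // P w} : ℝ) = cnt P := by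
  classical
  rw [Nat.card_eq_fintype_card, Fintype.card_subtype, cnt_eq, Finset.sum_boole]

omit [DecidableEq V] in
theorem frac_cy (g : Perm V) (w : V) :
    Pool.Agent.TH268.PD.frac g (cyOf g w) = len g w / nn V := by
  unfold Pool.Agent.TH268.PD.frac nn
  rw [card_cnt]
  congr 1
  unfold len
  refine cnt_congr fun v => ?_
  have h : cyOf g v = cyOf g w ↔ g.SameCycle v w := by
    unfold cyOf
    exact Quotient.eq (r := Perm.SameCycle.setoid g)
  rw [h]
  exact ⟨fun h => h.symm, fun h => h.symm⟩

theorem sum_frac [Nonempty V] (g : Perm V) [Fintype (Cyc g)] (K : ℝ) :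
    ∑ γ : Cyc g, (open Classical in if K / nn V ≤ Pool.Agent.TH268.PD.frac g γ then
      Pool.Agent.TH268.PD.frac g γ else 0) = frac K g := by
  classical
  have hN : (0 : ℝ) < nn V := by
    unfold nn
    exact_mod_cast Fintype.card_pos
  have h1 : ∀ γ : Cyc g, (if K / nn V ≤ Pool.Agent.TH268.PD.frac g γ then
      Pool.Agent.TH268.PD.frac g γ else 0) = ∑ w : V, if γ = cyOf g w then
        (if K ≤ len g w then (1 : ℝ) / nn V else 0) else 0 := by
    intro γ
    have h2 : Pool.Agent.TH268.PD.frac g γ = ∑ w : V, if γ = cyOf g w then (1 : ℝ) / nn V else 0 := by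
      unfold Pool.Agent.TH268.PD.frac
      rw [card_cnt, cnt_eq, Finset.sum_div]
      refine Finset.sum_congr rfl fun w _ => ?_
      by_cases h : cyOf g w = γ
      · rw [if_pos h, if_pos h.symm]; rfl
      · rw [if_neg h, if_neg (fun h' => h h'.symm), zero_div]
    have h3 : ∀ w : V, γ = cyOf g w → (K / nn V ≤ Pool.Agent.TH268.PD.frac g γ ↔ K ≤ len g w) := by
      intro w hw
      rw [hw, frac_cy, div_le_div_iff_of_pos_right hN]
    split_ifs with h
    · rw [h2]
      refine Finset.sum_congr rfl fun w _ => ?_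
      by_cases h4 : γ = cyOf g w
      · rw [if_pos h4, if_pos h4, if_pos ((h3 w h4).1 h)]
      · rw [if_neg h4, if_neg h4]
    · symm
      refine Finset.sum_eq_zero fun w _ => ?_
      by_cases h4 : γ = cyOf g w
      · rw [if_pos h4, if_neg (fun h5 => h ((h3 w h4).2 h5))]
      · rw [if_neg h4]
  rw [Finset.sum_congr rfl fun γ _ => h1 γ, Finset.sum_comm]
  unfold frac
  rw [cnt_eq, Finset.sum_div]
  refine Finset.sum_congr rfl fun w _ => ?_
  rw [Finset.sum_ite_eq' Finset.univ (cyOf g w), if_pos (Finset.mem_univ _)]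
  split_ifs
  · rfl
  · rw [zero_div]

end perm

theorem tops : Pool.Agent.TH604.ST.S_TOP := by
  classical
  intro V _ _ _ g
  have hN : (0 : ℝ) < nn V := by
    unfold nn
    exact_mod_cast Fintype.card_pos
  have hfin : Finite (Cyc g) := Quotient.finite _
  have hft : Fintype (Cyc g) := Fintype.ofFinite _
  obtain ⟨u, hu⟩ : ∃ u, u = Pool.Agent.TH268.PD.frac g := ⟨_, rfl⟩
  have hu0 : ∀ γ, 0 ≤ u γ := fun γ => by
    rw [hu]; unfold Pool.Agent.TH268.PD.frac; positivity
  have hanti := top_anti u hu0
  have htop0 : ∀ i, 0 ≤ top u i := fun i => top_nonneg u hu0 i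
  have hS : ∀ K : ℝ, ∑ i ∈ range (Nat.card (Cyc g)),
      (if K / nn V ≤ top u i then top u i else 0) = frac K g := by
    intro K
    rw [sum_top u (fun x => if K / nn V ≤ x then x else 0), hu]
    convert sum_frac g K using 2
  have h1 : ∑ i ∈ range (Nat.card (Cyc g)), top u i ≤ 1 := by
    have h2 := hS 0
    rw [zero_div] at h2
    have h3 : ∑ i ∈ range (Nat.card (Cyc g)), top u i = frac 0 g := by
      rw [← h2]
      exact Finset.sum_congr rfl fun i _ => by rw [if_pos (htop0 i)]
    rw [h3]
    unfold frac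
    rw [div_le_one hN]
    exact cnt_le_card _
  rw [← hu]
  refine ⟨fun δ k hδ hk => ?_, fun K k hK => ?_⟩
  · have h2 := hS (δ * nn V)
    have h3 : δ * nn V / nn V = δ := by field_simp
    rw [h3] at h2
    rw [← h2]
    have h4 : ∀ i ∈ range (Nat.card (Cyc g)), k ≤ i → ¬ δ ≤ top u i := by
      intro i hi hki h5
      have h6 : ∑ j ∈ range (i + 1), δ ≤ ∑ j ∈ range (i + 1), top u j := by
        refine Finset.sum_le_sum fun j hj => ?_
        exact h5.trans (hanti (by rw [mem_range] at hj; omega))
      have h7 : ∑ j ∈ range (i + 1), top u j ≤ ∑ j ∈ range (Nat.card (Cyc g)), top u j := by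
        refine Finset.sum_le_sum_of_subset_of_nonneg ?_ fun j _ _ => htop0 j
        intro j hj
        rw [mem_range] at hj hi ⊢
        omega
      rw [Finset.sum_const, Finset.card_range, nsmul_eq_mul] at h6
      have h8 : (k : ℝ) + 1 ≤ ((i + 1 : ℕ) : ℝ) := by exact_mod_cast Nat.succ_le_succ hki
      nlinarith
    calc ∑ i ∈ range (Nat.card (Cyc g)), (if δ ≤ top u i then top u i else 0)
        ≤ ∑ i ∈ range (Nat.card (Cyc g)), (if i < k then top u i else 0) := by
          refine Finset.sum_le_sum fun i hi => ?_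
          by_cases h5 : i < k
          · rw [if_pos h5]
            split_ifs
            · exact le_rfl
            · exact htop0 i
          · rw [if_neg h5, if_neg (h4 i hi (not_lt.1 h5))]
      _ ≤ ∑ i ∈ range k, top u i := by
          rw [← Finset.sum_filter]
          refine Finset.sum_le_sum_of_subset_of_nonneg ?_ fun j _ _ => htop0 j
          intro j hj
          rw [mem_filter] at hj
          rw [mem_range]
          exact hj.2
  · rw [← hS K]
    have h2 : ∀ i, top u i ≤ (if K / nn V ≤ top u i then top u i else 0) + K / nn V := by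
      intro i
      have : 0 ≤ K / nn V := div_nonneg hK hN.le
      split_ifs with h
      · linarith
      · rw [not_le] at h; linarith
    have h3 : ∑ i ∈ range k, (if K / nn V ≤ top u i then top u i else 0) ≤
        ∑ i ∈ range (Nat.card (Cyc g)), (if K / nn V ≤ top u i then top u i else 0) := by
      have h4 : ∑ i ∈ range k, (if K / nn V ≤ top u i then top u i else 0) =
          ∑ i ∈ (range k).filter (fun i => i < Nat.card (Cyc g)),
            (if K / nn V ≤ top u i then top u i else 0) := by
        rw [Finset.sum_filter]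
        refine Finset.sum_congr rfl fun i _ => ?_
        by_cases h5 : i < Nat.card (Cyc g)
        · rw [if_pos h5]
        · rw [if_neg h5, top_zero u (not_lt.1 h5), ite_self]
      rw [h4]
      refine Finset.sum_le_sum_of_subset_of_nonneg ?_ fun j _ _ => ?_
      · intro j hj
        rw [mem_filter] at hj
        rw [mem_range]
        exact hj.2
      · split_ifs
        · exact htop0 j
        · exact le_rfl
    calc ∑ i ∈ range k, top u i ≤ ∑ i ∈ range k,
          ((if K / nn V ≤ top u i then top u i else 0) + K / nn V) :=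
          Finset.sum_le_sum fun i _ => h2 i
      _ = ∑ i ∈ range k, (if K / nn V ≤ top u i then top u i else 0) + k * K / nn V := by
          rw [Finset.sum_add_distrib, Finset.sum_const, Finset.card_range, nsmul_eq_mul,
            mul_div_assoc]
      _ ≤ _ := by linarith

end Pool.Agent.TH604.ST.Tops
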