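import Pool.Agent.TH604.ST.Stm

/-!
# Poissonised walks: derivative, monotonicity, linearity, projection (job 4229, helper692)
-/

set_option autoImplicit false

namespace Pool.Agent.TH604.ST.Api

open Finset Pool.Agent.TH604.ST

section seq

lemma smb {a : ℕ → ℝ} {B : ℝ} (ha : ∀ k, |a k| ≤ B) (s : ℝ) :
    Summable (fun k : ℕ => s ^ k / (k.factorial : ℝ) * a k) := by
  have h := (Real.summable_pow_div_factorial |s|).mul_right B
  refine Summable.of_norm_bounded h ?_
  intro k
  rw [norm_mul, norm_div, norm_pow, Real.norm_eq_abs, Real.norm_eq_abs, Real.norm_eq_abs,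
    Nat.abs_cast]
  exact mul_le_mul_of_nonneg_left (ha k) (by positivity)

/-- the exponential series with coefficients `a` -/
noncomputable def ga (a : ℕ → ℝ) (s : ℝ) : ℝ := ∑' k : ℕ, s ^ k / (k.factorial : ℝ) * a k

lemma hsm {a : ℕ → ℝ} {B : ℝ} (ha : ∀ k, |a k| ≤ B) (s : ℝ) :
    HasSum (fun k : ℕ => s ^ k / (k.factorial : ℝ) * a k) (ga a s) := (smb ha s).hasSum

lemma ga_der {a : ℕ → ℝ} {B : ℝ} (ha : ∀ k, |a k| ≤ B) (s : ℝ) :
    HasDerivAt (ga a) (ga (fun k => a (k + 1)) s) s := by
  have hB : 0 ≤ B := (abs_nonneg _).trans (ha 0)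
  have hu : ∀ R : ℝ, Summable (fun k : ℕ => ((k : ℝ) * R ^ (k - 1) / (k.factorial : ℝ)) * B) := by
    intro R
    apply Summable.mul_right
    rw [← summable_nat_add_iff 1]
    refine (Real.summable_pow_div_factorial R).congr ?_
    intro k
    rw [Nat.add_sub_cancel, Nat.factorial_succ]
    push_cast
    field_simp
  have hbd : ∀ (k : ℕ) (y R : ℝ), |y| ≤ R → ‖((k : ℝ) * y ^ (k - 1) / (k.factorial : ℝ)) * a k‖ ≤
      ((k : ℝ) * R ^ (k - 1) / (k.factorial : ℝ)) * B := by
    intro k y R hy
    have hR : 0 ≤ R := (abs_nonneg _).trans hy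
    rw [norm_mul, norm_div, norm_mul, norm_pow, Real.norm_eq_abs, Real.norm_eq_abs,
      Real.norm_eq_abs, Real.norm_eq_abs, Nat.abs_cast, Nat.abs_cast]
    apply mul_le_mul _ (ha k) (abs_nonneg _) (by positivity)
    apply div_le_div_of_nonneg_right _ (by positivity)
    apply mul_le_mul_of_nonneg_left _ (by positivity)
    exact pow_le_pow_left₀ (abs_nonneg _) hy _
  have hs : s ∈ Metric.ball (0 : ℝ) (|s| + 1) := by
    rw [mem_ball_zero_iff, Real.norm_eq_abs]
    linarith
  have h := hasDerivAt_tsum_of_isPreconnected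
    (g := fun (k : ℕ) (y : ℝ) => y ^ k / (k.factorial : ℝ) * a k)
    (g' := fun (k : ℕ) (y : ℝ) => ((k : ℝ) * y ^ (k - 1) / (k.factorial : ℝ)) * a k)
    (t := Metric.ball (0 : ℝ) (|s| + 1)) (hu (|s| + 1)) Metric.isOpen_ball
    (convex_ball 0 (|s| + 1)).isPreconnected
    (fun k y _ => ((hasDerivAt_pow k y).div_const _).mul_const _)
    (fun k y hy => hbd k y _ (by
      rw [mem_ball_zero_iff, Real.norm_eq_abs] at hy
      exact hy.le)) hs (smb ha s) hs
  have e : ∑' k : ℕ, ((k : ℝ) * s ^ (k - 1) / (k.factorial : ℝ)) * a k =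
      ga (fun k => a (k + 1)) s := by
    have hsum : Summable (fun k : ℕ => ((k : ℝ) * s ^ (k - 1) / (k.factorial : ℝ)) * a k) :=
      Summable.of_norm_bounded (hu |s|) fun k => hbd k s _ le_rfl
    rw [hsum.tsum_eq_zero_add]
    unfold ga
    rw [Nat.cast_zero, zero_mul, zero_div, zero_mul, zero_add]
    apply tsum_congr
    intro k
    rw [Nat.add_sub_cancel, Nat.factorial_succ]
    push_cast
    field_simp
  rw [e] at h
  exact h

end seq

section walk

variable {X ι : Type} [Fintype ι]

lemma poi_eq (p : ι → ℝ) (T : ι → X → X) (s : ℝ) (F : X → ℝ) (x : X) :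
    poi p T s F x = Real.exp (-s) * ga (fun k => ((stp p T)^[k] F) x) s := by
  unfold poi ga
  rw [← tsum_mul_left]
  apply tsum_congr
  intro k
  ring

lemma stp_abs {p : ι → ℝ} (T : ι → X → X) (hp : Prb p) {F : X → ℝ} {B : ℝ} (hF : ∀ x, |F x| ≤ B)
    (x : X) : |stp p T F x| ≤ B := by
  unfold stp
  refine (abs_sum_le_sum_abs _ _).trans ?_
  calc ∑ i, |p i * F (T i x)| ≤ ∑ i, p i * B := by
        apply sum_le_sum
        intro i _
        rw [abs_mul, abs_of_nonneg (hp.1 i)]
        exact mul_le_mul_of_nonneg_left (hF _) (hp.1 i)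
    _ = B := by rw [← sum_mul, hp.2, one_mul]

lemma it_abs {p : ι → ℝ} (T : ι → X → X) (hp : Prb p) {F : X → ℝ} {B : ℝ} (hF : ∀ x, |F x| ≤ B)
    (k : ℕ) : ∀ x : X, |((stp p T)^[k] F) x| ≤ B := by
  induction k with
  | zero => exact hF
  | succ k ih =>
    intro x
    rw [Function.iterate_succ_apply']
    exact stp_abs T hp ih x

lemma stp_add (p : ι → ℝ) (T : ι → X → X) (F G : X → ℝ) (a b : ℝ) :
    stp p T (fun y => a * F y + b * G y) = fun y => a * stp p T F y + b * stp p T G y := by
  funext x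
  unfold stp
  rw [mul_sum, mul_sum, ← sum_add_distrib]
  apply sum_congr rfl
  intro i _
  ring

lemma it_add (p : ι → ℝ) (T : ι → X → X) (F G : X → ℝ) (a b : ℝ) (k : ℕ) :
    (stp p T)^[k] (fun y => a * F y + b * G y) =
      fun y => a * ((stp p T)^[k] F) y + b * ((stp p T)^[k] G) y := by
  induction k with
  | zero => rfl
  | succ k ih =>
    rw [Function.iterate_succ_apply', ih, stp_add]
    funext y
    rw [Function.iterate_succ_apply', Function.iterate_succ_apply']

lemma stp_const {p : ι → ℝ} (T : ι → X → X) (hp : Prb p) (c : ℝ) :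
    stp p T (fun _ => c) = fun _ => c := by
  funext x
  unfold stp
  rw [← sum_mul, hp.2, one_mul]

lemma it_const {p : ι → ℝ} (T : ι → X → X) (hp : Prb p) (c : ℝ) (k : ℕ) :
    (stp p T)^[k] (fun _ => c) = fun _ => c := by
  induction k with
  | zero => rfl
  | succ k ih => rw [Function.iterate_succ_apply', ih, stp_const T hp]

lemma exp_sum (s : ℝ) : HasSum (fun k : ℕ => s ^ k / (k.factorial : ℝ)) (Real.exp s) := by
  rw [Real.exp_eq_exp_ℝ]
  exact NormedSpace.expSeries_div_hasSum_exp s

end walk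

theorem der : S_DER := by
  intro X ι _ p T hp F ⟨B, hB⟩ s x
  have e0 : (fun u => poi p T u F x) =
      fun u => Real.exp (-u) * ga (fun k => ((stp p T)^[k] F) x) u := by
    funext u
    exact poi_eq p T u F x
  have ha : ∀ k, |((stp p T)^[k] F) x| ≤ B := fun k => it_abs T hp hB k x
  have h1 := ga_der ha s
  have h2 : HasDerivAt (fun u : ℝ => Real.exp (-u)) (Real.exp (-s) * (-1)) s :=
    (Real.hasDerivAt_exp (-s)).comp s (hasDerivAt_neg s)
  have h3 := h2.mul h1
  rw [e0]
  refine h3.congr_deriv ?_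
  rw [poi_eq]
  have h4 : ga (fun k => ((stp p T)^[k] fun y => stp p T F y - F y) x) s =
      ga (fun k => ((stp p T)^[k + 1] F) x) s - ga (fun k => ((stp p T)^[k] F) x) s := by
    have h5 := (hsm (fun k => it_abs T hp hB (k + 1) x) s).sub (hsm ha s)
    rw [← h5.tsum_eq]
    unfold ga
    apply tsum_congr
    intro k
    have h6 : (fun y => stp p T F y - F y) = fun y => 1 * stp p T F y + (-1) * F y := by
      funext y
      ring
    beta_reduce
    rw [h6, it_add, ← mul_sub, Function.iterate_succ_apply]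
    ring
  rw [h4]
  ring

theorem mon : S_MON := by
  intro X ι _ p T hp Y hY F G ⟨B, hB⟩ ⟨C, hC⟩ hFG s hs x hx
  have h1 : ∀ (k : ℕ) (x : X), Y x → ((stp p T)^[k] F) x ≤ ((stp p T)^[k] G) x := by
    intro k
    induction k with
    | zero => exact hFG
    | succ k ih =>
      intro x hx
      rw [Function.iterate_succ_apply', Function.iterate_succ_apply']
      apply sum_le_sum
      intro i _
      exact mul_le_mul_of_nonneg_left (ih _ (hY i x hx)) (hp.1 i)
  rw [poi_eq, poi_eq]
  apply mul_le_mul_of_nonneg_left _ (Real.exp_pos _).le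
  apply (smb (fun k => it_abs T hp hB k x) s).tsum_le_tsum _ (smb (fun k => it_abs T hp hC k x) s)
  intro k
  exact mul_le_mul_of_nonneg_left (h1 k x hx) (by positivity)

theorem lin : S_LIN := by
  intro X ι _ p T hp
  refine ⟨?_, ?_, ?_⟩
  · intro F G ⟨B, hB⟩ ⟨C, hC⟩ a b s x
    rw [poi_eq, poi_eq, poi_eq]
    have h5 := ((hsm (fun k => it_abs T hp hB k x) s).mul_left a).add
      ((hsm (fun k => it_abs T hp hC k x) s).mul_left b)
    have h6 : ga (fun k => ((stp p T)^[k] fun y => a * F y + b * G y) x) s =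
        a * ga (fun k => ((stp p T)^[k] F) x) s + b * ga (fun k => ((stp p T)^[k] G) x) s := by
      rw [← h5.tsum_eq]
      unfold ga
      apply tsum_congr
      intro k
      beta_reduce
      rw [it_add]
      ring
    rw [h6]
    ring
  · intro c s x
    rw [poi_eq]
    have h1 := (exp_sum s).mul_right c
    have h2 : ga (fun k => ((stp p T)^[k] fun _ => c) x) s = Real.exp s * c := by
      rw [← h1.tsum_eq]
      unfold ga
      apply tsum_congr
      intro k
      simp only [it_const T hp]
    rw [h2, ← mul_assoc, ← Real.exp_add, neg_add_cancel, Real.exp_zero, one_mul]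
  · intro F x
    unfold poi
    rw [tsum_eq_single 0]
    · rw [neg_zero, Real.exp_zero, pow_zero, Nat.factorial_zero, Nat.cast_one, div_one, one_mul,
        one_mul]
      rfl
    · intro k hk
      rw [zero_pow hk, mul_zero, zero_div, zero_mul]

theorem prj : S_PRJ := by
  intro X X' ι _ p T T' f hf G s x
  have h : ∀ (k : ℕ) (x : X), ((stp p T)^[k] fun y => G (f y)) x = ((stp p T')^[k] G) (f x) := by
    intro k
    induction k with
    | zero =>
      intro x
      rfl
    | succ k ih =>
      intro x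
      rw [Function.iterate_succ_apply', Function.iterate_succ_apply']
      unfold stp
      apply sum_congr rfl
      intro i _
      have := ih (T i x)
      unfold stp at this
      rw [this, hf]
  unfold poi
  apply tsum_congr
  intro k
  rw [h]

end Pool.Agent.TH604.ST.Api
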