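import Pool.Agent.TH604.ST.Stm

/-!
# Mean-field perturbation of random stirring: assembly at a fixed strength
-/

set_option autoImplicit false
set_option maxHeartbeats 400000

namespace Pool.Agent.TH604.ST

open Finset Equiv Pool.Agent.W805.LR

section facts

variable {V : Type} [Fintype V] [DecidableEq V]

lemma stE_lin (J : V → V → ℝ) (t a b : ℝ) (F G : Perm V → ℝ) :
    stE J t (fun g => a * F g + b * G g) = a * stE J t F + b * stE J t G := by
  unfold stE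
  have h1 : ∑ g, stirMass J t g * (a * F g + b * G g) =
      a * ∑ g, stirMass J t g * F g + b * ∑ g, stirMass J t g * G g := by
    rw [Finset.mul_sum, Finset.mul_sum, ← Finset.sum_add_distrib]
    exact Finset.sum_congr rfl fun g _ => by ring
  rw [h1]
  ring

lemma stE_mono {J : V → V → ℝ} {t : ℝ} (hJ : ∀ g, 0 ≤ stirMass J t g) {F G : Perm V → ℝ}
    (h : ∀ g, F g ≤ G g) : stE J t F ≤ stE J t G := by
  unfold stE
  exact mul_le_mul_of_nonneg_left
    (Finset.sum_le_sum fun g _ => mul_le_mul_of_nonneg_left (h g) (hJ g)) (Real.exp_pos _).le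

lemma stE_const {J : V → V → ℝ} {t : ℝ} (h1 : stE J t (fun _ => 1) = 1) (c : ℝ) :
    stE J t (fun _ => c) = c := by
  have h2 := stE_lin J t c 0 (fun _ => 1) (fun _ => 1)
  simp only [h1, mul_one, add_zero] at h2
  exact h2

lemma nn_pos [Nonempty V] : 0 < nn V := by
  unfold nn
  exact_mod_cast Fintype.card_pos

lemma prb_unif [Nonempty V] : Prb (unif V) := by
  have hn : (0 : ℝ) < nn V := nn_pos
  refine ⟨fun i => ?_, ?_⟩
  · unfold unif
    positivity
  · unfold unif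
    rw [Finset.sum_const, Finset.card_univ, Fintype.card_prod, nsmul_eq_mul]
    have h1 : ((Fintype.card V * Fintype.card V : ℕ) : ℝ) = nn V ^ 2 := by
      unfold nn
      push_cast
      ring
    rw [h1]
    field_simp

lemma cnt_le (P : V → Prop) : cnt P ≤ nn V := by
  classical
  unfold cnt nn
  calc ∑ v, (if P v then (1 : ℝ) else 0) ≤ ∑ _v : V, (1 : ℝ) :=
        Finset.sum_le_sum fun v _ => by split_ifs <;> norm_num
    _ = (Fintype.card V : ℝ) := by simp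

lemma cnt_nonneg (P : V → Prop) : 0 ≤ cnt P := by
  classical
  unfold cnt
  exact Finset.sum_nonneg fun v _ => by split_ifs <;> norm_num

lemma frac_nonneg (s : ℝ) (g : Perm V) : 0 ≤ frac s g := by
  unfold frac
  refine div_nonneg (cnt_nonneg _) ?_
  unfold nn
  positivity

lemma frac_le_one [Nonempty V] (s : ℝ) (g : Perm V) : frac s g ≤ 1 := by
  unfold frac
  rw [div_le_one nn_pos]
  exact cnt_le _

lemma sq_le_one_of {a b : ℝ} (ha : 0 ≤ a) (ha1 : a ≤ 1) (hb : 0 ≤ b) (hb1 : b ≤ 1) :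
    (a - b) ^ 2 ≤ 1 := by
  rw [sq_le_one_iff_abs_le_one, abs_le]
  constructor <;> linarith

lemma bdd_of {X : Type} {F : X → ℝ} {B : ℝ} (h0 : ∀ x, 0 ≤ F x) (h1 : ∀ x, F x ≤ B) : Bdd F :=
  ⟨B, fun x => by rw [abs_of_nonneg (h0 x)]; exact h1 x⟩

lemma bdd_sq {X : Type} {F : X → ℝ} (h : Bdd F) : Bdd (fun x => F x ^ 2) := by
  obtain ⟨B, hB⟩ := h
  refine ⟨B ^ 2, fun x => ?_⟩
  rw [abs_of_nonneg (sq_nonneg _)]
  exact sq_le_sq' (by have := abs_le.1 (hB x); linarith) (abs_le.1 (hB x)).2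

lemma bdd_lin {X : Type} {F G : X → ℝ} (hF : Bdd F) (hG : Bdd G) (a b : ℝ) :
    Bdd (fun x => a * F x + b * G x) := by
  obtain ⟨B, hB⟩ := hF
  obtain ⟨C, hC⟩ := hG
  refine ⟨|a| * B + |b| * C, fun x => (abs_add_le _ _).trans ?_⟩
  rw [abs_mul, abs_mul]
  exact add_le_add (mul_le_mul_of_nonneg_left (hB x) (abs_nonneg _))
    (mul_le_mul_of_nonneg_left (hC x) (abs_nonneg _))

lemma bdd_const {X : Type} (c : ℝ) : Bdd (fun _ : X => c) := ⟨|c|, fun _ => le_rfl⟩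

lemma bdd_sub_sq {X : Type} {F G : X → ℝ} (hF : Bdd F) (hG : Bdd G) :
    Bdd (fun x => (F x - G x) ^ 2) := by
  obtain ⟨B, hB⟩ := hF
  obtain ⟨C, hC⟩ := hG
  refine ⟨(B + C) ^ 2, fun x => ?_⟩
  show |(F x - G x) ^ 2| ≤ (B + C) ^ 2
  rw [abs_of_nonneg (sq_nonneg _), ← sq_abs (F x - G x)]
  exact pow_le_pow_left₀ (abs_nonneg _) ((abs_sub _ _).trans (add_le_add (hB x) (hC x))) 2

lemma bdd_comp {X X' : Type} {F : X' → ℝ} (hF : Bdd F) (f : X → X') :
    Bdd (fun x => F (f x)) := by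
  obtain ⟨B, hB⟩ := hF
  exact ⟨B, fun x => hB (f x)⟩

lemma bdd_frac [Nonempty V] (s : ℝ) : Bdd (frac s : Perm V → ℝ) :=
  bdd_of (B := 1) (frac_nonneg s) (frac_le_one s)

end facts

section core

variable {V : Type} [Fintype V] [DecidableEq V] [Nonempty V]

lemma bdd_mass (hms : S_MS) {h : ℝ} (h0 : 0 < h) : Bdd (mass h : Setoid V → ℝ) := by
  refine bdd_of (B := 1) (fun R => ?_) (fun R => ?_)
  · obtain ⟨_, _, _, _, _, h6, _⟩ := hms V R h h0
    exact h6
  · obtain ⟨_, _, _, _, _, _, h7⟩ := hms V R h h0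
    exact h7

/-- Monotonicity without invariant set. -/
lemma poi_mono (hmon : S_MON) {X : Type} {T : V × V → X → X} {F G : X → ℝ} (hF : Bdd F)
    (hG : Bdd G) (h : ∀ x, F x ≤ G x) {s : ℝ} (hs : 0 ≤ s) (x : X) :
    poi (unif V) T s F x ≤ poi (unif V) T s G x :=
  hmon X (V × V) (unif V) T prb_unif (fun _ => True) (fun _ _ _ => trivial) F G hF hG
    (fun x _ => h x) s hs x trivial

lemma split1 (hmon : S_MON) (hlin : S_LIN) (hprj : S_PRJ) (hcent : S_CENT) (hvj : S_VJ)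
    (hms : S_MS) (J : V → V → ℝ) (hJ : ∀ x y, 0 ≤ J x y) {lam t h : ℝ} (s q : ℝ) (h0 : 0 < h)
    (ht : 0 ≤ t) (hlam : 0 ≤ lam) :
    stE (fun x y => J x y + lam / nn V) t (fun g => (frac s g - q) ^ 2) ≤
      2 * stE J t (fun g => poi (unif V) Tp (lam * t * nn V / 2)
        (fun z => (mass h z.2 - frac s z.1) ^ 2) (g, Perm.SameCycle.setoid g)) +
      2 * stE J t (fun g => poi (unif V) Tj (lam * t * nn V / 2)
        (fun R => (mass h R - q) ^ 2) (Perm.SameCycle.setoid g)) := by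
  have hn : (0 : ℝ) < nn V := nn_pos
  have hS : 0 ≤ lam * t * nn V / 2 := by positivity
  rw [hcent, ← stE_lin]
  refine stE_mono (hvj V J t hJ ht).2.1 fun g => ?_
  have e1 := hprj (Perm V × Setoid V) (Perm V) (V × V) (unif V) Tp Tg Prod.fst
    (fun i x => rfl) (fun g => (frac s g - q) ^ 2) (lam * t * nn V / 2)
    (g, Perm.SameCycle.setoid g)
  have e2 := hprj (Perm V × Setoid V) (Setoid V) (V × V) (unif V) Tp Tj Prod.snd
    (fun i x => rfl) (fun R => (mass h R - q) ^ 2) (lam * t * nn V / 2)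
    (g, Perm.SameCycle.setoid g)
  simp only at e1 e2
  rw [← e1, ← e2]
  have c1 : Bdd (fun z : Perm V × Setoid V => frac s z.1) := bdd_comp (bdd_frac s) Prod.fst
  have c2 : Bdd (fun z : Perm V × Setoid V => mass h z.2) := bdd_comp (bdd_mass hms h0) Prod.snd
  have c3 : Bdd (fun _ : Perm V × Setoid V => q) := bdd_const q
  have b1 : Bdd (fun z : Perm V × Setoid V => (frac s z.1 - q) ^ 2) := bdd_sub_sq c1 c3
  have b2 : Bdd (fun z : Perm V × Setoid V => (mass h z.2 - q) ^ 2) := bdd_sub_sq c2 c3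
  have b3 : Bdd (fun z : Perm V × Setoid V => (mass h z.2 - frac s z.1) ^ 2) :=
    bdd_sub_sq c2 c1
  have e3 := (hlin (Perm V × Setoid V) (V × V) (unif V) Tp prb_unif).1
    (fun z : Perm V × Setoid V => (mass h z.2 - frac s z.1) ^ 2)
    (fun z : Perm V × Setoid V => (mass h z.2 - q) ^ 2) b3 b2 2 2 (lam * t * nn V / 2)
    (g, Perm.SameCycle.setoid g)
  refine le_trans ?_ (le_of_eq e3)
  refine poi_mono hmon b1 (bdd_lin b3 b2 2 2) (fun z => ?_) hS _
  nlinarith [sq_nonneg ((mass h z.2 - frac s z.1) + (mass h z.2 - q))]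

/-- Second moment about `q`. -/
lemma poiSq (hlin : S_LIN) (hms : S_MS) (hvm : S_VM) (R : Setoid V) {h S : ℝ} (q : ℝ)
    (h0 : 0 < h) (hS : 0 ≤ S) :
    poi (unif V) Tj S (fun Q => (mass h Q - q) ^ 2) R ≤
      2 * S * (1 / (nn V * h)) ^ 2 + (poi (unif V) Tj S (mass h) R - q) ^ 2 := by
  have hl := hlin (Setoid V) (V × V) (unif V) Tj prb_unif
  have b1 := bdd_mass (V := V) hms h0
  have e1 : (fun Q : Setoid V => (mass h Q - q) ^ 2) =
      fun Q => 1 * (mass h Q ^ 2) + 1 * ((-(2 * q)) * mass h Q + 1 * q ^ 2) := by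
    funext Q
    ring
  rw [e1, hl.1 (fun Q => mass h Q ^ 2) (fun Q => (-(2 * q)) * mass h Q + 1 * q ^ 2) (bdd_sq b1)
    (bdd_lin b1 (bdd_const _) _ _), hl.1 (fun Q => mass h Q) (fun _ => q ^ 2) b1 (bdd_const _),
    hl.2.1]
  have h2 := hvm V R h S h0 hS
  have e2 : poi (unif V) Tj S (fun Q => mass h Q) R = poi (unif V) Tj S (mass h) R := rfl
  rw [e2]
  nlinarith [h2]

/-- Deviation of the mean from `m`. -/
lemma devi (hmon : S_MON) (hlin : S_LIN) (hms : S_MS) (hburg : S_BURG) (R : Setoid V)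
    {h S m δ M1 M2 : ℝ} (h0 : 0 < h) (hS : 0 ≤ S) (hm0 : 0 ≤ m) (hm1 : m ≤ 1) (hδ : 0 < δ)
    (hM1 : m ≤ M1) (hM2 : M2 ≤ m + δ) :
    (poi (unif V) Tj S (mass h) R - m) ^ 2 ≤ 4 * (δ ^ 2 +
      (Real.exp (2 * S / (nn V * h)) * (mass (h + 2 * S / nn V * m) R - M1)) ^ 2 +
      (Real.exp (2 * S / (nn V * h)) * (mass (h + 2 * S / nn V * (m + δ)) R - M2)) ^ 2 +
      (Real.exp (2 * S / (nn V * h)) * (S * (2 / (nn V * h) * (√(2 * S) / (nn V * h)) +
        2 / (nn V ^ 2 * h ^ 2)))) ^ 2) := by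
  have hn : (0 : ℝ) < nn V := nn_pos
  obtain ⟨G, hG⟩ : ∃ G, G = Real.exp (2 * S / (nn V * h)) := ⟨_, rfl⟩
  obtain ⟨E, hE⟩ : ∃ E, E = S * (2 / (nn V * h) * (√(2 * S) / (nn V * h)) +
        2 / (nn V ^ 2 * h ^ 2)) := ⟨_, rfl⟩
  obtain ⟨P, hP⟩ : ∃ P, P = poi (unif V) Tj S (mass h) R := ⟨_, rfl⟩
  have hG0 : 0 < G := by rw [hG]; exact Real.exp_pos _
  have hE0 : 0 ≤ E := by rw [hE]; positivity
  have hlow := (hburg V R h S m |mass (h + 2 * S / nn V * m) R - M1| h0 hS hm0 hm1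
    (abs_nonneg _)).1 (by
      have := neg_abs_le (mass (h + 2 * S / nn V * m) R - M1)
      linarith)
  have hup : P ≤ m + δ + G * (|mass (h + 2 * S / nn V * (m + δ)) R - M2| + E) := by
    by_cases hc : m + δ ≤ 1
    · have h1 := (hburg V R h S (m + δ) |mass (h + 2 * S / nn V * (m + δ)) R - M2| h0 hS
        (by linarith) hc (abs_nonneg _)).2 (by
          have := le_abs_self (mass (h + 2 * S / nn V * (m + δ)) R - M2)
          linarith)
      rw [← hP, ← hG, ← hE] at h1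
      exact h1
    · have h1 : P ≤ 1 := by
        rw [hP, ← (hlin (Setoid V) (V × V) (unif V) Tj prb_unif).2.1 1 S R]
        refine poi_mono hmon (bdd_mass hms h0) (bdd_const 1) (fun Q => ?_) hS R
        obtain ⟨_, _, _, _, _, _, h7⟩ := hms V Q h h0
        exact h7
      have h2 : 0 ≤ G * (|mass (h + 2 * S / nn V * (m + δ)) R - M2| + E) := by positivity
      linarith [not_le.1 hc]
  rw [← hP, ← hG, ← hE] at hlow
  rw [← hP, ← hG, ← hE]
  obtain ⟨u1, hu1⟩ : ∃ u, u = mass (h + 2 * S / nn V * m) R - M1 := ⟨_, rfl⟩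
  obtain ⟨u2, hu2⟩ : ∃ u, u = mass (h + 2 * S / nn V * (m + δ)) R - M2 := ⟨_, rfl⟩
  rw [← hu1] at hlow ⊢
  rw [← hu2] at hup ⊢
  have a1 : |P - m| ≤ δ + G * |u1| + G * |u2| + G * E := by
    have p1 : 0 ≤ G * |u1| := by positivity
    have p2 : 0 ≤ G * |u2| := by positivity
    have p3 : 0 ≤ G * E := by positivity
    rw [abs_le]
    constructor <;> nlinarith
  have a2 : (P - m) ^ 2 ≤ (δ + G * |u1| + G * |u2| + G * E) ^ 2 := by
    rw [← sq_abs (P - m)]
    exact pow_le_pow_left₀ (abs_nonneg _) a1 2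
  refine a2.trans ?_
  have a3 : (G * u1) ^ 2 = (G * |u1|) ^ 2 := by rw [mul_pow, mul_pow, sq_abs]
  have a4 : (G * u2) ^ 2 = (G * |u2|) ^ 2 := by rw [mul_pow, mul_pow, sq_abs]
  rw [a3, a4]
  nlinarith [sq_nonneg (δ - G * |u1|), sq_nonneg (δ - G * |u2|), sq_nonneg (δ - G * E),
    sq_nonneg (G * |u1| - G * |u2|), sq_nonneg (G * |u1| - G * E), sq_nonneg (G * |u2| - G * E)]

/-- Variance of the mass function of the cycles. -/
lemma varM (hvj : S_VJ) (hbdg : S_BDG) (J : V → V → ℝ) (hJ : ∀ x y, 0 ≤ J x y) {t θ : ℝ}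
    (ht : 0 ≤ t) (hθ : 0 < θ) :
    stE J t (fun g => (mass θ (Perm.SameCycle.setoid g) -
      stE J t (fun g => mass θ (Perm.SameCycle.setoid g))) ^ 2) ≤
      2 * (t * rate J) * (1 / (nn V * θ)) ^ 2 := by
  have hn : (0 : ℝ) < nn V := nn_pos
  obtain ⟨h1, _, h3⟩ := hvj V J t hJ ht
  have h4 := h3 (fun g => mass θ (Perm.SameCycle.setoid g)) (1 / (nn V * θ)) (by positivity)
    (fun x y g => (hbdg V θ hθ).2 x y g)
  obtain ⟨M, hM⟩ : ∃ M, M = stE J t (fun g => mass θ (Perm.SameCycle.setoid g)) := ⟨_, rfl⟩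
  rw [← hM] at h4 ⊢
  have e1 : (fun g : Perm V => (mass θ (Perm.SameCycle.setoid g) - M) ^ 2) =
      fun g => 1 * (mass θ (Perm.SameCycle.setoid g) ^ 2) +
        1 * ((-(2 * M)) * mass θ (Perm.SameCycle.setoid g) + M ^ 2 * 1) := by
    funext g
    ring
  rw [e1, stE_lin, stE_lin, h1, ← hM]
  nlinarith [h4]

end core

end Pool.Agent.TH604.ST
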