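import Pool.Agent.TH604.ST.Stm

/-!
# Mean-field perturbation of random stirring: convergence on the nearest neighbour torus, statements
-/

set_option autoImplicit false

namespace Pool.Agent.TH604.ST

open Finset Equiv Pool.Agent.W805.LR

/-- Comparison of two systems of rates. -/
def S_CMP : Prop := ∀ (V : Type) [Fintype V] [DecidableEq V] (J J' : V → V → ℝ) (t β : ℝ)
  (F : Perm V → ℝ), (∀ x y, 0 ≤ J x y) → (∀ x y, 0 ≤ J' x y) → 0 ≤ t → 0 ≤ β →
  (∀ x y g, |F (swap x y * g) - F g| ≤ β) →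
  |stE J t F - stE J' t F| ≤ t * β * ∑ x, ∑ y, |J x y - J' x y| / 2

/-- Independent copies. -/
def S_CPY : Prop := ∀ (A B : Type) [Fintype A] [DecidableEq A] [Nonempty A] [Fintype B]
  [DecidableEq B] [Nonempty B] (J : A → A → ℝ) (t : ℝ) (φ : ℝ → ℝ),
  stE (fun u v : A × B => if u.2 = v.2 then J u.1 v.1 else 0) t
      (fun g => (∑ v, φ (len g v)) / nn (A × B)) =
    stE J t (fun g => (∑ v, φ (len g v)) / nn A)

/-- Relabelling. -/
def S_RLB : Prop := ∀ (V W : Type) [Fintype V] [DecidableEq V] [Fintype W] [DecidableEq W]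
  (e : V ≃ W) (J : W → W → ℝ) (t : ℝ) (φ : ℝ → ℝ),
  stE (fun x y : V => J (e x) (e y)) t (fun g => (∑ v, φ (len g v)) / nn V) =
    stE J t (fun g => (∑ v, φ (len g v)) / nn W)

/-- Rate one on the nearest neighbour edges of the torus. -/
def nrs (d L : ℕ) (x y : Fin d → ZMod L) : ℝ :=
  ∑ i, ((if y = x + Pi.single i 1 then 1 else 0) + (if x = y + Pi.single i 1 then 1 else 0))

/-- A torus of side `L M` consists of copies of the torus of side `L`, up to few edges. -/
def S_GEO : Prop := ∀ (d L M N : ℕ) [NeZero L] [NeZero M] [NeZero N], N = L * M →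
  ∃ e : (Fin d → ZMod N) ≃ (Fin d → ZMod L) × (Fin d → ZMod M),
    ∑ x, ∑ y, |nrs d N x y - (if (e x).2 = (e y).2 then nrs d L (e x).1 (e y).1 else 0)| / 2 ≤
      2 * d * (N : ℝ) ^ d / L

end Pool.Agent.TH604.ST
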