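import Pool.Agent.TH604.ST.Asm6
import Pool.Agent.TH604.ST.Stm3

/-!
# Mean-field perturbation of random stirring: convergence of the roots
-/

set_option autoImplicit false
set_option maxHeartbeats 400000

namespace Pool.Agent.TH604.ST

open Finset Equiv Pool.Agent.W805.LR MeasureTheory Filter Topology

/-- The function of the fixed point equation. -/
noncomputable def Hf {V : Type} [Fintype V] [DecidableEq V] (J : V → V → ℝ) (t y : ℝ) : ℝ :=
  stE J t (fun g => (∑ v, (1 - Real.exp (-(y * len g v)))) / nn V)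

section hf

variable {V : Type} [Fintype V] [DecidableEq V] [Nonempty V]

omit [Nonempty V] in
lemma Hf_mass (J : V → V → ℝ) (t y : ℝ) :
    Hf J t y = stE J t (fun g => mass y (Perm.SameCycle.setoid g)) := by
  unfold Hf
  congr 1

lemma Hf_ww (J : V → V → ℝ) (hJ : ∀ x y, 0 ≤ J x y) {t : ℝ} (ht : 0 ≤ t) (y : ℝ) :
    Hf J t y = 1 - ∑ i : Perm V × V, ww J t i * Real.exp (-(y * len i.1 i.2)) := by
  rw [Hf_mass, stE_mass p_vj p_bdg J hJ ht]

lemma Hf_lt (J : V → V → ℝ) (hJ : ∀ x y, 0 ≤ J x y) {t : ℝ} (ht : 0 ≤ t) {y z : ℝ}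
    (hyz : y < z) : Hf J t y < Hf J t z := by
  rw [Hf_ww J hJ ht, Hf_ww J hJ ht]
  have hww := ww_nonneg p_vj J hJ ht
  have hws := ww_sum p_vj J hJ ht
  have h3 : ∑ i : Perm V × V, ww J t i * Real.exp (-(z * len i.1 i.2)) <
      ∑ i : Perm V × V, ww J t i * Real.exp (-(y * len i.1 i.2)) := by
    refine Finset.sum_lt_sum (fun i _ => ?_) ?_
    · refine mul_le_mul_of_nonneg_left (Real.exp_le_exp.2 ?_) (hww i)
      have := one_le_len p_jn p_bdg i.1 i.2
      nlinarith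
    · by_contra hno
      push Not at hno
      have h5 : ∀ i : Perm V × V, ww J t i = 0 := by
        intro i
        by_contra hi
        have hi0 : 0 < ww J t i := lt_of_le_of_ne (hww i) (Ne.symm hi)
        have h6 := hno i (Finset.mem_univ i)
        have h7 : Real.exp (-(z * len i.1 i.2)) < Real.exp (-(y * len i.1 i.2)) := by
          refine Real.exp_lt_exp.2 ?_
          have := one_le_len p_jn p_bdg i.1 i.2
          nlinarith
        nlinarith
      simp only [h5, Finset.sum_const_zero] at hws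
      exact zero_ne_one hws
  linarith

lemma Hf_root (J : V → V → ℝ) (hJ : ∀ x y, 0 ≤ J x y) {t a q : ℝ} (ht : 0 ≤ t)
    (hq : q ∈ Rts J t a) : Hf J t (a * q) = q := by
  rw [Rts_eq] at hq
  rw [Hf_ww J hJ ht]
  exact hq.symm

lemma Hf_conc (J : V → V → ℝ) (hJ : ∀ x y, 0 ≤ J x y) {t a q z : ℝ} (ht : 0 ≤ t)
    (hq : q ∈ Rts J t a) (hz : 0 ≤ z) (hzq : z ≤ q) (hq0 : 0 < q) : z ≤ Hf J t (a * z) := by
  have hww := ww_nonneg p_vj J hJ ht
  have hws := ww_sum p_vj J hJ ht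
  have hqe := Hf_root J hJ ht hq
  rw [Hf_ww J hJ ht] at hqe ⊢
  obtain ⟨r, hr⟩ : ∃ r, r = z / q := ⟨_, rfl⟩
  have hr0 : 0 ≤ r := by rw [hr]; positivity
  have hr1 : r ≤ 1 := by rw [hr, div_le_one hq0]; exact hzq
  have hrq : r * q = z := by rw [hr]; field_simp
  have h9 : ∀ i : Perm V × V, ww J t i * Real.exp (-((a * z) * len i.1 i.2)) ≤
      r * (ww J t i * Real.exp (-(a * q * len i.1 i.2))) + (1 - r) * ww J t i := by
    intro i
    have e1 : -((a * z) * len i.1 i.2) = r * (-(a * q * len i.1 i.2)) + (1 - r) * 0 := by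
      rw [← hrq]
      ring
    have e2 := convexOn_exp.2 (Set.mem_univ (-(a * q * len i.1 i.2))) (Set.mem_univ (0 : ℝ))
      hr0 (sub_nonneg.2 hr1) (by ring)
    simp only [smul_eq_mul] at e2
    rw [← e1, Real.exp_zero] at e2
    have e3 := mul_le_mul_of_nonneg_left e2 (hww i)
    linarith
  have h10 := Finset.sum_le_sum fun i (_ : i ∈ (Finset.univ : Finset (Perm V × V))) => h9 i
  rw [Finset.sum_add_distrib, ← Finset.mul_sum, ← Finset.mul_sum, hws] at h10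
  have h11 : ∑ i : Perm V × V, ww J t i * Real.exp (-(a * q * len i.1 i.2)) = 1 - q := by
    linarith
  rw [h11] at h10
  nlinarith

end hf

/-- Comparison of the largest roots of two systems. -/
lemma root_cmp {V W : Type} [Fintype V] [DecidableEq V] [Nonempty V] [Fintype W] [DecidableEq W]
    [Nonempty W] (J : V → V → ℝ) (hJ : ∀ x y, 0 ≤ J x y) (J' : W → W → ℝ)
    (hJ' : ∀ x y, 0 ≤ J' x y) {t A a m q δ ε h : ℝ} (ht : 0 ≤ t) (ha : 0 < a) (haA : a ≤ A)
    (hm : IsGreatest (Rts J t a) m) (hq : IsGreatest (Rts J' t a) q) (hδ : 0 < δ)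
    (hh : h = Real.exp (-A) * a ^ 3 * δ ^ 2 / 2)
    (hcmp : ∀ y, h ≤ y → Hf J' t y ≤ Hf J t y + ε) (hε : 0 ≤ ε) (hεδ : ε ≤ δ)
    (haε : a * ε < h) : q ≤ m + 2 * δ := by
  by_contra hc
  push Not at hc
  have h0 : 0 < h := by rw [hh]; positivity
  obtain ⟨hm0, hm1, _⟩ := root_bd Root.rt2 p_jn p_vj p_bdg J hJ ht ha.le hm
  have h1 := mbar_up Root.root p_jn p_vj p_bdg J hJ ht ha haA hm hδ h0 (le_of_eq hh)
  rw [← Hf_mass] at h1
  have h2 := hcmp (h + a * (m + δ)) (by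
    have : 0 ≤ a * (m + δ) := by positivity
    linarith)
  have h3 : Hf J' t (h + a * (m + δ)) ≤ m + δ + ε := by linarith
  have hq0 : 0 < q := by linarith
  have h4 := Hf_conc J' hJ' ht hq.1 (z := m + δ + ε) (by positivity) (by linarith) hq0
  have h5 : a * (m + δ + ε) < h + a * (m + δ) := by nlinarith
  have h6 := Hf_lt J' hJ' ht h5
  linarith

/-- The torus of side `L M` and the torus of side `L`. -/
lemma torus_cmp (hcmp : S_CMP) (hcpy : S_CPY) (hrlb : S_RLB) (hgeo : S_GEO) (d L M N : ℕ)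
    [NeZero L] [NeZero M] [NeZero N] (hN : N = L * M) {t : ℝ} (ht : 0 ≤ t) {y : ℝ}
    (hy : 0 < y) : |Hf (nrs d N) t y - Hf (nrs d L) t y| ≤ 2 * d * t / (y * L) := by
  obtain ⟨e, he⟩ := hgeo d L M N hN
  obtain ⟨J', hJ'⟩ : ∃ J' : (Fin d → ZMod N) → (Fin d → ZMod N) → ℝ,
    J' = fun x z => if (e x).2 = (e z).2 then nrs d L (e x).1 (e z).1 else 0 := ⟨_, rfl⟩
  have h1 : Hf J' t y = Hf (nrs d L) t y := by
    unfold Hf
    rw [← hcpy (Fin d → ZMod L) (Fin d → ZMod M) (nrs d L) t (fun x => 1 - Real.exp (-(y * x))),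
      ← hrlb (Fin d → ZMod N) ((Fin d → ZMod L) × (Fin d → ZMod M)) e
        (fun u v => if u.2 = v.2 then nrs d L u.1 v.1 else 0) t
        (fun x => 1 - Real.exp (-(y * x))), hJ']
  have hnn : ∀ (K : ℕ) [NeZero K] (x z : Fin d → ZMod K), 0 ≤ nrs d K x z := by
    intro K _ x z
    unfold nrs
    exact Finset.sum_nonneg fun i _ => by split_ifs <;> norm_num
  have hcard : nn (Fin d → ZMod N) = (N : ℝ) ^ d := by
    unfold nn
    rw [Fintype.card_fun, ZMod.card, Fintype.card_fin]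
    push_cast
    rfl
  have hNp : (0 : ℝ) < N := by exact_mod_cast Nat.pos_of_ne_zero (NeZero.ne N)
  have hLp : (0 : ℝ) < L := by exact_mod_cast Nat.pos_of_ne_zero (NeZero.ne L)
  have h2 := hcmp (Fin d → ZMod N) (nrs d N) J' t (1 / (nn (Fin d → ZMod N) * y))
    (fun g => mass y (Perm.SameCycle.setoid g)) (hnn N) (fun x z => by
      rw [hJ']
      show 0 ≤ if (e x).2 = (e z).2 then nrs d L (e x).1 (e z).1 else 0
      split_ifs
      · exact hnn L _ _
      · exact le_rfl) ht (by rw [hcard]; positivity)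
    (fun x z g => (p_bdg (Fin d → ZMod N) y hy).2 x z g)
  rw [← Hf_mass, ← Hf_mass, h1] at h2
  refine h2.trans ?_
  rw [hcard]
  have h3 : ∑ x, ∑ z, |nrs d N x z - J' x z| / 2 ≤ 2 * d * (N : ℝ) ^ d / L := by
    rw [hJ']
    exact he
  calc t * (1 / ((N : ℝ) ^ d * y)) * ∑ x, ∑ z, |nrs d N x z - J' x z| / 2
      ≤ t * (1 / ((N : ℝ) ^ d * y)) * (2 * d * (N : ℝ) ^ d / L) :=
        mul_le_mul_of_nonneg_left h3 (by positivity)
    _ = 2 * d * t / (y * L) := by field_simp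

/-- The largest roots of two large tori are close. -/
lemma torus_root (hcmp : S_CMP) (hcpy : S_CPY) (hrlb : S_RLB) (hgeo : S_GEO) (d : ℕ)
    {t κ Λ δ : ℝ} (ht : 0 < t) (hκ : 0 < κ) (hκΛ : κ ≤ Λ) (hδ : 0 < δ) :
    ∃ L₀ : ℕ, ∀ (L L' : ℕ) [NeZero L] [NeZero L'], L₀ ≤ L → L₀ ≤ L' →
      ∀ lam, κ ≤ lam → lam ≤ Λ → ∀ m q, IsGreatest (Rts (nrs d L) t (lam * t)) m →
        IsGreatest (Rts (nrs d L') t (lam * t)) q → q ≤ m + 2 * δ := by
  obtain ⟨h, hh⟩ : ∃ h, h = Real.exp (-(Λ * t)) * (κ * t) ^ 3 * δ ^ 2 / 2 := ⟨_, rfl⟩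
  have h0 : 0 < h := by rw [hh]; positivity
  have hΛ : 0 < Λ := lt_of_lt_of_le hκ hκΛ
  -- the comparison error is `e0 = 4 d t / (h L)`
  obtain ⟨b, hb⟩ : ∃ b, b = min δ (h / (2 * (Λ * t))) := ⟨_, rfl⟩
  have hb0 : 0 < b := by rw [hb]; exact lt_min hδ (by positivity)
  have hbδ : b ≤ δ := by rw [hb]; exact min_le_left _ _
  have hbh : b * (2 * (Λ * t)) ≤ h := by
    have : b ≤ h / (2 * (Λ * t)) := by rw [hb]; exact min_le_right _ _
    rwa [le_div_iff₀ (by positivity)] at this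
  refine ⟨⌈4 * d * t / (h * b)⌉₊ + 1, ?_⟩
  intro L L' _ _ hL hL' lam hl hl2 m q hm hq
  have hl0 : 0 < lam := lt_of_lt_of_le hκ hl
  have hnn : ∀ (K : ℕ) [NeZero K] (x z : Fin d → ZMod K), 0 ≤ nrs d K x z := by
    intro K _ x z
    unfold nrs
    exact Finset.sum_nonneg fun i _ => by split_ifs <;> norm_num
  have hLp : (0 : ℝ) < L := by exact_mod_cast Nat.pos_of_ne_zero (NeZero.ne L)
  have hLp' : (0 : ℝ) < L' := by exact_mod_cast Nat.pos_of_ne_zero (NeZero.ne L')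
  have hne : NeZero (L * L') := ⟨Nat.mul_ne_zero (NeZero.ne L) (NeZero.ne L')⟩
  have hbound : ∀ K : ℕ, ⌈4 * d * t / (h * b)⌉₊ + 1 ≤ K → 4 * d * t / (h * b) ≤ K := by
    intro K hK
    have h1 := Nat.le_ceil (4 * d * t / (h * b))
    have h2 : ((⌈4 * d * t / (h * b)⌉₊ + 1 : ℕ) : ℝ) ≤ K := by exact_mod_cast hK
    push_cast at h2
    linarith
  have hLb := hbound L hL
  have hLb' := hbound L' hL'
  rw [div_le_iff₀ (by positivity)] at hLb hLb'
  obtain ⟨h', hh'⟩ : ∃ h', h' = Real.exp (-(Λ * t)) * (lam * t) ^ 3 * δ ^ 2 / 2 := ⟨_, rfl⟩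
  have hhh' : h ≤ h' := by
    rw [hh, hh']
    have : (κ * t) ^ 3 ≤ (lam * t) ^ 3 :=
      pow_le_pow_left₀ (by positivity) (mul_le_mul_of_nonneg_right hl ht.le) 3
    gcongr
  refine root_cmp (nrs d L) (hnn L) (nrs d L') (hnn L') (A := Λ * t) (ε := b) ht.le
    (mul_pos hl0 ht) (mul_le_mul_of_nonneg_right hl2 ht.le) hm hq hδ hh' ?_ hb0.le hbδ ?_
  · intro y hy
    have hy0 : 0 < y := lt_of_lt_of_le h0 (hhh'.trans hy)
    have h1 := torus_cmp hcmp hcpy hrlb hgeo d L L' (L * L') rfl ht.le hy0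
    have h2 := torus_cmp hcmp hcpy hrlb hgeo d L' L (L * L') (Nat.mul_comm L L') ht.le hy0
    have h3 : ∀ K : ℝ, 0 < K → 4 * d * t ≤ K * (h * b) → 2 * d * t / (y * K) ≤ b / 2 := by
      intro K hK hKb
      rw [div_le_iff₀ (by positivity)]
      have h4 : h * (K * b) ≤ y * (K * b) :=
        mul_le_mul_of_nonneg_right (hhh'.trans hy) (by positivity)
      nlinarith
    have h4 := h3 L hLp hLb
    have h5 := h3 L' hLp' hLb'
    have h6 := (abs_le.1 h1).2
    have h7 := (abs_le.1 h2).1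
    linarith
  · have h1 : lam * t * b ≤ Λ * t * b :=
      mul_le_mul_of_nonneg_right (mul_le_mul_of_nonneg_right hl2 ht.le) hb0.le
    have h2 : Λ * t * b ≤ h / 2 := by linarith
    linarith

end Pool.Agent.TH604.ST
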