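import Pool.Agent.TH268.PD.Unif
import Pool.Agent.TH268.PD.Lim

/-! Positivity of the `i`-th Poisson-Dirichlet length (job 5188, owner helper604). -/

set_option autoImplicit false

namespace Pool.Agent.TH604.ST.Ppos

open Finset Filter Topology MeasureTheory Pool.Agent.TH268.PD

/-- `[1/4, 1/2]` in the unit interval -/
def J : Set unitInterval := Set.Icc ⟨1 / 4, by norm_num, by norm_num⟩ ⟨1 / 2, by norm_num, by norm_num⟩

lemma J_pos : 0 < (volume : Measure unitInterval) J := by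
  unfold J
  rw [unitInterval.volume_Icc, ENNReal.ofReal_pos]
  norm_num

lemma J_meas : MeasurableSet J := measurableSet_Icc

lemma J_le {x : unitInterval} (hx : x ∈ J) : (1 / 4 : ℝ) ≤ x ∧ (x : ℝ) ≤ 1 / 2 := ⟨hx.1, hx.2⟩

lemma stick_ge (i : ℕ) (U : ℕ → unitInterval) (hU : ∀ j ≤ i, U j ∈ J) :
    (1 / 4 : ℝ) * (1 / 2) ^ i ≤ stick U i := by
  have hg := Lim.good_encard (Lim.Y U) (Lim.Y_nonneg U) (Lim.Y_le_one U)
  have hmem : (1 / 4 : ℝ) * (1 / 2) ^ i ∈
      {x : ℝ | ((i + 1 : ℕ) : ℕ∞) ≤ Set.encard {j : ℕ | x ≤ Lim.Y U j}} := by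
    show ((i + 1 : ℕ) : ℕ∞) ≤ Set.encard {j : ℕ | (1 / 4 : ℝ) * (1 / 2) ^ i ≤ Lim.Y U j}
    have h1 : ((i + 1 : ℕ) : ℕ∞) = Set.encard ((Finset.range (i + 1) : Finset ℕ) : Set ℕ) := by
      rw [Set.encard_coe_eq_coe_finsetCard, Finset.card_range]
    rw [h1]
    refine Set.encard_le_encard fun j hj => ?_
    rw [Finset.coe_range, Set.mem_Iio] at hj
    have hji : j ≤ i := by omega
    show (1 / 4 : ℝ) * (1 / 2) ^ i ≤ (U j : ℝ) * ∏ l ∈ Finset.range j, (1 - (U l : ℝ))
    have h2 : (1 / 2 : ℝ) ^ j ≤ ∏ l ∈ Finset.range j, (1 - (U l : ℝ)) := by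
      rw [← Finset.card_range j, ← Finset.prod_const, Finset.card_range]
      refine Finset.prod_le_prod (fun _ _ => by norm_num) fun l hl => ?_
      have := (J_le (hU l (by rw [Finset.mem_range] at hl; omega))).2
      linarith
    have h3 : (1 / 2 : ℝ) ^ i ≤ (1 / 2) ^ j := pow_le_pow_of_le_one (by norm_num) (by norm_num) hji
    exact mul_le_mul (J_le (hU j hji)).1 (h3.trans h2) (by positivity) (U j).2.1
  exact le_csSup ⟨1, hg.ub i⟩ hmem

theorem ppos (r : ℕ) (i : Fin r) : ∃ ε : ℝ, 0 < ε ∧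
    0 < Pool.Agent.TH268.PD.pdm (fun u : Fin r → ℝ => min 1 (max 0 (u i / ε - 1))) := by
  have hs0 : (0 : ℝ) < (1 / 4 : ℝ) * (1 / 2) ^ (i : ℕ) := by positivity
  refine ⟨(1 / 4 : ℝ) * (1 / 2) ^ (i : ℕ) / 2, by positivity, ?_⟩
  generalize hs : (1 / 4 : ℝ) * (1 / 2) ^ (i : ℕ) = s at hs0
  unfold pdm
  have hnn : ∀ U : ℕ → unitInterval,
      0 ≤ min (1 : ℝ) (max 0 (stick U (i : ℕ) / (s / 2) - 1)) :=
    fun U => le_min zero_le_one (le_max_left _ _)
  have hst : Measurable fun U : ℕ → unitInterval => stick U (i : ℕ) := Lim.measurable_tY i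
  have hm : Measurable fun U : ℕ → unitInterval =>
      min (1 : ℝ) (max 0 (stick U (i : ℕ) / (s / 2) - 1)) :=
    measurable_const.min (measurable_const.max ((hst.div_const _).sub_const _))
  have hint : Integrable (fun U : ℕ → unitInterval =>
      min (1 : ℝ) (max 0 (stick U (i : ℕ) / (s / 2) - 1)))
      (Measure.infinitePi (fun _ : ℕ => (volume : Measure unitInterval))) :=
    Integrable.of_bound hm.aestronglyMeasurable 1 (Eventually.of_forall fun U => by
      rw [Real.norm_of_nonneg (hnn U)]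
      exact min_le_left _ _)
  show 0 < ∫ U : ℕ → unitInterval, min (1 : ℝ) (max 0 (stick U (i : ℕ) / (s / 2) - 1))
    ∂(Measure.infinitePi (fun _ : ℕ => (volume : Measure unitInterval)))
  rw [integral_pos_iff_support_of_nonneg hnn hint]
  refine lt_of_lt_of_le ?_ (measure_mono
    (s := Set.pi ((Finset.range ((i : ℕ) + 1) : Finset ℕ) : Set ℕ) (fun _ => J)) ?_)
  · rw [Measure.infinitePi_pi _ (fun _ _ => J_meas), Finset.prod_const]
    exact ENNReal.pow_pos J_pos _
  · intro U hU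
    rw [Function.mem_support]
    have h1 : s ≤ stick U (i : ℕ) := by
      rw [← hs]
      refine stick_ge i U fun j hj => hU j ?_
      rw [Finset.mem_coe, Finset.mem_range]
      omega
    have h2 : (1 : ℝ) ≤ stick U (i : ℕ) / (s / 2) - 1 := by
      have h3 : (2 : ℝ) ≤ stick U (i : ℕ) / (s / 2) := by
        rw [le_div_iff₀ (by positivity)]
        linarith
      linarith
    rw [max_eq_right (by linarith), min_eq_left h2]
    exact one_ne_zero

end Pool.Agent.TH604.ST.Ppos
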