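import Pool.Agent.TH604.ST.Stm
import Pool.Agent.TH268.PD.Ord

/-!
# Mean-field perturbation of random stirring: sums of the largest cycle lengths, statement
-/

set_option autoImplicit false

namespace Pool.Agent.TH604.ST

open Finset Equiv Pool.Agent.W805.LR

/-- The sum of the `k` largest cycle lengths and the mass of the long cycles. -/
def S_TOP : Prop := ∀ (V : Type) [Fintype V] [DecidableEq V] [Nonempty V] (g : Perm V),
  (∀ (δ : ℝ) (k : ℕ), 0 < δ → 1 ≤ δ * k → frac (δ * nn V) g ≤
    ∑ i ∈ range k, Pool.Agent.TH268.PD.top (Pool.Agent.TH268.PD.frac g) i) ∧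
  ∀ (K : ℝ) (k : ℕ), 0 ≤ K →
    ∑ i ∈ range k, Pool.Agent.TH268.PD.top (Pool.Agent.TH268.PD.frac g) i ≤
      frac K g + k * K / nn V

end Pool.Agent.TH604.ST
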