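import Pool.Agent.TH604.ST.Asm8
import Pool.Agent.TH604.ST.Asm9
import Pool.Agent.TH604.ST.Stm4
import Pool.Agent.TH604.ST.Ppos

/-!
# Mean-field perturbation of random stirring: the limit mass on the nearest neighbour torus
-/

set_option autoImplicit false
set_option maxHeartbeats 400000

namespace Pool.Agent.TH604.ST

open Finset Equiv Pool.Agent.W805.LR MeasureTheory Filter Topology

lemma nrs_nonneg (d K : ℕ) (x z : Fin d → ZMod K) : 0 ≤ nrs d K x z := by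
  unfold nrs
  exact Finset.sum_nonneg fun i _ => by split_ifs <;> norm_num

lemma nrs_rate (d L : ℕ) [NeZero L] : rate (nrs d L) = d * nn (Fin d → ZMod L) := by
  unfold rate nrs nn
  have h1 : ∀ (i : Fin d) (x : Fin d → ZMod L), ∑ y : Fin d → ZMod L,
      (if y = x + Pi.single i 1 then (1 : ℝ) else 0) = 1 := fun i x => by
    rw [Finset.sum_ite_eq' univ (x + Pi.single i 1) (fun _ => (1 : ℝ)), if_pos (mem_univ _)]
  have hA : ∑ x : Fin d → ZMod L, ∑ y : Fin d → ZMod L, ∑ i : Fin d,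
      (if y = x + Pi.single i 1 then (1 : ℝ) else 0) =
      d * (Fintype.card (Fin d → ZMod L) : ℝ) := by
    have h4 : ∀ x : Fin d → ZMod L, ∑ y : Fin d → ZMod L, ∑ i : Fin d,
        (if y = x + Pi.single i 1 then (1 : ℝ) else 0) = d := by
      intro x
      rw [Finset.sum_comm]
      simp only [h1, Finset.sum_const, Finset.card_univ, Fintype.card_fin, nsmul_eq_mul, mul_one]
    simp only [h4, Finset.sum_const, Finset.card_univ, nsmul_eq_mul]
    ring
  have hB : ∑ x : Fin d → ZMod L, ∑ y : Fin d → ZMod L, ∑ i : Fin d,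
      (if x = y + Pi.single i 1 then (1 : ℝ) else 0) =
      d * (Fintype.card (Fin d → ZMod L) : ℝ) := by
    rw [Finset.sum_comm]
    exact hA
  simp only [← Finset.sum_div]
  have h3 : ∑ x : Fin d → ZMod L, ∑ y : Fin d → ZMod L, ∑ i : Fin d,
      ((if y = x + Pi.single i 1 then (1 : ℝ) else 0) +
        (if x = y + Pi.single i 1 then (1 : ℝ) else 0)) =
      2 * (d * (Fintype.card (Fin d → ZMod L) : ℝ)) := by
    simp only [Finset.sum_add_distrib]
    rw [hA, hB]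
    ring
  rw [h3]
  ring

lemma nn_large (d : ℕ) (hd : 1 ≤ d) (N₀ : ℝ) :
    ∀ᶠ L : ℕ in atTop, N₀ ≤ nn (Fin d → ZMod (L + 1)) := by
  filter_upwards [eventually_ge_atTop ⌈N₀⌉₊] with L hL
  have hcard : nn (Fin d → ZMod (L + 1)) = ((L : ℝ) + 1) ^ d := by
    unfold nn
    rw [Fintype.card_fun, ZMod.card, Fintype.card_fin]
    push_cast
    rfl
  have h1 : N₀ ≤ L := (Nat.le_ceil N₀).trans (by exact_mod_cast hL)
  have h2 : (1 : ℝ) ≤ (L : ℝ) + 1 := by
    have : (0 : ℝ) ≤ L := by positivity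
    linarith
  have h3 : ((L : ℝ) + 1) ^ 1 ≤ ((L : ℝ) + 1) ^ d := pow_le_pow_right₀ h2 hd
  rw [hcard]
  linarith

/-- The largest root on the torus of side `L + 1`. -/
noncomputable def rootL (d L : ℕ) (t lam : ℝ) : ℝ := sSup (Rts (nrs d (L + 1)) t (lam * t))

lemma rootL_spec (d L : ℕ) {t lam : ℝ} (ht : 0 < t) (hl : 0 ≤ lam) :
    IsGreatest (Rts (nrs d (L + 1)) t (lam * t)) (rootL d L t lam) := by
  obtain ⟨m, hm⟩ := root_ex Root.rt2 p_jn p_vj p_bdg (nrs d (L + 1)) (nrs_nonneg d (L + 1)) ht.le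
    (mul_nonneg hl ht.le)
  unfold rootL
  rw [hm.csSup_eq]
  exact hm

lemma rootL_bd (d L : ℕ) {t lam : ℝ} (ht : 0 < t) (hl : 0 ≤ lam) :
    0 ≤ rootL d L t lam ∧ rootL d L t lam ≤ 1 := by
  obtain ⟨h1, h2, _⟩ := root_bd Root.rt2 p_jn p_vj p_bdg (nrs d (L + 1))
    (nrs_nonneg d (L + 1)) ht.le (mul_nonneg hl ht.le) (rootL_spec d L ht hl)
  exact ⟨h1, h2⟩

lemma rootL_cauchy (hcmp : S_CMP) (hcpy : S_CPY) (hrlb : S_RLB) (hgeo : S_GEO) (d : ℕ)
    {t lam : ℝ} (ht : 0 < t) (hl : 0 < lam) : CauchySeq (fun L => rootL d L t lam) := by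
  rw [Metric.cauchySeq_iff]
  intro e he
  obtain ⟨L₀, H⟩ := torus_root hcmp hcpy hrlb hgeo d ht hl (le_refl lam)
    (show (0 : ℝ) < e / 4 by positivity)
  refine ⟨L₀, fun L hL L' hL' => ?_⟩
  have h1 := H (L + 1) (L' + 1) (by omega) (by omega) lam le_rfl le_rfl _ _
    (rootL_spec d L ht hl.le) (rootL_spec d L' ht hl.le)
  have h2 := H (L' + 1) (L + 1) (by omega) (by omega) lam le_rfl le_rfl _ _
    (rootL_spec d L' ht hl.le) (rootL_spec d L ht hl.le)
  rw [Real.dist_eq, abs_lt]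
  constructor <;> linarith

/-- The limit mass. -/
noncomputable def mlim (d : ℕ) (t lam : ℝ) : ℝ := limUnder atTop (fun L => rootL d L t lam)

section lim

variable (hcmp : S_CMP) (hcpy : S_CPY) (hrlb : S_RLB) (hgeo : S_GEO) (d : ℕ) {t : ℝ} (ht : 0 < t)

include hcmp hcpy hrlb hgeo ht

lemma rootL_tendsto {lam : ℝ} (hl : 0 < lam) :
    Tendsto (fun L => rootL d L t lam) atTop (𝓝 (mlim d t lam)) :=
  (rootL_cauchy hcmp hcpy hrlb hgeo d ht hl).tendsto_limUnder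

lemma mlim_bd {lam : ℝ} (hl : 0 < lam) : 0 ≤ mlim d t lam ∧ mlim d t lam ≤ 1 := by
  have h1 := rootL_tendsto hcmp hcpy hrlb hgeo d ht hl
  exact ⟨ge_of_tendsto' h1 fun L => (rootL_bd d L ht hl.le).1,
    le_of_tendsto' h1 fun L => (rootL_bd d L ht hl.le).2⟩

lemma mlim_mono {a b : ℝ} (ha : 0 < a) (hab : a ≤ b) : mlim d t a ≤ mlim d t b := by
  refine le_of_tendsto_of_tendsto' (rootL_tendsto hcmp hcpy hrlb hgeo d ht ha)
    (rootL_tendsto hcmp hcpy hrlb hgeo d ht (ha.trans_le hab)) fun L => ?_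
  exact root_mono Root.rt2 p_jn p_vj p_bdg (nrs d (L + 1)) (nrs_nonneg d (L + 1)) ht.le
    (mul_pos ha ht).le (mul_le_mul_of_nonneg_right hab ht.le) (rootL_spec d L ht ha.le)
    (rootL_spec d L ht (ha.le.trans hab))

lemma mlim_lip {κ Λ a b δ : ℝ} (hκ : 0 < κ) (hκa : κ ≤ a) (hab : a ≤ b) (hbΛ : b ≤ Λ)
    (hδ : 0 < δ) (hδ1 : δ ≤ 1)
    (hw : 4 * ((b - a) * t) < Real.exp (-(Λ * t)) * (κ * t) ^ 3 * δ ^ 2) :
    mlim d t b ≤ mlim d t a + δ := by
  have ha : 0 < a := lt_of_lt_of_le hκ hκa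
  refine le_of_tendsto_of_tendsto' (rootL_tendsto hcmp hcpy hrlb hgeo d ht (ha.trans_le hab))
    ((rootL_tendsto hcmp hcpy hrlb hgeo d ht ha).add_const δ) fun L => ?_
  refine root_lip Root.root Root.rt2 p_jn p_vj p_bdg (nrs d (L + 1)) (nrs_nonneg d (L + 1)) ht.le
    (A := Λ * t) (a := a * t) (b := b * t) (mul_pos ha ht)
    (mul_le_mul_of_nonneg_right hab ht.le) (mul_le_mul_of_nonneg_right hbΛ ht.le)
    (rootL_spec d L ht ha.le) (rootL_spec d L ht (ha.le.trans hab)) hδ hδ1 ?_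
  have k1 : Real.exp (-(Λ * t)) * (κ * t) ^ 3 * δ ^ 2 ≤
      Real.exp (-(Λ * t)) * (a * t) ^ 3 * δ ^ 2 := by
    have : (κ * t) ^ 3 ≤ (a * t) ^ 3 :=
      pow_le_pow_left₀ (by positivity) (mul_le_mul_of_nonneg_right hκa ht.le) 3
    gcongr
  have k2 : 4 * (b * t - a * t) = 4 * ((b - a) * t) := by ring
  rw [k2]
  exact hw.trans_le k1

lemma mlim_cont : ContinuousOn (mlim d t) (Set.Ioi 0) := by
  intro a₀ ha₀
  refine ContinuousAt.continuousWithinAt ?_
  have ha : (0 : ℝ) < a₀ := ha₀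
  rw [Metric.continuousAt_iff]
  intro e he
  obtain ⟨δ, hδ⟩ : ∃ δ, δ = min 1 (e / 2) := ⟨_, rfl⟩
  have hδ0 : 0 < δ := by rw [hδ]; exact lt_min one_pos (by positivity)
  have hδ1 : δ ≤ 1 := by rw [hδ]; exact min_le_left _ _
  have hδe : δ < e := by
    have : δ ≤ e / 2 := by rw [hδ]; exact min_le_right _ _
    linarith
  obtain ⟨c, hc⟩ : ∃ c, c = Real.exp (-(2 * a₀ * t)) * (a₀ / 2 * t) ^ 3 * δ ^ 2 / (4 * t) :=
    ⟨_, rfl⟩
  have hc0 : 0 < c := by rw [hc]; positivity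
  refine ⟨min (a₀ / 2) c, lt_min (by positivity) hc0, ?_⟩
  intro x hx
  rw [Real.dist_eq] at hx ⊢
  have hx1 : |x - a₀| < a₀ / 2 := hx.trans_le (min_le_left _ _)
  have hx2 : |x - a₀| < c := hx.trans_le (min_le_right _ _)
  rw [abs_lt] at hx1 hx2
  have hxp : 0 < x := by linarith
  have hcc : ∀ u v : ℝ, v - u < c → 4 * ((v - u) * t) <
      Real.exp (-(2 * a₀ * t)) * (a₀ / 2 * t) ^ 3 * δ ^ 2 := by
    intro u v huv
    have h1 : c * (4 * t) = Real.exp (-(2 * a₀ * t)) * (a₀ / 2 * t) ^ 3 * δ ^ 2 := by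
      rw [hc]
      field_simp
    rw [← h1]
    nlinarith
  rcases le_total x a₀ with h | h
  · have h1 := mlim_mono hcmp hcpy hrlb hgeo d ht hxp h
    have h2 := mlim_lip hcmp hcpy hrlb hgeo d ht (κ := a₀ / 2) (Λ := 2 * a₀) (a := x) (b := a₀)
      (by positivity) (by linarith) h (by linarith) hδ0 hδ1 (hcc x a₀ (by linarith))
    rw [abs_lt]
    constructor <;> linarith
  · have h1 := mlim_mono hcmp hcpy hrlb hgeo d ht ha h
    have h2 := mlim_lip hcmp hcpy hrlb hgeo d ht (κ := a₀ / 2) (Λ := 2 * a₀) (a := a₀) (b := x)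
      (by positivity) (by linarith) h (by linarith) hδ0 hδ1 (hcc a₀ x (by linarith))
    rw [abs_lt]
    constructor <;> linarith

lemma mlim_low {lam : ℝ} (hl : 0 < lam) : 1 - 1 / (lam * t) ≤ mlim d t lam := by
  refine ge_of_tendsto' (rootL_tendsto hcmp hcpy hrlb hgeo d ht hl) fun L => ?_
  have h1 := (sandwich (nrs d (L + 1)) (nrs_nonneg d (L + 1)) ht (mul_pos hl ht)
    (rootL_spec d L ht hl.le) 1 one_pos).1
  have h2 : (frac 1 : Perm (Fin d → ZMod (L + 1)) → ℝ) = fun _ => 1 := by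
    funext g
    unfold frac cnt
    have h3 : ∀ v, (1 : ℝ) ≤ len g v := fun v => one_le_len p_jn p_bdg g v
    simp only [h3, if_true, Finset.sum_const, Finset.card_univ, nsmul_eq_mul, mul_one]
    have h4 : (0 : ℝ) < nn (Fin d → ZMod (L + 1)) := nn_pos
    unfold nn at h4 ⊢
    rw [div_self h4.ne']
  rw [h2, stE_const (p_vj _ (nrs d (L + 1)) t (nrs_nonneg d (L + 1)) ht.le).1, mul_one] at h1
  exact h1

lemma mlim_one : Tendsto (mlim d t) atTop (𝓝 1) := by
  have h1 : Tendsto (fun lam : ℝ => 1 - 1 / (lam * t)) atTop (𝓝 1) := by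
    have h2 : Tendsto (fun lam : ℝ => 1 / (lam * t)) atTop (𝓝 0) := by
      have h3 : Tendsto (fun lam : ℝ => lam * t) atTop atTop := tendsto_id.atTop_mul_const ht
      refine h3.inv_tendsto_atTop.congr fun lam => ?_
      rw [Pi.inv_apply, one_div]
    simpa using h2.const_sub 1
  refine tendsto_of_tendsto_of_tendsto_of_le_of_le' h1 tendsto_const_nhds ?_ ?_
  · filter_upwards [eventually_gt_atTop 0] with lam hl
    exact mlim_low hcmp hcpy hrlb hgeo d ht hl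
  · filter_upwards [eventually_gt_atTop 0] with lam hl
    exact (mlim_bd hcmp hcpy hrlb hgeo d ht hl).2

/-- The threshold. -/
lemma thr : ∃ lc : ℝ, 0 ≤ lc ∧ lc ≤ 1 / t ∧ (∀ lam, 0 < lam → lam ≤ lc → mlim d t lam = 0) ∧
    ∀ lam, lc < lam → 0 < mlim d t lam := by
  obtain ⟨S, hS⟩ : ∃ S : Set ℝ, S = {lam : ℝ | 0 < lam ∧ 0 < mlim d t lam} := ⟨_, rfl⟩
  have hbd : BddBelow S := ⟨0, fun x hx => by rw [hS] at hx; exact hx.1.le⟩
  have hin : ∀ lam, 1 / t < lam → lam ∈ S := by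
    intro lam hl
    have hl0 : 0 < lam := lt_trans (by positivity) hl
    have h1 := mlim_low hcmp hcpy hrlb hgeo d ht hl0
    rw [hS]
    refine ⟨hl0, lt_of_lt_of_le ?_ h1⟩
    rw [sub_pos, div_lt_one (mul_pos hl0 ht)]
    rwa [div_lt_iff₀ ht] at hl
  have hne : S.Nonempty := ⟨1 / t + 1, hin _ (by linarith)⟩
  have hpos : ∀ lam, sInf S < lam → 0 < mlim d t lam := by
    intro lam hl
    obtain ⟨x, hx, hxl⟩ := (csInf_lt_iff hbd hne).1 hl
    rw [hS] at hx
    exact lt_of_lt_of_le hx.2 (mlim_mono hcmp hcpy hrlb hgeo d ht hx.1 hxl.le)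
  have hzero : ∀ lam, 0 < lam → lam < sInf S → mlim d t lam = 0 := by
    intro lam hl hlt
    by_contra hne0
    have h1 : 0 < mlim d t lam :=
      lt_of_le_of_ne (mlim_bd hcmp hcpy hrlb hgeo d ht hl).1 (Ne.symm hne0)
    have h2 : lam ∈ S := by rw [hS]; exact ⟨hl, h1⟩
    exact absurd (csInf_le hbd h2) (not_le.2 hlt)
  refine ⟨sInf S, ?_, ?_, ?_, hpos⟩
  · refine le_csInf hne fun x hx => ?_
    rw [hS] at hx
    exact hx.1.le
  · refine le_of_forall_gt fun x hx => ?_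
    obtain ⟨y, hy1, hy2⟩ := exists_between hx
    exact lt_of_le_of_lt (csInf_le hbd (hin y hy1)) hy2
  · intro lam hl hle
    rcases hle.lt_or_eq with h | h
    · exact hzero lam hl h
    · -- continuity from the left
      have hc : ContinuousAt (mlim d t) lam :=
        (mlim_cont hcmp hcpy hrlb hgeo d ht).continuousAt (Ioi_mem_nhds hl)
      have h1 : Tendsto (mlim d t) (𝓝[<] lam) (𝓝 (mlim d t lam)) :=
        hc.tendsto.mono_left nhdsWithin_le_nhds
      have h2 : Tendsto (mlim d t) (𝓝[<] lam) (𝓝 0) := by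
        refine Tendsto.congr' ?_ tendsto_const_nhds
        have h3 : Set.Ioo 0 lam ∈ 𝓝[<] lam := Ioo_mem_nhdsLT hl
        filter_upwards [h3] with x hx
        exact (hzero x hx.1 (by rw [← h]; exact hx.2)).symm
      exact tendsto_nhds_unique h1 h2

end lim

end Pool.Agent.TH604.ST
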