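import Pool.Agent.TH604.ST.Stm

/-!
# The uniform part of the rates is central; stirring expectations
-/

set_option autoImplicit false

namespace Pool.Agent.TH604.ST.Cent

open Finset Equiv Pool.Agent.W805.LR Pool.Agent.TH604.ST

section op

variable {X ι : Type} [Fintype X] [Fintype ι]

/-- One step of a walk as a continuous linear map. -/
noncomputable def opP (p : ι → ℝ) (T : ι → X → X) : (X → ℝ) →L[ℝ] (X → ℝ) :=
  LinearMap.toContinuousLinearMap
    { toFun := stp p T
      map_add' := by
        intro F G; funext x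
        simp only [stp, Pi.add_apply, mul_add, Finset.sum_add_distrib]
      map_smul' := by
        intro c F; funext x
        simp only [stp, Pi.smul_apply, smul_eq_mul, RingHom.id_apply, Finset.mul_sum]
        refine Finset.sum_congr rfl fun i _ => ?_
        ring }

theorem opP_apply (p : ι → ℝ) (T : ι → X → X) (F : X → ℝ) : opP p T F = stp p T F := rfl

theorem opP_pow (p : ι → ℝ) (T : ι → X → X) (k : ℕ) (F : X → ℝ) :
    ((opP p T) ^ k) F = (stp p T)^[k] F := by
  induction k generalizing F with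
  | zero => simp
  | succ k ih =>
    rw [pow_succ, Function.iterate_succ_apply, ← opP_apply, ← ih]
    rfl

theorem exp_hasSum (A : (X → ℝ) →L[ℝ] (X → ℝ)) (t : ℝ) (F : X → ℝ) (x : X) :
    HasSum (fun k : ℕ => t ^ k / (k.factorial : ℝ) * ((A ^ k) F) x)
      ((NormedSpace.exp (t • A)) F x) := by
  have h := NormedSpace.exp_series_hasSum_exp' (𝕂 := ℝ) (t • A)
  have h1 := h.mapL (ContinuousLinearMap.apply ℝ (X → ℝ) F)
  have h2 := h1.mapL (ContinuousLinearMap.proj (R := ℝ) (φ := fun _ : X => ℝ) x)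
  have h3 : ∀ k : ℕ, (ContinuousLinearMap.proj (R := ℝ) (φ := fun _ : X => ℝ) x)
      ((ContinuousLinearMap.apply ℝ (X → ℝ) F) (((k.factorial : ℝ)⁻¹) • (t • A) ^ k)) =
      t ^ k / (k.factorial : ℝ) * ((A ^ k) F) x := by
    intro k
    rw [smul_pow]
    simp only [ContinuousLinearMap.apply_apply, ContinuousLinearMap.proj_apply,
      smul_apply, Pi.smul_apply, smul_eq_mul]
    ring
  have h4 : (ContinuousLinearMap.proj (R := ℝ) (φ := fun _ : X => ℝ) x)
      ((ContinuousLinearMap.apply ℝ (X → ℝ) F) (NormedSpace.exp (t • A))) =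
      (NormedSpace.exp (t • A)) F x := rfl
  rw [h4] at h2
  have h5 : (fun k : ℕ => t ^ k / (k.factorial : ℝ) * ((A ^ k) F) x) = fun k : ℕ =>
      (ContinuousLinearMap.proj (R := ℝ) (φ := fun _ : X => ℝ) x)
        ((ContinuousLinearMap.apply ℝ (X → ℝ) F) (((k.factorial : ℝ)⁻¹) • (t • A) ^ k)) :=
    funext fun k => (h3 k).symm
  rw [h5]
  exact h2

theorem poi_eq (p : ι → ℝ) (T : ι → X → X) (s : ℝ) (F : X → ℝ) (x : X) :
    poi p T s F x = Real.exp (-s) * (NormedSpace.exp (s • opP p T)) F x := by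
  rw [← (exp_hasSum (opP p T) s F x).tsum_eq, ← tsum_mul_left]
  unfold poi
  refine tsum_congr fun k => ?_
  rw [opP_pow]
  ring

end op

section perm

variable {V : Type} [Fintype V] [DecidableEq V]

/-- Half of the rates, as weights of the ordered pairs. -/
noncomputable def wJ (J : V → V → ℝ) : V × V → ℝ := fun e => J e.1 e.2 / 2

theorem ring_sum (J : V → V → ℝ) (m : ℕ) (F : Perm V → ℝ) :
    ∑ g, ringSum J m g * F g = ((opP (wJ J) Tg) ^ m) F 1 := by
  induction m generalizing F with
  | zero =>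
    classical
    simp [ringSum]
  | succ m ih =>
    rw [pow_succ]
    change _ = ((opP (wJ J) Tg) ^ m) (opP (wJ J) Tg F) 1
    rw [← ih]
    have h1 : ∀ g, ringSum J (m + 1) g * F g =
        ∑ x, ∑ y, J x y / 2 * (ringSum J m (swap x y * g) * F g) := by
      intro g
      simp only [ringSum, Finset.sum_mul]
      refine Finset.sum_congr rfl fun x _ => Finset.sum_congr rfl fun y _ => ?_
      ring
    have h2 : ∀ g, ringSum J m g * opP (wJ J) Tg F g =
        ∑ x, ∑ y, J x y / 2 * (ringSum J m g * F (swap x y * g)) := by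
      intro g
      rw [opP_apply]
      simp only [stp, wJ, Tg, Fintype.sum_prod_type, Finset.mul_sum]
      refine Finset.sum_congr rfl fun x _ => Finset.sum_congr rfl fun y _ => ?_
      ring
    rw [Finset.sum_congr rfl fun g _ => h1 g, Finset.sum_congr rfl fun g _ => h2 g]
    rw [Finset.sum_comm]
    conv_rhs => rw [Finset.sum_comm]
    refine Finset.sum_congr rfl fun x _ => ?_
    rw [Finset.sum_comm]
    conv_rhs => rw [Finset.sum_comm]
    refine Finset.sum_congr rfl fun y _ => ?_
    rw [← Finset.mul_sum, ← Finset.mul_sum]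
    congr 1
    refine Fintype.sum_equiv (Equiv.mulLeft (swap x y)) _ _ fun g => ?_
    simp [← mul_assoc]

theorem stir_eq (J : V → V → ℝ) (t : ℝ) (g : Perm V) :
    stirMass J t g = (NormedSpace.exp (t • opP (wJ J) Tg)) (Pi.single g 1) 1 := by
  rw [← (exp_hasSum (opP (wJ J) Tg) t (Pi.single g 1) 1).tsum_eq]
  unfold stirMass
  refine tsum_congr fun m => ?_
  rw [← ring_sum]
  simp [Pi.single_apply]

theorem stir_sum (J : V → V → ℝ) (t : ℝ) (F : Perm V → ℝ) :
    ∑ g, stirMass J t g * F g = (NormedSpace.exp (t • opP (wJ J) Tg)) F 1 := by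
  have hF : F = ∑ g, F g • (Pi.single g (1 : ℝ) : Perm V → ℝ) := by
    funext h
    simp [Finset.sum_apply, Pi.single_apply]
  conv_rhs => rw [hF]
  rw [map_sum, Finset.sum_apply]
  refine Finset.sum_congr rfl fun g _ => ?_
  rw [map_smul, Pi.smul_apply, smul_eq_mul, stir_eq]
  ring

theorem stE_eq (J : V → V → ℝ) (t : ℝ) (F : Perm V → ℝ) :
    stE J t F = Real.exp (-(t * rate J)) * (NormedSpace.exp (t • opP (wJ J) Tg)) F 1 := by
  unfold stE
  rw [stir_sum]

omit [Fintype V] in
/-- Conjugation of a transposition by a permutation. -/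
theorem swap_conj (σ : Perm V) (x y : V) : σ * swap x y = swap (σ x) (σ y) * σ := by
  rw [Equiv.swap_apply_apply]
  group

/-- The uniform step is central. -/
theorem comm_unif (J : V → V → ℝ) :
    Commute (opP (wJ J) Tg) (opP (unif V) Tg) := by
  change opP (wJ J) Tg * opP (unif V) Tg = opP (unif V) Tg * opP (wJ J) Tg
  ext F g
  change opP (wJ J) Tg (opP (unif V) Tg F) g = opP (unif V) Tg (opP (wJ J) Tg F) g
  simp only [opP_apply, stp, unif, Finset.mul_sum]
  conv_rhs => rw [Finset.sum_comm]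
  refine Finset.sum_congr rfl fun e _ => ?_
  refine Fintype.sum_equiv ((swap e.1 e.2).prodCongr (swap e.1 e.2)) _ _ fun u => ?_
  simp only [Tg, Equiv.prodCongr_apply, Prod.map]
  have h := swap_conj (swap e.1 e.2) u.1 u.2
  have h2 : swap e.1 e.2 * (swap (swap e.1 e.2 u.1) (swap e.1 e.2 u.2) * g) =
      swap u.1 u.2 * (swap e.1 e.2 * g) := by
    have h3 := swap_conj (swap e.1 e.2) (swap e.1 e.2 u.1) (swap e.1 e.2 u.2)
    simp only [Equiv.swap_apply_self] at h3
    rw [← mul_assoc, ← mul_assoc]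
    rw [h3]
  rw [h2]
  ring

theorem opP_add [Nonempty V] (J : V → V → ℝ) (lam : ℝ) :
    opP (wJ (fun x y => J x y + lam / nn V)) Tg =
      opP (wJ J) Tg + (lam * nn V / 2) • opP (unif V) Tg := by
  have hn : (nn V : ℝ) ≠ 0 := by
    unfold nn
    exact_mod_cast Fintype.card_ne_zero
  ext F g
  simp only [add_apply, smul_apply, Pi.add_apply,
    Pi.smul_apply, smul_eq_mul, opP_apply, stp, wJ, unif, Finset.mul_sum]
  rw [← Finset.sum_add_distrib]
  refine Finset.sum_congr rfl fun e _ => ?_
  field_simp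

omit [DecidableEq V] in
theorem rate_add [Nonempty V] (J : V → V → ℝ) (lam : ℝ) :
    rate (fun x y => J x y + lam / nn V) = rate J + lam * nn V / 2 := by
  have hn : (nn V : ℝ) ≠ 0 := by
    unfold nn
    exact_mod_cast Fintype.card_ne_zero
  unfold rate
  simp only [add_div, Finset.sum_add_distrib, Finset.sum_const, Finset.card_univ, nsmul_eq_mul]
  congr 1
  change nn V * (nn V * (lam / nn V / 2)) = _
  field_simp

theorem cent : S_CENT := by
  intro V _ _ _ J lam t F
  rw [stE_eq, stE_eq, opP_add, rate_add]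
  have hG : (fun g => poi (unif V) Tg (lam * t * nn V / 2) F g) =
      Real.exp (-(lam * t * nn V / 2)) •
        (NormedSpace.exp ((lam * t * nn V / 2) • opP (unif V) Tg)) F := by
    funext g
    rw [poi_eq]
    rfl
  letI : NormedAlgebra ℚ ((Perm V → ℝ) →L[ℝ] (Perm V → ℝ)) :=
    NormedAlgebra.restrictScalars ℚ ℝ _
  rw [hG, map_smul, smul_add, NormedSpace.exp_add_of_commute
    (((comm_unif J).smul_left t).smul_right (lam * nn V / 2) |>.smul_right t)]
  rw [Pi.smul_apply, smul_eq_mul, ← mul_assoc, ← Real.exp_add, smul_smul]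
  have e1 : -(t * (rate J + lam * nn V / 2)) = -(t * rate J) + -(lam * t * nn V / 2) := by ring
  have e2 : t * (lam * nn V / 2) = lam * t * nn V / 2 := by ring
  rw [e1, e2]
  rfl

theorem ringSum_nonneg (J : V → V → ℝ) (hJ : ∀ x y, 0 ≤ J x y) (m : ℕ) (g : Perm V) :
    0 ≤ ringSum J m g := by
  induction m generalizing g with
  | zero => simp only [ringSum]; split_ifs <;> norm_num
  | succ m ih =>
    simp only [ringSum]
    exact Finset.sum_nonneg fun x _ => Finset.sum_nonneg fun y _ =>
      mul_nonneg (div_nonneg (hJ x y) (by norm_num)) (ih _)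

theorem stirMass_nonneg (J : V → V → ℝ) (hJ : ∀ x y, 0 ≤ J x y) (t : ℝ) (ht : 0 ≤ t)
    (g : Perm V) : 0 ≤ stirMass J t g := by
  unfold stirMass
  exact tsum_nonneg fun m => mul_nonneg (by positivity) (ringSum_nonneg J hJ m g)

theorem op_one_pow (J : V → V → ℝ) (m : ℕ) :
    ((opP (wJ J) Tg) ^ m) (fun _ => (1 : ℝ)) = fun _ => rate J ^ m := by
  induction m with
  | zero => simp
  | succ m ih =>
    rw [pow_succ']
    change opP (wJ J) Tg (((opP (wJ J) Tg) ^ m) (fun _ => (1 : ℝ))) = _
    rw [ih, opP_apply]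
    funext g
    simp only [stp, wJ, ← Finset.sum_mul, Fintype.sum_prod_type, rate]
    ring

theorem stE_one (J : V → V → ℝ) (t : ℝ) : stE J t (fun _ => 1) = 1 := by
  rw [stE_eq]
  have h := (exp_hasSum (opP (wJ J) Tg) t (fun _ => (1 : ℝ)) (1 : Perm V)).tsum_eq
  rw [← h]
  have h2 : (∑' k : ℕ, t ^ k / (k.factorial : ℝ) *
      (((opP (wJ J) Tg) ^ k) (fun _ => (1 : ℝ))) (1 : Perm V)) = Real.exp (t * rate J) := by
    rw [Real.exp_eq_exp_ℝ, NormedSpace.exp_eq_tsum_div]
    refine tsum_congr fun k => ?_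
    rw [op_one_pow, mul_pow]
    ring
  rw [h2, ← Real.exp_add]
  simp

theorem lip_iter (p : V × V → ℝ) (hp : Prb p) (F : Perm V → ℝ) (δ : ℝ)
    (hF : ∀ x y g, |F (swap x y * g) - F g| ≤ δ) (k : ℕ) :
    ∀ x y g, |((stp p Tg)^[k] F) (swap x y * g) - ((stp p Tg)^[k] F) g| ≤ δ := by
  induction k with
  | zero => simpa using hF
  | succ k ih =>
    intro x y g
    rw [Function.iterate_succ_apply']
    set G := (stp p Tg)^[k] F with hG
    simp only [stp, Tg]
    rw [← Finset.sum_sub_distrib]
    refine (Finset.abs_sum_le_sum_abs _ _).trans ?_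
    calc ∑ e, |p e * G (swap e.1 e.2 * (swap x y * g)) - p e * G (swap e.1 e.2 * g)|
        ≤ ∑ e, p e * δ := by
          refine Finset.sum_le_sum fun e _ => ?_
          rw [← mul_sub, abs_mul, abs_of_nonneg (hp.1 e)]
          refine mul_le_mul_of_nonneg_left ?_ (hp.1 e)
          rw [← mul_assoc, swap_conj, mul_assoc]
          exact ih _ _ _
      _ = δ := by rw [← Finset.sum_mul, hp.2, one_mul]

theorem vj : S_VAR → S_VJ := by
  intro hV V _ _ _ J t hJ ht
  refine ⟨stE_one J t, stirMass_nonneg J hJ t ht, ?_⟩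
  intro F δ hδ hF
  have hR0 : 0 ≤ rate J := Finset.sum_nonneg fun x _ => Finset.sum_nonneg fun y _ =>
    div_nonneg (hJ x y) (by norm_num)
  rcases hR0.eq_or_lt with hR | hR
  · have hz : ∀ x y, J x y = 0 := by
      intro x y
      have h1 := (Finset.sum_eq_zero_iff_of_nonneg (fun x _ => Finset.sum_nonneg fun y _ =>
        div_nonneg (hJ x y) (by norm_num : (0 : ℝ) ≤ 2))).1 hR.symm x (Finset.mem_univ x)
      have h2 := (Finset.sum_eq_zero_iff_of_nonneg (fun y _ =>
        div_nonneg (hJ x y) (by norm_num : (0 : ℝ) ≤ 2))).1 h1 y (Finset.mem_univ y)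
      linarith
    have ho : opP (wJ J) (Tg (V := V)) = 0 := by
      ext G g
      simp [opP_apply, stp, wJ, hz]
    rw [stE_eq, stE_eq, ho, ← hR]
    simp
  · have hRne : rate J ≠ 0 := ne_of_gt hR
    set p : V × V → ℝ := fun e => J e.1 e.2 / (2 * rate J) with hp
    have hprb : Prb p := by
      refine ⟨fun e => div_nonneg (hJ _ _) (by positivity), ?_⟩
      have : ∑ e : V × V, p e = (∑ x, ∑ y, J x y / 2) / rate J := by
        rw [Fintype.sum_prod_type, Finset.sum_div]
        refine Finset.sum_congr rfl fun x _ => ?_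
        rw [Finset.sum_div]
        refine Finset.sum_congr rfl fun y _ => ?_
        simp only [hp]
        field_simp
      rw [this]
      exact div_self hRne
    have hop : opP (wJ J) (Tg (V := V)) = rate J • opP p Tg := by
      ext G g
      simp only [smul_apply, Pi.smul_apply, smul_eq_mul, opP_apply, stp, wJ,
        Finset.mul_sum, hp]
      refine Finset.sum_congr rfl fun e _ => ?_
      field_simp
    have hst : ∀ G : Perm V → ℝ, stE J t G = poi p Tg (t * rate J) G 1 := by
      intro G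
      rw [stE_eq, poi_eq, hop, smul_smul]
    rw [hst, hst]
    have hbdd : Bdd F := ⟨∑ g, |F g|, fun g =>
      Finset.single_le_sum (f := fun g => |F g|) (fun _ _ => abs_nonneg _) (Finset.mem_univ g)⟩
    exact hV (Perm V) (V × V) p Tg hprb F δ hbdd hδ
      (fun k x e => lip_iter p hprb F δ hF k e.1 e.2 x) (t * rate J) (mul_nonneg ht hR0) 1

end perm

end Pool.Agent.TH604.ST.Cent
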