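import Pool.Agent.TH604.ST.Stm3
import Pool.Agent.TH604.ST.Cent

/-!
# Comparison of stirring with two systems of rates (job ST-CMP)
-/

set_option autoImplicit false

namespace Pool.Agent.TH604.ST.Cmp

open Finset Equiv Pool.Agent.W805.LR Pool.Agent.TH604.ST Pool.Agent.TH604.ST.Cent

section

variable {V : Type} [Fintype V] [DecidableEq V]

/-- The unnormalised step. -/
noncomputable def A (J : V → V → ℝ) : (Perm V → ℝ) →L[ℝ] (Perm V → ℝ) := opP (wJ J) Tg

theorem A_apply (J : V → V → ℝ) (G : Perm V → ℝ) (g : Perm V) :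
    A J G g = ∑ e : V × V, J e.1 e.2 / 2 * G (swap e.1 e.2 * g) := rfl

omit [DecidableEq V] in
theorem rate_eq (J : V → V → ℝ) : rate J = ∑ e : V × V, J e.1 e.2 / 2 := by
  rw [Fintype.sum_prod_type]; rfl

theorem A_bdd (J : V → V → ℝ) (hJ : ∀ x y, 0 ≤ J x y) (G : Perm V → ℝ) (c : ℝ)
    (h : ∀ g, |G g| ≤ c) (g : Perm V) : |A J G g| ≤ rate J * c := by
  rw [A_apply, rate_eq, Finset.sum_mul]
  refine (Finset.abs_sum_le_sum_abs _ _).trans (Finset.sum_le_sum fun e _ => ?_)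
  have h0 : 0 ≤ J e.1 e.2 / 2 := by have := hJ e.1 e.2; positivity
  rw [abs_mul, abs_of_nonneg h0]
  exact mul_le_mul_of_nonneg_left (h _) h0

/-- Oscillation under one transposition. -/
def Osc (G : Perm V → ℝ) (c : ℝ) : Prop := ∀ x y g, |G (swap x y * g) - G g| ≤ c

theorem A_osc (J : V → V → ℝ) (hJ : ∀ x y, 0 ≤ J x y) (G : Perm V → ℝ) (c : ℝ)
    (h : Osc G c) : Osc (A J G) (rate J * c) := by
  intro x y g
  rw [A_apply, A_apply, rate_eq, Finset.sum_mul, ← Finset.sum_sub_distrib]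
  refine (Finset.abs_sum_le_sum_abs _ _).trans (Finset.sum_le_sum fun e _ => ?_)
  have h0 : 0 ≤ J e.1 e.2 / 2 := by have := hJ e.1 e.2; positivity
  rw [← mul_sub, abs_mul, abs_of_nonneg h0]
  refine mul_le_mul_of_nonneg_left ?_ h0
  have e1 : swap e.1 e.2 * (swap x y * g) =
      swap (swap e.1 e.2 x) (swap e.1 e.2 y) * (swap e.1 e.2 * g) := by
    rw [← mul_assoc, swap_conj, mul_assoc]
  rw [e1]
  exact h _ _ _

theorem pow_bdd (J : V → V → ℝ) (hJ : ∀ x y, 0 ≤ J x y) (G : Perm V → ℝ) (c : ℝ)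
    (h : ∀ g, |G g| ≤ c) (k : ℕ) : ∀ g : Perm V, |((A J) ^ k) G g| ≤ rate J ^ k * c := by
  induction k with
  | zero => intro g; simpa using h g
  | succ k ih =>
    intro g
    have h1 : ((A J) ^ (k + 1)) G = A J (((A J) ^ k) G) := by rw [pow_succ']; rfl
    rw [h1, pow_succ', mul_assoc]
    exact A_bdd J hJ _ _ ih g

theorem pow_osc (J : V → V → ℝ) (hJ : ∀ x y, 0 ≤ J x y) (G : Perm V → ℝ) (c : ℝ)
    (h : Osc G c) (k : ℕ) : Osc (((A J) ^ k) G) (rate J ^ k * c) := by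
  induction k with
  | zero => simpa using h
  | succ k ih =>
    have h1 : ((A J) ^ (k + 1)) G = A J (((A J) ^ k) G) := by rw [pow_succ']; rfl
    rw [h1, pow_succ', mul_assoc]
    exact A_osc J hJ _ _ ih

theorem series (s R c : ℝ) :
    HasSum (fun k : ℕ => s ^ k / (k.factorial : ℝ) * (R ^ k * c)) (Real.exp (s * R) * c) := by
  have h := (NormedSpace.expSeries_div_hasSum_exp (𝔸 := ℝ) (s * R)).mul_right c
  rw [← Real.exp_eq_exp_ℝ] at h
  have e : (fun k : ℕ => s ^ k / (k.factorial : ℝ) * (R ^ k * c)) =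
      fun k : ℕ => (s * R) ^ k / (k.factorial : ℝ) * c := by
    funext k
    rw [mul_pow]
    ring
  rw [e]
  exact h

theorem exp_bdd (J : V → V → ℝ) (hJ : ∀ x y, 0 ≤ J x y) (G : Perm V → ℝ) (c s : ℝ) (hs : 0 ≤ s)
    (h : ∀ g, |G g| ≤ c) (g : Perm V) :
    |(NormedSpace.exp (s • A J)) G g| ≤ Real.exp (s * rate J) * c := by
  refine (exp_hasSum (A J) s G g).norm_le_of_bounded (series s (rate J) c) fun k => ?_
  have h0 : 0 ≤ s ^ k / (k.factorial : ℝ) := by positivity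
  rw [Real.norm_eq_abs, abs_mul, abs_of_nonneg h0]
  exact mul_le_mul_of_nonneg_left (pow_bdd J hJ G c h k g) h0

theorem exp_osc (J : V → V → ℝ) (hJ : ∀ x y, 0 ≤ J x y) (G : Perm V → ℝ) (c s : ℝ) (hs : 0 ≤ s)
    (h : Osc G c) : Osc ((NormedSpace.exp (s • A J)) G) (Real.exp (s * rate J) * c) := by
  intro x y g
  refine ((exp_hasSum (A J) s G (swap x y * g)).sub (exp_hasSum (A J) s G g)).norm_le_of_bounded
    (series s (rate J) c) fun k => ?_
  have h0 : 0 ≤ s ^ k / (k.factorial : ℝ) := by positivity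
  rw [← mul_sub, Real.norm_eq_abs, abs_mul, abs_of_nonneg h0]
  exact mul_le_mul_of_nonneg_left (pow_osc J hJ G c h k x y g) h0

/-- The generator. -/
noncomputable def Lg (J : V → V → ℝ) : (Perm V → ℝ) →L[ℝ] (Perm V → ℝ) :=
  A J - (rate J) • (1 : (Perm V → ℝ) →L[ℝ] (Perm V → ℝ))

theorem exp_smul_one (c : ℝ) :
    NormedSpace.exp (c • (1 : (Perm V → ℝ) →L[ℝ] (Perm V → ℝ))) =
      Real.exp c • (1 : (Perm V → ℝ) →L[ℝ] (Perm V → ℝ)) := by
  rw [← Algebra.algebraMap_eq_smul_one, ← Algebra.algebraMap_eq_smul_one, Real.exp_eq_exp_ℝ]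
  exact (NormedSpace.algebraMap_exp_comm c).symm

theorem exp_Lg (J : V → V → ℝ) (s : ℝ) (G : Perm V → ℝ) (g : Perm V) :
    (NormedSpace.exp (s • Lg J)) G g =
      Real.exp (-(s * rate J)) * (NormedSpace.exp (s • A J)) G g := by
  let _ : NormedAlgebra ℚ ((Perm V → ℝ) →L[ℝ] (Perm V → ℝ)) :=
    NormedAlgebra.restrictScalars ℚ ℝ _
  have e : s • Lg J = s • A J + (-(s * rate J)) • (1 : (Perm V → ℝ) →L[ℝ] (Perm V → ℝ)) := by
    rw [Lg, smul_sub, smul_smul]
    module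
  rw [e, NormedSpace.exp_add_of_commute (((Commute.one_right _).smul_right _)), exp_smul_one,
    mul_smul_comm, mul_one]
  rfl

theorem stE_Lg (J : V → V → ℝ) (t : ℝ) (F : Perm V → ℝ) :
    stE J t F = (NormedSpace.exp (t • Lg J)) F 1 := by
  rw [exp_Lg, stE_eq]; rfl

theorem contr (J : V → V → ℝ) (hJ : ∀ x y, 0 ≤ J x y) (G : Perm V → ℝ) (c s : ℝ) (hs : 0 ≤ s)
    (h : ∀ g, |G g| ≤ c) (g : Perm V) : |(NormedSpace.exp (s • Lg J)) G g| ≤ c := by
  rw [exp_Lg, abs_mul, abs_of_pos (Real.exp_pos _)]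
  calc _ ≤ Real.exp (-(s * rate J)) * (Real.exp (s * rate J) * c) :=
        mul_le_mul_of_nonneg_left (exp_bdd J hJ G c s hs h g) (Real.exp_pos _).le
    _ = c := by rw [← mul_assoc, ← Real.exp_add]; simp

theorem oscL (J : V → V → ℝ) (hJ : ∀ x y, 0 ≤ J x y) (G : Perm V → ℝ) (c s : ℝ) (hs : 0 ≤ s)
    (h : Osc G c) : Osc ((NormedSpace.exp (s • Lg J)) G) c := by
  intro x y g
  rw [exp_Lg, exp_Lg, ← mul_sub, abs_mul, abs_of_pos (Real.exp_pos _)]
  calc _ ≤ Real.exp (-(s * rate J)) * (Real.exp (s * rate J) * c) :=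
        mul_le_mul_of_nonneg_left (exp_osc J hJ G c s hs h x y g) (Real.exp_pos _).le
    _ = c := by rw [← mul_assoc, ← Real.exp_add]; simp

theorem diff_bdd (J J' : V → V → ℝ) (G : Perm V → ℝ) (c : ℝ) (h : Osc G c) (g : Perm V) :
    |(Lg J - Lg J') G g| ≤ c * ∑ x, ∑ y, |J x y - J' x y| / 2 := by
  have e : (Lg J - Lg J') G g =
      ∑ e : V × V, (J e.1 e.2 - J' e.1 e.2) / 2 * (G (swap e.1 e.2 * g) - G g) := by
    have e1 : (Lg J - Lg J') G g = (A J G g - rate J * G g) - (A J' G g - rate J' * G g) := rfl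
    rw [e1, A_apply, A_apply, rate_eq, rate_eq, Finset.sum_mul, Finset.sum_mul,
      ← Finset.sum_sub_distrib, ← Finset.sum_sub_distrib, ← Finset.sum_sub_distrib]
    refine Finset.sum_congr rfl fun e _ => ?_
    ring
  rw [e, ← Fintype.sum_prod_type' (f := fun x y => |J x y - J' x y| / 2), Finset.mul_sum]
  refine (Finset.abs_sum_le_sum_abs _ _).trans (Finset.sum_le_sum fun e _ => ?_)
  rw [abs_mul, abs_div, abs_two, mul_comm]
  exact mul_le_mul_of_nonneg_right (h _ _ _) (by positivity)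

theorem deriv_u (J J' : V → V → ℝ) (t : ℝ) (F : Perm V → ℝ) (s : ℝ) :
    HasDerivAt (fun s : ℝ => (NormedSpace.exp (s • Lg J) * NormedSpace.exp ((t - s) • Lg J')) F 1)
      ((NormedSpace.exp (s • Lg J) * ((Lg J - Lg J') * NormedSpace.exp ((t - s) • Lg J'))) F 1)
      s := by
  have h1 := hasDerivAt_exp_smul_const (𝕂 := ℝ) (Lg J) s
  have h2 := hasDerivAt_exp_smul_const' (𝕂 := ℝ) (Lg J') (t - s)
  have h3 : HasDerivAt (fun s : ℝ => t - s) (-1) s := by
    simpa using (hasDerivAt_id s).const_sub t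
  have h4 := h2.scomp s h3
  have h5 := h1.mul h4
  let ev : ((Perm V → ℝ) →L[ℝ] (Perm V → ℝ)) →L[ℝ] ℝ :=
    (ContinuousLinearMap.proj (R := ℝ) (φ := fun _ : Perm V => ℝ) 1).comp
      (ContinuousLinearMap.apply ℝ (Perm V → ℝ) F)
  have h6 := ev.hasFDerivAt.comp_hasDerivAt s h5
  have e : NormedSpace.exp (s • Lg J) * Lg J * NormedSpace.exp ((t - s) • Lg J') +
      NormedSpace.exp (s • Lg J) * ((-1 : ℝ) • (Lg J' * NormedSpace.exp ((t - s) • Lg J'))) =
      NormedSpace.exp (s • Lg J) * ((Lg J - Lg J') * NormedSpace.exp ((t - s) • Lg J')) := by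
    have hX : ∀ X : (Perm V → ℝ) →L[ℝ] (Perm V → ℝ), (-1 : ℝ) • X = -X := fun X => by
      ext; simp
    rw [hX]
    noncomm_ring
  refine h6.congr_deriv ?_
  rw [← e]
  rfl

theorem cmp : Pool.Agent.TH604.ST.S_CMP := by
  intro V _ _ J J' t β F hJ hJ' ht hβ hF
  have hu := norm_image_sub_le_of_norm_deriv_le_segment'
    (f := fun s : ℝ => (NormedSpace.exp (s • Lg J) * NormedSpace.exp ((t - s) • Lg J')) F 1)
    (f' := fun s : ℝ =>
      (NormedSpace.exp (s • Lg J) * ((Lg J - Lg J') * NormedSpace.exp ((t - s) • Lg J'))) F 1)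
    (a := 0) (b := t) (C := β * ∑ x, ∑ y, |J x y - J' x y| / 2)
    (fun s _ => (deriv_u J J' t F s).hasDerivWithinAt)
    (fun s hs => by
      rw [Real.norm_eq_abs]
      refine contr J hJ _ _ s hs.1 (fun g => ?_) 1
      exact diff_bdd J J' _ _ (oscL J' hJ' F β (t - s) (by linarith [hs.2]) hF) g)
    t ⟨ht, le_rfl⟩
  rw [stE_Lg, stE_Lg]
  simp only [sub_self, zero_smul, NormedSpace.exp_zero, mul_one, one_mul, sub_zero,
    Real.norm_eq_abs] at hu
  refine hu.trans (le_of_eq ?_)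
  ring

end

end Pool.Agent.TH604.ST.Cmp
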