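import Pool.Agent.TH604.ST.Stm3
import Pool.Agent.TH604.ST.Cent

/-!
# Independent copies of stirring
-/

set_option autoImplicit false

namespace Pool.Agent.TH604.ST.Cpy

open Finset Equiv Pool.Agent.W805.LR Pool.Agent.TH604.ST Pool.Agent.TH604.ST.Cent

section

variable {A B : Type}

/-- A permutation of every fibre gives a permutation of the product. -/
def cp : (B → Perm A) →* Perm (A × B) where
  toFun h := Equiv.prodCongrLeft h
  map_one' := by ext x <;> rfl
  map_mul' := by intro g h; ext x <;> rfl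

theorem cp_apply (h : B → Perm A) (a : A) (b : B) : cp h (a, b) = (h b a, b) := rfl

theorem swap_cp [DecidableEq A] [DecidableEq B] (h : B → Perm A) (a a' : A) (b : B) :
    swap (a, b) (a', b) * cp h = cp (Function.update h b (swap a a' * h b)) := by
  refine Equiv.ext ?_
  rintro ⟨u, v⟩
  rw [Perm.mul_apply, cp_apply, cp_apply]
  by_cases hv : v = b
  · subst hv
    rw [Function.update_self, Perm.mul_apply]
    simp only [swap_apply_def, Prod.mk.injEq, and_true]
    split_ifs <;> rfl
  · rw [Function.update_of_ne hv]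
    simp only [swap_apply_def, Prod.mk.injEq, hv, and_false, if_false]

theorem sc_cp (h : B → Perm A) (a a' : A) (b b' : B) :
    (cp h).SameCycle (a, b) (a', b') ↔ b' = b ∧ (h b).SameCycle a a' := by
  unfold Perm.SameCycle
  have h1 : ∀ i : ℤ, ((cp h) ^ i) (a, b) = (((h b) ^ i) a, b) := by
    intro i
    rw [← map_zpow, cp_apply, Pi.pow_apply]
  simp only [h1, Prod.mk.injEq]
  constructor
  · rintro ⟨i, h2, h3⟩
    exact ⟨h3.symm, i, h2⟩
  · rintro ⟨h3, i, h2⟩
    exact ⟨i, h2, h3.symm⟩

theorem len_cp [Fintype A] [Fintype B] (h : B → Perm A) (a : A) (b : B) :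
    len (cp h) (a, b) = len (h b) a := by
  classical
  unfold len cnt
  rw [Fintype.sum_prod_type]
  refine Finset.sum_congr rfl fun a' _ => ?_
  simp only [sc_cp]
  rw [Finset.sum_eq_single b]
  · simp
  · intro b' _ hb
    simp [hb]
  · simp

end

variable {A B : Type} [Fintype A] [DecidableEq A] [Fintype B] [DecidableEq B]

/-- The rates of the independent copies. -/
def J2 (B : Type) [DecidableEq B] (J : A → A → ℝ) : A × B → A × B → ℝ :=
  fun u v => if u.2 = v.2 then J u.1 v.1 else 0

omit [DecidableEq A] in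
theorem sum_J2 (J : A → A → ℝ) (f : A × B → A × B → ℝ) :
    ∑ u, ∑ v, J2 B J u v / 2 * f u v =
      ∑ b : B, ∑ a, ∑ a', J a a' / 2 * f (a, b) (a', b) := by
  rw [Fintype.sum_prod_type, Finset.sum_comm]
  refine Finset.sum_congr rfl fun b _ => Finset.sum_congr rfl fun a _ => ?_
  rw [Fintype.sum_prod_type]
  refine Finset.sum_congr rfl fun a' _ => ?_
  simp [J2, ite_div, ite_mul]

omit [DecidableEq A] in
theorem rate_J2 (J : A → A → ℝ) : rate (J2 B J) = (Fintype.card B : ℝ) * rate J := by
  unfold rate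
  have h := sum_J2 (B := B) J (fun _ _ => 1)
  simp only [mul_one] at h
  rw [h, Finset.sum_const, Finset.card_univ, nsmul_eq_mul]

/-- The operator in one fibre. -/
noncomputable def opA (B : Type) [Fintype B] (J : A → A → ℝ) : (Perm A → ℝ) →L[ℝ] (Perm A → ℝ) :=
  opP (wJ J) Tg + (((Fintype.card B : ℝ) - 1) * rate J) • 1

theorem op_cp (J : A → A → ℝ) (b : B) (G : Perm (A × B) → ℝ) (H : Perm A → ℝ)
    (hG : ∀ h, G (cp h) = H (h b)) (h : B → Perm A) :
    opP (wJ (J2 B J)) Tg G (cp h) = opA B J H (h b) := by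
  have e1 : opP (wJ (J2 B J)) Tg G (cp h) =
      ∑ u, ∑ v, J2 B J u v / 2 * G (swap u v * cp h) := by
    rw [opP_apply]
    unfold stp
    rw [Fintype.sum_prod_type]
    rfl
  have e2 : opA B J H (h b) =
      (∑ a, ∑ a', J a a' / 2 * H (swap a a' * h b)) +
        ((Fintype.card B : ℝ) - 1) * rate J * H (h b) := by
    unfold opA
    rw [add_apply, Pi.add_apply, smul_apply, Pi.smul_apply,
      smul_eq_mul, opP_apply]
    unfold stp
    rw [Fintype.sum_prod_type]
    rfl
  rw [e1, e2, sum_J2 J (fun u v => G (swap u v * cp h))]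
  have e3 : ∀ b1 : B, ∑ a, ∑ a', J a a' / 2 * G (swap (a, b1) (a', b1) * cp h) =
      rate J * H (h b) + if b1 = b then
        (∑ a, ∑ a', J a a' / 2 * H (swap a a' * h b)) - rate J * H (h b) else 0 := by
    intro b1
    by_cases hb : b1 = b
    · subst hb
      rw [if_pos rfl]
      simp only [swap_cp, hG, Function.update_self]
      ring
    · rw [if_neg hb, add_zero]
      simp only [swap_cp, hG, Function.update_of_ne (Ne.symm hb)]
      simp only [← Finset.sum_mul]
      rfl
  rw [Finset.sum_congr rfl fun b1 _ => e3 b1, Finset.sum_add_distrib, Finset.sum_const,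
    Finset.card_univ, nsmul_eq_mul, Finset.sum_ite_eq' univ b, if_pos (mem_univ b)]
  ring

theorem op_cp_pow (J : A → A → ℝ) (b : B) (n : ℕ) :
    ∀ (G : Perm (A × B) → ℝ) (H : Perm A → ℝ), (∀ h, G (cp h) = H (h b)) → ∀ h : B → Perm A,
      ((opP (wJ (J2 B J)) Tg) ^ n) G (cp h) = ((opA B J) ^ n) H (h b) := by
  induction n with
  | zero =>
    intro G H hG h
    simpa using hG h
  | succ n ih =>
    intro G H hG h
    rw [pow_succ, pow_succ]
    exact ih _ _ (fun h' => op_cp J b G H hG h') h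

theorem exp_cp (J : A → A → ℝ) (b : B) (t : ℝ) (G : Perm (A × B) → ℝ) (H : Perm A → ℝ)
    (hG : ∀ h, G (cp h) = H (h b)) (h : B → Perm A) :
    (NormedSpace.exp (t • opP (wJ (J2 B J)) Tg)) G (cp h) =
      (NormedSpace.exp (t • opA B J)) H (h b) := by
  have h1 := exp_hasSum (opP (wJ (J2 B J)) Tg) t G (cp h)
  have h2 := exp_hasSum (opA B J) t H (h b)
  simp only [op_cp_pow J b _ G H hG h] at h1
  exact h1.unique h2

theorem exp_opA (J : A → A → ℝ) (t : ℝ) (H : Perm A → ℝ) (g : Perm A) :
    (NormedSpace.exp (t • opA B J)) H g =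
      Real.exp (t * (((Fintype.card B : ℝ) - 1) * rate J)) *
        (NormedSpace.exp (t • opP (wJ J) Tg)) H g := by
  letI : NormedAlgebra ℚ ((Perm A → ℝ) →L[ℝ] (Perm A → ℝ)) :=
    NormedAlgebra.restrictScalars ℚ ℝ _
  have hc : Commute (t • opP (wJ J) (Tg (V := A)))
      (t • (((Fintype.card B : ℝ) - 1) * rate J) •
        (1 : (Perm A → ℝ) →L[ℝ] (Perm A → ℝ))) := by
    rw [smul_smul]
    exact (Commute.one_right _).smul_right _
  unfold opA
  rw [smul_add, NormedSpace.exp_add_of_commute hc, smul_smul,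
    ← Algebra.algebraMap_eq_smul_one, ← NormedSpace.algebraMap_exp_comm,
    Algebra.algebraMap_eq_smul_one, mul_smul_comm, mul_one, smul_apply, Pi.smul_apply,
    smul_eq_mul, Real.exp_eq_exp_ℝ]

theorem stE_cp (J : A → A → ℝ) (b : B) (t : ℝ) (G : Perm (A × B) → ℝ) (H : Perm A → ℝ)
    (hG : ∀ h, G (cp h) = H (h b)) : stE (J2 B J) t G = stE J t H := by
  rw [stE_eq, stE_eq, rate_J2]
  have h1 := exp_cp J b t G H hG 1
  rw [map_one, Pi.one_apply] at h1
  rw [h1, exp_opA, ← mul_assoc, ← Real.exp_add]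
  congr 2
  ring

theorem stE_sum {V ι : Type} [Fintype V] [DecidableEq V] [Fintype ι] (J : V → V → ℝ) (t c : ℝ)
    (F : ι → Perm V → ℝ) :
    stE J t (fun g => (∑ i, F i g) / c) = (∑ i, stE J t (F i)) / c := by
  unfold stE
  rw [← Finset.mul_sum, mul_div_assoc]
  congr 1
  rw [Finset.sum_comm, Finset.sum_div]
  refine Finset.sum_congr rfl fun g _ => ?_
  rw [← Finset.mul_sum, mul_div_assoc]

theorem cpy : S_CPY := by
  intro A B _ _ _ _ _ _ J t φ
  change stE (J2 B J) t _ = _
  have h1 : (fun g : Perm (A × B) => (∑ v, φ (len g v)) / nn (A × B)) =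
      fun g => (∑ b : B, ∑ a : A, φ (len g (a, b))) / nn (A × B) := by
    funext g
    rw [Fintype.sum_prod_type, Finset.sum_comm]
  have h2 : ∀ b : B, stE (J2 B J) t (fun g => ∑ a : A, φ (len g (a, b))) =
      stE J t (fun g => ∑ a : A, φ (len g a)) := by
    intro b
    refine stE_cp J b t _ _ fun h => ?_
    simp only [len_cp]
  have h3 : stE J t (fun g => (∑ v, φ (len g v)) / nn A) =
      stE J t (fun g => ∑ a : A, φ (len g a)) / nn A := by
    have := stE_sum (ι := Unit) J t (nn A) (fun _ g => ∑ a : A, φ (len g a))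
    simpa using this
  rw [h1, stE_sum, Finset.sum_congr rfl fun b _ => h2 b, Finset.sum_const, Finset.card_univ,
    nsmul_eq_mul, h3]
  have hA : nn A ≠ 0 := by
    unfold nn
    exact_mod_cast Fintype.card_ne_zero
  have hB : (Fintype.card B : ℝ) ≠ 0 := by exact_mod_cast Fintype.card_ne_zero
  have hAB : nn (A × B) = nn A * (Fintype.card B : ℝ) := by
    unfold nn
    rw [Fintype.card_prod]
    push_cast
    ring
  rw [hAB]
  field_simp

end Pool.Agent.TH604.ST.Cpy
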