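import Pool.Agent.TH604.ST.Stm3

/-!
# A torus of side `L M` is made of tori of side `L`, up to few edges
-/

set_option autoImplicit false
set_option linter.unusedSectionVars false

namespace Pool.Agent.TH604.ST.Geo

open Finset Equiv

section one

variable (L M : ℕ) [NeZero L] [NeZero M] [NeZero (L * M)]

/-- remainder and quotient -/
def e0 : ZMod (L * M) ≃ ZMod L × ZMod M where
  toFun x := (((x.val % L : ℕ) : ZMod L), ((x.val / L : ℕ) : ZMod M))
  invFun p := ((p.1.val + L * p.2.val : ℕ) : ZMod (L * M))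
  left_inv x := by
    have h1 : x.val < L * M := ZMod.val_lt x
    have h2 : x.val / L < M := Nat.div_lt_of_lt_mul h1
    simp only [ZMod.val_natCast]
    rw [Nat.mod_mod, Nat.mod_eq_of_lt h2, Nat.mod_add_div, ZMod.natCast_zmod_val]
  right_inv p := by
    obtain ⟨a, b⟩ := p
    have ha : a.val < L := ZMod.val_lt a
    have hb : b.val < M := ZMod.val_lt b
    have h1 : a.val + L * b.val < L * M := by
      calc a.val + L * b.val < L + L * b.val := by omega
        _ = L * (b.val + 1) := by ring
        _ ≤ L * M := Nat.mul_le_mul_left L hb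
    have hL : 0 < L := Nat.pos_of_ne_zero (NeZero.ne L)
    have e1 : (((a.val + L * b.val : ℕ) : ZMod (L * M))).val = a.val + L * b.val := by
      rw [ZMod.val_natCast, Nat.mod_eq_of_lt h1]
    simp only [e1]
    rw [Nat.add_mul_mod_self_left, Nat.mod_eq_of_lt ha, Nat.add_mul_div_left _ _ hL,
      Nat.div_eq_of_lt ha, zero_add, ZMod.natCast_zmod_val, ZMod.natCast_zmod_val]

theorem e0_one {x : ZMod (L * M)} (hx : x.val % L ≠ L - 1) :
    (e0 L M (x + 1)).1 = (e0 L M x).1 + 1 ∧ (e0 L M (x + 1)).2 = (e0 L M x).2 := by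
  have hL : 0 < L := Nat.pos_of_ne_zero (NeZero.ne L)
  have h1 : x.val < L * M := ZMod.val_lt x
  have h2 : x.val / L < M := Nat.div_lt_of_lt_mul h1
  have h3 : x.val % L < L := Nat.mod_lt _ hL
  have h4 : x.val % L + 1 < L := by omega
  have h5 : x.val + 1 = (x.val % L + 1) + L * (x.val / L) := by
    have := Nat.mod_add_div x.val L
    omega
  have h6 : x.val + 1 < L * M := by
    rw [h5]
    calc (x.val % L + 1) + L * (x.val / L) < L + L * (x.val / L) := by omega
      _ = L * (x.val / L + 1) := by ring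
      _ ≤ L * M := Nat.mul_le_mul_left L h2
  have e1 : (x + 1).val = x.val + 1 := by
    have e2 : x + 1 = ((x.val + 1 : ℕ) : ZMod (L * M)) := by
      rw [Nat.cast_add, ZMod.natCast_zmod_val, Nat.cast_one]
    rw [e2, ZMod.val_natCast, Nat.mod_eq_of_lt h6]
  constructor
  · show (((x + 1).val % L : ℕ) : ZMod L) = ((x.val % L : ℕ) : ZMod L) + 1
    rw [e1, h5, Nat.add_mul_mod_self_left, Nat.mod_eq_of_lt h4]
    push_cast
    rfl
  · show (((x + 1).val / L : ℕ) : ZMod M) = ((x.val / L : ℕ) : ZMod M)
    rw [e1]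
    congr 1
    conv_lhs => rw [h5]
    rw [Nat.add_mul_div_left _ _ hL, Nat.div_eq_of_lt h4, zero_add]

/-- the residues at the boundary -/
def bad : Finset (ZMod (L * M)) := Finset.univ.filter fun a => a.val % L = L - 1

theorem card_bad : (bad L M).card ≤ M := by
  have h := Finset.card_le_card_of_injOn (s := bad L M) (t := Finset.range M)
    (fun a => a.val / L) (fun a _ => by
      have h1 : a.val < L * M := ZMod.val_lt a
      exact Finset.mem_coe.2 (Finset.mem_range.2 (Nat.div_lt_of_lt_mul h1)))
    (fun a ha b hb hab => by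
      have ha' := (Finset.mem_filter.1 (Finset.mem_coe.1 ha)).2
      have hb' := (Finset.mem_filter.1 (Finset.mem_coe.1 hb)).2
      apply ZMod.val_injective
      have h1 := Nat.mod_add_div a.val L
      have h2 := Nat.mod_add_div b.val L
      rw [← h1, ← h2, ha', hb']
      simp only at hab
      rw [hab])
  rwa [Finset.card_range] at h

end one

section all

variable (d L M : ℕ) [NeZero L] [NeZero M] [NeZero (L * M)]

/-- the bijection -/
def E : (Fin d → ZMod (L * M)) ≃ (Fin d → ZMod L) × (Fin d → ZMod M) where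
  toFun x := (fun i => (e0 L M (x i)).1, fun i => (e0 L M (x i)).2)
  invFun p := fun i => (e0 L M).symm (p.1 i, p.2 i)
  left_inv x := by
    funext i
    simp
  right_inv p := by
    obtain ⟨a, b⟩ := p
    simp

variable {d L M}

theorem E_single {x : Fin d → ZMod (L * M)} {i : Fin d} (hx : (x i).val % L ≠ L - 1) :
    (E d L M (x + Pi.single i 1)).1 = (E d L M x).1 + Pi.single i 1 ∧
      (E d L M (x + Pi.single i 1)).2 = (E d L M x).2 := by
  have h := e0_one L M hx
  constructor
  · funext j
    show (e0 L M ((x + (Pi.single i 1 : Fin d → ZMod (L * M))) j)).1 =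
      (e0 L M (x j)).1 + (Pi.single i 1 : Fin d → ZMod L) j
    by_cases hj : j = i
    · subst hj
      rw [Pi.add_apply, Pi.single_eq_same, Pi.single_eq_same, h.1]
    · rw [Pi.add_apply, Pi.single_eq_of_ne hj, Pi.single_eq_of_ne hj, add_zero, add_zero]
  · funext j
    show (e0 L M ((x + (Pi.single i 1 : Fin d → ZMod (L * M))) j)).2 = (e0 L M (x j)).2
    by_cases hj : j = i
    · subst hj
      rw [Pi.add_apply, Pi.single_eq_same, h.2]
    · rw [Pi.add_apply, Pi.single_eq_of_ne hj, add_zero]

/-- edges in the direction `i` -/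
noncomputable def A (i : Fin d) (x y : Fin d → ZMod (L * M)) : ℝ :=
  if y = x + Pi.single i 1 then 1 else 0

/-- edges in the direction `i` in the copies -/
noncomputable def A' (i : Fin d) (x y : Fin d → ZMod (L * M)) : ℝ :=
  if (E d L M y).2 = (E d L M x).2 ∧ (E d L M y).1 = (E d L M x).1 + Pi.single i 1 then 1 else 0

theorem A_eq {x : Fin d → ZMod (L * M)} {i : Fin d} (hx : (x i).val % L ≠ L - 1)
    (y : Fin d → ZMod (L * M)) : A i x y = A' i x y := by
  unfold A A'
  obtain ⟨h1, h2⟩ := E_single hx
  have : y = x + Pi.single i 1 ↔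
      ((E d L M y).2 = (E d L M x).2 ∧ (E d L M y).1 = (E d L M x).1 + Pi.single i 1) := by
    constructor
    · rintro rfl
      exact ⟨h2, h1⟩
    · rintro ⟨h3, h4⟩
      apply (E d L M).injective
      exact Prod.ext (h4.trans h1.symm) (h3.trans h2.symm)
  simp only [this]

theorem A_sum (x : Fin d → ZMod (L * M)) (i : Fin d) : ∑ y, |A i x y| ≤ 1 := by
  unfold A
  rw [Finset.sum_eq_single (x + Pi.single i 1)]
  · rw [if_pos rfl, abs_one]
  · intro y _ hy
    rw [if_neg hy, abs_zero]
  · intro h
    exact absurd (Finset.mem_univ _) h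

theorem A'_sum (x : Fin d → ZMod (L * M)) (i : Fin d) : ∑ y, |A' i x y| ≤ 1 := by
  unfold A'
  set z := (E d L M).symm ((E d L M x).1 + Pi.single i 1, (E d L M x).2) with hz
  rw [Finset.sum_eq_single z]
  · split_ifs <;> simp
  · intro y _ hy
    rw [if_neg, abs_zero]
    rintro ⟨h1, h2⟩
    apply hy
    rw [hz, Equiv.eq_symm_apply]
    exact Prod.ext h2 h1
  · intro h
    exact absurd (Finset.mem_univ _) h

theorem dir_sum (i : Fin d) :
    ∑ x, ∑ y, |A (L := L) (M := M) i x y - A' i x y| ≤ 2 * (M * ((L * M : ℕ) : ℝ) ^ (d - 1)) := by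
  classical
  have h1 : ∀ x : Fin d → ZMod (L * M), ∑ y, |A i x y - A' i x y| ≤
      if x i ∈ bad L M then 2 else 0 := by
    intro x
    split_ifs with h
    · calc ∑ y, |A i x y - A' i x y| ≤ ∑ y, (|A i x y| + |A' i x y|) :=
            Finset.sum_le_sum fun y _ => abs_sub _ _
        _ = ∑ y, |A i x y| + ∑ y, |A' i x y| := Finset.sum_add_distrib
        _ ≤ 1 + 1 := add_le_add (A_sum x i) (A'_sum x i)
        _ = 2 := by norm_num
    · have h2 : (x i).val % L ≠ L - 1 := fun h3 => h (Finset.mem_filter.2 ⟨Finset.mem_univ _, h3⟩)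
      refine le_of_eq (Finset.sum_eq_zero fun y _ => ?_)
      rw [A_eq h2, sub_self, abs_zero]
  refine (Finset.sum_le_sum fun x _ => h1 x).trans ?_
  rw [← Finset.sum_filter, Finset.sum_const, nsmul_eq_mul, mul_comm]
  refine mul_le_mul_of_nonneg_left ?_ (by norm_num)
  have h2 : (Finset.univ.filter fun x : Fin d → ZMod (L * M) => x i ∈ bad L M) =
      Fintype.piFinset fun j => if j = i then bad L M else Finset.univ := by
    ext x
    rw [Finset.mem_filter, Fintype.mem_piFinset]
    constructor
    · rintro ⟨-, h⟩ j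
      split_ifs with hj
      · rw [hj]; exact h
      · exact Finset.mem_univ _
    · intro h
      refine ⟨Finset.mem_univ _, ?_⟩
      have := h i
      rwa [if_pos rfl] at this
  have h3 : (Finset.univ.filter fun x : Fin d → ZMod (L * M) => x i ∈ bad L M).card ≤
      M * (L * M) ^ (d - 1) := by
    rw [h2, Fintype.card_piFinset, Fintype.prod_eq_mul_prod_compl i, if_pos rfl]
    refine Nat.mul_le_mul (card_bad L M) (le_of_eq ?_)
    have h4 : ∀ j ∈ ({i} : Finset (Fin d))ᶜ,
        (if j = i then bad L M else (Finset.univ : Finset (ZMod (L * M)))).card = L * M := by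
      intro j hj
      rw [Finset.mem_compl, Finset.mem_singleton] at hj
      rw [if_neg hj, Finset.card_univ, ZMod.card]
    rw [Finset.prod_congr rfl h4, Finset.prod_const, Finset.card_compl, Fintype.card_fin,
      Finset.card_singleton]
  exact_mod_cast h3

end all

theorem geo : Pool.Agent.TH604.ST.S_GEO := by
  intro d L M N _ _ _ hN
  subst hN
  refine ⟨E d L M, ?_⟩
  have hL : (0 : ℝ) < L := by
    have := Nat.pos_of_ne_zero (NeZero.ne L)
    exact_mod_cast this
  have e1 : ∀ x y, nrs d (L * M) x y = ∑ i, (A (L := L) (M := M) i x y + A i y x) := fun x y => rfl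
  have e2 : ∀ x y : Fin d → ZMod (L * M), (if (E d L M x).2 = (E d L M y).2 then
      nrs d L (E d L M x).1 (E d L M y).1 else 0) = ∑ i, (A' i x y + A' i y x) := by
    intro x y
    unfold A' nrs
    split_ifs with h
    · refine Finset.sum_congr rfl fun i _ => ?_
      simp only [h, true_and]
    · symm
      refine Finset.sum_eq_zero fun i _ => ?_
      rw [if_neg (fun h' => h h'.1.symm), if_neg (fun h' => h h'.1), add_zero]
  have h1 : ∀ x y : Fin d → ZMod (L * M), |nrs d (L * M) x y - (if (E d L M x).2 = (E d L M y).2 then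
      nrs d L (E d L M x).1 (E d L M y).1 else 0)| / 2 ≤
      ∑ i, (|A i x y - A' i x y| / 2 + |A i y x - A' i y x| / 2) := by
    intro x y
    rw [e1, e2, ← Finset.sum_sub_distrib, div_le_iff₀ (by norm_num), Finset.sum_mul]
    refine (Finset.abs_sum_le_sum_abs _ _).trans (Finset.sum_le_sum fun i _ => ?_)
    have h2 : A i x y + A i y x - (A' i x y + A' i y x) =
        (A i x y - A' i x y) + (A i y x - A' i y x) := by ring
    rw [h2]
    refine (abs_add_le _ _).trans (le_of_eq ?_)
    ring
  calc ∑ x, ∑ y, |nrs d (L * M) x y - (if (E d L M x).2 = (E d L M y).2 then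
        nrs d L (E d L M x).1 (E d L M y).1 else 0)| / 2
      ≤ ∑ x, ∑ y, ∑ i, (|A i x y - A' i x y| / 2 + |A i y x - A' i y x| / 2) :=
        Finset.sum_le_sum fun x _ => Finset.sum_le_sum fun y _ => h1 x y
    _ = ∑ i : Fin d, ∑ x, ∑ y, |A (L := L) (M := M) i x y - A' i x y| := by
        have h3 : ∀ i : Fin d, ∑ x, ∑ y, |A (L := L) (M := M) i y x - A' i y x| / 2 =
            ∑ x, ∑ y, |A (L := L) (M := M) i x y - A' i x y| / 2 := fun i => Finset.sum_comm
        calc ∑ x, ∑ y, ∑ i, (|A (L := L) (M := M) i x y - A' i x y| / 2 + |A i y x - A' i y x| / 2)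
            = ∑ x : Fin d → ZMod (L * M), ∑ i, ∑ y, (|A (L := L) (M := M) i x y - A' i x y| / 2 + |A i y x - A' i y x| / 2) :=
              Finset.sum_congr rfl fun x _ => Finset.sum_comm
          _ = ∑ i, ∑ x : Fin d → ZMod (L * M), ∑ y, (|A (L := L) (M := M) i x y - A' i x y| / 2 + |A i y x - A' i y x| / 2) :=
              Finset.sum_comm
          _ = _ := by
              refine Finset.sum_congr rfl fun i _ => ?_
              simp only [Finset.sum_add_distrib]
              rw [h3 i, ← Finset.sum_add_distrib]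
              refine Finset.sum_congr rfl fun x _ => ?_
              rw [← Finset.sum_add_distrib]
              refine Finset.sum_congr rfl fun y _ => ?_
              ring
    _ ≤ ∑ _i : Fin d, 2 * (M * ((L * M : ℕ) : ℝ) ^ (d - 1)) :=
        Finset.sum_le_sum fun i _ => dir_sum i
    _ = 2 * d * ((L * M : ℕ) : ℝ) ^ d / L := by
        rw [Finset.sum_const, Finset.card_univ, Fintype.card_fin, nsmul_eq_mul]
        rcases Nat.eq_zero_or_pos d with h | h
        · subst h
          simp
        · obtain ⟨k, rfl⟩ : ∃ k, d = k + 1 := ⟨d - 1, by omega⟩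
          rw [Nat.add_sub_cancel, pow_succ]
          push_cast
          field_simp

end Pool.Agent.TH604.ST.Geo
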