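import Pool.Agent.TH604.ST.Stm3

/-!
# Relabelling invariance of stirring
-/

set_option autoImplicit false
set_option linter.unusedSectionVars false

namespace Pool.Agent.TH604.ST.Rlb

open Finset Equiv Pool.Agent.W805.LR Pool.Agent.TH604.ST

variable {V W : Type} [Fintype V] [DecidableEq V] [Fintype W] [DecidableEq W]

theorem cg_swap (e : V ≃ W) (x y : V) : e.permCongr (swap x y) = swap (e x) (e y) :=
  Equiv.symm_trans_swap_trans x y e

theorem cg_mul (e : V ≃ W) (g h : Perm V) :
    e.permCongr (g * h) = e.permCongr g * e.permCongr h := by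
  ext x
  simp [Equiv.permCongr_apply]

theorem cg_one (e : V ≃ W) : e.permCongr (1 : Perm V) = 1 := by
  ext x
  simp [Equiv.permCongr_apply]

theorem ringSum_cg (e : V ≃ W) (J : W → W → ℝ) (m : ℕ) (g : Perm V) :
    ringSum (fun x y : V => J (e x) (e y)) m g = ringSum J m (e.permCongr g) := by
  classical
  induction m generalizing g with
  | zero =>
    have h : g = 1 ↔ e.permCongr g = 1 := by
      constructor
      · rintro rfl; exact cg_one e
      · intro h
        apply e.permCongr.injective
        rw [h, cg_one]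
    simp only [ringSum]
    by_cases h1 : g = 1
    · rw [if_pos h1, if_pos (h.1 h1)]
    · rw [if_neg h1, if_neg fun h2 => h1 (h.2 h2)]
  | succ m ih =>
    simp only [ringSum]
    rw [← Equiv.sum_comp e]
    refine Finset.sum_congr rfl fun x _ => ?_
    rw [← Equiv.sum_comp e]
    refine Finset.sum_congr rfl fun y _ => ?_
    rw [ih, cg_mul, cg_swap]

theorem stirMass_cg (e : V ≃ W) (J : W → W → ℝ) (t : ℝ) (g : Perm V) :
    stirMass (fun x y : V => J (e x) (e y)) t g = stirMass J t (e.permCongr g) := by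
  unfold stirMass
  exact tsum_congr fun m => by rw [ringSum_cg]

theorem rate_cg (e : V ≃ W) (J : W → W → ℝ) :
    rate (fun x y : V => J (e x) (e y)) = rate J := by
  unfold rate
  rw [← Equiv.sum_comp e]
  refine Finset.sum_congr rfl fun x _ => ?_
  rw [← Equiv.sum_comp e]

theorem zpow_cg (e : V ≃ W) (g : Perm V) (i : ℤ) (v : V) :
    ((e.permCongr g) ^ i) (e v) = e ((g ^ i) v) := by
  have h : (e.permCongr g) ^ i = e.permCongr (g ^ i) := by
    have h1 := map_zpow (⟨⟨e.permCongr, cg_one e⟩, cg_mul e⟩ : Perm V →* Perm W) g i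
    exact h1.symm
  rw [h, Equiv.permCongr_apply, Equiv.symm_apply_apply]

theorem sameCycle_cg (e : V ≃ W) (g : Perm V) (v w : V) :
    (e.permCongr g).SameCycle (e v) (e w) ↔ g.SameCycle v w := by
  constructor
  · rintro ⟨i, hi⟩
    rw [zpow_cg] at hi
    exact ⟨i, e.injective hi⟩
  · rintro ⟨i, hi⟩
    exact ⟨i, by rw [zpow_cg, hi]⟩

theorem len_cg (e : V ≃ W) (g : Perm V) (v : V) : len (e.permCongr g) (e v) = len g v := by
  classical
  unfold len cnt
  rw [← Equiv.sum_comp e]
  refine Finset.sum_congr rfl fun w _ => ?_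
  by_cases h : g.SameCycle v w
  · rw [if_pos h, if_pos ((sameCycle_cg e g v w).2 h)]
  · rw [if_neg h, if_neg fun h1 => h ((sameCycle_cg e g v w).1 h1)]

theorem rlb : Pool.Agent.TH604.ST.S_RLB := by
  intro V W _ _ _ _ e J t φ
  unfold stE
  rw [rate_cg, ← Equiv.sum_comp e.permCongr]
  congr 1
  refine Finset.sum_congr rfl fun g _ => ?_
  rw [stirMass_cg]
  congr 1
  have h1 : nn V = nn W := by
    unfold nn
    rw [Fintype.card_congr e]
  rw [h1]
  beta_reduce
  congr 1
  rw [← Equiv.sum_comp e (fun w => φ (len (e.permCongr g) w))]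
  simp only [len_cg]

end Pool.Agent.TH604.ST.Rlb
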