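import Pool.Agent.TH604.ST.Asm10
import Pool.Agent.TH604.ST.Cmp
import Pool.Agent.TH604.ST.Cpy
import Pool.Agent.TH604.ST.Rlb
import Pool.Agent.TH604.ST.Geo

/-!
# Mean-field perturbation of random stirring: long cycles on the nearest neighbour torus
-/

set_option autoImplicit false
set_option maxHeartbeats 400000

namespace Pool.Agent.TH604.ST

open Finset Equiv Pool.Agent.W805.LR MeasureTheory Filter Topology

section gen

variable {V : Type} [Fintype V] [DecidableEq V]

lemma pert_nonneg [Nonempty V] {J : V → V → ℝ} (hJ : ∀ x y, 0 ≤ J x y) {lam : ℝ}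
    (hl : 0 ≤ lam) (u v : V) : 0 ≤ pert J lam u v := by
  unfold pert
  split_ifs
  · exact le_rfl
  · exact add_nonneg (hJ u v) (div_nonneg hl nn_pos.le)

lemma stE_sum (J : V → V → ℝ) (t : ℝ) (k : ℕ) (F : ℕ → Perm V → ℝ) :
    stE J t (fun g => ∑ i ∈ range k, F i g) = ∑ i ∈ range k, stE J t (F i) := by
  unfold stE
  simp only [Finset.mul_sum]
  rw [Finset.sum_comm]

lemma cfr_nonneg [Nonempty V] (g : Perm V) (i : ℕ) :
    0 ≤ Pool.Agent.TH268.PD.top (Pool.Agent.TH268.PD.frac g) i := by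
  refine Pool.Agent.TH268.PD.top_nonneg _ (fun γ => ?_) i
  unfold Pool.Agent.TH268.PD.frac
  positivity

lemma cfr_le_one [Nonempty V] (g : Perm V) (i : ℕ) :
    Pool.Agent.TH268.PD.top (Pool.Agent.TH268.PD.frac g) i ≤ 1 := by
  refine Pool.Agent.TH268.PD.top_le_one _ (fun γ => ?_) (fun γ => ?_) i
  · unfold Pool.Agent.TH268.PD.frac
    positivity
  · unfold Pool.Agent.TH268.PD.frac
    have hcard : (0 : ℝ) < Fintype.card V := nn_pos
    rw [div_le_one hcard]
    have h5 : Nat.card {w : V // Pool.Agent.TH268.PD.cyOf g w = γ} ≤ Fintype.card V := by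
      rw [← Nat.card_eq_fintype_card]
      exact Nat.card_le_card_of_injective _ Subtype.val_injective
    exact_mod_cast h5

end gen

lemma tend_zero_of {f : ℕ → ℝ} (h0 : ∀ L, 0 ≤ f L)
    (h : ∀ e : ℝ, 0 < e → ∀ᶠ L in atTop, f L ≤ e) : Tendsto f atTop (𝓝 0) := by
  rw [Metric.tendsto_atTop]
  intro e he
  obtain ⟨N, hN⟩ := eventually_atTop.1 (h (e / 2) (by positivity))
  refine ⟨N, fun L hL => ?_⟩
  rw [Real.dist_eq, sub_zero, abs_of_nonneg (h0 L)]
  exact lt_of_le_of_lt (hN L hL) (by linarith)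

lemma tend_of {f : ℕ → ℝ} {a : ℝ}
    (h : ∀ e : ℝ, 0 < e → ∀ᶠ L in atTop, |f L - a| ≤ e) : Tendsto f atTop (𝓝 a) := by
  rw [Metric.tendsto_atTop]
  intro e he
  obtain ⟨N, hN⟩ := eventually_atTop.1 (h (e / 2) (by positivity))
  refine ⟨N, fun L hL => ?_⟩
  rw [Real.dist_eq]
  exact lt_of_le_of_lt (hN L hL) (by linarith)

section tor

variable (d : ℕ) (hd : 1 ≤ d) {t : ℝ} (ht : 0 < t)

include ht

lemma q_tendsto {lam : ℝ} (hl : 0 < lam) :
    Tendsto (fun L => rootL d L t lam) atTop (𝓝 (mlim d t lam)) :=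
  rootL_tendsto Cmp.cmp Cpy.cpy Rlb.rlb Geo.geo d ht hl

include hd

lemma tor_mass {lam η : ℝ} (hl : 0 < lam) (hη : 0 < η) :
    ∃ K₀ > (0 : ℝ), ∃ δ₀ > (0 : ℝ), ∀ᶠ L : ℕ in atTop, ∀ s : ℝ, K₀ ≤ s →
      s ≤ δ₀ * nn (Fin d → ZMod (L + 1)) →
      stE (pert (nrs d (L + 1)) lam) t (fun g => (frac s g - mlim d t lam) ^ 2) ≤ η := by
  obtain ⟨K₀, hK₀, δ₀, hδ₀, N₀, H⟩ := macro_law 0 (fun _ => 0) continuous_const 1
    (fun _ => by simp) (D := d) ht hl (le_refl lam) (show (0 : ℝ) < η / 4 by positivity)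
  refine ⟨K₀, hK₀, δ₀, hδ₀, ?_⟩
  have h1 : ∀ᶠ L in atTop, (rootL d L t lam - mlim d t lam) ^ 2 ≤ η / 4 := by
    have h2 : Tendsto (fun L => (rootL d L t lam - mlim d t lam) ^ 2) atTop (𝓝 0) := by
      have := ((q_tendsto d ht hl).sub_const (mlim d t lam)).pow 2
      simpa using this
    exact h2.eventually (eventually_le_nhds (by positivity))
  filter_upwards [h1, nn_large d hd N₀] with L hL hN s hs1 hs2
  have h2 := (H (Fin d → ZMod (L + 1)) hN (nrs d (L + 1)) (nrs_nonneg d (L + 1))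
    (le_of_eq (nrs_rate d (L + 1))) lam le_rfl le_rfl _ (rootL_spec d L ht hl.le)).1 s hs1 hs2
  have hv := p_vj _ (pert (nrs d (L + 1)) lam) t
    (fun u v => pert_nonneg (nrs_nonneg d (L + 1)) hl.le u v) ht.le
  have h3 := stE_mono hv.2.1 (F := fun g => (frac s g - mlim d t lam) ^ 2)
    (G := fun g => 2 * (frac s g - rootL d L t lam) ^ 2 +
      (2 * (rootL d L t lam - mlim d t lam) ^ 2) * 1) (fun g => by
        nlinarith [sq_nonneg ((frac s g - rootL d L t lam) -
          (rootL d L t lam - mlim d t lam))])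
  rw [stE_lin (pert (nrs d (L + 1)) lam) t 2 (2 * (rootL d L t lam - mlim d t lam) ^ 2)
    (fun g => (frac s g - rootL d L t lam) ^ 2) (fun _ => 1), hv.1] at h3
  linarith

/-- No macroscopic cycles when the limit mass vanishes. -/
theorem tor_sub {lam : ℝ} (hl : 0 < lam) (h0 : mlim d t lam = 0) (i : ℕ) {ε : ℝ} (hε : 0 < ε) :
    Tendsto (fun L : ℕ => stE (pert (nrs d (L + 1)) lam) t (fun g => open Classical in
      if ε ≤ Pool.Agent.TH268.PD.top (Pool.Agent.TH268.PD.frac g) i then (1 : ℝ) else 0))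
      atTop (𝓝 0) := by
  classical
  refine tend_zero_of (fun L => ?_) fun e he => ?_
  · have hv := p_vj _ (pert (nrs d (L + 1)) lam) t
      (fun u v => pert_nonneg (nrs_nonneg d (L + 1)) hl.le u v) ht.le
    have h1 := stE_mono hv.2.1 (F := fun _ => 0) (G := fun g => open Classical in
      if ε ≤ Pool.Agent.TH268.PD.top (Pool.Agent.TH268.PD.frac g) i then (1 : ℝ) else 0)
      (fun g => by split_ifs <;> norm_num)
    rw [stE_const hv.1] at h1
    exact h1
  · obtain ⟨K₀, hK₀, δ₀, hδ₀, H⟩ := tor_mass d hd ht hl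
      (show (0 : ℝ) < e * ε ^ 2 / 4 by positivity)
    obtain ⟨δ, hδ⟩ : ∃ δ, δ = min δ₀ (ε / 2) := ⟨_, rfl⟩
    have hδp : 0 < δ := by rw [hδ]; exact lt_min hδ₀ (by positivity)
    have hδ1 : δ ≤ δ₀ := by rw [hδ]; exact min_le_left _ _
    have hδ2 : δ ≤ ε / 2 := by rw [hδ]; exact min_le_right _ _
    filter_upwards [H, nn_large d hd (K₀ / δ)] with L hL hN
    have hn : (0 : ℝ) < nn (Fin d → ZMod (L + 1)) := nn_pos
    rw [div_le_iff₀ hδp] at hN
    have h1 := hL (δ * nn (Fin d → ZMod (L + 1))) (by linarith)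
      (mul_le_mul_of_nonneg_right hδ1 hn.le)
    rw [h0] at h1
    have hv := p_vj _ (pert (nrs d (L + 1)) lam) t
      (fun u v => pert_nonneg (nrs_nonneg d (L + 1)) hl.le u v) ht.le
    have h2 := stE_mono hv.2.1 (F := fun g => open Classical in
      if ε ≤ Pool.Agent.TH268.PD.top (Pool.Agent.TH268.PD.frac g) i then (1 : ℝ) else 0)
      (G := fun g => (4 / ε ^ 2) * (frac (δ * nn (Fin d → ZMod (L + 1))) g - 0) ^ 2 + 0 * 1)
      (fun g => by
        have a0 := frac_nonneg (δ * nn (Fin d → ZMod (L + 1))) g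
        split_ifs with hc
        · have a1 := (Pool.Agent.TH268.PD.top_le_mas g δ hδp.le i).2
          have a2 : Pool.Agent.TH268.PD.mas (δ * (Fintype.card (Fin d → ZMod (L + 1)) : ℝ)) g =
            frac (δ * nn (Fin d → ZMod (L + 1))) g := rfl
          rw [a2] at a1
          have a3 : ε / 2 ≤ frac (δ * nn (Fin d → ZMod (L + 1))) g := by linarith
          have a4 : (ε / 2) ^ 2 ≤ frac (δ * nn (Fin d → ZMod (L + 1))) g ^ 2 :=
            pow_le_pow_left₀ (by positivity) a3 2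
          have a5 : 4 / ε ^ 2 * (ε / 2) ^ 2 = 1 := by field_simp; norm_num
          have a6 : 4 / ε ^ 2 * (ε / 2) ^ 2 ≤ 4 / ε ^ 2 *
            frac (δ * nn (Fin d → ZMod (L + 1))) g ^ 2 :=
            mul_le_mul_of_nonneg_left a4 (by positivity)
          rw [sub_zero]
          linarith
        · positivity)
    rw [stE_lin (pert (nrs d (L + 1)) lam) t (4 / ε ^ 2) 0
      (fun g => (frac (δ * nn (Fin d → ZMod (L + 1))) g - 0) ^ 2) (fun _ => 1)] at h2
    refine h2.trans ?_
    have h3 : 4 / ε ^ 2 * stE (pert (nrs d (L + 1)) lam) t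
        (fun g => (frac (δ * nn (Fin d → ZMod (L + 1))) g - 0) ^ 2) ≤
        4 / ε ^ 2 * (e * ε ^ 2 / 4) := mul_le_mul_of_nonneg_left h1 (by positivity)
    have h4 : 4 / ε ^ 2 * (e * ε ^ 2 / 4) = e := by field_simp
    linarith

/-- Every ordered cycle is macroscopic when the limit mass is positive. -/
theorem tor_sup {lam : ℝ} (hl : 0 < lam) (h0 : 0 < mlim d t lam) (i : ℕ) :
    ∃ ε₀ : ℝ, 0 < ε₀ ∧ ∀ ε : ℝ, 0 < ε → ε < ε₀ →
      0 < Filter.liminf (fun L : ℕ => stE (pert (nrs d (L + 1)) lam) t (fun g =>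
        open Classical in
        if ε ≤ Pool.Agent.TH268.PD.top (Pool.Agent.TH268.PD.frac g) i then (1 : ℝ) else 0))
        atTop := by
  classical
  obtain ⟨ε₁, hε₁, hpos⟩ := Ppos.ppos (i + 1) (Fin.last i)
  obtain ⟨f, hf⟩ : ∃ f : (Fin (i + 1) → ℝ) → ℝ,
    f = fun u => min 1 (max 0 (u (Fin.last i) / ε₁ - 1)) := ⟨_, rfl⟩
  rw [← hf] at hpos
  have hfc : Continuous f := by
    rw [hf]
    fun_prop
  have hf0 : ∀ u, 0 ≤ f u := fun u => by
    rw [hf]
    exact le_min zero_le_one (le_max_left _ _)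
  have hf1 : ∀ u, |f u| ≤ 1 := fun u => by
    rw [abs_of_nonneg (hf0 u), hf]
    exact min_le_left _ _
  have hc : 0 < mlim d t lam / 2 := by positivity
  obtain ⟨N₀, H⟩ := norm_law (i + 1) f hfc 1 hf1 (D := d) ht hl (le_refl lam)
    (show (0 : ℝ) < Pool.Agent.TH268.PD.pdm f / 2 by positivity) hc
  refine ⟨ε₁ * (mlim d t lam / 2), by positivity, fun ε hε hε2 => ?_⟩
  have hev : ∀ᶠ L : ℕ in atTop, Pool.Agent.TH268.PD.pdm f / 2 ≤
      stE (pert (nrs d (L + 1)) lam) t (fun g => open Classical in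
        if ε ≤ Pool.Agent.TH268.PD.top (Pool.Agent.TH268.PD.frac g) i then (1 : ℝ) else 0) := by
    have h1 : ∀ᶠ L in atTop, mlim d t lam / 2 ≤ rootL d L t lam :=
      (q_tendsto d ht hl).eventually (eventually_ge_nhds (by linarith))
    filter_upwards [h1, nn_large d hd N₀] with L hL hN
    have h2 := H (Fin d → ZMod (L + 1)) hN (nrs d (L + 1)) (nrs_nonneg d (L + 1))
      (le_of_eq (nrs_rate d (L + 1))) lam le_rfl le_rfl _ (rootL_spec d L ht hl.le) hL
    have hv := p_vj _ (pert (nrs d (L + 1)) lam) t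
      (fun u v => pert_nonneg (nrs_nonneg d (L + 1)) hl.le u v) ht.le
    have h3 := stE_mono hv.2.1 (F := fun g => f (fun j => Pool.Agent.TH268.PD.top
      (Pool.Agent.TH268.PD.frac g) j / rootL d L t lam)) (G := fun g => open Classical in
      if ε ≤ Pool.Agent.TH268.PD.top (Pool.Agent.TH268.PD.frac g) i then (1 : ℝ) else 0)
      (fun g => by
        split_ifs with hcc
        · exact (le_abs_self _).trans (hf1 _)
        · push Not at hcc
          have hq0 : 0 < rootL d L t lam := lt_of_lt_of_le hc hL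
          have a1 : Pool.Agent.TH268.PD.top (Pool.Agent.TH268.PD.frac g) i /
              rootL d L t lam / ε₁ - 1 ≤ 0 := by
            rw [sub_nonpos, div_div, div_le_one (by positivity)]
            have a2 : ε₁ * (mlim d t lam / 2) ≤ rootL d L t lam * ε₁ := by nlinarith
            linarith
          have a3 : f (fun j => Pool.Agent.TH268.PD.top
              (Pool.Agent.TH268.PD.frac g) j / rootL d L t lam) = 0 := by
            rw [hf]
            have a4 : ((Fin.last i : Fin (i + 1)) : ℕ) = i := Fin.val_last i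
            show min 1 (max 0 (Pool.Agent.TH268.PD.top (Pool.Agent.TH268.PD.frac g)
              ((Fin.last i : Fin (i + 1)) : ℕ) / rootL d L t lam / ε₁ - 1)) = 0
            rw [a4, max_eq_left a1]
            exact min_eq_right zero_le_one
          exact le_of_eq a3)
    have h4 := (abs_le.1 h2).1
    linarith
  have hcob : IsCoboundedUnder (· ≥ ·) atTop (fun L : ℕ =>
      stE (pert (nrs d (L + 1)) lam) t (fun g => open Classical in
        if ε ≤ Pool.Agent.TH268.PD.top (Pool.Agent.TH268.PD.frac g) i then (1 : ℝ) else 0)) := by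
    have hb : IsBoundedUnder (· ≤ ·) atTop (fun L : ℕ =>
      stE (pert (nrs d (L + 1)) lam) t (fun g => open Classical in
        if ε ≤ Pool.Agent.TH268.PD.top (Pool.Agent.TH268.PD.frac g) i then (1 : ℝ) else 0)) := by
      refine isBoundedUnder_of ⟨1, fun L => ?_⟩
      have hv := p_vj _ (pert (nrs d (L + 1)) lam) t
        (fun u v => pert_nonneg (nrs_nonneg d (L + 1)) hl.le u v) ht.le
      have h3 := stE_mono hv.2.1 (F := fun g => open Classical in
        if ε ≤ Pool.Agent.TH268.PD.top (Pool.Agent.TH268.PD.frac g) i then (1 : ℝ) else 0)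
        (G := fun _ => 1) (fun g => by split_ifs <;> norm_num)
      rw [hv.1] at h3
      exact h3
    exact hb.isCoboundedUnder_ge
  exact lt_of_lt_of_le (by positivity) (le_liminf_of_le hcob hev)

/-- The expected sums of the largest cycles. -/
theorem tor_sum (htop : S_TOP) {lam : ℝ} (hl : 0 < lam) :
    ∃ S : ℕ → ℝ, (∀ k : ℕ, Tendsto (fun L : ℕ => ∑ i ∈ range k,
      stE (pert (nrs d (L + 1)) lam) t (fun g =>
        Pool.Agent.TH268.PD.top (Pool.Agent.TH268.PD.frac g) i)) atTop (𝓝 (S k))) ∧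
      Tendsto S atTop (𝓝 (mlim d t lam)) := by
  obtain ⟨m, hm⟩ : ∃ m, m = mlim d t lam := ⟨_, rfl⟩
  have hmb := mlim_bd Cmp.cmp Cpy.cpy Rlb.rlb Geo.geo d ht hl
  rw [← hm] at hmb
  have hq := q_tendsto d ht hl
  rw [← hm] at hq ⊢
  obtain ⟨f, hf⟩ : ∃ f : (k : ℕ) → (Fin k → ℝ) → ℝ,
    f = fun k u => ∑ i, max 0 (min 1 (u i)) := ⟨_, rfl⟩
  have hfc : ∀ k, Continuous (f k) := fun k => by
    rw [hf]
    fun_prop
  have hfb : ∀ k u, |f k u| ≤ k := fun k u => by
    rw [hf]
    have h1 : ∀ i : Fin k, 0 ≤ max 0 (min 1 (u i)) := fun i => le_max_left _ _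
    have h2 : ∀ i : Fin k, max 0 (min 1 (u i)) ≤ 1 := fun i =>
      max_le zero_le_one (min_le_left _ _)
    rw [abs_of_nonneg (Finset.sum_nonneg fun i _ => h1 i)]
    calc ∑ i : Fin k, max 0 (min 1 (u i)) ≤ ∑ _i : Fin k, (1 : ℝ) :=
          Finset.sum_le_sum fun i _ => h2 i
      _ = k := by simp
  have hfp : ∀ (k L : ℕ) (g : Perm (Fin d → ZMod (L + 1))),
      f k (fun i => Pool.Agent.TH268.PD.top (Pool.Agent.TH268.PD.frac g) i) =
      ∑ i ∈ range k, Pool.Agent.TH268.PD.top (Pool.Agent.TH268.PD.frac g) i := by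
    intro k L g
    rw [hf, ← Fin.sum_univ_eq_sum_range
      (fun i => Pool.Agent.TH268.PD.top (Pool.Agent.TH268.PD.frac g) i) k]
    refine Finset.sum_congr rfl fun i _ => ?_
    rw [min_eq_right (cfr_le_one g i), max_eq_right (cfr_nonneg g i)]
  obtain ⟨S, hS⟩ : ∃ S : ℕ → ℝ, S = fun k => Pool.Agent.TH268.PD.pdm
    (fun u : Fin k → ℝ => f k (fun i => m * u i)) := ⟨_, rfl⟩
  have hlim : ∀ k : ℕ, Tendsto (fun L : ℕ => ∑ i ∈ range k,
      stE (pert (nrs d (L + 1)) lam) t (fun g =>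
        Pool.Agent.TH268.PD.top (Pool.Agent.TH268.PD.frac g) i)) atTop (𝓝 (S k)) := by
    intro k
    refine tend_of fun e he => ?_
    obtain ⟨_, _, _, _, N₀, H⟩ := macro_law k (f k) (hfc k) k (hfb k) (D := d) ht hl
      (le_refl lam) (show (0 : ℝ) < e / 4 by positivity)
    obtain ⟨M, hM, hnear⟩ := Pool.Agent.TH268.PD.pdm_near k (f k) (hfc k) k (hfb k) (e / 4)
      (by positivity)
    have h1 : ∀ᶠ L in atTop, M * |rootL d L t lam - m| ≤ e / 4 := by
      have h2 : Tendsto (fun L => M * |rootL d L t lam - m|) atTop (𝓝 0) := by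
        have := ((hq.sub_const m).abs).const_mul M
        simpa using this
      exact h2.eventually (eventually_le_nhds (by positivity))
    filter_upwards [h1, nn_large d hd N₀] with L hL hN
    have h2 := (H (Fin d → ZMod (L + 1)) hN (nrs d (L + 1)) (nrs_nonneg d (L + 1))
      (le_of_eq (nrs_rate d (L + 1))) lam le_rfl le_rfl _ (rootL_spec d L ht hl.le)).2
    obtain ⟨q0, q1⟩ := rootL_bd d L ht hl.le
    have h3 := hnear (rootL d L t lam) m q0 q1 hmb.1 hmb.2
    rw [← stE_sum]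
    simp only [hfp] at h2
    have h4 := abs_sub_le (stE (pert (nrs d (L + 1)) lam) t (fun g => ∑ i ∈ range k,
      Pool.Agent.TH268.PD.top (Pool.Agent.TH268.PD.frac g) i))
      (Pool.Agent.TH268.PD.pdm (fun u : Fin k → ℝ => f k (fun i => rootL d L t lam * u i)))
      (S k)
    have h5 : S k = Pool.Agent.TH268.PD.pdm (fun u : Fin k → ℝ => f k (fun i => m * u i)) := by
      rw [hS]
    rw [← h5] at h3
    linarith
  refine ⟨S, hlim, ?_⟩
  refine tend_of fun e he => ?_
  obtain ⟨K₀, hK₀, δ₀, hδ₀, H⟩ := tor_mass d hd ht hl (show (0 : ℝ) < e ^ 2 / 16 by positivity)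
  rw [← hm] at H
  filter_upwards [eventually_ge_atTop ⌈1 / δ₀⌉₊] with k hk
  have hk2 : 1 ≤ δ₀ * k := by
    have h1 : 1 / δ₀ ≤ k := (Nat.le_ceil _).trans (by exact_mod_cast hk)
    rw [div_le_iff₀ hδ₀] at h1
    linarith
  -- bounds along the sequence
  have hev : ∀ᶠ L : ℕ in atTop, m - e / 2 ≤ ∑ i ∈ range k,
      stE (pert (nrs d (L + 1)) lam) t (fun g =>
        Pool.Agent.TH268.PD.top (Pool.Agent.TH268.PD.frac g) i) ∧ ∑ i ∈ range k,
      stE (pert (nrs d (L + 1)) lam) t (fun g =>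
        Pool.Agent.TH268.PD.top (Pool.Agent.TH268.PD.frac g) i) ≤ m + 3 * e / 4 := by
    filter_upwards [H, nn_large d hd (K₀ / δ₀), nn_large d hd (k * K₀ / (e / 4))]
      with L hL hN1 hN2
    have hn : (0 : ℝ) < nn (Fin d → ZMod (L + 1)) := nn_pos
    rw [div_le_iff₀ hδ₀] at hN1
    rw [div_le_iff₀ (by positivity)] at hN2
    have hv := p_vj _ (pert (nrs d (L + 1)) lam) t
      (fun u v => pert_nonneg (nrs_nonneg d (L + 1)) hl.le u v) ht.le
    have habs : ∀ s : ℝ, K₀ ≤ s → s ≤ δ₀ * nn (Fin d → ZMod (L + 1)) →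
        m - e / 2 ≤ stE (pert (nrs d (L + 1)) lam) t (frac s) ∧
        stE (pert (nrs d (L + 1)) lam) t (frac s) ≤ m + e / 2 := by
      intro s hs1 hs2
      have b1 := hL s hs1 hs2
      have b2 := stE_mono hv.2.1 (F := fun g => (m - e / 4) * 1 + (-(1 / e)) *
        (frac s g - m) ^ 2) (G := frac s) (fun g => by
          have c3 : 0 ≤ (1 / e) * ((frac s g - m) + e / 2) ^ 2 := by positivity
          have c4 : (1 / e) * ((frac s g - m) + e / 2) ^ 2 =
              (1 / e) * (frac s g - m) ^ 2 + (frac s g - m) + e / 4 := by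
            field_simp
            ring
          rw [c4] at c3
          linarith)
      have b3 := stE_mono hv.2.1 (F := frac s) (G := fun g => (m + e / 4) * 1 + (1 / e) *
        (frac s g - m) ^ 2) (fun g => by
          have c3 : 0 ≤ (1 / e) * ((frac s g - m) - e / 2) ^ 2 := by positivity
          have c4 : (1 / e) * ((frac s g - m) - e / 2) ^ 2 =
              (1 / e) * (frac s g - m) ^ 2 - (frac s g - m) + e / 4 := by
            field_simp
            ring
          rw [c4] at c3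
          linarith)
      rw [stE_lin (pert (nrs d (L + 1)) lam) t (m - e / 4) (-(1 / e)) (fun _ => 1)
        (fun g => (frac s g - m) ^ 2), hv.1] at b2
      rw [stE_lin (pert (nrs d (L + 1)) lam) t (m + e / 4) (1 / e) (fun _ => 1)
        (fun g => (frac s g - m) ^ 2), hv.1] at b3
      have b4 : (1 / e) * stE (pert (nrs d (L + 1)) lam) t (fun g => (frac s g - m) ^ 2) ≤
          (1 / e) * (e ^ 2 / 16) := mul_le_mul_of_nonneg_left b1 (by positivity)
      have b5 : (1 / e) * (e ^ 2 / 16) = e / 16 := by field_simp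
      constructor <;> linarith
    rw [← stE_sum]
    constructor
    · have c1 := (habs (δ₀ * nn (Fin d → ZMod (L + 1))) (by linarith) le_rfl).1
      refine c1.trans (stE_mono hv.2.1 fun g => ?_)
      exact (htop _ g).1 δ₀ k hδ₀ hk2
    · have c1 := (habs K₀ le_rfl (by linarith)).2
      have c2 := stE_mono hv.2.1 (F := fun g => ∑ i ∈ range k,
        Pool.Agent.TH268.PD.top (Pool.Agent.TH268.PD.frac g) i)
        (G := fun g => 1 * frac K₀ g + (k * K₀ / nn (Fin d → ZMod (L + 1))) * 1) (fun g => by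
          have := (htop _ g).2 K₀ k hK₀.le
          linarith)
      rw [stE_lin (pert (nrs d (L + 1)) lam) t 1 (k * K₀ / nn (Fin d → ZMod (L + 1)))
        (frac K₀) (fun _ => 1), hv.1] at c2
      have c3 : k * K₀ / nn (Fin d → ZMod (L + 1)) ≤ e / 4 := by
        rw [div_le_iff₀ hn]
        linarith
      linarith
  have h1 : m - e / 2 ≤ S k := ge_of_tendsto (hlim k) (hev.mono fun L h => h.1)
  have h2 : S k ≤ m + 3 * e / 4 := le_of_tendsto (hlim k) (hev.mono fun L h => h.2)
  rw [abs_le]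
  constructor <;> linarith

end tor

end Pool.Agent.TH604.ST
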