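import Pool.Agent.TH604.ST.Asm11

/-!
# Mean-field perturbation of random stirring: the limit equation on the torus
-/

set_option autoImplicit false
set_option maxHeartbeats 400000

namespace Pool.Agent.TH604.ST

open Finset Equiv Pool.Agent.W805.LR MeasureTheory Filter Topology

section hf

variable {V : Type} [Fintype V] [DecidableEq V] [Nonempty V]

lemma Hf_scale (J : V → V → ℝ) (hJ : ∀ x y, 0 ≤ J x y) {t y r : ℝ} (ht : 0 ≤ t) (hr0 : 0 ≤ r)
    (hr1 : r ≤ 1) : r * Hf J t y ≤ Hf J t (r * y) := by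
  have hww := ww_nonneg p_vj J hJ ht
  have hws := ww_sum p_vj J hJ ht
  rw [Hf_ww J hJ ht, Hf_ww J hJ ht]
  have h9 : ∀ i : Perm V × V, ww J t i * Real.exp (-((r * y) * len i.1 i.2)) ≤
      r * (ww J t i * Real.exp (-(y * len i.1 i.2))) + (1 - r) * ww J t i := by
    intro i
    have e1 : -((r * y) * len i.1 i.2) = r * (-(y * len i.1 i.2)) + (1 - r) * 0 := by ring
    have e2 := convexOn_exp.2 (Set.mem_univ (-(y * len i.1 i.2))) (Set.mem_univ (0 : ℝ))
      hr0 (sub_nonneg.2 hr1) (by ring)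
    simp only [smul_eq_mul] at e2
    rw [← e1, Real.exp_zero] at e2
    have e3 := mul_le_mul_of_nonneg_left e2 (hww i)
    linarith
  have h10 := Finset.sum_le_sum fun i (_ : i ∈ (Finset.univ : Finset (Perm V × V))) => h9 i
  rw [Finset.sum_add_distrib, ← Finset.mul_sum, ← Finset.mul_sum, hws] at h10
  linarith

/-- A Lipschitz bound away from zero. -/
lemma Hf_lip (J : V → V → ℝ) (hJ : ∀ x y, 0 ≤ J x y) {t y z : ℝ} (ht : 0 ≤ t) (hy : 0 < y)
    (hyz : y ≤ z) : Hf J t z - Hf J t y ≤ (z - y) / y := by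
  have hww := ww_nonneg p_vj J hJ ht
  have hws := ww_sum p_vj J hJ ht
  rw [Hf_ww J hJ ht, Hf_ww J hJ ht]
  have h9 : ∀ i : Perm V × V, ww J t i * Real.exp (-(y * len i.1 i.2)) ≤
      ww J t i * Real.exp (-(z * len i.1 i.2)) + (z - y) / y * ww J t i := by
    intro i
    obtain ⟨s, hs⟩ : ∃ s, s = len i.1 i.2 := ⟨_, rfl⟩
    rw [← hs]
    have hs0 : 0 ≤ s := by rw [hs]; exact cnt_nonneg _
    have e0 : 1 - (z - y) * s ≤ Real.exp (-((z - y) * s)) := by
      have := Real.add_one_le_exp (-((z - y) * s))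
      linarith
    have e1 : Real.exp (-(z * s)) = Real.exp (-(y * s)) * Real.exp (-((z - y) * s)) := by
      rw [← Real.exp_add]
      congr 1
      ring
    have e2 : Real.exp (-(y * s)) * (y * s) ≤ 1 := by
      rw [Real.exp_neg, inv_mul_le_iff₀ (Real.exp_pos _), mul_one]
      have := Real.add_one_le_exp (y * s)
      linarith
    have e3 : Real.exp (-(y * s)) * s ≤ 1 / y := by
      rw [le_div_iff₀ hy]
      linarith
    have e4 : Real.exp (-(y * s)) - (z - y) / y ≤ Real.exp (-(z * s)) := by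
      rw [e1]
      have e5 := mul_le_mul_of_nonneg_left e0 (Real.exp_pos (-(y * s))).le
      have e6 := mul_le_mul_of_nonneg_left e3 (sub_nonneg.2 hyz)
      have e7 : (z - y) * (1 / y) = (z - y) / y := by ring
      rw [e7] at e6
      nlinarith
    have e8 := mul_le_mul_of_nonneg_left e4 (hww i)
    linarith
  have h10 := Finset.sum_le_sum fun i (_ : i ∈ (Finset.univ : Finset (Perm V × V))) => h9 i
  rw [Finset.sum_add_distrib, ← Finset.mul_sum, hws] at h10
  linarith

lemma Hf_mono (J : V → V → ℝ) (hJ : ∀ x y, 0 ≤ J x y) {t y z : ℝ} (ht : 0 ≤ t)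
    (hyz : y ≤ z) : Hf J t y ≤ Hf J t z := by
  rcases hyz.lt_or_eq with h | h
  · exact (Hf_lt J hJ ht h).le
  · rw [h]

end hf

/-- The limit of the functions of the fixed point equation. -/
noncomputable def Hlim (d : ℕ) (t y : ℝ) : ℝ := limUnder atTop (fun L : ℕ => Hf (nrs d (L + 1)) t y)

section lim

variable (d : ℕ) {t : ℝ} (ht : 0 < t)

include ht

lemma Hlim_tendsto {y : ℝ} (hy : 0 < y) :
    Tendsto (fun L : ℕ => Hf (nrs d (L + 1)) t y) atTop (𝓝 (Hlim d t y)) := by
  refine CauchySeq.tendsto_limUnder ?_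
  rw [Metric.cauchySeq_iff]
  intro e he
  obtain ⟨n, hn⟩ : ∃ n : ℕ, 8 * d * t / (y * e) ≤ n := exists_nat_ge _
  rw [div_le_iff₀ (by positivity)] at hn
  refine ⟨n + 1, fun L hL L' hL' => ?_⟩
  have h1 := torus_cmp Cmp.cmp Cpy.cpy Rlb.rlb Geo.geo d (L + 1) (L' + 1) ((L + 1) * (L' + 1))
    rfl ht.le hy
  have h2 := torus_cmp Cmp.cmp Cpy.cpy Rlb.rlb Geo.geo d (L' + 1) (L + 1) ((L + 1) * (L' + 1))
    (Nat.mul_comm _ _) ht.le hy
  have h3 : ∀ K : ℕ, n + 1 ≤ K → 2 * d * t / (y * ((K + 1 : ℕ) : ℝ)) ≤ e / 4 := by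
    intro K hK
    have h4 : (n : ℝ) ≤ K := by
      have : n ≤ K := by omega
      exact_mod_cast this
    push_cast
    rw [div_le_iff₀ (by positivity)]
    have h5 : (n : ℝ) * (y * e) ≤ (K + 1) * (y * e) :=
      mul_le_mul_of_nonneg_right (by linarith) (by positivity)
    nlinarith
  have h4 := h3 L hL
  have h5 := h3 L' hL'
  have h6 := abs_le.1 h1
  have h7 := abs_le.1 h2
  rw [Real.dist_eq, abs_lt]
  constructor <;> linarith [h6.1, h6.2, h7.1, h7.2]

lemma Hlim_mono {y z : ℝ} (hy : 0 < y) (hyz : y ≤ z) : Hlim d t y ≤ Hlim d t z :=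
  le_of_tendsto_of_tendsto' (Hlim_tendsto d ht hy) (Hlim_tendsto d ht (hy.trans_le hyz))
    fun L => Hf_mono (nrs d (L + 1)) (nrs_nonneg d (L + 1)) ht.le hyz

/-- The limit mass solves the limit equation. -/
lemma mlim_eq {lam : ℝ} (hl : 0 < lam) (hm : 0 < mlim d t lam) :
    Hlim d t (lam * t * mlim d t lam) = mlim d t lam := by
  obtain ⟨m, hmd⟩ : ∃ m, m = mlim d t lam := ⟨_, rfl⟩
  have hq := q_tendsto d ht hl
  rw [← hmd] at hm hq ⊢
  have ha : 0 < lam * t := mul_pos hl ht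
  have h1 := Hlim_tendsto d ht (mul_pos ha hm)
  refine tendsto_nhds_unique h1 ?_
  -- `Hf (a m)` is close to `Hf (a q) = q`
  have h2 : Tendsto (fun L => rootL d L t lam +
      2 * (lam * t * |rootL d L t lam - m|) / (lam * t * (m / 2))) atTop (𝓝 m) := by
    have h3 : Tendsto (fun L => 2 * (lam * t * |rootL d L t lam - m|) / (lam * t * (m / 2)))
        atTop (𝓝 0) := by
      have := ((((hq.sub_const m).abs).const_mul (lam * t)).const_mul 2).div_const
        (lam * t * (m / 2))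
      simpa using this
    simpa using hq.add h3
  have h3 : Tendsto (fun L => rootL d L t lam -
      2 * (lam * t * |rootL d L t lam - m|) / (lam * t * (m / 2))) atTop (𝓝 m) := by
    have h3 : Tendsto (fun L => 2 * (lam * t * |rootL d L t lam - m|) / (lam * t * (m / 2)))
        atTop (𝓝 0) := by
      have := ((((hq.sub_const m).abs).const_mul (lam * t)).const_mul 2).div_const
        (lam * t * (m / 2))
      simpa using this
    simpa using hq.sub h3
  have hev : ∀ᶠ L in atTop, m / 2 ≤ rootL d L t lam :=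
    hq.eventually (eventually_ge_nhds (by linarith))
  have hkey : ∀ᶠ L in atTop, |Hf (nrs d (L + 1)) t (lam * t * m) - rootL d L t lam| ≤
      2 * (lam * t * |rootL d L t lam - m|) / (lam * t * (m / 2)) := by
    filter_upwards [hev] with L hL
    have hrt := Hf_root (nrs d (L + 1)) (nrs_nonneg d (L + 1)) ht.le (rootL_spec d L ht hl.le).1
    have hq0 : 0 < rootL d L t lam := lt_of_lt_of_le (by positivity) hL
    obtain ⟨q, hqd⟩ : ∃ q, q = rootL d L t lam := ⟨_, rfl⟩
    rw [← hqd] at hL hrt hq0 ⊢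
    have hnn : ∀ {c : ℝ}, 0 ≤ c → c ≤ 2 * c := fun h => by linarith
    rcases le_total q m with hqm | hqm
    · have hle : lam * t * q ≤ lam * t * m := mul_le_mul_of_nonneg_left hqm ha.le
      have a1 := Hf_lip (nrs d (L + 1)) (nrs_nonneg d (L + 1)) ht.le (mul_pos ha hq0) hle
      have a2 := Hf_mono (nrs d (L + 1)) (nrs_nonneg d (L + 1)) ht.le hle
      rw [hrt] at a1 a2
      rw [abs_of_nonneg (by linarith), abs_of_nonpos (show q - m ≤ 0 by linarith)]
      refine a1.trans ?_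
      have a3 : (lam * t * m - lam * t * q) / (lam * t * q) ≤
          (lam * t * m - lam * t * q) / (lam * t * (m / 2)) :=
        div_le_div_of_nonneg_left (by linarith) (by positivity)
          (mul_le_mul_of_nonneg_left hL ha.le)
      refine a3.trans (div_le_div_of_nonneg_right ?_ (by positivity))
      nlinarith
    · have hle : lam * t * m ≤ lam * t * q := mul_le_mul_of_nonneg_left hqm ha.le
      have a1 := Hf_lip (nrs d (L + 1)) (nrs_nonneg d (L + 1)) ht.le (mul_pos ha hm) hle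
      have a2 := Hf_mono (nrs d (L + 1)) (nrs_nonneg d (L + 1)) ht.le hle
      rw [hrt] at a1 a2
      rw [abs_sub_comm, abs_of_nonneg (by linarith), abs_of_nonneg (show 0 ≤ q - m by linarith)]
      refine a1.trans ?_
      have a3 : (lam * t * q - lam * t * m) / (lam * t * m) ≤
          (lam * t * q - lam * t * m) / (lam * t * (m / 2)) :=
        div_le_div_of_nonneg_left (by linarith) (by positivity)
          (mul_le_mul_of_nonneg_left (by linarith) ha.le)
      refine a3.trans (div_le_div_of_nonneg_right ?_ (by positivity))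
      nlinarith
  refine tendsto_of_tendsto_of_tendsto_of_le_of_le' h3 h2 ?_ ?_
  · filter_upwards [hkey] with L hL
    have := (abs_le.1 hL).1
    linarith
  · filter_upwards [hkey] with L hL
    have := (abs_le.1 hL).2
    linarith

/-- The limit mass is the largest solution. -/
lemma mlim_max {lam q : ℝ} (hl : 0 < lam) (hq0 : 0 < q) (hq : q ≤ Hlim d t (lam * t * q)) :
    q ≤ mlim d t lam := by
  by_contra hc
  push Not at hc
  obtain ⟨m, hmd⟩ : ∃ m, m = mlim d t lam := ⟨_, rfl⟩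
  have hmb := mlim_bd Cmp.cmp Cpy.cpy Rlb.rlb Geo.geo d ht hl
  have hqt := q_tendsto d ht hl
  rw [← hmd] at hc hqt hmb
  have ha : 0 < lam * t := mul_pos hl ht
  obtain ⟨δ, hδ⟩ : ∃ δ, δ = (q - m) / 4 := ⟨_, rfl⟩
  have hδ0 : 0 < δ := by rw [hδ]; linarith
  obtain ⟨h, hh⟩ : ∃ h, h = Real.exp (-(lam * t)) * (lam * t) ^ 3 * δ ^ 2 / 2 := ⟨_, rfl⟩
  have h0 : 0 < h := by rw [hh]; positivity
  obtain ⟨ζ, hζ⟩ : ∃ ζ, ζ = min δ (h / (2 * (lam * t))) := ⟨_, rfl⟩
  have hζ0 : 0 < ζ := by rw [hζ]; exact lt_min hδ0 (by positivity)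
  have hζ1 : ζ ≤ δ := by rw [hζ]; exact min_le_left _ _
  have hζ2 : ζ * (2 * (lam * t)) ≤ h := by
    have : ζ ≤ h / (2 * (lam * t)) := by rw [hζ]; exact min_le_right _ _
    rwa [le_div_iff₀ (by positivity)] at this
  have e1 : ∀ᶠ L in atTop, rootL d L t lam ≤ m + δ :=
    hqt.eventually (eventually_le_nhds (by linarith))
  have e2 : ∀ᶠ L : ℕ in atTop, q - ζ / 2 ≤ Hf (nrs d (L + 1)) t (lam * t * q) :=
    (Hlim_tendsto d ht (mul_pos ha hq0)).eventually (eventually_ge_nhds (by linarith))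
  obtain ⟨L, hL1, hL2⟩ := (e1.and e2).exists
  obtain ⟨p, hp⟩ : ∃ p, p = rootL d L t lam := ⟨_, rfl⟩
  have hsp := rootL_spec d L ht hl.le
  obtain ⟨p0, p1⟩ := rootL_bd d L ht hl.le
  rw [← hp] at hL1 hsp p0 p1
  have h1 := mbar_up Root.root p_jn p_vj p_bdg (nrs d (L + 1)) (nrs_nonneg d (L + 1)) ht.le
    (A := lam * t) ha le_rfl hsp hδ0 h0 (le_of_eq hh)
  rw [← Hf_mass] at h1
  obtain ⟨z, hz⟩ : ∃ z, z = p + δ + ζ := ⟨_, rfl⟩
  have hz0 : 0 < z := by rw [hz]; positivity
  have hzq : z ≤ q := by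
    rw [hz]
    have : q = m + 4 * δ := by rw [hδ]; ring
    linarith
  have h2 := Hf_scale (nrs d (L + 1)) (nrs_nonneg d (L + 1)) (t := t) (y := lam * t * q)
    (r := z / q) ht.le (by positivity) ((div_le_one hq0).2 hzq)
  have e3 : z / q * (lam * t * q) = lam * t * z := by field_simp
  rw [e3] at h2
  have h3 : z - ζ / 2 ≤ z / q * Hf (nrs d (L + 1)) t (lam * t * q) := by
    have h4 := mul_le_mul_of_nonneg_left hL2 (show 0 ≤ z / q by positivity)
    have h5 : z / q * (q - ζ / 2) = z - z / q * (ζ / 2) := by field_simp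
    have h6 : z / q * (ζ / 2) ≤ 1 * (ζ / 2) :=
      mul_le_mul_of_nonneg_right ((div_le_one hq0).2 hzq) (by positivity)
    linarith
  have h4 : lam * t * z ≤ h + lam * t * (p + δ) := by
    rw [hz]
    nlinarith
  have h5 := Hf_mono (nrs d (L + 1)) (nrs_nonneg d (L + 1)) ht.le h4
  linarith

end lim

end Pool.Agent.TH604.ST
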