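import Pool.Agent.TH604.ST.Stm

/-!
# Mean-field perturbation of random stirring: mean cycle length at small times, statement
-/

set_option autoImplicit false

namespace Pool.Agent.TH604.ST

open Finset Equiv Pool.Agent.W805.LR

/-- The mean cycle length at small times. -/
def S_CHI : Prop := ∀ (V : Type) [Fintype V] [DecidableEq V] [Nonempty V] (J : V → V → ℝ)
  (Δ t : ℝ), (∀ x y, 0 ≤ J x y) → (∀ x y, J x y = J y x) → (∀ x, ∑ y, J x y ≤ Δ) → 0 ≤ t →
  t * Δ < 1 → stE J t (fun g => (∑ v, len g v) / nn V) ≤ 1 / (1 - t * Δ)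

end Pool.Agent.TH604.ST
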