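import Pool.Agent.TH604.ST.Asm12
import Pool.Agent.TH604.ST.Stm5

/-!
# Mean-field perturbation of random stirring: vanishing strength
-/

set_option autoImplicit false
set_option maxHeartbeats 400000

namespace Pool.Agent.TH604.ST

open Finset Equiv Pool.Agent.W805.LR MeasureTheory Filter Topology

section zero

variable (d : ℕ) {t : ℝ} (ht : 0 < t)

include ht

/-- The limit of vanishing strength and the long cycles of the unperturbed process. -/
theorem zero_lim : ∃ m₀ : ℝ, 0 ≤ m₀ ∧ m₀ ≤ 1 ∧ Tendsto (mlim d t) (𝓝[>] 0) (𝓝 m₀) ∧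
    ∀ η : ℝ, 0 < η → ∃ K₁ : ℝ, ∀ K : ℝ, K₁ ≤ K → ∀ᶠ L : ℕ in atTop,
      |stE (nrs d (L + 1)) t (frac K) - m₀| ≤ η := by
  have hbd := fun {lam : ℝ} (hl : 0 < lam) =>
    mlim_bd Cmp.cmp Cpy.cpy Rlb.rlb Geo.geo d ht hl
  have hmono := fun {a b : ℝ} (ha : 0 < a) (hab : a ≤ b) =>
    mlim_mono Cmp.cmp Cpy.cpy Rlb.rlb Geo.geo d ht ha hab
  obtain ⟨S, hS⟩ : ∃ S : Set ℝ, S = mlim d t '' Set.Ioi 0 := ⟨_, rfl⟩
  have hSb : BddBelow S := ⟨0, by
    rw [hS]
    rintro _ ⟨x, hx, rfl⟩
    exact (hbd hx).1⟩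
  have hSn : S.Nonempty := by
    rw [hS]
    exact ⟨_, 1, Set.mem_Ioi.2 one_pos, rfl⟩
  obtain ⟨m₀, hm₀⟩ : ∃ m₀, m₀ = sInf S := ⟨_, rfl⟩
  have hle : ∀ lam, 0 < lam → m₀ ≤ mlim d t lam := by
    intro lam hl
    rw [hm₀]
    refine csInf_le hSb ?_
    rw [hS]
    exact ⟨lam, hl, rfl⟩
  have hex : ∀ η : ℝ, 0 < η → ∃ lam, 0 < lam ∧ mlim d t lam < m₀ + η := by
    intro η hη
    obtain ⟨x, hx, hx2⟩ := (csInf_lt_iff hSb hSn).1 (show sInf S < m₀ + η by rw [← hm₀]; linarith)
    rw [hS] at hx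
    obtain ⟨lam, hl, rfl⟩ := hx
    exact ⟨lam, hl, hx2⟩
  refine ⟨m₀, ?_, ?_, ?_, ?_⟩
  · rw [hm₀]
    refine le_csInf hSn ?_
    rw [hS]
    rintro _ ⟨x, hx, rfl⟩
    exact (hbd hx).1
  · exact (hle 1 one_pos).trans (hbd one_pos).2
  · rw [Metric.tendsto_nhdsWithin_nhds]
    intro e he
    obtain ⟨lam, hl, hl2⟩ := hex e he
    refine ⟨lam, hl, fun x hx hx2 => ?_⟩
    have hx0 : (0 : ℝ) < x := hx
    rw [Real.dist_eq, sub_zero, abs_of_pos hx0] at hx2
    have h1 := hle x hx0
    have h2 := hmono hx0 hx2.le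
    rw [Real.dist_eq, abs_lt]
    constructor <;> linarith
  · intro η hη
    obtain ⟨lam, hl, hl2⟩ := hex (η / 4) (by positivity)
    refine ⟨4 / (η * (lam * t)), fun K hK => ?_⟩
    have hK0 : 0 < K := lt_of_lt_of_le (by positivity) hK
    have hK1 : 1 / (lam * t * K) ≤ η / 4 := by
      rw [div_le_iff₀ (by positivity)] at hK
      rw [div_le_iff₀ (by positivity)]
      nlinarith
    obtain ⟨b, hb⟩ : ∃ b, b = η / (2 * (t * K)) := ⟨_, rfl⟩
    have hb0 : 0 < b := by rw [hb]; positivity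
    have hbK : b * t * K = η / 2 := by
      rw [hb]
      field_simp
    have e1 : ∀ᶠ L in atTop, rootL d L t lam ≤ m₀ + η / 2 :=
      (q_tendsto d ht hl).eventually (eventually_le_nhds (by linarith))
    have e2 : ∀ᶠ L in atTop, m₀ - η / 2 ≤ rootL d L t b :=
      (q_tendsto d ht hb0).eventually (eventually_ge_nhds (by linarith [hle b hb0]))
    filter_upwards [e1, e2] with L h1 h2
    have s1 := (sandwich (nrs d (L + 1)) (nrs_nonneg d (L + 1)) ht (mul_pos hl ht)
      (rootL_spec d L ht hl.le) K hK0).1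
    have s2 := (sandwich (nrs d (L + 1)) (nrs_nonneg d (L + 1)) ht (mul_pos hb0 ht)
      (rootL_spec d L ht hb0.le) K hK0).2
    rw [abs_le]
    constructor <;> linarith

/-- The threshold is at least `1 / t - 2 d`. -/
theorem thr_low (hchi : S_CHI) {lam : ℝ} (hl : 0 < lam) (hlt : lam ≤ 1 / t - 2 * d) :
    mlim d t lam = 0 := by
  have h1 : t * (2 * d) < 1 := by
    have h2 : 2 * (d : ℝ) < 1 / t := by linarith
    rw [lt_div_iff₀ ht] at h2
    linarith
  have h2 : ∀ L : ℕ, rootL d L t lam = 0 := by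
    intro L
    have hrow : ∀ x : Fin d → ZMod (L + 1), ∑ y, nrs d (L + 1) x y ≤ 2 * d := by
      intro x
      unfold nrs
      rw [Finset.sum_comm]
      have h3 : ∀ i : Fin d, ∑ y : Fin d → ZMod (L + 1),
          ((if y = x + Pi.single i 1 then (1 : ℝ) else 0) +
            (if x = y + Pi.single i 1 then (1 : ℝ) else 0)) = 2 := by
        intro i
        rw [Finset.sum_add_distrib, Finset.sum_ite_eq' univ (x + Pi.single i 1)
          (fun _ => (1 : ℝ)), if_pos (mem_univ _)]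
        have h4 : ∑ y : Fin d → ZMod (L + 1), (if x = y + Pi.single i 1 then (1 : ℝ) else 0) =
            1 := by
          have h5 : ∀ y : Fin d → ZMod (L + 1), (x = y + Pi.single i 1) ↔
              y = x - Pi.single i 1 := fun y => by
            constructor
            · intro h; rw [h]; simp
            · intro h; rw [h]; simp
          simp only [h5]
          rw [Finset.sum_ite_eq' univ (x - Pi.single i 1) (fun _ => (1 : ℝ)),
            if_pos (mem_univ _)]
        rw [h4]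
        norm_num
      simp only [h3, Finset.sum_const, Finset.card_univ, Fintype.card_fin, nsmul_eq_mul]
      linarith
    have h3 := hchi (Fin d → ZMod (L + 1)) (nrs d (L + 1)) (2 * d) t (nrs_nonneg d (L + 1))
      (fun x y => by
        unfold nrs
        exact Finset.sum_congr rfl fun i _ => add_comm _ _) hrow ht.le h1
    obtain ⟨q0, _, q2⟩ := root_bd Root.rt2 p_jn p_vj p_bdg (nrs d (L + 1))
      (nrs_nonneg d (L + 1)) ht.le (mul_pos hl ht).le (rootL_spec d L ht hl.le)
    by_contra hne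
    have h4 := q2.1 (lt_of_le_of_ne q0 (Ne.symm hne))
    have h5 : lam * t ≤ 1 - t * (2 * d) := by
      have h6 := mul_le_mul_of_nonneg_right hlt ht.le
      have h7 : (1 / t - 2 * d) * t = 1 - t * (2 * d) := by field_simp
      linarith
    have h6 : lam * t * stE (nrs d (L + 1)) t (fun g => (∑ v, len g v) /
        nn (Fin d → ZMod (L + 1))) ≤ lam * t * (1 / (1 - t * (2 * d))) :=
      mul_le_mul_of_nonneg_left h3 (mul_pos hl ht).le
    have h7 : lam * t * (1 / (1 - t * (2 * d))) ≤ 1 := by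
      rw [mul_one_div, div_le_one (by linarith)]
      exact h5
    linarith
  have h3 := q_tendsto d ht hl
  simp only [h2] at h3
  exact tendsto_nhds_unique h3 tendsto_const_nhds

end zero

end Pool.Agent.TH604.ST
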