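import Pool.Agent.TH604.ST.Asm13
import Pool.Agent.TH604.ST.Chi

/-!
# Mean-field perturbation of random stirring: dependence on the time
-/

set_option autoImplicit false
set_option maxHeartbeats 400000

namespace Pool.Agent.TH604.ST

open Finset Equiv Pool.Agent.W805.LR MeasureTheory Filter Topology

section scal

variable {V : Type} [Fintype V] [DecidableEq V]

lemma ringSum_smul (J : V → V → ℝ) (c : ℝ) (m : ℕ) (g : Perm V) :
    ringSum (fun x y => c * J x y) m g = c ^ m * ringSum J m g := by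
  induction m generalizing g with
  | zero => simp [ringSum]
  | succ m ih =>
    simp only [ringSum, ih, Finset.mul_sum]
    refine Finset.sum_congr rfl fun x _ => Finset.sum_congr rfl fun y _ => ?_
    ring

lemma stE_smul (J : V → V → ℝ) (c t : ℝ) (F : Perm V → ℝ) :
    stE (fun x y => c * J x y) t F = stE J (c * t) F := by
  have h1 : rate (fun x y => c * J x y) = c * rate J := by
    unfold rate
    simp only [Finset.mul_sum]
    refine Finset.sum_congr rfl fun x _ => Finset.sum_congr rfl fun y _ => ?_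
    ring
  have h2 : ∀ g, stirMass (fun x y => c * J x y) t g = stirMass J (c * t) g := by
    intro g
    unfold stirMass
    refine tsum_congr fun m => ?_
    rw [ringSum_smul, mul_pow]
    ring
  unfold stE
  simp only [h1, h2]
  congr 2
  ring

lemma Rts_smul (J : V → V → ℝ) (c t a : ℝ) :
    Rts (fun x y => c * J x y) t a = Rts J (c * t) a := by
  unfold Rts
  simp only [stE_smul]

lemma Hf_smul (J : V → V → ℝ) (c t y : ℝ) :
    Hf (fun x y => c * J x y) t y = Hf J (c * t) y := by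
  unfold Hf
  rw [stE_smul]

variable [Nonempty V]

/-- Continuity in time. -/
lemma Hf_time (J : V → V → ℝ) (hJ : ∀ x y, 0 ≤ J x y) {D : ℝ} (hD : rate J ≤ D * nn V)
    {s t y : ℝ} (hs : 0 ≤ s) (ht : 0 ≤ t) (hy : 0 < y) :
    |Hf J s y - Hf J t y| ≤ D * |s - t| / y := by
  have hn : (0 : ℝ) < nn V := nn_pos
  have h1 := Cmp.cmp V (fun x z => s * J x z) (fun x z => t * J x z) 1 (1 / (nn V * y))
    (fun g => mass y (Perm.SameCycle.setoid g)) (fun x z => mul_nonneg hs (hJ x z))
    (fun x z => mul_nonneg ht (hJ x z)) zero_le_one (by positivity)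
    (fun x z g => (p_bdg V y hy).2 x z g)
  rw [← Hf_mass, ← Hf_mass, Hf_smul, Hf_smul, mul_one, mul_one, one_mul] at h1
  refine h1.trans ?_
  have h2 : ∑ x, ∑ z, |s * J x z - t * J x z| / 2 = |s - t| * rate J := by
    unfold rate
    simp only [Finset.mul_sum]
    refine Finset.sum_congr rfl fun x _ => Finset.sum_congr rfl fun z _ => ?_
    rw [← sub_mul, abs_mul, abs_of_nonneg (hJ x z)]
    ring
  rw [h2]
  calc 1 / (nn V * y) * (|s - t| * rate J) ≤ 1 / (nn V * y) * (|s - t| * (D * nn V)) := by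
        refine mul_le_mul_of_nonneg_left ?_ (by positivity)
        exact mul_le_mul_of_nonneg_left hD (abs_nonneg _)
    _ = D * |s - t| / y := by field_simp

end scal

/-- The largest roots at two close times. -/
lemma time_root (d : ℕ) {τ lam δ : ℝ} (hτ : 0 < τ) (hl : 0 < lam) (hδ : 0 < δ)
    (hδ1 : δ ≤ 1) : ∃ r > (0 : ℝ), ∀ (s t a b : ℝ), |s - τ| < r → |t - τ| < r → |a - lam| < r →
      |b - lam| < r → ∀ (L : ℕ) (m q : ℝ), IsGreatest (Rts (nrs d (L + 1)) t (a * t)) m →
        IsGreatest (Rts (nrs d (L + 1)) s (b * s)) q → q ≤ m + 3 * δ := by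
  obtain ⟨A, hA⟩ : ∃ A, A = 4 * (lam * τ) := ⟨_, rfl⟩
  obtain ⟨a₀, ha₀⟩ : ∃ a₀, a₀ = lam / 2 * (τ / 2) := ⟨_, rfl⟩
  have ha₀0 : 0 < a₀ := by rw [ha₀]; positivity
  have hA0 : 0 < A := by rw [hA]; positivity
  obtain ⟨h, hh⟩ : ∃ h, h = Real.exp (-A) * a₀ ^ 3 * δ ^ 2 / 2 := ⟨_, rfl⟩
  have h0 : 0 < h := by rw [hh]; positivity
  -- the error of the comparison
  obtain ⟨ε, hε⟩ : ∃ ε, ε = min δ (h / (2 * A)) := ⟨_, rfl⟩
  have hε0 : 0 < ε := by rw [hε]; exact lt_min hδ (by positivity)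
  have hεδ : ε ≤ δ := by rw [hε]; exact min_le_left _ _
  have hεA : ε * (2 * A) ≤ h := by
    have : ε ≤ h / (2 * A) := by rw [hε]; exact min_le_right _ _
    rwa [le_div_iff₀ (by positivity)] at this
  obtain ⟨r, hr⟩ : ∃ r, r = min (min (lam / 2) (τ / 2))
    (min (ε * h / (4 * (d + 1))) (h / (16 * (lam + τ)))) := ⟨_, rfl⟩
  have hr0 : 0 < r := by
    rw [hr]
    exact lt_min (lt_min (by positivity) (by positivity)) (lt_min (by positivity) (by positivity))
  have hr1 : r ≤ lam / 2 := by rw [hr]; exact (min_le_left _ _).trans (min_le_left _ _)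
  have hr2 : r ≤ τ / 2 := by rw [hr]; exact (min_le_left _ _).trans (min_le_right _ _)
  have hr3 : r * (4 * (d + 1)) ≤ ε * h := by
    have : r ≤ ε * h / (4 * (d + 1)) := by
      rw [hr]; exact (min_le_right _ _).trans (min_le_left _ _)
    rwa [le_div_iff₀ (by positivity)] at this
  have hr4 : r * (16 * (lam + τ)) ≤ h := by
    have : r ≤ h / (16 * (lam + τ)) := by
      rw [hr]; exact (min_le_right _ _).trans (min_le_right _ _)
    rwa [le_div_iff₀ (by positivity)] at this
  refine ⟨r, hr0, ?_⟩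
  intro s t a b hs ht ha hb L m q hm hq
  rw [abs_lt] at hs ht ha hb
  have hs0 : 0 < s := by linarith
  have ht0 : 0 < t := by linarith
  have ha0 : 0 < a := by linarith
  have hb0 : 0 < b := by linarith
  obtain ⟨J, hJd⟩ : ∃ J, J = nrs d (L + 1) := ⟨_, rfl⟩
  have hJ : ∀ x y, 0 ≤ J x y := by rw [hJd]; exact nrs_nonneg d (L + 1)
  have hD : rate J ≤ d * nn (Fin d → ZMod (L + 1)) := by rw [hJd]; exact le_of_eq (nrs_rate d _)
  rw [← hJd] at hm hq
  -- common time one
  have hJs : ∀ x y, 0 ≤ s * J x y := fun x y => mul_nonneg hs0.le (hJ x y)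
  have hJt : ∀ x y, 0 ≤ t * J x y := fun x y => mul_nonneg ht0.le (hJ x y)
  have em : Rts J t (a * t) = Rts (fun x y => t * J x y) 1 (a * t) := by
    rw [Rts_smul, mul_one]
  have eq' : Rts J s (b * s) = Rts (fun x y => s * J x y) 1 (b * s) := by
    rw [Rts_smul, mul_one]
  rw [em] at hm
  rw [eq'] at hq
  -- the products
  have hat1 : a₀ ≤ a * t := by
    rw [ha₀]
    exact mul_le_mul (by linarith) (by linarith) (by positivity) ha0.le
  have hbs1 : a₀ ≤ b * s := by
    rw [ha₀]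
    exact mul_le_mul (by linarith) (by linarith) (by positivity) hb0.le
  have hat2 : a * t ≤ A := by
    rw [hA]
    have : a * t ≤ (2 * lam) * (2 * τ) :=
      mul_le_mul (by linarith) (by linarith) ht0.le (by positivity)
    linarith
  have hbs2 : b * s ≤ A := by
    rw [hA]
    have : b * s ≤ (2 * lam) * (2 * τ) :=
      mul_le_mul (by linarith) (by linarith) hs0.le (by positivity)
    linarith
  obtain ⟨A₁, hA₁⟩ : ∃ A₁, A₁ = a * t := ⟨_, rfl⟩
  rw [← hA₁] at hm hat1 hat2
  have hA₁0 : 0 < A₁ := lt_of_lt_of_le ha₀0 hat1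
  -- the root of the system at time `s` with the parameter `A₁`
  obtain ⟨p, hp⟩ := root_ex Root.rt2 p_jn p_vj p_bdg (fun x y => s * J x y) hJs zero_le_one
    hA₁0.le
  have h1 : p ≤ m + 2 * δ := by
    obtain ⟨h', hh'⟩ : ∃ h', h' = Real.exp (-A) * A₁ ^ 3 * δ ^ 2 / 2 := ⟨_, rfl⟩
    have hhh' : h ≤ h' := by
      rw [hh, hh']
      have : a₀ ^ 3 ≤ A₁ ^ 3 := pow_le_pow_left₀ ha₀0.le hat1 3
      gcongr
    refine root_cmp (fun x y => t * J x y) hJt (fun x y => s * J x y) hJs (A := A) (ε := ε)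
      zero_le_one hA₁0 hat2 hm hp hδ hh' ?_ hε0.le hεδ ?_
    · intro y hy
      have hy0 : 0 < y := lt_of_lt_of_le h0 (hhh'.trans hy)
      have g1 := Hf_time J hJ hD hs0.le ht0.le hy0
      rw [Hf_smul, Hf_smul, mul_one, mul_one]
      have g2 : |s - t| ≤ 2 * r := by
        rw [abs_le]
        constructor <;> linarith
      have g3 : (d : ℝ) * |s - t| / y ≤ ε := by
        rw [div_le_iff₀ hy0]
        have g4 : (d : ℝ) * |s - t| ≤ d * (2 * r) :=
          mul_le_mul_of_nonneg_left g2 (by positivity)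
        have g5 : ε * h ≤ ε * y := mul_le_mul_of_nonneg_left (hhh'.trans hy) hε0.le
        have g6 : (0 : ℝ) ≤ d := by positivity
        nlinarith
      have g4 := (abs_le.1 g1).2
      linarith
    · have g1 : A₁ * ε ≤ A * ε := mul_le_mul_of_nonneg_right hat2 hε0.le
      linarith
  -- change of the parameter
  have h2 : q ≤ p + δ := by
    rcases le_total (b * s) A₁ with hc | hc
    · have g1 := root_mono Root.rt2 p_jn p_vj p_bdg (fun x y => s * J x y) hJs zero_le_one
        (lt_of_lt_of_le ha₀0 hbs1).le hc hq hp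
      linarith
    · refine root_lip Root.root Root.rt2 p_jn p_vj p_bdg (fun x y => s * J x y) hJs
        zero_le_one (A := A) hA₁0 hc hbs2 hp hq hδ hδ1 ?_
      have g1 : b * s - A₁ ≤ 4 * r * (lam + τ) := by
        rw [hA₁]
        have g2 : b * s ≤ (lam + r) * (τ + r) :=
          mul_le_mul (by linarith) (by linarith) hs0.le (by linarith)
        have g3 : (lam - r) * (τ - r) ≤ a * t :=
          mul_le_mul (by linarith) (by linarith) (by linarith) ha0.le
        nlinarith
      have g2 : Real.exp (-A) * a₀ ^ 3 * δ ^ 2 ≤ Real.exp (-A) * A₁ ^ 3 * δ ^ 2 := by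
        have : a₀ ^ 3 ≤ A₁ ^ 3 := pow_le_pow_left₀ ha₀0.le hat1 3
        gcongr
      have g3 : Real.exp (-A) * a₀ ^ 3 * δ ^ 2 = 2 * h := by
        rw [hh]
        ring
      have g4 : 4 * (b * s - A₁) ≤ h := by nlinarith
      linarith
  linarith

/-- Joint continuity of the limit mass. -/
theorem mlim_joint (d : ℕ) : ContinuousOn (fun p : ℝ × ℝ => mlim d p.1 p.2)
    (Set.Ioi 0 ×ˢ Set.Ioi 0) := by
  rintro ⟨τ, lam⟩ ⟨hτ, hl⟩
  have hτ0 : (0 : ℝ) < τ := hτ
  have hl0 : (0 : ℝ) < lam := hl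
  refine ContinuousAt.continuousWithinAt ?_
  rw [Metric.continuousAt_iff]
  intro e he
  obtain ⟨δ, hδ⟩ : ∃ δ, δ = min 1 (e / 4) := ⟨_, rfl⟩
  have hδ0 : 0 < δ := by rw [hδ]; exact lt_min one_pos (by positivity)
  have hδ1 : δ ≤ 1 := by rw [hδ]; exact min_le_left _ _
  have hδe : 3 * δ < e := by
    have : δ ≤ e / 4 := by rw [hδ]; exact min_le_right _ _
    linarith
  obtain ⟨r, hr, H⟩ := time_root d hτ0 hl0 hδ0 hδ1
  refine ⟨min r (min τ lam), lt_min hr (lt_min hτ0 hl0), ?_⟩
  rintro ⟨s, b⟩ hx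
  rw [Prod.dist_eq, max_lt_iff, Real.dist_eq, Real.dist_eq] at hx
  obtain ⟨hx1, hx2⟩ := hx
  simp only at hx1 hx2
  have h1 : |s - τ| < r := hx1.trans_le (min_le_left _ _)
  have h2 : |b - lam| < r := hx2.trans_le (min_le_left _ _)
  have h3 : |s - τ| < τ := hx1.trans_le ((min_le_right _ _).trans (min_le_left _ _))
  have h4 : |b - lam| < lam := hx2.trans_le ((min_le_right _ _).trans (min_le_right _ _))
  have hs0 : 0 < s := by rw [abs_lt] at h3; linarith
  have hb0 : 0 < b := by rw [abs_lt] at h4; linarith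
  have z1 : |τ - τ| < r := by rw [sub_self, abs_zero]; exact hr
  have z2 : |lam - lam| < r := by rw [sub_self, abs_zero]; exact hr
  have t1 := q_tendsto d hτ0 hl0
  have t2 := q_tendsto d hs0 hb0
  have u1 : mlim d s b ≤ mlim d τ lam + 3 * δ :=
    le_of_tendsto_of_tendsto' t2 (t1.add_const (3 * δ)) fun L =>
      H s τ lam b h1 z1 z2 h2 L _ _ (rootL_spec d L hτ0 hl0.le) (rootL_spec d L hs0 hb0.le)
  have u2 : mlim d τ lam ≤ mlim d s b + 3 * δ :=
    le_of_tendsto_of_tendsto' t1 (t2.add_const (3 * δ)) fun L =>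
      H τ s b lam z1 h1 h2 z2 L _ _ (rootL_spec d L hs0 hb0.le) (rootL_spec d L hτ0 hl0.le)
  rw [Real.dist_eq, abs_lt]
  constructor <;> linarith

end Pool.Agent.TH604.ST
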