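import Pool.Agent.TH604.ST.Asm14

/-!
# Mean-field perturbation of random stirring: the formula for the threshold
-/

set_option autoImplicit false
set_option maxHeartbeats 400000

namespace Pool.Agent.TH604.ST

open Finset Equiv Pool.Agent.W805.LR MeasureTheory Filter Topology

section hf

variable {V : Type} [Fintype V] [DecidableEq V] [Nonempty V]

/-- A quantitative form of strict concavity. -/
lemma Hf_half (J : V → V → ℝ) (hJ : ∀ x y, 0 ≤ J x y) {t y : ℝ} (ht : 0 ≤ t) (hy : 0 < y) :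
    Hf J t y / 2 + (1 - Real.exp (-(y / 2))) ^ 2 / 2 ≤ Hf J t (y / 2) := by
  have hww := ww_nonneg p_vj J hJ ht
  have hws := ww_sum p_vj J hJ ht
  rw [Hf_ww J hJ ht, Hf_ww J hJ ht]
  obtain ⟨b, hb⟩ : ∃ b, b = Real.exp (-(y / 2)) := ⟨_, rfl⟩
  have hb1 : b ≤ 1 := by rw [hb]; exact Real.exp_le_one_iff.2 (by linarith)
  rw [← hb]
  have h9 : ∀ i : Perm V × V, ww J t i * Real.exp (-((y / 2) * len i.1 i.2)) ≤
      (1 / 2) * (ww J t i * Real.exp (-(y * len i.1 i.2))) +
        (1 / 2 - (1 - b) ^ 2 / 2) * ww J t i := by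
    intro i
    have hk := one_le_len p_jn p_bdg i.1 i.2
    obtain ⟨a, ha⟩ : ∃ a, a = Real.exp (-((y / 2) * len i.1 i.2)) := ⟨_, rfl⟩
    have e1 : Real.exp (-(y * len i.1 i.2)) = a * a := by
      rw [ha, ← Real.exp_add]
      congr 1
      ring
    have e2 : a ≤ b := by
      rw [ha, hb]
      exact Real.exp_le_exp.2 (by nlinarith)
    rw [e1, ← ha]
    have e3 : a ≤ 1 / 2 * (a * a) + (1 / 2 - (1 - b) ^ 2 / 2) := by nlinarith
    have e4 := mul_le_mul_of_nonneg_left e3 (hww i)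
    linarith
  have h10 := Finset.sum_le_sum fun i (_ : i ∈ (Finset.univ : Finset (Perm V × V))) => h9 i
  rw [Finset.sum_add_distrib, ← Finset.mul_sum, ← Finset.mul_sum, hws] at h10
  linarith

omit [Nonempty V] in
/-- The mean truncated cycle length. -/
noncomputable def Tm (J : V → V → ℝ) (t K : ℝ) : ℝ :=
  stE J t (fun g => (∑ v, min (len g v) K) / nn V)

lemma Hf_le_Tm (J : V → V → ℝ) (hJ : ∀ x y, 0 ≤ J x y) {t y K : ℝ} (ht : 0 ≤ t) (hy : 0 < y)
    (hK : 1 ≤ y * K) : Hf J t y ≤ y * Tm J t K := by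
  have hv := p_vj V J t hJ ht
  have h1 := stE_lin J t y 0 (fun g => (∑ v, min (len g v) K) / nn V) (fun _ => 0)
  simp only [mul_zero, add_zero, zero_mul] at h1
  unfold Tm
  rw [← h1]
  refine stE_mono hv.2.1 fun g => ?_
  rw [← mul_div_assoc, Finset.mul_sum]
  refine div_le_div_of_nonneg_right (Finset.sum_le_sum fun v _ => ?_) nn_pos.le
  rcases le_total (len g v) K with h | h
  · rw [min_eq_left h]
    have := Real.add_one_le_exp (-(y * len g v))
    linarith
  · rw [min_eq_right h]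
    have := (Real.exp_pos (-(y * len g v))).le
    linarith

lemma exp_neg_quad {z : ℝ} (hz : 0 ≤ z) : Real.exp (-z) ≤ 1 - z + z ^ 2 / 2 := by
  have h1 := Real.quadratic_le_exp_of_nonneg hz
  have h2 : Real.exp (-z) * Real.exp z = 1 := by rw [← Real.exp_add]; simp
  have h3 : 0 < 1 + z + z ^ 2 / 2 := by positivity
  have h4 : Real.exp (-z) * (1 + z + z ^ 2 / 2) ≤ 1 :=
    (mul_le_mul_of_nonneg_left h1 (Real.exp_pos _).le).trans h2.le
  have h5 : (1 - z + z ^ 2 / 2) * (1 + z + z ^ 2 / 2) = 1 + z ^ 4 / 4 := by ring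
  have h6 : 0 ≤ z ^ 4 / 4 := by positivity
  refine le_of_mul_le_mul_right ?_ h3
  linarith

lemma Tm_le_Hf (J : V → V → ℝ) (hJ : ∀ x y, 0 ≤ J x y) {t y K : ℝ} (ht : 0 ≤ t) (hy : 0 < y)
    (hK : 0 ≤ K) : y * (1 - y * K / 2) * Tm J t K ≤ Hf J t y := by
  have hv := p_vj V J t hJ ht
  have h1 := stE_lin J t (y * (1 - y * K / 2)) 0
    (fun g => (∑ v, min (len g v) K) / nn V) (fun _ => 0)
  simp only [mul_zero, add_zero, zero_mul] at h1
  unfold Tm
  rw [← h1]
  refine stE_mono hv.2.1 fun g => ?_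
  rw [← mul_div_assoc, Finset.mul_sum]
  refine div_le_div_of_nonneg_right (Finset.sum_le_sum fun v _ => ?_) nn_pos.le
  have h3 := one_le_len p_jn p_bdg g v
  obtain ⟨m, hm⟩ : ∃ m, m = min (len g v) K := ⟨_, rfl⟩
  have hm0 : 0 ≤ m := by rw [hm]; exact le_min (by linarith) hK
  have hm1 : m ≤ len g v := by rw [hm]; exact min_le_left _ _
  have hm2 : m ≤ K := by rw [hm]; exact min_le_right _ _
  rw [← hm]
  have h4 := exp_neg_quad (mul_nonneg hy.le hm0)
  have h5 : Real.exp (-(y * len g v)) ≤ Real.exp (-(y * m)) := Real.exp_le_exp.2 (by nlinarith)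
  have h6 : (y * m) ^ 2 ≤ (y * m) * (y * K) := by
    rw [sq]
    exact mul_le_mul_of_nonneg_left (mul_le_mul_of_nonneg_left hm2 hy.le) (mul_nonneg hy.le hm0)
  nlinarith

end hf

section lim

variable (d : ℕ) {t : ℝ} (ht : 0 < t)

include ht

lemma Hlim_half {y : ℝ} (hy : 0 < y) : Hlim d t y / 2 < Hlim d t (y / 2) := by
  have h1 : Hlim d t y / 2 + (1 - Real.exp (-(y / 2))) ^ 2 / 2 ≤ Hlim d t (y / 2) := by
    refine le_of_tendsto_of_tendsto' (((Hlim_tendsto d ht hy).div_const 2).add_const _)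
      (Hlim_tendsto d ht (half_pos hy)) fun L => ?_
    exact Hf_half (nrs d (L + 1)) (nrs_nonneg d (L + 1)) ht.le hy
  have h2 : Real.exp (-(y / 2)) < 1 := by
    have := Real.exp_lt_exp.2 (show -(y / 2) < 0 by linarith)
    rwa [Real.exp_zero] at this
  have h3 : 0 < (1 - Real.exp (-(y / 2))) ^ 2 := by
    have : 0 < 1 - Real.exp (-(y / 2)) := by linarith
    positivity
  linarith

/-- The threshold in terms of the process without perturbation. -/
theorem thr_exact {lc : ℝ} (h1 : ∀ lam, 0 < lam → lam ≤ lc → mlim d t lam = 0)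
    (h2 : ∀ lam, lc < lam → 0 < mlim d t lam) {lam : ℝ} (hl : 0 < lam) :
    lam ≤ lc ↔ ∀ y : ℝ, 0 < y → lam * t * Hlim d t y ≤ y := by
  have ha : 0 < lam * t := mul_pos hl ht
  constructor
  · intro hlc y hy
    by_contra hc
    push Not at hc
    have h3 := mlim_max d ht hl (q := y / (lam * t)) (by positivity) (by
      rw [mul_div_cancel₀ _ ha.ne', div_le_iff₀ ha]
      linarith)
    rw [h1 lam hl hlc] at h3
    exact absurd h3 (not_le.2 (by positivity))
  · intro h
    by_contra hc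
    push Not at hc
    have hm := h2 lam hc
    have h3 := mlim_eq d ht hl hm
    have hy : 0 < lam * t * mlim d t lam := mul_pos ha hm
    have h4 := Hlim_half d ht hy
    have h5 := h _ (half_pos hy)
    rw [h3] at h4
    have h6 := mul_lt_mul_of_pos_left h4 ha
    linarith

/-- The threshold in terms of the mean cycle length of the process without perturbation. -/
theorem thr_mean {lc : ℝ} (h1 : ∀ lam, 0 < lam → lam ≤ lc → mlim d t lam = 0)
    (h2 : ∀ lam, lc < lam → 0 < mlim d t lam) {lam : ℝ} (hl : 0 < lam) :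
    lam ≤ lc ↔ ∀ (K : ℕ) (η : ℝ), 0 < η → ∀ᶠ L : ℕ in atTop,
      lam * t * Tm (nrs d (L + 1)) t K ≤ 1 + η := by
  rw [thr_exact d ht h1 h2 hl]
  have ha : 0 < lam * t := mul_pos hl ht
  constructor
  · intro h K η hη
    obtain ⟨y, hy⟩ : ∃ y, y = η / ((1 + η) * ((K : ℝ) + 1)) := ⟨_, rfl⟩
    have hK0 : (0 : ℝ) ≤ K := Nat.cast_nonneg K
    have hy0 : 0 < y := by rw [hy]; positivity
    have hy1 : y * ((1 + η) * ((K : ℝ) + 1)) = η := by
      rw [hy]
      field_simp
    have h3 := ((Hlim_tendsto d ht hy0).const_mul (lam * t)).eventually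
      (eventually_le_nhds (b := y * (1 + η / 2)) (by
        have := h y hy0
        nlinarith [mul_pos hy0 hη]))
    filter_upwards [h3] with L hL
    have h4 := Tm_le_Hf (nrs d (L + 1)) (nrs_nonneg d (L + 1)) ht.le hy0 hK0
    have h5 := mul_le_mul_of_nonneg_left h4 ha.le
    obtain ⟨X, hX⟩ : ∃ X, X = lam * t * Tm (nrs d (L + 1)) t K := ⟨_, rfl⟩
    have h6 : lam * t * (y * (1 - y * K / 2) * Tm (nrs d (L + 1)) t K) =
        y * ((1 - y * K / 2) * X) := by
      rw [hX]
      ring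
    rw [h6] at h5
    rw [← hX]
    have h7 : (1 - y * K / 2) * X ≤ 1 + η / 2 :=
      le_of_mul_le_mul_left (h5.trans hL) hy0
    have h8 : y * K * (1 + η) ≤ η := by nlinarith [mul_pos hy0 (show 0 < 1 + η by linarith)]
    have h9 : 1 + η / 2 ≤ (1 - y * K / 2) * (1 + η) := by nlinarith
    have h10 : 0 < 1 - y * K / 2 := by
      by_contra hno
      push Not at hno
      nlinarith
    exact le_of_mul_le_mul_left (h7.trans h9) h10
  · intro h y hy
    obtain ⟨K, hK⟩ := exists_nat_ge (1 / y)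
    have hK1 : 1 ≤ y * (K : ℝ) := by
      rw [div_le_iff₀ hy] at hK
      linarith
    refine le_of_forall_pos_le_add fun e he => ?_
    have h3 := h K (e / y) (by positivity)
    refine le_of_tendsto ((Hlim_tendsto d ht hy).const_mul (lam * t)) ?_
    filter_upwards [h3] with L hL
    have h4 := Hf_le_Tm (nrs d (L + 1)) (nrs_nonneg d (L + 1)) ht.le hy hK1
    have h5 := mul_le_mul_of_nonneg_left h4 ha.le
    have h6 := mul_le_mul_of_nonneg_left hL hy.le
    have h7 : y * (1 + e / y) = y + e := by field_simp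
    rw [h7] at h6
    linarith

end lim

end Pool.Agent.TH604.ST
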