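import Pool.Agent.TH604.ST.Asm1

/-!
# Mean-field perturbation of random stirring: the fixed point equation and the bound at a fixed
strength
-/

set_option autoImplicit false
set_option maxHeartbeats 400000

namespace Pool.Agent.TH604.ST

open Finset Equiv Pool.Agent.W805.LR

section root

variable {V : Type} [Fintype V] [DecidableEq V]

/-- The solutions of the fixed point equation. -/
def Rts (J : V → V → ℝ) (t a : ℝ) : Set ℝ :=
  {q : ℝ | q = 1 - stE J t (fun g => (∑ v, Real.exp (-(a * q * len g v))) / nn V)}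

/-- Weights of the pairs `(g, v)`. -/
noncomputable def ww (J : V → V → ℝ) (t : ℝ) (i : Perm V × V) : ℝ :=
  Real.exp (-(t * rate J)) * stirMass J t i.1 / nn V

lemma wsum (J : V → V → ℝ) (t : ℝ) (f : Perm V → V → ℝ) :
    ∑ i : Perm V × V, ww J t i * f i.1 i.2 = stE J t (fun g => (∑ v, f g v) / nn V) := by
  unfold ww stE
  rw [Fintype.sum_prod_type, Finset.mul_sum]
  refine Finset.sum_congr rfl fun g _ => ?_
  show ∑ v : V, Real.exp (-(t * rate J)) * stirMass J t g / nn V * f g v =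
    Real.exp (-(t * rate J)) * (stirMass J t g * ((∑ v, f g v) / nn V))
  rw [← Finset.mul_sum]
  ring

lemma Rts_eq (J : V → V → ℝ) (t a : ℝ) : Rts J t a =
    {q : ℝ | q = 1 - ∑ i : Perm V × V, ww J t i * Real.exp (-(a * q * len i.1 i.2))} := by
  ext q
  have h1 := wsum J t (fun g v => Real.exp (-(a * q * len g v)))
  simp only [Rts, Set.mem_ofPred_eq]
  rw [h1]

end root

section root2

variable {V : Type} [Fintype V] [DecidableEq V] [Nonempty V]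

lemma one_le_len (hjn : S_JN) (hbdg : S_BDG) (g : Perm V) (v : V) : 1 ≤ len g v := by
  rw [← (hbdg V 1 one_pos).1 g v]
  exact (hjn V (Perm.SameCycle.setoid g) v v).1 v

lemma ww_nonneg (hvj : S_VJ) (J : V → V → ℝ) (hJ : ∀ x y, 0 ≤ J x y) {t : ℝ} (ht : 0 ≤ t)
    (i : Perm V × V) : 0 ≤ ww J t i := by
  have hn : (0 : ℝ) < nn V := nn_pos
  have h1 := (hvj V J t hJ ht).2.1 i.1
  unfold ww
  positivity

lemma ww_sum (hvj : S_VJ) (J : V → V → ℝ) (hJ : ∀ x y, 0 ≤ J x y) {t : ℝ} (ht : 0 ≤ t) :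
    ∑ i : Perm V × V, ww J t i = 1 := by
  have hn : (0 : ℝ) < nn V := nn_pos
  have h1 := wsum J t (fun _ _ => (1 : ℝ))
  simp only [mul_one] at h1
  rw [h1]
  have h2 : (fun _ : Perm V => (∑ _v : V, (1 : ℝ)) / nn V) = fun _ => 1 := by
    funext g
    rw [Finset.sum_const, Finset.card_univ, nsmul_eq_mul, mul_one]
    have : (Fintype.card V : ℝ) = nn V := rfl
    rw [this, div_self hn.ne']
  rw [h2]
  exact (hvj V J t hJ ht).1

lemma stE_mass (hvj : S_VJ) (hbdg : S_BDG) (J : V → V → ℝ) (hJ : ∀ x y, 0 ≤ J x y) {t : ℝ}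
    (ht : 0 ≤ t) (θ : ℝ) :
    stE J t (fun g => mass θ (Perm.SameCycle.setoid g)) =
      1 - ∑ i : Perm V × V, ww J t i * Real.exp (-(θ * len i.1 i.2)) := by
  have h1 := wsum J t (fun g v => 1 - Real.exp (-(θ * len g v)))
  have h2 := ww_sum hvj J hJ ht
  have h3 : (fun g : Perm V => mass θ (Perm.SameCycle.setoid g)) =
      fun g : Perm V => (∑ v, (1 - Real.exp (-(θ * len g v)))) / nn V := by
    funext g
    unfold mass
    simp only [(hbdg V 1 one_pos).1 g]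
  have h4 : ∑ i : Perm V × V, ww J t i * (1 - Real.exp (-(θ * len i.1 i.2))) =
      ∑ i : Perm V × V, ww J t i - ∑ i : Perm V × V, ww J t i * Real.exp (-(θ * len i.1 i.2)) := by
    rw [← Finset.sum_sub_distrib]
    exact Finset.sum_congr rfl fun i _ => by ring
  rw [h3, ← h1, h4, h2]

lemma mbar_low (hvj : S_VJ) (hbdg : S_BDG) (J : V → V → ℝ) (hJ : ∀ x y, 0 ≤ J x y) {t : ℝ}
    (ht : 0 ≤ t) {a h m : ℝ} (h0 : 0 < h) (hm : m ∈ Rts J t a) :
    m ≤ stE J t (fun g => mass (h + a * m) (Perm.SameCycle.setoid g)) := by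
  have h1 : m = 1 - ∑ i : Perm V × V, ww J t i * Real.exp (-(a * m * len i.1 i.2)) := by
    rw [Rts_eq] at hm
    exact hm
  have h2 : ∑ i : Perm V × V, ww J t i * Real.exp (-((h + a * m) * len i.1 i.2)) ≤
      ∑ i : Perm V × V, ww J t i * Real.exp (-(a * m * len i.1 i.2)) := by
    refine Finset.sum_le_sum fun i _ => mul_le_mul_of_nonneg_left ?_ (ww_nonneg hvj J hJ ht i)
    refine Real.exp_le_exp.2 ?_
    have : 0 ≤ len i.1 i.2 := cnt_nonneg _
    nlinarith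
  rw [stE_mass hvj hbdg J hJ ht]
  linarith

lemma mbar_up (hroot : S_ROOT) (hjn : S_JN) (hvj : S_VJ) (hbdg : S_BDG) (J : V → V → ℝ)
    (hJ : ∀ x y, 0 ≤ J x y) {t : ℝ} (ht : 0 ≤ t) {A a h m δ : ℝ} (ha : 0 < a) (haA : a ≤ A)
    (hm : IsGreatest (Rts J t a) m) (hδ : 0 < δ) (h0 : 0 < h)
    (hh : h ≤ Real.exp (-A) * a ^ 3 * δ ^ 2 / 2) :
    stE J t (fun g => mass (h + a * (m + δ)) (Perm.SameCycle.setoid g)) ≤ m + δ := by
  rw [stE_mass hvj hbdg J hJ ht]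
  rw [Rts_eq] at hm
  exact hroot (Perm V × V) (ww J t) (fun i => len i.1 i.2) (ww_nonneg hvj J hJ ht)
    (ww_sum hvj J hJ ht) (fun i => one_le_len hjn hbdg i.1 i.2) A a m δ h ha haA hm hδ h0 hh

lemma root_ex (hrt : S_RT2) (hjn : S_JN) (hvj : S_VJ) (hbdg : S_BDG) (J : V → V → ℝ)
    (hJ : ∀ x y, 0 ≤ J x y) {t : ℝ} (ht : 0 ≤ t) {a : ℝ} (ha : 0 ≤ a) :
    ∃ m, IsGreatest (Rts J t a) m := by
  rw [Rts_eq]
  exact (hrt (Perm V × V) (ww J t) (fun i => len i.1 i.2) (ww_nonneg hvj J hJ ht)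
    (ww_sum hvj J hJ ht) (fun i => one_le_len hjn hbdg i.1 i.2)).1 a ha

lemma root_bd (hrt : S_RT2) (hjn : S_JN) (hvj : S_VJ) (hbdg : S_BDG) (J : V → V → ℝ)
    (hJ : ∀ x y, 0 ≤ J x y) {t : ℝ} (ht : 0 ≤ t) {a m : ℝ} (ha : 0 ≤ a)
    (hm : IsGreatest (Rts J t a) m) :
    0 ≤ m ∧ m ≤ 1 ∧ (0 < m ↔ 1 < a * stE J t (fun g => (∑ v, len g v) / nn V)) := by
  rw [Rts_eq] at hm
  have h1 := (hrt (Perm V × V) (ww J t) (fun i => len i.1 i.2) (ww_nonneg hvj J hJ ht)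
    (ww_sum hvj J hJ ht) (fun i => one_le_len hjn hbdg i.1 i.2)).2.1 a m ha hm
  rw [wsum J t (fun g v => len g v)] at h1
  exact h1

lemma root_mono (hrt : S_RT2) (hjn : S_JN) (hvj : S_VJ) (hbdg : S_BDG) (J : V → V → ℝ)
    (hJ : ∀ x y, 0 ≤ J x y) {t : ℝ} (ht : 0 ≤ t) {a b m q : ℝ} (ha : 0 ≤ a) (hab : a ≤ b)
    (hm : IsGreatest (Rts J t a) m) (hq : IsGreatest (Rts J t b) q) : m ≤ q := by
  rw [Rts_eq] at hm hq
  exact (hrt (Perm V × V) (ww J t) (fun i => len i.1 i.2) (ww_nonneg hvj J hJ ht)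
    (ww_sum hvj J hJ ht) (fun i => one_le_len hjn hbdg i.1 i.2)).2.2 a b m q ha hab hm hq

/-- The bound at a fixed strength, in terms of `n` only. -/
noncomputable def C2 (Λ t D h δ n : ℝ) : ℝ :=
  Λ * t / (n * h ^ 2) + 4 * (δ ^ 2 + Real.exp (Λ * t / h) ^ 2 * (2 * (t * D) / (n * h ^ 2)) +
    Real.exp (Λ * t / h) ^ 2 * (2 * (t * D) / (n * h ^ 2)) +
    (Real.exp (Λ * t / h) * (Λ * t * √(Λ * t * n) / (n * h ^ 2) + Λ * t / (n * h ^ 2))) ^ 2)

lemma fixed (hmon : S_MON) (hlin : S_LIN) (hms : S_MS) (hburg : S_BURG) (hvm : S_VM)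
    (hroot : S_ROOT) (hrt : S_RT2) (hjn : S_JN) (hvj : S_VJ) (hbdg : S_BDG) (J : V → V → ℝ)
    (hJ : ∀ x y, 0 ≤ J x y) {t D : ℝ} (ht : 0 < t) (hD : rate J ≤ D * nn V)
    {Λ lam h m δ : ℝ} (hlam : 0 < lam) (hlΛ : lam ≤ Λ)
    (hm : IsGreatest (Rts J t (lam * t)) m) (hδ : 0 < δ) (h0 : 0 < h)
    (hh : h ≤ Real.exp (-(Λ * t)) * (lam * t) ^ 3 * δ ^ 2 / 2) :
    stE J t (fun g => poi (unif V) Tj (lam * t * nn V / 2)
      (fun R => (mass h R - m) ^ 2) (Perm.SameCycle.setoid g)) ≤ C2 Λ t D h δ (nn V) := by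
  have hn : (0 : ℝ) < nn V := nn_pos
  have hΛ : 0 < Λ := lt_of_lt_of_le hlam hlΛ
  obtain ⟨S, hS⟩ : ∃ S, S = lam * t * nn V / 2 := ⟨_, rfl⟩
  have hS0 : 0 ≤ S := by rw [hS]; positivity
  have e2S : 2 * S / nn V = lam * t := by rw [hS]; field_simp
  obtain ⟨a, ha⟩ : ∃ a, a = lam * t := ⟨_, rfl⟩
  have ha0 : 0 < a := by rw [ha]; positivity
  have haΛ : a ≤ Λ * t := by rw [ha]; exact mul_le_mul_of_nonneg_right hlΛ ht.le
  obtain ⟨hm0, hm1, _⟩ := root_bd hrt hjn hvj hbdg J hJ ht.le (by positivity) hm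
  rw [← hS]
  rw [← ha] at hm hh e2S
  obtain ⟨M1, hM1⟩ : ∃ M, M = stE J t (fun g => mass (h + a * m) (Perm.SameCycle.setoid g)) :=
    ⟨_, rfl⟩
  obtain ⟨M2, hM2⟩ : ∃ M, M = stE J t (fun g => mass (h + a * (m + δ))
    (Perm.SameCycle.setoid g)) := ⟨_, rfl⟩
  have k1 : m ≤ M1 := by rw [hM1]; exact mbar_low hvj hbdg J hJ ht.le h0 hm.1
  have k2 : M2 ≤ m + δ := by
    rw [hM2]
    exact mbar_up hroot hjn hvj hbdg J hJ ht.le ha0 haΛ hm hδ h0 hh
  obtain ⟨G, hG⟩ : ∃ G, G = Real.exp (2 * S / (nn V * h)) := ⟨_, rfl⟩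
  obtain ⟨E, hE⟩ : ∃ E, E = S * (2 / (nn V * h) * (√(2 * S) / (nn V * h)) +
        2 / (nn V ^ 2 * h ^ 2)) := ⟨_, rfl⟩
  have hE0 : 0 ≤ E := by rw [hE]; positivity
  have hG0 : 0 < G := by rw [hG]; exact Real.exp_pos _
  -- pointwise
  have p1 : ∀ g : Perm V, poi (unif V) Tj S (fun R => (mass h R - m) ^ 2)
      (Perm.SameCycle.setoid g) ≤
      (4 * G ^ 2) * (mass (h + a * m) (Perm.SameCycle.setoid g) - M1) ^ 2 +
      1 * ((4 * G ^ 2) * (mass (h + a * (m + δ)) (Perm.SameCycle.setoid g) - M2) ^ 2 +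
      (2 * S * (1 / (nn V * h)) ^ 2 + 4 * δ ^ 2 + 4 * (G * E) ^ 2) * 1) := by
    intro g
    have q1 := poiSq hlin hms hvm (Perm.SameCycle.setoid g) m h0 hS0
    have q2 := devi hmon hlin hms hburg (Perm.SameCycle.setoid g) h0 hS0 hm0 hm1 hδ k1 k2
    rw [e2S, ← hG, ← hE] at q2
    refine q1.trans ((add_le_add_right q2 _).trans (le_of_eq ?_))
    ring
  have p2 := stE_mono (hvj V J t hJ ht.le).2.1 p1
  refine p2.trans ?_
  rw [stE_lin, stE_lin, stE_const (hvj V J t hJ ht.le).1]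
  have v1 := varM hvj hbdg J hJ ht.le (θ := h + a * m) (by positivity)
  have v2 := varM hvj hbdg J hJ ht.le (θ := h + a * (m + δ)) (by positivity)
  rw [← hM1] at v1
  rw [← hM2] at v2
  have w1 : ∀ θ : ℝ, h ≤ θ → 2 * (t * rate J) * (1 / (nn V * θ)) ^ 2 ≤
      2 * (t * D) / (nn V * h ^ 2) := by
    intro θ hθ
    have hθ0 : 0 < θ := lt_of_lt_of_le h0 hθ
    have u1 : (1 / (nn V * θ)) ^ 2 ≤ (1 / (nn V * h)) ^ 2 := by
      refine pow_le_pow_left₀ (by positivity) ?_ 2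
      exact one_div_le_one_div_of_le (by positivity) (mul_le_mul_of_nonneg_left hθ hn.le)
    have u2 : 0 ≤ rate J := by
      unfold rate
      exact Finset.sum_nonneg fun x _ => Finset.sum_nonneg fun y _ =>
        div_nonneg (hJ x y) (by norm_num)
    calc 2 * (t * rate J) * (1 / (nn V * θ)) ^ 2
        ≤ 2 * (t * rate J) * (1 / (nn V * h)) ^ 2 :=
          mul_le_mul_of_nonneg_left u1 (by positivity)
      _ ≤ 2 * (t * (D * nn V)) * (1 / (nn V * h)) ^ 2 := by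
          refine mul_le_mul_of_nonneg_right ?_ (by positivity)
          have := mul_le_mul_of_nonneg_left hD ht.le
          linarith
      _ = 2 * (t * D) / (nn V * h ^ 2) := by field_simp
  have x1 := v1.trans (w1 _ (by nlinarith))
  have x2 := v2.trans (w1 _ (by nlinarith [mul_nonneg ha0.le (add_nonneg hm0 hδ.le)]))
  have g1 : G ≤ Real.exp (Λ * t / h) := by
    rw [hG, ← div_div, e2S]
    exact Real.exp_le_exp.2 (div_le_div_of_nonneg_right haΛ h0.le)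
  have g2 : G ^ 2 ≤ Real.exp (Λ * t / h) ^ 2 := pow_le_pow_left₀ hG0.le g1 2
  have s1 : S ≤ Λ * t * nn V / 2 := by
    rw [hS]
    have := mul_le_mul_of_nonneg_right haΛ hn.le
    rw [ha] at this
    linarith
  have s2 : 2 * S ≤ Λ * t * nn V := by linarith
  have e1 : E ≤ Λ * t * √(Λ * t * nn V) / (nn V * h ^ 2) + Λ * t / (nn V * h ^ 2) := by
    have r1 : √(2 * S) ≤ √(Λ * t * nn V) := Real.sqrt_le_sqrt s2
    calc E ≤ (Λ * t * nn V / 2) * (2 / (nn V * h) * (√(Λ * t * nn V) / (nn V * h)) +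
        2 / (nn V ^ 2 * h ^ 2)) := by
          rw [hE]
          gcongr
      _ = Λ * t * √(Λ * t * nn V) / (nn V * h ^ 2) + Λ * t / (nn V * h ^ 2) := by
          field_simp
  have t1 : 2 * S * (1 / (nn V * h)) ^ 2 ≤ Λ * t / (nn V * h ^ 2) := by
    calc 2 * S * (1 / (nn V * h)) ^ 2 ≤ Λ * t * nn V * (1 / (nn V * h)) ^ 2 :=
          mul_le_mul_of_nonneg_right s2 (by positivity)
      _ = Λ * t / (nn V * h ^ 2) := by field_simp
  have t2 : (G * E) ^ 2 ≤ (Real.exp (Λ * t / h) * (Λ * t * √(Λ * t * nn V) / (nn V * h ^ 2) +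
      Λ * t / (nn V * h ^ 2))) ^ 2 :=
    pow_le_pow_left₀ (by positivity) (mul_le_mul g1 e1 hE0 (Real.exp_pos _).le) 2
  have tD : 0 ≤ 2 * (t * D) / (nn V * h ^ 2) := by
    have u2 : 0 ≤ rate J := by
      unfold rate
      exact Finset.sum_nonneg fun x _ => Finset.sum_nonneg fun y _ =>
        div_nonneg (hJ x y) (by norm_num)
    have u3 : 0 ≤ D := by
      by_contra hc
      push Not at hc
      nlinarith
    positivity
  have y1 := mul_le_mul g2 x1 (by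
    refine le_trans (le_of_eq ?_) (stE_mono (hvj V J t hJ ht.le).2.1 (F := fun _ => 0)
      (fun g => sq_nonneg _))
    exact (stE_const (hvj V J t hJ ht.le).1 0).symm) (by positivity)
  have y2 := mul_le_mul g2 x2 (by
    refine le_trans (le_of_eq ?_) (stE_mono (hvj V J t hJ ht.le).2.1 (F := fun _ => 0)
      (fun g => sq_nonneg _))
    exact (stE_const (hvj V J t hJ ht.le).1 0).symm) (by positivity)
  unfold C2
  nlinarith [y1, y2, t1, t2]

end root2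

end Pool.Agent.TH604.ST
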