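import Pool.Agent.TH604.ST.Asm2

/-!
# Mean-field perturbation of random stirring: integration over the strength
-/

set_option autoImplicit false
set_option maxHeartbeats 400000

namespace Pool.Agent.TH604.ST

open Finset Equiv Pool.Agent.W805.LR MeasureTheory Filter Topology

section cont

variable {V : Type} [Fintype V] [DecidableEq V] [Nonempty V]

lemma poi_cont (hder : S_DER) {X : Type} (T : V × V → X → X) {F : X → ℝ} (hF : Bdd F) (x : X) :
    Continuous fun s : ℝ => poi (unif V) T s F x :=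
  continuous_iff_continuousAt.2 fun s =>
    (hder X (V × V) (unif V) T prb_unif F hF s x).continuousAt

lemma stE_cont (hder : S_DER) {X : Type} (T : V × V → X → X) {F : X → ℝ} (hF : Bdd F)
    (J : V → V → ℝ) (t c : ℝ) (f : Perm V → X) :
    Continuous fun lam : ℝ => stE J t (fun g => poi (unif V) T (lam * c) F (f g)) := by
  unfold stE
  refine continuous_const.mul (continuous_finsetSum _ fun g _ => continuous_const.mul ?_)
  exact (poi_cont hder T hF (f g)).comp (continuous_id.mul continuous_const)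

lemma pert_cont (hder : S_DER) (hcent : S_CENT) {F : Perm V → ℝ} (hF : Bdd F)
    (J : V → V → ℝ) (t : ℝ) :
    Continuous fun lam : ℝ => stE (fun x y => J x y + lam / nn V) t F := by
  have h1 : (fun lam : ℝ => stE (fun x y => J x y + lam / nn V) t F) =
      fun lam : ℝ => stE J t (fun g => poi (unif V) Tg (lam * (t * nn V / 2)) F (id g)) := by
    funext lam
    rw [hcent V J lam t F]
    have e : lam * t * nn V / 2 = lam * (t * nn V / 2) := by ring
    rw [e]
    rfl
  rw [h1]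
  exact stE_cont hder Tg hF J t _ id

lemma pert_int (hder : S_DER) (hcent : S_CENT) (hrt : S_RT2) (hjn : S_JN) (hvj : S_VJ)
    (hbdg : S_BDG) (J : V → V → ℝ) (hJ : ∀ x y, 0 ≤ J x y) {t Λ : ℝ} (ht : 0 < t) (hΛ : 0 ≤ Λ)
    (s : ℝ) (m : ℝ → ℝ) (hm : ∀ lam, 0 ≤ lam → IsGreatest (Rts J t (lam * t)) (m lam)) :
    IntervalIntegrable (fun lam => stE (fun x y => J x y + lam / nn V) t
      (fun g => (frac s g - m lam) ^ 2)) volume 0 Λ := by
  have bF : Bdd (frac s : Perm V → ℝ) := bdd_frac s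
  have c2 := pert_cont hder hcent (bdd_sq bF) J t
  have c1 := pert_cont hder hcent bF J t
  have c0 := pert_cont hder hcent (bdd_const (X := Perm V) 1) J t
  have hmon : MonotoneOn m (Set.uIcc 0 Λ) := by
    intro a ha b hb hab
    rw [Set.uIcc_of_le hΛ] at ha hb
    exact root_mono hrt hjn hvj hbdg J hJ ht.le (mul_nonneg ha.1 ht.le)
      (mul_le_mul_of_nonneg_right hab ht.le) (hm a ha.1) (hm b hb.1)
  have hmon2 : MonotoneOn (fun x => m x ^ 2) (Set.uIcc 0 Λ) := by
    intro a ha b hb hab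
    have h1 := hmon ha hb hab
    rw [Set.uIcc_of_le hΛ] at ha
    have h2 := (root_bd hrt hjn hvj hbdg J hJ ht.le (mul_nonneg ha.1 ht.le) (hm a ha.1)).1
    exact pow_le_pow_left₀ h2 h1 2
  have i1 := hmon.intervalIntegrable (μ := volume)
  have i2 := hmon2.intervalIntegrable (μ := volume)
  have e1 : (fun lam => stE (fun x y => J x y + lam / nn V) t
      (fun g => (frac s g - m lam) ^ 2)) =
      fun lam => (stE (fun x y => J x y + lam / nn V) t (fun g => frac s g ^ 2) +
        (-2) * (m lam * stE (fun x y => J x y + lam / nn V) t (frac s))) +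
        m lam ^ 2 * stE (fun x y => J x y + lam / nn V) t (fun _ => 1) := by
    funext lam
    have e2 : (fun g : Perm V => (frac s g - m lam) ^ 2) =
        fun g => 1 * (frac s g ^ 2) + 1 * ((-2 * m lam) * frac s g + m lam ^ 2 * 1) := by
      funext g
      ring
    rw [e2, stE_lin, stE_lin]
    ring
  rw [e1]
  exact ((c2.intervalIntegrable 0 Λ).add ((i1.mul_continuousOn c1.continuousOn).const_mul _)).add
    (i2.mul_continuousOn c0.continuousOn)

end cont

section integral

variable {V : Type} [Fintype V] [DecidableEq V] [Nonempty V]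

lemma bdd_gap (hms : S_MS) {h : ℝ} (h0 : 0 < h) (s : ℝ) :
    Bdd (fun z : Perm V × Setoid V => (mass h z.2 - frac s z.1) ^ 2) := by
  have c1 : Bdd (fun z : Perm V × Setoid V => frac s z.1) := bdd_comp (bdd_frac s) Prod.fst
  have c2 : Bdd (fun z : Perm V × Setoid V => mass h z.2) := bdd_comp (bdd_mass hms h0) Prod.snd
  exact bdd_sub_sq c2 c1

lemma intF1 (hder : S_DER) (hms : S_MS) (hfill : S_FILL) (hvj : S_VJ)
    (J : V → V → ℝ) (hJ : ∀ x y, 0 ≤ J x y) {t Λ h ε : ℝ} (ht : 0 < t) (hΛ : 0 ≤ Λ)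
    (h0 : 0 < h) (hε : 0 < ε) :
    ∫ lam in (0 : ℝ)..Λ, stE J t (fun g => poi (unif V) Tp (lam * (t * nn V / 2))
      (fun z => (mass h z.2 - frac (ε * nn V) z.1) ^ 2) (g, Perm.SameCycle.setoid g)) ≤
    2 * h / t + 2 / (t * nn V * ε) + Λ * (6 * ε + 3 * Real.exp (-(h * (ε * nn V)))) := by
  have hn : (0 : ℝ) < nn V := nn_pos
  obtain ⟨c, hc⟩ : ∃ c, c = t * nn V / 2 := ⟨_, rfl⟩
  have hc0 : 0 < c := by rw [hc]; positivity
  rw [← hc]
  obtain ⟨Q, hQ⟩ : ∃ Q : Perm V → ℝ → ℝ, Q = fun g s => poi (unif V) Tp s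
      (fun z => (mass h z.2 - frac (ε * nn V) z.1) ^ 2) (g, Perm.SameCycle.setoid g) := ⟨_, rfl⟩
  have hQc : ∀ g, Continuous (Q g) := fun g => by
    rw [hQ]
    exact poi_cont hder Tp (bdd_gap hms h0 _) _
  have e1 : (fun lam => stE J t (fun g => poi (unif V) Tp (lam * c)
      (fun z => (mass h z.2 - frac (ε * nn V) z.1) ^ 2) (g, Perm.SameCycle.setoid g))) =
      fun lam => Real.exp (-(t * rate J)) * ∑ g, stirMass J t g * Q g (lam * c) := by
    funext lam
    unfold stE
    rw [hQ]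
  rw [e1, intervalIntegral.integral_const_mul, intervalIntegral.integral_finsetSum]
  swap
  · intro g _
    exact (continuous_const.mul
      ((hQc g).comp (continuous_id.mul continuous_const))).intervalIntegrable _ _
  have e2 : ∀ g : Perm V, ∫ lam in (0 : ℝ)..Λ, stirMass J t g * Q g (lam * c) =
      stirMass J t g * (c⁻¹ * ∫ s in (0 : ℝ)..(Λ * c), Q g s) := by
    intro g
    rw [intervalIntegral.integral_const_mul, intervalIntegral.integral_comp_mul_right _ hc0.ne',
      zero_mul, smul_eq_mul]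
  simp only [e2]
  have e3 : ∀ g : Perm V, c⁻¹ * ∫ s in (0 : ℝ)..(Λ * c), Q g s ≤
      c⁻¹ * (h * nn V + 1 / ε + Λ * c * (6 * ε + 3 * Real.exp (-(h * (ε * nn V))))) := by
    intro g
    refine mul_le_mul_of_nonneg_left ?_ (by positivity)
    rw [hQ]
    exact hfill V h ε (Λ * c) g h0 hε (by positivity)
  have e4 := stE_mono (hvj V J t hJ ht.le).2.1 e3
  rw [stE_const (hvj V J t hJ ht.le).1] at e4
  unfold stE at e4
  refine e4.trans (le_of_eq ?_)
  rw [hc]
  field_simp

lemma main_n (hder : S_DER) (hmon : S_MON) (hlin : S_LIN) (hprj : S_PRJ) (hms : S_MS)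
    (hburg : S_BURG) (hvm : S_VM) (hfill : S_FILL) (hcent : S_CENT)
    (hroot : S_ROOT) (hrt : S_RT2) (hjn : S_JN) (hvj : S_VJ) (hbdg : S_BDG) (J : V → V → ℝ)
    (hJ : ∀ x y, 0 ≤ J x y) {t D : ℝ} (ht : 0 < t) (hD : rate J ≤ D * nn V)
    {Λ h δ b ε : ℝ} (hΛ : 0 < Λ) (hδ : 0 < δ) (h0 : 0 < h) (hb : 0 < b) (hε : 0 < ε)
    (hh : h ≤ Real.exp (-(Λ * t)) * (b * t) ^ 3 * δ ^ 2 / 2) (m : ℝ → ℝ)
    (hm : ∀ lam, 0 ≤ lam → IsGreatest (Rts J t (lam * t)) (m lam)) :
    ∫ lam in (0 : ℝ)..Λ, stE (fun x y => J x y + lam / nn V) t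
      (fun g => (frac (ε * nn V) g - m lam) ^ 2) ≤
    b + 2 * (2 * h / t + 2 / (t * nn V * ε) + Λ * (6 * ε + 3 * Real.exp (-(h * (ε * nn V))))) +
      2 * Λ * C2 Λ t D h δ (nn V) := by
  have hn : (0 : ℝ) < nn V := nn_pos
  have hC0 : 0 ≤ C2 Λ t D h δ (nn V) := by
    have u2 : 0 ≤ rate J := by
      unfold rate
      exact Finset.sum_nonneg fun x _ => Finset.sum_nonneg fun y _ =>
        div_nonneg (hJ x y) (by norm_num)
    have u3 : 0 ≤ D := by
      by_contra hc
      push Not at hc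
      nlinarith
    unfold C2
    positivity
  obtain ⟨A, hA⟩ : ∃ A : ℝ → ℝ, A = fun lam => stE (fun x y => J x y + lam / nn V) t
      (fun g => (frac (ε * nn V) g - m lam) ^ 2) := ⟨_, rfl⟩
  rw [← hA]
  have hAint : ∀ x, 0 ≤ x → IntervalIntegrable A volume 0 x := by
    intro x hx
    rw [hA]
    exact pert_int hder hcent hrt hjn hvj hbdg J hJ ht hx _ m hm
  have hA1 : ∀ lam, 0 ≤ lam → A lam ≤ 1 := by
    intro lam hl
    have hJ' : ∀ x y, 0 ≤ J x y + lam / nn V := fun x y =>
      add_nonneg (hJ x y) (div_nonneg hl hn.le)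
    have hv := hvj V (fun x y => J x y + lam / nn V) t hJ' ht.le
    obtain ⟨r0, r1, _⟩ := root_bd hrt hjn hvj hbdg J hJ ht.le (mul_nonneg hl ht.le) (hm lam hl)
    have h2 := stE_mono hv.2.1 (F := fun g => (frac (ε * nn V) g - m lam) ^ 2) (G := fun _ => 1)
      (fun g => sq_le_one_of (frac_nonneg _ g) (frac_le_one _ g) r0 r1)
    rw [hv.1] at h2
    rw [hA]
    exact h2
  obtain ⟨F1, hF1⟩ : ∃ F1 : ℝ → ℝ, F1 = fun lam => stE J t (fun g => poi (unif V) Tp
      (lam * (t * nn V / 2)) (fun z => (mass h z.2 - frac (ε * nn V) z.1) ^ 2)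
      (g, Perm.SameCycle.setoid g)) := ⟨_, rfl⟩
  have hF1c : Continuous F1 := by
    rw [hF1]
    exact stE_cont hder Tp (bdd_gap hms h0 _) J t _ (fun g => (g, Perm.SameCycle.setoid g))
  have hF10 : ∀ lam, 0 ≤ lam → 0 ≤ F1 lam := by
    intro lam hl
    rw [hF1]
    have hv := hvj V J t hJ ht.le
    have h2 := stE_mono hv.2.1 (F := fun _ => 0) (G := fun g => poi (unif V) Tp
      (lam * (t * nn V / 2)) (fun z => (mass h z.2 - frac (ε * nn V) z.1) ^ 2)
      (g, Perm.SameCycle.setoid g)) (fun g => by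
        have h3 := poi_mono hmon (T := Tp) (bdd_const (X := Perm V × Setoid V) 0)
          (bdd_gap hms h0 (ε * nn V)) (fun z => sq_nonneg _)
          (s := lam * (t * nn V / 2)) (by positivity) (g, Perm.SameCycle.setoid g)
        rw [(hlin (Perm V × Setoid V) (V × V) (unif V) Tp prb_unif).2.1] at h3
        exact h3)
    rw [stE_const hv.1] at h2
    exact h2
  have hint := intF1 hder hms hfill hvj J hJ ht hΛ.le h0 hε
  rw [← hF1] at hint
  have hAF : ∀ lam, b ≤ lam → lam ≤ Λ → A lam ≤ 2 * F1 lam + 2 * C2 Λ t D h δ (nn V) := by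
    intro lam hbl hlΛ
    have hl : 0 < lam := lt_of_lt_of_le hb hbl
    have q1 := split1 hmon hlin hprj hcent hvj hms J hJ (ε * nn V) (m lam) h0 ht.le hl.le
    have hh' : h ≤ Real.exp (-(Λ * t)) * (lam * t) ^ 3 * δ ^ 2 / 2 := by
      refine hh.trans ?_
      have : (b * t) ^ 3 ≤ (lam * t) ^ 3 :=
        pow_le_pow_left₀ (by positivity) (mul_le_mul_of_nonneg_right hbl ht.le) 3
      gcongr
    have q2 := fixed hmon hlin hms hburg hvm hroot hrt hjn hvj hbdg J hJ ht hD hl hlΛ
      (hm lam hl.le) hδ h0 hh'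
    have e : lam * t * nn V / 2 = lam * (t * nn V / 2) := by ring
    rw [e] at q1 q2
    rw [hA, hF1]
    linarith
  have hpos : 0 ≤ 2 * (2 * h / t + 2 / (t * nn V * ε) +
      Λ * (6 * ε + 3 * Real.exp (-(h * (ε * nn V))))) := by positivity
  rcases le_total Λ b with hc | hc
  · have h1 : ∫ lam in (0 : ℝ)..Λ, A lam ≤ ∫ _lam in (0 : ℝ)..Λ, (1 : ℝ) := by
      refine intervalIntegral.integral_mono_on hΛ.le (hAint Λ hΛ.le)
        intervalIntegrable_const fun x hx => hA1 x hx.1
    rw [intervalIntegral.integral_const, smul_eq_mul, mul_one, sub_zero] at h1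
    have h2 : 0 ≤ 2 * Λ * C2 Λ t D h δ (nn V) := by positivity
    linarith
  · have i2 : IntervalIntegrable A volume b Λ :=
      (hAint b hb.le).symm.trans (hAint Λ hΛ.le)
    rw [← intervalIntegral.integral_add_adjacent_intervals (hAint b hb.le) i2]
    have h1 : ∫ lam in (0 : ℝ)..b, A lam ≤ ∫ _lam in (0 : ℝ)..b, (1 : ℝ) :=
      intervalIntegral.integral_mono_on hb.le (hAint b hb.le)
        intervalIntegrable_const fun x hx => hA1 x hx.1
    rw [intervalIntegral.integral_const, smul_eq_mul, mul_one, sub_zero] at h1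
    have hF2c : Continuous (fun lam => 2 * F1 lam) := continuous_const.mul hF1c
    have h2 : ∫ lam in b..Λ, A lam ≤ ∫ lam in b..Λ, (2 * F1 lam + 2 * C2 Λ t D h δ (nn V)) :=
      intervalIntegral.integral_mono_on hc i2
        ((hF2c.add continuous_const).intervalIntegrable _ _)
        fun x hx => hAF x hx.1 hx.2
    rw [intervalIntegral.integral_add (hF2c.intervalIntegrable _ _)
      intervalIntegrable_const, intervalIntegral.integral_const_mul,
      intervalIntegral.integral_const, smul_eq_mul] at h2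
    have h3 : ∫ lam in b..Λ, F1 lam ≤ ∫ lam in (0 : ℝ)..Λ, F1 lam := by
      rw [← intervalIntegral.integral_add_adjacent_intervals
        (hF1c.intervalIntegrable 0 b) (hF1c.intervalIntegrable b Λ)]
      have : 0 ≤ ∫ lam in (0 : ℝ)..b, F1 lam :=
        intervalIntegral.integral_nonneg hb.le fun x hx => hF10 x hx.1
      linarith
    have h4 : (Λ - b) * (2 * C2 Λ t D h δ (nn V)) ≤ 2 * Λ * C2 Λ t D h δ (nn V) := by
      nlinarith
    linarith

end integral

end Pool.Agent.TH604.ST
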