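import Pool.Agent.TH604.ST.Asm3

/-!
# Mean-field perturbation of random stirring: choice of the parameters
-/

set_option autoImplicit false
set_option maxHeartbeats 400000

namespace Pool.Agent.TH604.ST

open Finset Equiv Pool.Agent.W805.LR MeasureTheory Filter Topology

section lims

lemma tend_one (c h : ℝ) : Tendsto (fun n : ℝ => c / (n * h ^ 2)) atTop (𝓝 0) := by
  have h1 : (fun n : ℝ => c / (n * h ^ 2)) = fun n : ℝ => c / h ^ 2 * n⁻¹ := by
    funext n
    rw [div_mul_eq_div_div, div_right_comm, div_eq_mul_inv (c / h ^ 2)]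
  rw [h1]
  simpa using (tendsto_inv_atTop_zero (𝕜 := ℝ)).const_mul (c / h ^ 2)

lemma tend_sqrt (c e h : ℝ) : Tendsto (fun n : ℝ => c * √(e * n) / (n * h ^ 2)) atTop (𝓝 0) := by
  have h1 : (fun n : ℝ => c / h ^ 2 * √e * (√n)⁻¹) =ᶠ[atTop]
      (fun n : ℝ => c * √(e * n) / (n * h ^ 2)) := by
    filter_upwards [eventually_gt_atTop 0] with n hn
    have hs : 0 < √n := Real.sqrt_pos.2 hn
    have h2 : √(e * n) = √e * √n := Real.sqrt_mul' e hn.le
    have h3 : n = √n * √n := (Real.mul_self_sqrt hn.le).symm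
    rw [h2]
    have h4 : c * (√e * √n) / (n * h ^ 2) = c * √e / h ^ 2 * (√n / n) := by
      rw [div_mul_div_comm]
      ring
    have h5 : √n / n = (√n)⁻¹ := by
      nth_rewrite 2 [h3]
      field_simp
    rw [h4, h5]
    ring
  refine Tendsto.congr' h1 ?_
  have h2 : Tendsto (fun n : ℝ => (√n)⁻¹) atTop (𝓝 0) :=
    tendsto_inv_atTop_zero.comp Real.tendsto_sqrt_atTop
  simpa using h2.const_mul (c / h ^ 2 * √e)

lemma tend_C2 (Λ t D h δ : ℝ) : Tendsto (fun n : ℝ => C2 Λ t D h δ n) atTop (𝓝 (4 * δ ^ 2)) := by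
  unfold C2
  have h1 := tend_one (Λ * t) h
  have h2 := tend_one (2 * (t * D)) h
  have h3 := tend_sqrt (Λ * t) (Λ * t) h
  have h4 := h1.add (((((tendsto_const_nhds (x := δ ^ 2)).add
    (h2.const_mul (Real.exp (Λ * t / h) ^ 2))).add
    (h2.const_mul (Real.exp (Λ * t / h) ^ 2))).add
    (((h3.add h1).const_mul (Real.exp (Λ * t / h))).pow 2)).const_mul 4)
  simpa using h4

lemma tend_exp {h ε : ℝ} (h0 : 0 < h) (hε : 0 < ε) :
    Tendsto (fun n : ℝ => Real.exp (-(h * (ε * n)))) atTop (𝓝 0) := by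
  refine Real.tendsto_exp_atBot.comp (tendsto_neg_atTop_atBot.comp ?_)
  have h1 : Tendsto (fun n : ℝ => (h * ε) * n) atTop atTop :=
    tendsto_id.const_mul_atTop (mul_pos h0 hε)
  refine h1.congr fun n => ?_
  ring

end lims

section upper

variable {V : Type} [Fintype V] [DecidableEq V] [Nonempty V]

/-- Upper bound at a fixed strength. -/
lemma upper (hmon : S_MON) (hlin : S_LIN) (hprj : S_PRJ) (hms : S_MS) (href : S_REF)
    (hburg : S_BURG) (hvm : S_VM) (hcent : S_CENT)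
    (hroot : S_ROOT) (hrt : S_RT2) (hjn : S_JN) (hvj : S_VJ) (hbdg : S_BDG) (J : V → V → ℝ)
    (hJ : ∀ x y, 0 ≤ J x y) {t D : ℝ} (ht : 0 < t) (hD : rate J ≤ D * nn V)
    {Λ lam h m δ s : ℝ} (hlam : 0 < lam) (hlΛ : lam ≤ Λ) (hs : 0 < s)
    (hm : IsGreatest (Rts J t (lam * t)) m) (hδ : 0 < δ) (h0 : 0 < h)
    (hh : h ≤ Real.exp (-(Λ * t)) * (lam * t) ^ 3 * δ ^ 2 / 2) :
    stE (fun x y => J x y + lam / nn V) t (fun g => max 0 (frac s g - m) ^ 2) ≤
      2 * C2 Λ t D h δ (nn V) + 2 * Real.exp (-(h * s)) ^ 2 := by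
  have hn : (0 : ℝ) < nn V := nn_pos
  have hS : 0 ≤ lam * t * nn V / 2 := by positivity
  have q2 := fixed hmon hlin hms hburg hvm hroot hrt hjn hvj hbdg J hJ ht hD hlam hlΛ
    hm hδ h0 hh
  rw [hcent]
  have p1 : ∀ g : Perm V, poi (unif V) Tg (lam * t * nn V / 2)
      (fun g => max 0 (frac s g - m) ^ 2) g ≤
      2 * poi (unif V) Tj (lam * t * nn V / 2) (fun R => (mass h R - m) ^ 2)
        (Perm.SameCycle.setoid g) + 2 * Real.exp (-(h * s)) ^ 2 * 1 := by
    intro g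
    have e1 := hprj (Perm V × Setoid V) (Perm V) (V × V) (unif V) Tp Tg Prod.fst
      (fun i x => rfl) (fun g => max 0 (frac s g - m) ^ 2) (lam * t * nn V / 2)
      (g, Perm.SameCycle.setoid g)
    have e2 := hprj (Perm V × Setoid V) (Setoid V) (V × V) (unif V) Tp Tj Prod.snd
      (fun i x => rfl) (fun R => (mass h R - m) ^ 2) (lam * t * nn V / 2)
      (g, Perm.SameCycle.setoid g)
    have e3 := (hlin (Perm V × Setoid V) (V × V) (unif V) Tp prb_unif).2.1 1
      (lam * t * nn V / 2) (g, Perm.SameCycle.setoid g)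
    have c1 : Bdd (fun z : Perm V × Setoid V => frac s z.1) := bdd_comp (bdd_frac s) Prod.fst
    have c2 : Bdd (fun z : Perm V × Setoid V => mass h z.2) :=
      bdd_comp (bdd_mass hms h0) Prod.snd
    have c3 : Bdd (fun _ : Perm V × Setoid V => m) := bdd_const m
    have c4 : Bdd (fun _ : Perm V × Setoid V => (1 : ℝ)) := bdd_const 1
    have b2 : Bdd (fun z : Perm V × Setoid V => (mass h z.2 - m) ^ 2) := bdd_sub_sq c2 c3
    have b1 : Bdd (fun z : Perm V × Setoid V => max 0 (frac s z.1 - m) ^ 2) := by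
      obtain ⟨B, hB⟩ := bdd_sub_sq c1 c3
      refine ⟨B, fun z => le_trans ?_ (hB z)⟩
      rw [abs_of_nonneg (sq_nonneg _), abs_of_nonneg (sq_nonneg _)]
      show max 0 (frac s z.1 - m) ^ 2 ≤ (frac s z.1 - m) ^ 2
      rcases le_total 0 (frac s z.1 - m) with hc | hc
      · rw [max_eq_right hc]
      · rw [max_eq_left hc]
        simpa using sq_nonneg (frac s z.1 - m)
    have e4 := (hlin (Perm V × Setoid V) (V × V) (unif V) Tp prb_unif).1
      (fun z : Perm V × Setoid V => (mass h z.2 - m) ^ 2)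
      (fun _ : Perm V × Setoid V => (1 : ℝ)) b2 c4 2 (2 * Real.exp (-(h * s)) ^ 2)
      (lam * t * nn V / 2) (g, Perm.SameCycle.setoid g)
    have e5 : poi (unif V) Tp (lam * t * nn V / 2)
        (fun z => max 0 (frac s z.1 - m) ^ 2) (g, Perm.SameCycle.setoid g) ≤
        poi (unif V) Tp (lam * t * nn V / 2)
        (fun z => 2 * (mass h z.2 - m) ^ 2 + 2 * Real.exp (-(h * s)) ^ 2 * 1)
        (g, Perm.SameCycle.setoid g) := by
      refine hmon (Perm V × Setoid V) (V × V) (unif V) Tp prb_unif Ref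
        (fun e z hz => (href V z hz).1 e) _ _ b1 (bdd_lin b2 c4 2 _) (fun z hz => ?_) _ hS _
        (fun x y hxy => hxy)
      have r1 := (href V z hz).2.2.2 h s h0 hs
      have r2 : max 0 (frac s z.1 - m) ≤ |mass h z.2 - m| + Real.exp (-(h * s)) := by
        refine max_le (by positivity) ?_
        have := le_abs_self (mass h z.2 - m)
        linarith
      have r3 : max 0 (frac s z.1 - m) ^ 2 ≤ (|mass h z.2 - m| + Real.exp (-(h * s))) ^ 2 :=
        pow_le_pow_left₀ (le_max_left _ _) r2 2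
      refine r3.trans ?_
      rw [← sq_abs (mass h z.2 - m)]
      nlinarith [sq_nonneg (|mass h z.2 - m| - Real.exp (-(h * s)))]
    rw [e3] at e4
    rw [e4] at e5
    simp only at e1 e2
    rw [e1, e2] at e5
    exact e5
  have p2 := stE_mono (hvj V J t hJ ht.le).2.1 p1
  rw [stE_lin, (hvj V J t hJ ht.le).1] at p2
  linarith

end upper

/-- The result for arbitrary finite sets. -/
lemma core (hder : S_DER) (hmon : S_MON) (hlin : S_LIN) (hprj : S_PRJ) (hms : S_MS)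
    (href : S_REF) (hburg : S_BURG) (hvm : S_VM) (hfill : S_FILL) (hcent : S_CENT)
    (hroot : S_ROOT) (hrt : S_RT2) (hjn : S_JN) (hvj : S_VJ) (hbdg : S_BDG)
    {t D Λ κ η : ℝ} (ht : 0 < t) (hΛ : 0 < Λ) (hκ : 0 < κ) (hη : 0 < η) :
    ∃ ε₀ > 0, ∀ ε : ℝ, 0 < ε → ε ≤ ε₀ → ∃ N₀ : ℝ, ∀ (V : Type) [Fintype V] [DecidableEq V]
      [Nonempty V], N₀ ≤ nn V → ∀ J : V → V → ℝ, (∀ x y, 0 ≤ J x y) → rate J ≤ D * nn V →
      ∀ m : ℝ → ℝ, (∀ lam, 0 ≤ lam → IsGreatest (Rts J t (lam * t)) (m lam)) →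
        (∫ lam in (0 : ℝ)..Λ, stE (fun x y => J x y + lam / nn V) t
          (fun g => (frac (ε * nn V) g - m lam) ^ 2) ≤ η) ∧
        ∀ lam, κ ≤ lam → lam ≤ Λ → stE (fun x y => J x y + lam / nn V) t
          (fun g => max 0 (frac (ε * nn V) g - m lam) ^ 2) ≤ η := by
  obtain ⟨b, hb⟩ : ∃ b, b = min κ (η / 8) := ⟨_, rfl⟩
  have hb0 : 0 < b := by rw [hb]; exact lt_min hκ (by positivity)
  obtain ⟨δ, hδ⟩ : ∃ δ, δ = min 1 (η / (64 * (Λ + 1))) := ⟨_, rfl⟩
  have hδ0 : 0 < δ := by rw [hδ]; exact lt_min one_pos (by positivity)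
  have hδ1 : δ ≤ 1 := by rw [hδ]; exact min_le_left _ _
  have hδ2 : δ * (64 * (Λ + 1)) ≤ η := by
    have : δ ≤ η / (64 * (Λ + 1)) := by rw [hδ]; exact min_le_right _ _
    rwa [le_div_iff₀ (by positivity)] at this
  have hδ3 : δ ^ 2 ≤ δ := by nlinarith
  obtain ⟨h, hh⟩ : ∃ h, h = min (t * η / 32)
    (Real.exp (-(Λ * t)) * (b * t) ^ 3 * δ ^ 2 / 2) := ⟨_, rfl⟩
  have h0 : 0 < h := by rw [hh]; exact lt_min (by positivity) (by positivity)
  have hh1 : h ≤ t * η / 32 := by rw [hh]; exact min_le_left _ _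
  have hh2 : h ≤ Real.exp (-(Λ * t)) * (b * t) ^ 3 * δ ^ 2 / 2 := by
    rw [hh]; exact min_le_right _ _
  refine ⟨η / (96 * (Λ + 1)), by positivity, fun ε hε hε1 => ?_⟩
  have hε2 : ε * (96 * (Λ + 1)) ≤ η := by rwa [le_div_iff₀ (by positivity)] at hε1
  -- the limit
  have l1 : Tendsto (fun n : ℝ => 4 / (t * ε) * n⁻¹ + 6 * Λ * Real.exp (-(h * (ε * n))) +
      2 * Λ * (C2 Λ t D h δ n - 4 * δ ^ 2)) atTop (𝓝 0) := by
    have a1 := (tendsto_inv_atTop_zero (𝕜 := ℝ)).const_mul (4 / (t * ε))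
    have a2 := (tend_exp h0 hε).const_mul (6 * Λ)
    have a3 := ((tend_C2 Λ t D h δ).sub_const (4 * δ ^ 2)).const_mul (2 * Λ)
    simpa using (a1.add a2).add a3
  have l2 : Tendsto (fun n : ℝ => 2 * (C2 Λ t D h δ n - 4 * δ ^ 2) +
      2 * Real.exp (-(h * (ε * n))) ^ 2) atTop (𝓝 0) := by
    have a2 := ((tend_exp h0 hε).pow 2).const_mul 2
    have a3 := ((tend_C2 Λ t D h δ).sub_const (4 * δ ^ 2)).const_mul 2
    simpa using a3.add a2
  have l3 := (l1.eventually (eventually_le_nhds (show (0 : ℝ) < η / 4 by positivity))).and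
    (l2.eventually (eventually_le_nhds (show (0 : ℝ) < η / 4 by positivity)))
  obtain ⟨N₀, hN⟩ := eventually_atTop.1 l3
  refine ⟨N₀, fun V _ _ _ hV J hJ hD m hm => ?_⟩
  have hn : (0 : ℝ) < nn V := nn_pos
  obtain ⟨n1, n2⟩ := hN (nn V) hV
  constructor
  · have k1 := main_n hder hmon hlin hprj hms hburg hvm hfill hcent hroot hrt hjn hvj hbdg J hJ
      ht hD hΛ hδ0 h0 hb0 hε hh2 m hm
    refine k1.trans ?_
    have b1 : b ≤ η / 8 := by rw [hb]; exact min_le_right _ _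
    have b2 : 2 * (2 * h / t) ≤ η / 8 := by
      rw [← mul_div_assoc, div_le_iff₀ ht]
      linarith
    have b3 : 2 * (2 / (t * nn V * ε)) = 4 / (t * ε) * (nn V)⁻¹ := by
      field_simp
      norm_num
    have b4 : 2 * (Λ * (6 * ε)) ≤ η / 8 := by nlinarith
    have b5 : 2 * Λ * (4 * δ ^ 2) ≤ η / 8 := by nlinarith
    nlinarith
  · intro lam hl hl2
    have hl0 : 0 < lam := lt_of_lt_of_le hκ hl
    have hbl : b ≤ lam := by rw [hb]; exact (min_le_left _ _).trans hl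
    have hh' : h ≤ Real.exp (-(Λ * t)) * (lam * t) ^ 3 * δ ^ 2 / 2 := by
      refine hh2.trans ?_
      have : (b * t) ^ 3 ≤ (lam * t) ^ 3 :=
        pow_le_pow_left₀ (by positivity) (mul_le_mul_of_nonneg_right hbl ht.le) 3
      gcongr
    have k1 := upper hmon hlin hprj hms href hburg hvm hcent hroot hrt hjn hvj hbdg J hJ
      ht hD hl0 hl2 (s := ε * nn V) (by positivity) (hm lam hl0.le) hδ0 h0 hh'
    refine k1.trans ?_
    have b5 : 2 * (4 * δ ^ 2) ≤ η / 8 := by nlinarith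
    nlinarith

end Pool.Agent.TH604.ST
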