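import Pool.Agent.TH604.ST.Stm

/-!
# Mean-field perturbation of random stirring: statements for a fixed strength
-/

set_option autoImplicit false

namespace Pool.Agent.TH604.ST

open Finset Equiv Pool.Agent.W805.LR

/-- One uniform transposition does not destroy many points of long cycles, on average. -/
def S_LOSS : Prop := ∀ (V : Type) [Fintype V] [DecidableEq V] [Nonempty V] (g : Perm V) (s : ℝ),
  0 < s → -(2 * s ^ 2 / nn V ^ 2) ≤ stp (unif V) Tg (frac s) g - frac s g

/-- The diagonal rates do nothing. -/
def S_DIAG : Prop := ∀ (V : Type) [Fintype V] [DecidableEq V] (J : V → V → ℝ) (t : ℝ)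
  (F : Perm V → ℝ), stE (fun x y => if x = y then 0 else J x y) t F = stE J t F

end Pool.Agent.TH604.ST
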