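import Pool.Agent.TH604.ST.Asm4
import Pool.Agent.TH604.ST.Stm2

/-!
# Mean-field perturbation of random stirring: the mass at a fixed strength
-/

set_option autoImplicit false
set_option maxHeartbeats 400000

namespace Pool.Agent.TH604.ST

open Finset Equiv Pool.Agent.W805.LR MeasureTheory Filter Topology

section mono

variable {V : Type} [Fintype V] [DecidableEq V] [Nonempty V]

lemma bdd_stp {X : Type} {T : V × V → X → X} {F : X → ℝ} (hF : Bdd F) :
    Bdd (stp (unif V) T F) := by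
  obtain ⟨B, hB⟩ := hF
  refine ⟨B, fun x => ?_⟩
  unfold stp
  refine (Finset.abs_sum_le_sum_abs _ _).trans ?_
  calc ∑ i, |unif V i * F (T i x)| ≤ ∑ i, unif V i * B := by
        refine Finset.sum_le_sum fun i _ => ?_
        rw [abs_mul, abs_of_nonneg (prb_unif.1 i)]
        exact mul_le_mul_of_nonneg_left (hB _) (prb_unif.1 i)
    _ = B := by rw [← Finset.sum_mul, prb_unif.2, one_mul]

lemma poi_loss (hder : S_DER) (hmon : S_MON) (hlin : S_LIN) (hloss : S_LOSS) {s S T : ℝ}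
    (hs : 0 < s) (hS : 0 ≤ S) (hST : S ≤ T) (g : Perm V) :
    -(2 * s ^ 2 / nn V ^ 2) * (T - S) ≤ poi (unif V) Tg T (frac s) g -
      poi (unif V) Tg S (frac s) g := by
  have hd := fun u : ℝ => hder (Perm V) (V × V) (unif V) Tg prb_unif (frac s) (bdd_frac s) u g
  have h1 : Differentiable ℝ (fun u : ℝ => poi (unif V) Tg u (frac s) g) :=
    fun u => (hd u).differentiableAt
  refine Convex.mul_sub_le_image_sub_of_le_deriv (convex_Ici (0 : ℝ)) h1.continuous.continuousOn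
    h1.differentiableOn ?_ S hS T (hS.trans hST) hST
  intro u hu
  rw [interior_Ici] at hu
  rw [(hd u).deriv]
  have h2 : Bdd (fun y : Perm V => stp (unif V) Tg (frac s) y - frac s y) := by
    have h3 := bdd_lin (bdd_stp (T := Tg) (bdd_frac (V := V) s)) (bdd_frac (V := V) s) 1 (-1)
    refine h3.imp fun B hB x => ?_
    have h5 : |1 * stp (unif V) Tg (frac s) x + -1 * frac s x| ≤ B := hB x
    rw [show 1 * stp (unif V) Tg (frac s) x + -1 * frac s x =
      stp (unif V) Tg (frac s) x - frac s x by ring] at h5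
    exact h5
  have h4 := poi_mono hmon (T := Tg) (bdd_const (X := Perm V) (-(2 * s ^ 2 / nn V ^ 2))) h2
    (fun y => hloss V y s hs) (s := u) (le_of_lt hu) g
  rw [(hlin (Perm V) (V × V) (unif V) Tg prb_unif).2.1] at h4
  exact h4

lemma stE_loss (hder : S_DER) (hmon : S_MON) (hlin : S_LIN) (hloss : S_LOSS) (hcent : S_CENT)
    (hvj : S_VJ) (J : V → V → ℝ) (hJ : ∀ x y, 0 ≤ J x y) {t s a b : ℝ} (ht : 0 < t)
    (hs : 0 < s) (ha : 0 ≤ a) (hab : a ≤ b) :
    stE (fun x y => J x y + a / nn V) t (frac s) ≤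
      stE (fun x y => J x y + b / nn V) t (frac s) + (b - a) * t * s ^ 2 / nn V := by
  have hn : (0 : ℝ) < nn V := nn_pos
  rw [hcent, hcent]
  have h1 : ∀ g : Perm V, poi (unif V) Tg (a * t * nn V / 2) (frac s) g ≤
      1 * poi (unif V) Tg (b * t * nn V / 2) (frac s) g + (b - a) * t * s ^ 2 / nn V * 1 := by
    intro g
    have hab' : a * t * nn V / 2 ≤ b * t * nn V / 2 := by
      have := mul_le_mul_of_nonneg_right (mul_le_mul_of_nonneg_right hab ht.le) hn.le
      linarith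
    have h2 := poi_loss hder hmon hlin hloss hs (by positivity) hab' g
    have h3 : -(2 * s ^ 2 / nn V ^ 2) * (b * t * nn V / 2 - a * t * nn V / 2) =
        -((b - a) * t * s ^ 2 / nn V) := by
      field_simp
    rw [h3] at h2
    linarith
  have h2 := stE_mono (hvj V J t hJ ht.le).2.1 h1
  rw [stE_lin, (hvj V J t hJ ht.le).1] at h2
  linarith

omit [Nonempty V] in
lemma cnt_mono {P Q : V → Prop} (h : ∀ v, P v → Q v) : cnt P ≤ cnt Q := by
  classical
  unfold cnt
  refine Finset.sum_le_sum fun v _ => ?_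
  by_cases hP : P v
  · rw [if_pos hP, if_pos (h v hP)]
  · rw [if_neg hP]
    split_ifs <;> norm_num

lemma frac_anti {s u : ℝ} (h : s ≤ u) (g : Perm V) : frac u g ≤ frac s g := by
  unfold frac
  exact div_le_div_of_nonneg_right (cnt_mono fun v hv => h.trans hv) nn_pos.le

/-- A modulus of continuity of the largest root. -/
lemma root_lip (hroot : S_ROOT) (hrt : S_RT2) (hjn : S_JN) (hvj : S_VJ) (hbdg : S_BDG)
    (J : V → V → ℝ) (hJ : ∀ x y, 0 ≤ J x y) {t : ℝ} (ht : 0 ≤ t) {A a b m q δ : ℝ}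
    (ha : 0 < a) (hab : a ≤ b) (hbA : b ≤ A) (hm : IsGreatest (Rts J t a) m)
    (hq : IsGreatest (Rts J t b) q) (hδ : 0 < δ) (hδ1 : δ ≤ 1)
    (hw : 4 * (b - a) < Real.exp (-A) * a ^ 3 * δ ^ 2) : q ≤ m + δ := by
  have hn : (0 : ℝ) < nn V := nn_pos
  by_contra hc
  push Not at hc
  obtain ⟨hm0, hm1, _⟩ := root_bd hrt hjn hvj hbdg J hJ ht ha.le hm
  obtain ⟨z, hz⟩ : ∃ z, z = m + δ := ⟨_, rfl⟩
  have hz0 : 0 < z := by rw [hz]; linarith
  have hz2 : z ≤ 2 := by rw [hz]; linarith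
  have hzq : z < q := by rw [hz]; exact hc
  obtain ⟨h, hh⟩ : ∃ h, h = Real.exp (-A) * a ^ 3 * δ ^ 2 / 2 := ⟨_, rfl⟩
  have h0 : 0 < h := by rw [hh]; positivity
  have h1 := mbar_up hroot hjn hvj hbdg J hJ ht ha (hab.trans hbA) hm hδ h0 (le_of_eq hh)
  rw [← hz] at h1
  have h2 : b * z < h + a * z := by
    have h3 : (b - a) * z ≤ (b - a) * 2 := mul_le_mul_of_nonneg_left hz2 (by linarith)
    have h4 : (b - a) * 2 < h := by rw [hh]; linarith
    nlinarith
  -- strict monotonicity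
  have hww := ww_nonneg hvj J hJ ht
  have hws := ww_sum hvj J hJ ht
  have h3 : ∑ i : Perm V × V, ww J t i * Real.exp (-((h + a * z) * len i.1 i.2)) <
      ∑ i : Perm V × V, ww J t i * Real.exp (-((b * z) * len i.1 i.2)) := by
    refine Finset.sum_lt_sum (fun i _ => ?_) ?_
    · refine mul_le_mul_of_nonneg_left (Real.exp_le_exp.2 ?_) (hww i)
      have := one_le_len hjn hbdg i.1 i.2
      nlinarith
    · by_contra hno
      push Not at hno
      have h5 : ∀ i : Perm V × V, ww J t i = 0 := by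
        intro i
        by_contra hi
        have hi0 : 0 < ww J t i := lt_of_le_of_ne (hww i) (Ne.symm hi)
        have h6 := hno i (Finset.mem_univ i)
        have h7 : Real.exp (-((h + a * z) * len i.1 i.2)) <
            Real.exp (-((b * z) * len i.1 i.2)) := by
          refine Real.exp_lt_exp.2 ?_
          have := one_le_len hjn hbdg i.1 i.2
          nlinarith
        nlinarith
      simp only [h5, Finset.sum_const_zero] at hws
      exact zero_ne_one hws
  rw [stE_mass hvj hbdg J hJ ht] at h1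
  -- concavity
  have hqe : q = 1 - ∑ i : Perm V × V, ww J t i * Real.exp (-(b * q * len i.1 i.2)) := by
    have := hq.1
    rw [Rts_eq] at this
    exact this
  have hq0 : 0 < q := hz0.trans hzq
  obtain ⟨r, hr⟩ : ∃ r, r = z / q := ⟨_, rfl⟩
  have hr0 : 0 ≤ r := by rw [hr]; positivity
  have hr1 : r ≤ 1 := by rw [hr, div_le_one hq0]; exact hzq.le
  have hrq : r * q = z := by rw [hr]; field_simp
  have h8 : ∑ i : Perm V × V, ww J t i * Real.exp (-((b * z) * len i.1 i.2)) ≤ 1 - z := by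
    have h9 : ∀ i : Perm V × V, ww J t i * Real.exp (-((b * z) * len i.1 i.2)) ≤
        r * (ww J t i * Real.exp (-(b * q * len i.1 i.2))) + (1 - r) * ww J t i := by
      intro i
      have e1 : -((b * z) * len i.1 i.2) = r * (-(b * q * len i.1 i.2)) + (1 - r) * 0 := by
        rw [← hrq]
        ring
      have e2 := convexOn_exp.2 (Set.mem_univ (-(b * q * len i.1 i.2))) (Set.mem_univ (0 : ℝ))
        hr0 (sub_nonneg.2 hr1) (by ring)
      simp only [smul_eq_mul] at e2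
      rw [← e1, Real.exp_zero] at e2
      have e3 := mul_le_mul_of_nonneg_left e2 (hww i)
      linarith
    have h10 := Finset.sum_le_sum fun i (_ : i ∈ (Finset.univ : Finset (Perm V × V))) => h9 i
    rw [Finset.sum_add_distrib, ← Finset.mul_sum, ← Finset.mul_sum, hws] at h10
    have h11 : ∑ i : Perm V × V, ww J t i * Real.exp (-(b * q * len i.1 i.2)) = 1 - q := by
      linarith
    rw [h11] at h10
    nlinarith
  linarith

end mono

/-- Upper bound for all lengths that are not too small. -/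
lemma upperK (hmon : S_MON) (hlin : S_LIN) (hprj : S_PRJ) (hms : S_MS) (href : S_REF)
    (hburg : S_BURG) (hvm : S_VM) (hcent : S_CENT)
    (hroot : S_ROOT) (hrt : S_RT2) (hjn : S_JN) (hvj : S_VJ) (hbdg : S_BDG)
    {t D Λ κ η : ℝ} (ht : 0 < t) (hκ : 0 < κ) (hη : 0 < η) :
    ∃ K₀ > 0, ∃ N₀ : ℝ, ∀ (V : Type) [Fintype V] [DecidableEq V]
      [Nonempty V], N₀ ≤ nn V → ∀ J : V → V → ℝ, (∀ x y, 0 ≤ J x y) → rate J ≤ D * nn V →
      ∀ lam, κ ≤ lam → lam ≤ Λ → ∀ m, IsGreatest (Rts J t (lam * t)) m →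
        ∀ s, K₀ ≤ s → stE (fun x y => J x y + lam / nn V) t
          (fun g => max 0 (frac s g - m) ^ 2) ≤ η := by
  obtain ⟨δ, hδ⟩ : ∃ δ, δ = min 1 (η / 32) := ⟨_, rfl⟩
  have hδ0 : 0 < δ := by rw [hδ]; exact lt_min one_pos (by positivity)
  have hδ1 : δ ≤ 1 := by rw [hδ]; exact min_le_left _ _
  have hδ2 : δ ≤ η / 32 := by rw [hδ]; exact min_le_right _ _
  have hδ3 : δ ^ 2 ≤ δ := by nlinarith
  obtain ⟨h, hh⟩ : ∃ h, h = Real.exp (-(Λ * t)) * (κ * t) ^ 3 * δ ^ 2 / 2 := ⟨_, rfl⟩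
  have h0 : 0 < h := by rw [hh]; positivity
  have l1 : Tendsto (fun s : ℝ => 2 * Real.exp (-(h * (1 * s))) ^ 2) atTop (𝓝 0) := by
    simpa using ((tend_exp h0 one_pos).pow 2).const_mul 2
  have l2 : Tendsto (fun n : ℝ => 2 * (C2 Λ t D h δ n - 4 * δ ^ 2)) atTop (𝓝 0) := by
    have h5 := ((tend_C2 Λ t D h δ).sub_const (4 * δ ^ 2)).const_mul 2
    rw [sub_self, mul_zero] at h5
    exact h5
  obtain ⟨K, hK⟩ := eventually_atTop.1
    (l1.eventually (eventually_le_nhds (show (0 : ℝ) < η / 4 by positivity)))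
  obtain ⟨N, hN⟩ := eventually_atTop.1
    (l2.eventually (eventually_le_nhds (show (0 : ℝ) < η / 4 by positivity)))
  refine ⟨max K 1, lt_max_of_lt_right one_pos, N, ?_⟩
  intro V _ _ _ hV J hJ hD lam hl hl2 m hm s hs
  have hl0 : 0 < lam := lt_of_lt_of_le hκ hl
  have hs0 : 0 < s := lt_of_lt_of_le one_pos ((le_max_right _ _).trans hs)
  have hh' : h ≤ Real.exp (-(Λ * t)) * (lam * t) ^ 3 * δ ^ 2 / 2 := by
    rw [hh]
    have : (κ * t) ^ 3 ≤ (lam * t) ^ 3 :=
      pow_le_pow_left₀ (by positivity) (mul_le_mul_of_nonneg_right hl ht.le) 3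
    gcongr
  have k1 := upper hmon hlin hprj hms href hburg hvm hcent hroot hrt hjn hvj hbdg J hJ
    ht hD hl0 hl2 hs0 hm hδ0 h0 hh'
  refine k1.trans ?_
  have k2 := hK s ((le_max_left _ _).trans hs)
  have k3 := hN (nn V) hV
  rw [one_mul] at k2
  nlinarith

/-- Lower bound for the mean at a fixed strength. -/
lemma lowerK (hder : S_DER) (hmon : S_MON) (hlin : S_LIN) (hprj : S_PRJ) (hms : S_MS)
    (href : S_REF) (hburg : S_BURG) (hvm : S_VM) (hfill : S_FILL) (hcent : S_CENT)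
    (hroot : S_ROOT) (hrt : S_RT2) (hjn : S_JN) (hvj : S_VJ) (hbdg : S_BDG) (hloss : S_LOSS)
    {t D Λ κ A η : ℝ} (ht : 0 < t) (hΛ : 0 < Λ) (hκ : 0 < κ) (hA : 0 < A) (hη : 0 < η) :
    ∃ N₀ : ℝ, ∀ (V : Type) [Fintype V] [DecidableEq V]
      [Nonempty V], N₀ ≤ nn V → ∀ J : V → V → ℝ, (∀ x y, 0 ≤ J x y) → rate J ≤ D * nn V →
      ∀ lam, κ ≤ lam → lam ≤ Λ → ∀ m, IsGreatest (Rts J t (lam * t)) m →
        ∀ s, 0 < s → s ≤ A * √(nn V) →
          m - η ≤ stE (fun x y => J x y + lam / nn V) t (frac s) := by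
  obtain ⟨δ, hδ⟩ : ∃ δ, δ = min 1 (η / 4) := ⟨_, rfl⟩
  have hδ0 : 0 < δ := by rw [hδ]; exact lt_min one_pos (by positivity)
  have hδ1 : δ ≤ 1 := by rw [hδ]; exact min_le_left _ _
  have hδ2 : δ ≤ η / 4 := by rw [hδ]; exact min_le_right _ _
  obtain ⟨c, hc⟩ : ∃ c, c = Real.exp (-(Λ * t)) * (κ / 2 * t) ^ 3 * δ ^ 2 / (8 * t) := ⟨_, rfl⟩
  have hc0 : 0 < c := by rw [hc]; positivity
  obtain ⟨w, hw⟩ : ∃ w, w = min (κ / 2) (min (η / (4 * t * A ^ 2)) c) := ⟨_, rfl⟩
  have hw0 : 0 < w := by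
    rw [hw]; exact lt_min (by positivity) (lt_min (by positivity) hc0)
  have hw1 : w ≤ κ / 2 := by rw [hw]; exact min_le_left _ _
  have hw2 : w * (4 * t * A ^ 2) ≤ η := by
    have : w ≤ η / (4 * t * A ^ 2) := by
      rw [hw]; exact (min_le_right _ _).trans (min_le_left _ _)
    rwa [le_div_iff₀ (by positivity)] at this
  have hw3 : w ≤ c := by rw [hw]; exact (min_le_right _ _).trans (min_le_right _ _)
  have hw4 : 4 * (w * t) < Real.exp (-(Λ * t)) * (κ / 2 * t) ^ 3 * δ ^ 2 := by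
    have h1 : c * (8 * t) = Real.exp (-(Λ * t)) * (κ / 2 * t) ^ 3 * δ ^ 2 := by
      rw [hc]; field_simp
    rw [← h1]
    nlinarith [mul_pos hc0 ht, mul_le_mul_of_nonneg_right hw3 ht.le]
  obtain ⟨ρ, hρ⟩ : ∃ ρ, ρ = η / 4 := ⟨_, rfl⟩
  have hρ0 : 0 < ρ := by rw [hρ]; positivity
  obtain ⟨η', hη'⟩ : ∃ η', η' = 4 * ρ * w * (η / 4) := ⟨_, rfl⟩
  have hη'0 : 0 < η' := by rw [hη']; positivity
  obtain ⟨ε, hε, H⟩ := core hder hmon hlin hprj hms href hburg hvm hfill hcent hroot hrt hjn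
    hvj hbdg (D := D) ht hΛ hκ hη'0
  obtain ⟨N₁, hN₁⟩ := H ε hε le_rfl
  refine ⟨max N₁ ((A / ε) ^ 2), ?_⟩
  intro V _ _ _ hV J hJ hD lam hl hl2 q hq s hs hsA
  have hn : (0 : ℝ) < nn V := nn_pos
  have hl0 : 0 < lam := lt_of_lt_of_le hκ hl
  -- the root as a function
  have hex : ∀ x : ℝ, ∃ m, 0 ≤ x → IsGreatest (Rts J t (x * t)) m := by
    intro x
    by_cases hx : 0 ≤ x
    · obtain ⟨m, hm⟩ := root_ex hrt hjn hvj hbdg J hJ ht.le (mul_nonneg hx ht.le)
      exact ⟨m, fun _ => hm⟩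
    · exact ⟨0, fun h => absurd h hx⟩
  choose m hm using hex
  have hmq : m lam = q := (hm lam hl0.le).unique hq
  obtain ⟨hI, _⟩ := hN₁ V ((le_max_left _ _).trans hV) J hJ hD m hm
  obtain ⟨X, hX⟩ : ∃ X : ℝ → ℝ, X = fun lam => stE (fun x y => J x y + lam / nn V) t
    (fun g => (frac (ε * nn V) g - m lam) ^ 2) := ⟨_, rfl⟩
  rw [← hX] at hI
  have hXint : ∀ x, 0 ≤ x → IntervalIntegrable X volume 0 x := by
    intro x hx
    rw [hX]
    exact pert_int hder hcent hrt hjn hvj hbdg J hJ ht hx _ m hm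
  have hJ' : ∀ x : ℝ, 0 ≤ x → ∀ u v, 0 ≤ J u v + x / nn V := fun x hx u v =>
    add_nonneg (hJ u v) (div_nonneg hx hn.le)
  have hX0 : ∀ x, 0 ≤ x → 0 ≤ X x := by
    intro x hx
    have hv := hvj V (fun u v => J u v + x / nn V) t (hJ' x hx) ht.le
    have h2 := stE_mono hv.2.1 (F := fun _ => 0)
      (G := fun g => (frac (ε * nn V) g - m x) ^ 2) (fun g => sq_nonneg _)
    rw [stE_const hv.1] at h2
    rw [hX]
    exact h2
  have hsε : s ≤ ε * nn V := by
    refine hsA.trans ?_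
    have h1 : A / ε ≤ √(nn V) :=
      Real.le_sqrt_of_sq_le ((le_max_right _ _).trans hV)
    rw [div_le_iff₀ hε] at h1
    have h2 : nn V = √(nn V) * √(nn V) := (Real.mul_self_sqrt hn.le).symm
    have h3 : 0 ≤ √(nn V) := Real.sqrt_nonneg _
    calc A * √(nn V) ≤ √(nn V) * ε * √(nn V) := mul_le_mul_of_nonneg_right h1 h3
      _ = ε * (√(nn V) * √(nn V)) := by ring
      _ = ε * nn V := by rw [← h2]
  have hs2 : s ^ 2 / nn V ≤ A ^ 2 := by
    rw [div_le_iff₀ hn]
    calc s ^ 2 ≤ (A * √(nn V)) ^ 2 := pow_le_pow_left₀ hs.le hsA 2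
      _ = A ^ 2 * nn V := by rw [mul_pow, Real.sq_sqrt hn.le]
  obtain ⟨f, hf⟩ : ∃ f, f = stE (fun x y => J x y + lam / nn V) t (frac s) := ⟨_, rfl⟩
  rw [← hf]
  -- pointwise bound on the window
  have hpt : ∀ x, lam - w ≤ x → x ≤ lam →
      q - δ - ρ - w * t * A ^ 2 - f ≤ (1 / (4 * ρ)) * X x := by
    intro x hx1 hx2
    have hxκ : κ / 2 ≤ x := by linarith
    have hx0 : 0 < x := lt_of_lt_of_le (by positivity) hxκ
    have a1 := stE_loss hder hmon hlin hloss hcent hvj J hJ ht hs hx0.le hx2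
    rw [← hf] at a1
    have hv := hvj V (fun u v => J u v + x / nn V) t (hJ' x hx0.le) ht.le
    have a2 : m x - ρ - (1 / (4 * ρ)) * X x ≤ stE (fun u v => J u v + x / nn V) t (frac s) := by
      have b1 : ∀ g : Perm V, (m x - ρ) * 1 + (-(1 / (4 * ρ))) *
          (frac (ε * nn V) g - m x) ^ 2 ≤ frac s g := by
        intro g
        have c1 : frac (ε * nn V) g ≤ frac s g := frac_anti hsε g
        have c2 : m x - frac (ε * nn V) g ≤ ρ + (1 / (4 * ρ)) *
            (frac (ε * nn V) g - m x) ^ 2 := by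
          have c3 : 0 ≤ (1 / (4 * ρ)) * ((frac (ε * nn V) g - m x) + 2 * ρ) ^ 2 := by
            positivity
          have c4 : (1 / (4 * ρ)) * ((frac (ε * nn V) g - m x) + 2 * ρ) ^ 2 =
              (1 / (4 * ρ)) * (frac (ε * nn V) g - m x) ^ 2 + (frac (ε * nn V) g - m x) + ρ := by
            field_simp
            ring
          rw [c4] at c3
          linarith
        linarith
      have b2 := stE_mono hv.2.1 b1
      rw [stE_lin (fun u v => J u v + x / nn V) t (m x - ρ) (-(1 / (4 * ρ))) (fun _ => 1)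
        (fun g => (frac (ε * nn V) g - m x) ^ 2), hv.1] at b2
      rw [hX]
      linarith
    have a3 : q ≤ m x + δ := by
      refine root_lip hroot hrt hjn hvj hbdg J hJ ht.le (A := Λ * t) (a := x * t)
        (b := lam * t) (by positivity) (mul_le_mul_of_nonneg_right hx2 ht.le)
        (mul_le_mul_of_nonneg_right hl2 ht.le) (hm x hx0.le) hq hδ0 hδ1 ?_
      have d1 : (κ / 2 * t) ^ 3 ≤ (x * t) ^ 3 :=
        pow_le_pow_left₀ (by positivity) (mul_le_mul_of_nonneg_right hxκ ht.le) 3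
      have d2 : Real.exp (-(Λ * t)) * (κ / 2 * t) ^ 3 * δ ^ 2 ≤
          Real.exp (-(Λ * t)) * (x * t) ^ 3 * δ ^ 2 := by gcongr
      have d3 : lam * t - x * t ≤ w * t := by nlinarith
      linarith
    have a4 : (lam - x) * t * s ^ 2 / nn V ≤ w * t * A ^ 2 := by
      have e1 : (lam - x) * t * s ^ 2 / nn V = (lam - x) * t * (s ^ 2 / nn V) := by ring
      rw [e1]
      have e2 : (lam - x) * t ≤ w * t := mul_le_mul_of_nonneg_right (by linarith) ht.le
      exact mul_le_mul e2 hs2 (by positivity) (by positivity)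
    linarith
  have hlw : 0 ≤ lam - w := by linarith
  have i2 : IntervalIntegrable X volume (lam - w) lam :=
    (hXint (lam - w) hlw).symm.trans (hXint lam hl0.le)
  have hint : ∫ _x in (lam - w)..lam, (q - δ - ρ - w * t * A ^ 2 - f) ≤
      ∫ x in (lam - w)..lam, (1 / (4 * ρ)) * X x :=
    intervalIntegral.integral_mono_on (by linarith) intervalIntegrable_const
      (i2.const_mul _) fun x hx => hpt x hx.1 hx.2
  rw [intervalIntegral.integral_const, smul_eq_mul, intervalIntegral.integral_const_mul] at hint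
  have hIw : ∫ x in (lam - w)..lam, X x ≤ η' := by
    refine le_trans ?_ hI
    have i3 : IntervalIntegrable X volume lam Λ :=
      (hXint lam hl0.le).symm.trans (hXint Λ hΛ.le)
    rw [← intervalIntegral.integral_add_adjacent_intervals (hXint (lam - w) hlw)
      (i2.trans i3), ← intervalIntegral.integral_add_adjacent_intervals i2 i3]
    have p1 : 0 ≤ ∫ x in (0 : ℝ)..(lam - w), X x :=
      intervalIntegral.integral_nonneg hlw fun x hx => hX0 x hx.1
    have p2 : 0 ≤ ∫ x in lam..Λ, X x :=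
      intervalIntegral.integral_nonneg hl2 fun x hx => hX0 x (hl0.le.trans hx.1)
    linarith
  have e5 : lam - (lam - w) = w := by ring
  rw [e5] at hint
  have e6 : (1 / (4 * ρ)) * ∫ x in (lam - w)..lam, X x ≤ (1 / (4 * ρ)) * η' :=
    mul_le_mul_of_nonneg_left hIw (by positivity)
  have e7 : (1 / (4 * ρ)) * η' = w * (η / 4) := by
    rw [hη']
    field_simp
  rw [e7] at e6
  have e8 : w * (q - δ - ρ - w * t * A ^ 2 - f) ≤ w * (η / 4) := hint.trans e6
  have e9 := le_of_mul_le_mul_left e8 hw0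
  have e10 : w * t * A ^ 2 ≤ η / 4 := by linarith
  have e11 : ρ = η / 4 := hρ
  linarith

end Pool.Agent.TH604.ST
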