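import Pool.Agent.TH604.ST.Stm

/-!
# Burgers comparison and the variance of `mass`
-/

set_option autoImplicit false

namespace Pool.Agent.TH604.ST.Burg

open Finset Equiv Pool.Agent.W805.LR Pool.Agent.TH604.ST

section vm

variable {V : Type} [Fintype V] [DecidableEq V] [Nonempty V]

omit [DecidableEq V] in
lemma nn_pos : 0 < nn V := by
  unfold nn
  exact_mod_cast Fintype.card_pos

omit [DecidableEq V] in
lemma prb_unif : Prb (unif V) := by
  have hn : 0 < nn V := nn_pos
  refine ⟨fun i => ?_, ?_⟩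
  · unfold unif; positivity
  · unfold unif
    rw [Finset.sum_const, Finset.card_univ, Fintype.card_prod, nsmul_eq_mul]
    push_cast
    have : (Fintype.card V : ℝ) = nn V := rfl
    rw [this]
    field_simp

lemma bdd_of_finite {X : Type} [Finite X] (F : X → ℝ) : Bdd F := by
  classical
  have := Fintype.ofFinite X
  refine ⟨∑ x, |F x|, fun x => ?_⟩
  exact Finset.single_le_sum (f := fun x => |F x|) (fun i _ => abs_nonneg _) (Finset.mem_univ x)

instance finSetoid : Finite (Setoid V) := by
  apply Finite.of_injective (fun R : Setoid V => (fun v w => R.r v w : V → V → Prop))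
  intro R Q h
  ext v w
  have := congrFun (congrFun h v) w
  exact iff_of_eq this

lemma stp_iter_lip (hJ : S_JN) (F : Setoid V → ℝ) (δ : ℝ)
    (hF : ∀ (Q : Setoid V) (e : V × V), |F (Tj e Q) - F Q| ≤ δ) (k : ℕ) :
    ∀ (Q : Setoid V) (e : V × V),
      |((stp (unif V) Tj)^[k] F) (Tj e Q) - ((stp (unif V) Tj)^[k] F) Q| ≤ δ := by
  induction k with
  | zero => simpa using hF
  | succ k ih =>
    intro Q e
    rw [Function.iterate_succ_apply']
    set G := (stp (unif V) Tj)^[k] F with hG
    have h1 : stp (unif V) Tj G (Tj e Q) - stp (unif V) Tj G Q =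
        ∑ i, unif V i * (G (Tj e (Tj i Q)) - G (Tj i Q)) := by
      unfold stp
      rw [← Finset.sum_sub_distrib]
      refine Finset.sum_congr rfl fun i _ => ?_
      have : Tj i (Tj e Q) = Tj e (Tj i Q) := by
        unfold Tj
        exact ((hJ V Q e.1 e.2).2.2.2.2 i.1 i.2)
      rw [this]; ring
    rw [h1]
    have hp : Prb (unif V) := prb_unif
    calc |∑ i, unif V i * (G (Tj e (Tj i Q)) - G (Tj i Q))|
        ≤ ∑ i, |unif V i * (G (Tj e (Tj i Q)) - G (Tj i Q))| := Finset.abs_sum_le_sum_abs _ _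
      _ ≤ ∑ i, unif V i * δ := by
          refine Finset.sum_le_sum fun i _ => ?_
          rw [abs_mul, abs_of_nonneg (hp.1 i)]
          exact mul_le_mul_of_nonneg_left (ih _ _) (hp.1 i)
      _ = δ := by rw [← Finset.sum_mul, hp.2, one_mul]

end vm

/-- Variance of `mass`. -/
theorem vm : S_VAR → S_JN → S_MS → S_VM := by
  intro hV hJ hM V _ _ _ R h S hh hS
  have hn : 0 < nn V := nn_pos
  refine hV (Setoid V) (V × V) (unif V) Tj prb_unif (mass h) (1 / (nn V * h)) (bdd_of_finite _)
    (by positivity) ?_ S hS R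
  intro k Q i
  refine stp_iter_lip hJ (mass h) (1 / (nn V * h)) ?_ k Q i
  intro Q e
  exact (hM V Q h hh).2.2.1 e.1 e.2

/-! ### A Grönwall lemma -/

lemma gron (y y' α : ℝ → ℝ) (A e η S : ℝ) (hS : 0 ≤ S) (he : 0 ≤ e) (hη : 0 ≤ η) (hA : 0 ≤ A)
    (hy : ∀ s, HasDerivAt y (y' s) s) (hα : ∀ s, 0 ≤ s → s ≤ S → α s ≤ A)
    (hb : ∀ s, 0 ≤ s → s ≤ S → y' s ≤ α s * y s + e) (h0 : y 0 ≤ η) :
    y S ≤ Real.exp (A * S) * (η + S * e) := by
  have key : ∀ δ : ℝ, 0 < δ → y S ≤ Real.exp (A * S) * (η + δ + S * (e + δ)) := by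
    intro δ hδ
    have hB : ∀ x : ℝ, HasDerivAt (fun x => Real.exp (A * x) * (η + δ + x * (e + δ)))
        (A * Real.exp (A * x) * (η + δ + x * (e + δ)) + Real.exp (A * x) * (e + δ)) x := by
      intro x
      have h1 : HasDerivAt (fun x : ℝ => Real.exp (A * x)) (Real.exp (A * x) * (A * 1)) x :=
        ((hasDerivAt_id x).const_mul A).exp
      have h2 : HasDerivAt (fun x : ℝ => η + δ + x * (e + δ)) (1 * (e + δ)) x :=
        ((hasDerivAt_id x).mul_const (e + δ)).const_add (η + δ)
      have h3 := h1.mul h2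
      refine h3.congr_deriv ?_
      ring
    refine image_le_of_deriv_right_lt_deriv_boundary (f := y) (f' := y') (a := 0) (b := S)
      (fun x _ => (hy x).continuousAt.continuousWithinAt)
      (fun x _ => (hy x).hasDerivWithinAt) (B := fun x => Real.exp (A * x) * (η + δ + x * (e + δ)))
      (B' := fun x => A * Real.exp (A * x) * (η + δ + x * (e + δ)) + Real.exp (A * x) * (e + δ))
      ?_ hB ?_ (Set.right_mem_Icc.2 hS)
    · simp; linarith
    · intro x hx hxB
      have hx0 : 0 ≤ x := hx.1
      have hyx : 0 ≤ y x := by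
        rw [hxB]; positivity
      have h1 : y' x ≤ α x * y x + e := hb x hx0 hx.2.le
      have h2 : α x * y x ≤ A * y x := mul_le_mul_of_nonneg_right (hα x hx0 hx.2.le) hyx
      have h3 : 1 ≤ Real.exp (A * x) := Real.one_le_exp (by positivity)
      have h4 : e < Real.exp (A * x) * (e + δ) := by nlinarith
      have h5 : A * y x = A * Real.exp (A * x) * (η + δ + x * (e + δ)) := by
        rw [hxB]; ring
      linarith
  -- let δ → 0
  have hlim : Filter.Tendsto (fun δ : ℝ => Real.exp (A * S) * (η + δ + S * (e + δ)))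
      (nhdsWithin 0 (Set.Ioi 0)) (nhds (Real.exp (A * S) * (η + 0 + S * (e + 0)))) := by
    apply Filter.Tendsto.mono_left _ nhdsWithin_le_nhds
    apply Continuous.tendsto
    fun_prop
  rw [add_zero, add_zero] at hlim
  refine ge_of_tendsto hlim ?_
  filter_upwards [self_mem_nhdsWithin] with δ hδ
  exact key δ hδ

/-! ### Joint derivative -/

section joint

variable {X ι : Type} [Fintype ι]

lemma poi_sum (hL : S_LIN) [Finite X] (p : ι → ℝ) (T : ι → X → X) (hp : Prb p)
    {J : Type} (A : Finset J) (a : J → ℝ) (F : J → X → ℝ) (s : ℝ) (x : X) :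
    poi p T s (fun y => ∑ j ∈ A, a j * F j y) x = ∑ j ∈ A, a j * poi p T s (F j) x := by
  classical
  induction A using Finset.induction_on with
  | empty =>
    simp only [Finset.sum_empty]
    exact (hL X ι p T hp).2.1 0 s x
  | insert j A hj ih =>
    rw [Finset.sum_insert hj, ← ih]
    have h := (hL X ι p T hp).1 (F j) (fun y => ∑ j ∈ A, a j * F j y) (bdd_of_finite _)
      (bdd_of_finite _) (a j) 1 s x
    rw [one_mul] at h
    rw [← h]
    congr 1
    funext y
    rw [Finset.sum_insert hj, one_mul]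

lemma joint (hD : S_DER) (hL : S_LIN) [Finite X] (p : ι → ℝ) (T : ι → X → X) (hp : Prb p)
    (F : ℝ → X → ℝ) (F' : X → ℝ) (s : ℝ) (x : X)
    (hF : ∀ y, HasDerivAt (fun u => F u y) (F' y) s) :
    HasDerivAt (fun u => poi p T u (F u) x)
      (poi p T s F' x + poi p T s (fun y => stp p T (F s) y - F s y) x) s := by
  classical
  have := Fintype.ofFinite X
  set I : X → X → ℝ := fun Q y => if y = Q then 1 else 0 with hI
  have hexp : ∀ G : X → ℝ, G = fun y => ∑ Q, G Q * I Q y := by
    intro G
    funext y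
    simp [hI]
  have h1 : ∀ (u : ℝ) (G : X → ℝ), poi p T u G x = ∑ Q, G Q * poi p T u (I Q) x := by
    intro u G
    conv_lhs => rw [hexp G]
    exact poi_sum hL p T hp Finset.univ G I u x
  have h2 : (fun u => poi p T u (F u) x) = fun u => ∑ Q, F u Q * poi p T u (I Q) x := by
    funext u; exact h1 u (F u)
  rw [h2]
  have h3 : ∀ Q ∈ (Finset.univ : Finset X), HasDerivAt (fun u => F u Q * poi p T u (I Q) x)
      (F' Q * poi p T s (I Q) x + F s Q * poi p T s (fun y => stp p T (I Q) y - I Q y) x) s := by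
    intro Q _
    exact (hF Q).mul (hD X ι p T hp (I Q) (bdd_of_finite _) s x)
  have h4 := HasDerivAt.fun_sum h3
  refine h4.congr_deriv ?_
  rw [Finset.sum_add_distrib, ← h1 s F']
  congr 1
  rw [← poi_sum hL p T hp Finset.univ (F s) (fun Q y => stp p T (I Q) y - I Q y) s x]
  congr 1
  funext y
  have h5 : ∀ z, F s z = ∑ Q, F s Q * I Q z := fun z => congrFun (hexp (F s)) z
  have h6 : stp p T (F s) y = ∑ Q, F s Q * stp p T (I Q) y := by
    unfold stp
    simp_rw [Finset.mul_sum]
    rw [Finset.sum_comm]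
    refine Finset.sum_congr rfl fun i _ => ?_
    rw [h5 (T i y), Finset.mul_sum]
    refine Finset.sum_congr rfl fun Q _ => ?_
    ring
  rw [h6, h5 y, ← Finset.sum_sub_distrib]
  refine Finset.sum_congr rfl fun Q _ => ?_
  ring

end joint

/-! ### The comparison -/

section burg

variable {V : Type} [Fintype V] [DecidableEq V]

omit [DecidableEq V] in
lemma mass_deriv (Q : Setoid V) (H : ℝ → ℝ) (H' s : ℝ) (hH : HasDerivAt H H' s) :
    HasDerivAt (fun u => mass (H u) Q) (H' * wgt (H s) Q) s := by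
  unfold mass wgt
  have h1 : ∀ v ∈ (Finset.univ : Finset V), HasDerivAt
      (fun u => 1 - Real.exp (-(H u * csz Q v))) (H' * (csz Q v * Real.exp (-(H s * csz Q v)))) s := by
    intro v _
    have h2 : HasDerivAt (fun u => -(H u * csz Q v)) (-(H' * csz Q v)) s :=
      (hH.mul_const (csz Q v)).neg
    have h3 := (h2.exp).const_sub 1
    refine h3.congr_deriv ?_
    ring
  have h4 := (HasDerivAt.fun_sum h1).div_const (nn V)
  refine h4.congr_deriv ?_
  rw [← Finset.mul_sum]
  ring

end burg

/-- Burgers: comparison along the characteristic lines. -/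
theorem burg : S_DER → S_MON → S_LIN → S_VM → S_MS → S_BURG := by
  intro hD hMo hL hVM hMS V _ _ _ R h S m η hh hS hm0 hm1 hη
  have hn : 0 < nn V := nn_pos
  have hp : Prb (unif V) := prb_unif
  set n := nn V with hndef
  -- the expectation
  set E : ℝ → (Setoid V → ℝ) → ℝ := fun s F => poi (unif V) Tj s F R with hE
  have hmono : ∀ (s : ℝ) (F G : Setoid V → ℝ), 0 ≤ s → (∀ Q, F Q ≤ G Q) → E s F ≤ E s G := by
    intro s F G hs hFG
    exact hMo (Setoid V) (V × V) (unif V) Tj hp (fun _ => True) (fun _ _ _ => trivial) F G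
      (bdd_of_finite _) (bdd_of_finite _) (fun Q _ => hFG Q) s hs R trivial
  have hlin : ∀ (s a b : ℝ) (F G : Setoid V → ℝ),
      E s (fun Q => a * F Q + b * G Q) = a * E s F + b * E s G := fun s a b F G =>
    (hL (Setoid V) (V × V) (unif V) Tj hp).1 F G (bdd_of_finite _) (bdd_of_finite _) a b s R
  have hconst : ∀ (s c : ℝ), E s (fun _ => c) = c := fun s c =>
    (hL (Setoid V) (V × V) (unif V) Tj hp).2.1 c s R
  have hzero : ∀ F : Setoid V → ℝ, E 0 F = F R := fun F =>
    (hL (Setoid V) (V × V) (unif V) Tj hp).2.2 F R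
  -- the characteristic line
  set c : ℝ := 2 / n * m with hc
  have hc0 : 0 ≤ c := by positivity
  set H : ℝ → ℝ := fun s => h + (S - s) * c with hHdef
  have hHge : ∀ s, s ≤ S → h ≤ H s := by
    intro s hs
    have : 0 ≤ (S - s) * c := mul_nonneg (by linarith) hc0
    simp only [hHdef]; linarith
  have hHder : ∀ s, HasDerivAt H (-c) s := by
    intro s
    have h1 : HasDerivAt (fun s : ℝ => h + (S - s) * c) (((0 : ℝ) - 1) * c) s :=
      (((hasDerivAt_const s S).sub (hasDerivAt_id s)).mul_const c).const_add h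
    refine h1.congr_deriv ?_
    ring
  have hHS : H S = h := by simp [hHdef]
  have hH0 : H 0 = h + 2 * S / n * m := by
    simp only [hHdef, hc]; ring
  -- the function
  set M : ℝ → Setoid V → ℝ := fun s => mass (H s) with hM
  set L : ℝ → Setoid V → ℝ := fun s Q => stp (unif V) Tj (M s) Q - M s Q with hLdef
  set W : ℝ → Setoid V → ℝ := fun s => wgt (H s) with hW
  have hder : ∀ s, HasDerivAt (fun u => E u (M u)) (-c * E s (W s) + E s (L s)) s := by
    intro s
    have h1 := joint hD hL (unif V) Tj hp M (fun Q => -c * W s Q) s R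
      (fun Q => mass_deriv Q H (-c) s (hHder s))
    refine h1.congr_deriv ?_
    have h2 : poi (unif V) Tj s (fun Q => -c * W s Q) R = -c * E s (W s) := by
      have := hlin s (-c) 0 (W s) (W s)
      simp only [zero_mul, add_zero] at this
      exact this
    rw [h2]
  -- the trivial case
  rcases hS.eq_or_lt with hS0 | hSpos
  · subst hS0
    constructor
    · intro h0
      have : E 0 (mass h) = mass h R := hzero _
      simp only [hE] at this
      rw [this]
      have e1 : h + 2 * 0 / n * m = h := by ring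
      rw [e1] at h0
      have e2 : Real.exp (2 * 0 / (n * h)) = 1 := by
        rw [mul_zero, zero_div, Real.exp_zero]
      rw [e2]
      linarith
    · intro h0
      have : E 0 (mass h) = mass h R := hzero _
      simp only [hE] at this
      rw [this]
      have e1 : h + 2 * 0 / n * m = h := by ring
      rw [e1] at h0
      have e2 : Real.exp (2 * 0 / (n * h)) = 1 := by
        rw [mul_zero, zero_div, Real.exp_zero]
      rw [e2]
      linarith
  -- the error terms
  set t : ℝ := √(2 * S) / (n * h) with ht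
  have htpos : 0 < t := by positivity
  have ht2 : t ^ 2 = 2 * S * (1 / (n * h)) ^ 2 := by
    rw [ht, div_pow, Real.sq_sqrt (by positivity)]
    ring
  set e : ℝ := 2 / (n * h) * t + 2 / (n ^ 2 * h ^ 2) with he
  have he0 : 0 ≤ e := by positivity
  -- the covariance
  have hcov : ∀ s, 0 ≤ s → s ≤ S →
      |E s (fun Q => W s Q * (M s Q - E s (M s)))| ≤ 1 / h * t := by
    intro s hs hsS
    have hHp : 0 < H s := lt_of_lt_of_le hh (hHge s hsS)
    set a := E s (M s) with ha
    have hW0 : ∀ Q, 0 ≤ W s Q := fun Q => (hMS V Q (H s) hHp).2.2.2.1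
    have hW1 : ∀ Q, W s Q ≤ 1 / h := fun Q =>
      le_trans (hMS V Q (H s) hHp).2.2.2.2.1 (one_div_le_one_div_of_le hh (hHge s hsS))
    have hpt : ∀ Q, |W s Q * (M s Q - a)| ≤ 1 / h * (t / 2) + (1 / h / (2 * t)) * (M s Q - a) ^ 2 := by
      intro Q
      rw [abs_mul, abs_of_nonneg (hW0 Q)]
      have h1 : |M s Q - a| ≤ t / 2 + (M s Q - a) ^ 2 / (2 * t) := by
        have h2 : 0 ≤ (|M s Q - a| - t) ^ 2 := sq_nonneg _
        have h3 : |M s Q - a| * (2 * t) ≤ t ^ 2 + (M s Q - a) ^ 2 := by
          rw [← sq_abs (M s Q - a)]; nlinarith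
        have h4 : |M s Q - a| = |M s Q - a| * (2 * t) / (2 * t) := by field_simp
        rw [h4]
        have h5 : t / 2 + (M s Q - a) ^ 2 / (2 * t) = (t ^ 2 + (M s Q - a) ^ 2) / (2 * t) := by
          field_simp
        rw [h5]
        exact div_le_div_of_nonneg_right h3 (by positivity)
      calc W s Q * |M s Q - a| ≤ 1 / h * |M s Q - a| :=
            mul_le_mul_of_nonneg_right (hW1 Q) (abs_nonneg _)
        _ ≤ 1 / h * (t / 2 + (M s Q - a) ^ 2 / (2 * t)) :=
            mul_le_mul_of_nonneg_left h1 (by positivity)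
        _ = _ := by ring
    -- the expectation of the square
    have hvar : E s (fun Q => (M s Q - a) ^ 2) ≤ t ^ 2 := by
      have h1 : E s (fun Q => M s Q ^ 2) - a ^ 2 ≤ 2 * s * (1 / (n * H s)) ^ 2 :=
        hVM V R (H s) s hHp hs
      have h2 : E s (fun Q => (M s Q - a) ^ 2) = E s (fun Q => M s Q ^ 2) - a ^ 2 := by
        have e1 : (fun Q => (M s Q - a) ^ 2) =
            fun Q => 1 * M s Q ^ 2 + 1 * (-2 * a * M s Q + a ^ 2 * 1) := by
          funext Q; ring
        rw [e1, hlin s 1 1 (fun Q => M s Q ^ 2) (fun Q => -2 * a * M s Q + a ^ 2 * 1),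
          hlin s (-2 * a) (a ^ 2) (M s) (fun _ => 1), hconst s 1, ← ha]
        ring
      rw [h2, ht2]
      refine h1.trans ?_
      have h3 : 1 / (n * H s) ≤ 1 / (n * h) :=
        one_div_le_one_div_of_le (by positivity) (mul_le_mul_of_nonneg_left (hHge s hsS) hn.le)
      have h4 : (1 / (n * H s)) ^ 2 ≤ (1 / (n * h)) ^ 2 :=
        pow_le_pow_left₀ (by positivity) h3 2
      have h5 : 0 ≤ (1 / (n * H s)) ^ 2 := by positivity
      calc 2 * s * (1 / (n * H s)) ^ 2 ≤ 2 * S * (1 / (n * H s)) ^ 2 :=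
            mul_le_mul_of_nonneg_right (by linarith) h5
        _ ≤ 2 * S * (1 / (n * h)) ^ 2 := mul_le_mul_of_nonneg_left h4 (by linarith)
    have hup : E s (fun Q => 1 / h * (t / 2) * 1 + (1 / h / (2 * t)) * (M s Q - a) ^ 2) ≤
        1 / h * t := by
      rw [hlin s (1 / h * (t / 2)) (1 / h / (2 * t)) (fun _ => 1) (fun Q => (M s Q - a) ^ 2),
        hconst]
      have h1 : 1 / h / (2 * t) * E s (fun Q => (M s Q - a) ^ 2) ≤ 1 / h / (2 * t) * t ^ 2 :=
        mul_le_mul_of_nonneg_left hvar (by positivity)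
      have h2 : 1 / h / (2 * t) * t ^ 2 = 1 / h * (t / 2) := by field_simp
      rw [h2] at h1
      linarith
    rw [abs_le]
    constructor
    · have h1 : E s (fun Q => (-1) * (1 / h * (t / 2) * 1 + (1 / h / (2 * t)) * (M s Q - a) ^ 2)
          + 0 * 1) ≤ E s (fun Q => W s Q * (M s Q - a)) := by
        apply hmono s _ _ hs
        intro Q
        have := (abs_le.1 (hpt Q)).1
        linarith
      rw [hlin s (-1) 0 (fun Q => 1 / h * (t / 2) * 1 + (1 / h / (2 * t)) * (M s Q - a) ^ 2)
        (fun _ => 1)] at h1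
      linarith
    · refine le_trans (hmono s _ _ hs ?_) hup
      intro Q
      have := (abs_le.1 (hpt Q)).2
      linarith
  -- E (W (M - m))
  have hWM : ∀ s, 0 ≤ s → s ≤ S →
      |E s (fun Q => W s Q * M s Q) - m * E s (W s) - E s (W s) * (E s (M s) - m)| ≤ 1 / h * t := by
    intro s hs hsS
    have h1 := hcov s hs hsS
    have h2 : E s (fun Q => W s Q * (M s Q - E s (M s))) =
        E s (fun Q => W s Q * M s Q) - E s (M s) * E s (W s) := by
      have e1 : (fun Q => W s Q * (M s Q - E s (M s))) =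
          fun Q => 1 * (W s Q * M s Q) + (-E s (M s)) * W s Q := by
        funext Q; ring
      rw [e1, hlin s 1 (-E s (M s)) (fun Q => W s Q * M s Q) (W s)]
      ring
    rw [h2] at h1
    have h3 : E s (fun Q => W s Q * M s Q) - m * E s (W s) - E s (W s) * (E s (M s) - m) =
        E s (fun Q => W s Q * M s Q) - E s (M s) * E s (W s) := by ring
    rw [h3]
    exact h1
  -- bounds for E L
  have hLup : ∀ s, 0 ≤ s → s ≤ S → E s (L s) ≤ 2 / n * E s (fun Q => W s Q * M s Q) := by
    intro s hs hsS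
    have hHp : 0 < H s := lt_of_lt_of_le hh (hHge s hsS)
    have h1 : E s (L s) ≤ E s (fun Q => 2 / n * (W s Q * M s Q) + 0 * 1) := by
      apply hmono s _ _ hs
      intro Q
      have := (hMS V Q (H s) hHp).1
      simp only [hLdef, hM, hW]
      linarith
    rw [hlin s (2 / n) 0 (fun Q => W s Q * M s Q) (fun _ => 1)] at h1
    linarith
  have hLlo : ∀ s, 0 ≤ s → s ≤ S →
      2 / n * E s (fun Q => W s Q * M s Q) - 2 / (n ^ 2 * h ^ 2) ≤ E s (L s) := by
    intro s hs hsS
    have hHp : 0 < H s := lt_of_lt_of_le hh (hHge s hsS)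
    have h0 : 2 / (n ^ 2 * H s ^ 2) ≤ 2 / (n ^ 2 * h ^ 2) := by
      apply div_le_div_of_nonneg_left (by norm_num) (by positivity)
      exact mul_le_mul_of_nonneg_left (pow_le_pow_left₀ hh.le (hHge s hsS) 2) (by positivity)
    have h1 : E s (fun Q => 2 / n * (W s Q * M s Q) + (-(2 / (n ^ 2 * h ^ 2))) * 1) ≤ E s (L s) := by
      apply hmono s _ _ hs
      intro Q
      have := (hMS V Q (H s) hHp).2.1
      simp only [hLdef, hM, hW]
      linarith
    rw [hlin s (2 / n) (-(2 / (n ^ 2 * h ^ 2))) (fun Q => W s Q * M s Q) (fun _ => 1),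
      hconst] at h1
    linarith
  -- the rate
  have hA : ∀ s, 0 ≤ s → s ≤ S → 2 / n * E s (W s) ≤ 2 / (n * h) := by
    intro s hs hsS
    have hHp : 0 < H s := lt_of_lt_of_le hh (hHge s hsS)
    have h1 : E s (W s) ≤ E s (fun _ => 1 / h) := by
      apply hmono s _ _ hs
      intro Q
      exact le_trans (hMS V Q (H s) hHp).2.2.2.2.1 (one_div_le_one_div_of_le hh (hHge s hsS))
    rw [hconst] at h1
    calc 2 / n * E s (W s) ≤ 2 / n * (1 / h) := mul_le_mul_of_nonneg_left h1 (by positivity)
      _ = 2 / (n * h) := by field_simp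
  have hAS : 2 / (n * h) * S = 2 * S / (n * h) := by ring
  have hHSM : E S (M S) = poi (unif V) Tj S (mass h) R := by
    simp only [hE, hM]
    rw [hHS]
  have hM0 : E 0 (M 0) = mass (h + 2 * S / n * m) R := by
    rw [hzero, hM]
    simp only
    rw [hH0]
  have h2nt : 2 / n * (1 / h * t) = 2 / (n * h) * t := by field_simp
  have hq0 : 0 ≤ 2 / (n ^ 2 * h ^ 2) := by positivity
  constructor
  · intro h0
    have := gron (fun s => m - E s (M s)) (fun s => -(-c * E s (W s) + E s (L s)))
      (fun s => 2 / n * E s (W s)) (2 / (n * h)) e η S hS he0 hη (by positivity)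
      (fun s => (hder s).const_sub m) hA ?_ ?_
    · rw [hAS, hHSM] at this
      linarith
    · intro s hs hsS
      have h1 := (abs_le.1 (hWM s hs hsS)).1
      have h2 := hLlo s hs hsS
      have h3 := mul_le_mul_of_nonneg_left h1 (show (0 : ℝ) ≤ 2 / n by positivity)
      simp only [hc]
      have h4 : 2 / n * -(1 / h * t) = -(2 / (n * h) * t) := by rw [← h2nt]; ring
      rw [h4] at h3
      rw [he]
      nlinarith
    · rw [hM0]; linarith
  · intro h0
    have := gron (fun s => E s (M s) - m) (fun s => -c * E s (W s) + E s (L s))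
      (fun s => 2 / n * E s (W s)) (2 / (n * h)) e η S hS he0 hη (by positivity)
      (fun s => (hder s).sub_const m) hA ?_ ?_
    · rw [hAS, hHSM] at this
      linarith
    · intro s hs hsS
      have h1 := (abs_le.1 (hWM s hs hsS)).2
      have h2 := hLup s hs hsS
      have h3 := mul_le_mul_of_nonneg_left h1 (show (0 : ℝ) ≤ 2 / n by positivity)
      simp only [hc]
      rw [h2nt] at h3
      rw [he]
      nlinarith
    · rw [hM0]; linarith

end Pool.Agent.TH604.ST.Burg
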