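import Pool.Agent.TH604.ST.Stm2
import Pool.Agent.TH604.ST.Cent

/-!
# The diagonal rates do nothing (job ST-DIAG)
-/

set_option autoImplicit false

namespace Pool.Agent.TH604.ST.Diag

open Finset Equiv Pool.Agent.W805.LR Pool.Agent.TH604.ST Pool.Agent.TH604.ST.Cent

section

variable {V : Type} [Fintype V] [DecidableEq V]

theorem op_diag (J : V → V → ℝ) :
    opP (wJ J) (Tg (V := V)) = opP (wJ fun x y => if x = y then 0 else J x y) Tg +
      (∑ x, J x x / 2) • (1 : (Perm V → ℝ) →L[ℝ] (Perm V → ℝ)) := by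
  ext F g
  simp only [add_apply, smul_apply, Pi.add_apply, Pi.smul_apply, smul_eq_mul, opP_apply, stp, wJ]
  change _ = _ + (∑ x, J x x / 2) * F g
  have h : ∀ e : V × V, J e.1 e.2 / 2 * F (Tg e g) =
      (if e.1 = e.2 then 0 else J e.1 e.2) / 2 * F (Tg e g) +
        (if e.1 = e.2 then J e.1 e.2 / 2 * F g else 0) := by
    intro e
    split_ifs with h
    · have : Tg e g = g := by
        unfold Tg
        rw [h, swap_self]
        rfl
      rw [this]; ring
    · ring
  rw [Finset.sum_congr rfl fun e _ => h e, Finset.sum_add_distrib]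
  congr 1
  rw [Fintype.sum_prod_type, Finset.sum_mul]
  refine Finset.sum_congr rfl fun x _ => ?_
  simp only
  rw [Finset.sum_ite_eq]
  simp

theorem rate_diag (J : V → V → ℝ) :
    rate J = rate (fun x y => if x = y then 0 else J x y) + ∑ x, J x x / 2 := by
  unfold rate
  rw [← Finset.sum_add_distrib]
  refine Finset.sum_congr rfl fun x _ => ?_
  have h : ∀ y, J x y / 2 = (if x = y then 0 else J x y) / 2 + (if x = y then J x y / 2 else 0) := by
    intro y
    split_ifs <;> ring
  rw [Finset.sum_congr rfl fun y _ => h y, Finset.sum_add_distrib, Finset.sum_ite_eq]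
  simp

theorem exp_smul_one (c : ℝ) :
    NormedSpace.exp (c • (1 : (Perm V → ℝ) →L[ℝ] (Perm V → ℝ))) =
      Real.exp c • (1 : (Perm V → ℝ) →L[ℝ] (Perm V → ℝ)) := by
  rw [← Algebra.algebraMap_eq_smul_one, ← Algebra.algebraMap_eq_smul_one, Real.exp_eq_exp_ℝ]
  exact (NormedSpace.algebraMap_exp_comm c).symm

end

theorem diag : Pool.Agent.TH604.ST.S_DIAG := by
  intro V _ _ J t F
  letI : NormedAlgebra ℚ ((Perm V → ℝ) →L[ℝ] (Perm V → ℝ)) :=
    NormedAlgebra.restrictScalars ℚ ℝ _
  rw [stE_eq, stE_eq, op_diag J, rate_diag J, smul_add, smul_smul,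
    NormedSpace.exp_add_of_commute (((Commute.one_right _).smul_right _)), exp_smul_one]
  have e1 : ((NormedSpace.exp (t • opP (wJ fun x y => if x = y then 0 else J x y) (Tg (V := V))) *
      Real.exp (t * ∑ x, J x x / 2) • (1 : (Perm V → ℝ) →L[ℝ] (Perm V → ℝ))) F) 1 =
      Real.exp (t * ∑ x, J x x / 2) *
        (NormedSpace.exp (t • opP (wJ fun x y => if x = y then 0 else J x y) (Tg (V := V)))) F 1 := by
    rw [mul_smul_comm, mul_one]
    rfl
  rw [e1, ← mul_assoc, ← Real.exp_add]
  congr 2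
  ring

end Pool.Agent.TH604.ST.Diag
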