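import Pool.Agent.TH604.ST.Stm
import Pool.Agent.W613.LR.SB2

/-!
# Mean change of the number of cycles and of the number of long cycles
-/

set_option autoImplicit false
set_option linter.unusedSectionVars false

namespace Pool.Agent.TH604.ST.Gg

open Finset Equiv Pool.Agent.W805.LR Pool.Agent.W815.LR Pool.Agent.W613.LR Pool.Agent.TH604.ST

section

variable {V : Type} [Fintype V] [DecidableEq V]

theorem len_le (p : Perm V) (v : V) : len p v ≤ nn V := by
  rw [len_eq]
  calc ∑ w, ind (p.SameCycle v w) ≤ ∑ _w : V, (1 : ℝ) := sum_le_sum fun _ _ => ind_le_one _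
    _ = nn V := by simp [nn]

theorem NG_eq (p : Perm V) : NG p = NS (nn V + 1) p := by
  unfold NG NS
  refine sum_congr rfl fun v _ => ?_
  rw [ind_of (by have := len_le p v; linarith : len p v < nn V + 1)]

theorem NE_eq (s : ℝ) (p : Perm V) : NE s p = NG p - NS s p := by
  unfold NE NG NS
  rw [← sum_sub_distrib]
  refine sum_congr rfl fun v _ => ?_
  by_cases h : s ≤ len p v
  · rw [if_pos h, ind_of_not (not_lt.2 h)]
    ring
  · rw [if_neg h, ind_of (not_le.1 h)]
    ring

theorem NG_change (p : Perm V) (u w : V) :
    NG (swap u w * p) = NG p + (2 * ind (p.SameCycle u w) - 1 - ind (u = w)) := by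
  by_cases hne : u = w
  · subst hne
    rw [ind_of (Perm.SameCycle.refl p u), ind_of rfl, swap_self]
    have : (Equiv.refl V : Perm V) * p = p := one_mul p
    rw [this]
    ring
  · rw [ind_of_not hne]
    have h1 := len_le p u
    have h2 := len_le p w
    have h3 := len_le (swap u w * p) u
    have h4 := len_le (swap u w * p) w
    by_cases h : p.SameCycle u w
    · rw [NG_eq, NG_eq, NS_split Pool.Agent.W333.LR.main_split _ p hne h, ind_of h,
        ind_of (by linarith : len p u < nn V + 1),
        ind_of (by linarith : len (swap u w * p) u < nn V + 1),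
        ind_of (by linarith : len (swap u w * p) w < nn V + 1)]
      ring
    · have h5 : len p u + len p w ≤ nn V := by
        have h6 := (Pool.Agent.W333.LR.main_merge V p u w h).1 u
          (Or.inl (Perm.SameCycle.refl p u))
        rw [← h6]
        exact h3
      rw [NG_eq, NG_eq, NS_merge Pool.Agent.W333.LR.main_merge _ p h, ind_of_not h,
        ind_of (by linarith : len p u < nn V + 1),
        ind_of (by linarith : len p w < nn V + 1),
        ind_of (by linarith : len p u + len p w < nn V + 1)]
      ring

theorem NE_change {s : ℝ} (hs : 0 ≤ s) (p : Perm V) (u w : V) :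
    NE s p + (2 * (ind (s ≤ len p u) * ind (p.SameCycle u w)) - ind (u = w)
      - ind (s ≤ len p u) * ind (s ≤ len p w) - 2 * ind (near p s u w)) ≤
      NE s (swap u w * p) := by
  have e0 := ind_nonneg (near p s u w)
  by_cases hne : u = w
  · subst hne
    rw [ind_of (Perm.SameCycle.refl p u), ind_of (rfl : u = u), swap_self]
    have : (Equiv.refl V : Perm V) * p = p := one_mul p
    rw [this]
    by_cases h : s ≤ len p u
    · rw [ind_of h]; linarith
    · rw [ind_of_not h]; linarith
  · rw [NE_eq, NE_eq, NG_change, ind_of_not hne]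
    by_cases h : p.SameCycle u w
    · rw [NS_split Pool.Agent.W333.LR.main_split s p hne h, ind_of h]
      have h0 := len_same h
      by_cases hl : s ≤ len p u
      · have h5 := (Pool.Agent.W248.LR.main_damage Pool.Agent.W333.LR.main_merge
          Pool.Agent.W333.LR.main_split V p u w s hs).2
        have e1 : ind (len (swap u w * p) u < s) ≤ ind (near p s u w) :=
          ind_mono fun h6 => h5 u hl h6
        have e2 : ind (len (swap u w * p) w < s) ≤ ind (near p s u w) :=
          ind_mono fun h6 => h5 w (by rw [← h0]; exact hl) h6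
        rw [ind_of hl, ind_of (by rw [← h0]; exact hl : s ≤ len p w), ind_of_not (not_lt.2 hl)]
        linarith
      · rw [ind_of_not hl, ind_of (not_le.1 hl)]
        have e1 := ind_le_one (len (swap u w * p) u < s)
        have e2 := ind_le_one (len (swap u w * p) w < s)
        linarith
    · rw [NS_merge Pool.Agent.W333.LR.main_merge s p h, ind_of_not h]
      have p1 := len_pos p u
      have p2 := len_pos p w
      by_cases ha : s ≤ len p u <;> by_cases hb : s ≤ len p w
      · rw [ind_of ha, ind_of hb, ind_of_not (not_lt.2 ha), ind_of_not (not_lt.2 hb),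
          ind_of_not (by linarith : ¬ len p u + len p w < s)]
        linarith
      · rw [ind_of ha, ind_of_not hb, ind_of_not (not_lt.2 ha), ind_of (not_le.1 hb),
          ind_of_not (by linarith : ¬ len p u + len p w < s)]
        linarith
      · rw [ind_of_not ha, ind_of hb, ind_of (not_le.1 ha), ind_of_not (not_lt.2 hb),
          ind_of_not (by linarith : ¬ len p u + len p w < s)]
        linarith
      · rw [ind_of_not ha, ind_of_not hb, ind_of (not_le.1 ha), ind_of (not_le.1 hb)]
        have e1 := ind_le_one (len p u + len p w < s)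
        linarith

theorem stp_eq (F : Perm V → ℝ) (g : Perm V) :
    stp (unif V) Tg F g = (∑ u, ∑ w, F (swap u w * g)) / nn V ^ 2 := by
  unfold stp unif Tg
  rw [← mul_sum, Fintype.sum_prod_type]
  ring

theorem sum_same_len (p : Perm V) :
    ∑ u, ∑ w, ind (p.SameCycle u w) = ∑ u, len p u := rfl

theorem sum_eq_ind : ∑ u : V, ∑ w : V, ind (u = w) = nn V := by
  have : ∀ u : V, ∑ w : V, ind (u = w) = 1 := by
    intro u
    rw [sum_eq_single u]
    · exact ind_of rfl
    · intro b _ hb
      exact ind_of_not fun h => hb h.symm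
    · simp
  rw [sum_congr rfl fun u _ => this u]
  simp [nn]

theorem sum_one : ∑ _u : V, ∑ _w : V, (1 : ℝ) = nn V ^ 2 := by
  simp [nn, sq]

end

theorem gg : S_GG := by
  intro V _ _ _ g ε hε
  have hn : 0 < nn V := by
    unfold nn
    exact_mod_cast Fintype.card_pos
  have hn2 : 0 < nn V ^ 2 := by positivity
  have hs : 0 < ε * nn V := by positivity
  refine ⟨?_, ?_, ?_, ?_⟩
  · rw [stp_eq]
    simp only [NG_change]
    have h1 : ∑ u, ∑ w, (NG g + (2 * ind (g.SameCycle u w) - 1 - ind (u = w))) =
        nn V ^ 2 * NG g + (2 * (∑ u, len g u) - nn V ^ 2 - nn V) := by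
      simp only [sum_add_distrib, sum_sub_distrib, ← mul_sum]
      rw [sum_same_len, sum_eq_ind, sum_one]
      simp [nn]
      ring
    rw [h1, ss]
    field_simp
    ring
  · rw [stp_eq]
    have h1 : ∑ u, ∑ w, (NE (ε * nn V) g + (2 * (ind (ε * nn V ≤ len g u) * ind (g.SameCycle u w))
        - ind (u = w) - ind (ε * nn V ≤ len g u) * ind (ε * nn V ≤ len g w)
        - 2 * ind (near g (ε * nn V) u w))) ≤
        ∑ u, ∑ w, NE (ε * nn V) (swap u w * g) :=
      sum_le_sum fun u _ => sum_le_sum fun w _ => NE_change hs.le g u w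
    have h2 : ∑ u, ∑ w, (NE (ε * nn V) g + (2 * (ind (ε * nn V ≤ len g u) * ind (g.SameCycle u w))
        - ind (u = w) - ind (ε * nn V ≤ len g u) * ind (ε * nn V ≤ len g w)
        - 2 * ind (near g (ε * nn V) u w))) =
        nn V ^ 2 * NE (ε * nn V) g + (2 * (∑ u, ind (ε * nn V ≤ len g u) * len g u) - nn V
          - (∑ u, ind (ε * nn V ≤ len g u)) ^ 2 - 2 * ∑ u, ∑ w, ind (near g (ε * nn V) u w)) := by
      simp only [sum_add_distrib, sum_sub_distrib, ← mul_sum]
      rw [sum_eq_ind, sq (∑ u, ind (ε * nn V ≤ len g u)), sum_mul]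
      simp only [← len_eq]
      simp [nn]
      ring
    have h3 := Pool.Agent.W613.LR.SB2.sum_near Pool.Agent.W248.LR.main_near hs.le g
    have h3' : ∑ u, ∑ w, ind (near g (ε * nn V) u w) ≤ nn V * (2 * (ε * nn V)) := h3
    have h4 : (∑ u, len g u) - nn V * (ε * nn V) ≤ ∑ u, ind (ε * nn V ≤ len g u) * len g u := by
      have : nn V * (ε * nn V) = ∑ _u : V, ε * nn V := by simp [nn]
      rw [this, ← sum_sub_distrib]
      refine sum_le_sum fun u _ => ?_
      by_cases h : ε * nn V ≤ len g u
      · rw [ind_of h]; linarith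
      · rw [ind_of_not h]
        have := not_le.1 h
        linarith
    have h5 : (∑ u, ind (ε * nn V ≤ len g u)) = frac (ε * nn V) g * nn V := by
      unfold frac
      rw [div_mul_cancel₀ _ hn.ne']
      rfl
    rw [h2] at h1
    rw [← sub_nonneg]
    have h6 : ss g = (∑ v, len g v) / nn V ^ 2 := rfl
    have h7 : (∑ u, ∑ w, NE (ε * nn V) (swap u w * g)) / nn V ^ 2 - NE (ε * nn V) g -
        (2 * ss g - frac (ε * nn V) g ^ 2 - 1 / nn V - 6 * ε) =
        ((∑ u, ∑ w, NE (ε * nn V) (swap u w * g)) - nn V ^ 2 * NE (ε * nn V) g -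
          (2 * (∑ v, len g v) - (frac (ε * nn V) g * nn V) ^ 2 - nn V
            - 6 * (nn V * (ε * nn V)))) / nn V ^ 2 := by
      rw [h6]
      field_simp
    rw [h7]
    refine div_nonneg ?_ hn2.le
    rw [h5] at h1
    linarith
  · unfold NE
    refine sum_nonneg fun v _ => div_nonneg ?_ (len_pos g v).le
    split_ifs <;> norm_num
  · unfold NE
    calc _ ≤ ∑ _v : V, 1 / (ε * nn V) := by
          refine sum_le_sum fun v _ => ?_
          split_ifs with h
          · exact one_div_le_one_div_of_le hs h
          · rw [zero_div]; positivity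
      _ = 1 / ε := by
          rw [sum_const, card_univ, nsmul_eq_mul]
          have : (Fintype.card V : ℝ) = nn V := rfl
          rw [this]
          field_simp

end Pool.Agent.TH604.ST.Gg
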