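import Pool.Agent.TH604.ST.Stm2
import Pool.Agent.TH604.ST.Gg

/-!
# One uniform transposition does not destroy many points of long cycles, on average
-/

set_option autoImplicit false

namespace Pool.Agent.TH604.ST.Loss

open Finset Equiv Pool.Agent.W805.LR Pool.Agent.W815.LR Pool.Agent.W248.LR Pool.Agent.TH604.ST

section

variable {V : Type} [Fintype V] [DecidableEq V]

/-- `w` is reached from `u` in less than `s` steps. -/
def nr (g : Perm V) (s : ℝ) (u w : V) : Prop := ∃ k : ℕ, 0 < k ∧ (k : ℝ) < s ∧ (g ^ k) u = w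

theorem cnt_nr (g : Perm V) {s : ℝ} (hs : 0 ≤ s) (u : V) : cnt (fun w => nr g s u w) ≤ s := by
  classical
  set K := Finset.Ico 1 ⌈s⌉₊ with hK
  have hcard : (K.card : ℝ) ≤ s := by
    rw [hK, Nat.card_Ico]
    rcases Nat.eq_zero_or_pos ⌈s⌉₊ with h | h
    · rw [h]; simpa using hs
    · have h1 := Nat.ceil_lt_add_one hs
      rw [Nat.cast_sub h]
      push_cast
      linarith
  rw [cnt_eq]
  have hsub : (univ.filter fun w => nr g s u w) ⊆ K.image fun k => (g ^ k) u := by
    intro w hw
    rw [mem_filter] at hw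
    obtain ⟨-, k, hk0, hks, h⟩ := hw
    rw [mem_image]
    refine ⟨k, ?_, h⟩
    rw [hK, mem_Ico]
    exact ⟨hk0, Nat.lt_ceil.2 hks⟩
  have h1 := card_le_card hsub
  have h3 : (K.image fun k => (g ^ k) u).card ≤ K.card := card_image_le
  have h5 : ((univ.filter fun w => nr g s u w).card : ℝ) ≤ K.card := by
    exact_mod_cast h1.trans h3
  linarith

theorem loss_pair (g : Perm V) {s : ℝ} (hs : 0 < s) (u w : V) :
    cnt (fun v => s ≤ len g v) ≤ cnt (fun v => s ≤ len (swap u w * g) v) +
      s * (ind (nr g s u w) + ind (nr g s w u)) := by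
  classical
  have e1 := ind_nonneg (nr g s u w)
  have e2 := ind_nonneg (nr g s w u)
  have hdam := (main_damage Pool.Agent.W333.LR.main_merge Pool.Agent.W333.LR.main_split V g u w s
    hs.le).2
  by_cases huw : u = w
  · subst huw
    have h1 : swap u u * g = g := by rw [swap_self]; rfl
    rw [h1]
    have : 0 ≤ s * (ind (nr g s u u) + ind (nr g s u u)) := by positivity
    linarith
  by_cases hc : g.SameCycle u w
  · obtain ⟨h1, h2, -, h4⟩ := Pool.Agent.W333.LR.main_split V g u w huw hc
    set g' := swap u w * g with hg'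
    have hcl : ∀ v, s ≤ len g v → s ≤ len g' v ∨
        ((g'.SameCycle u v ∧ len g' u < s) ∨ (g'.SameCycle w v ∧ len g' w < s)) := by
      intro v h5
      by_cases h6 : s ≤ len g' v
      · exact Or.inl h6
      · refine Or.inr ?_
        have h6 := not_le.1 h6
        by_cases h7 : g.SameCycle u v
        · rcases h4 v h7 with h8 | h8
          · exact Or.inl ⟨h8, by rw [len_congr h8]; exact h6⟩
          · exact Or.inr ⟨h8, by rw [len_congr h8]; exact h6⟩
        · exfalso
          have h8 : len g' v = len g v := cnt_congr (h2 v h7)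
          rw [h8] at h6
          exact absurd h6 (not_lt.2 h5)
    have hbu : cnt (fun v => g'.SameCycle u v ∧ len g' u < s) ≤ s * ind (nr g s u w) := by
      by_cases hx : len g' u < s
      · have hnr : nr g s u w := near_aux h1 hx
        rw [ind_of hnr, mul_one]
        exact (W248.LR.cnt_mono fun v hv => hv.1).trans hx.le
      · rw [cnt_false (fun v hv => hx hv.2)]
        positivity
    have hbw : cnt (fun v => g'.SameCycle w v ∧ len g' w < s) ≤ s * ind (nr g s w u) := by
      by_cases hx : len g' w < s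
      · have h9 : ¬ (swap w u * g).SameCycle w u := by
          rw [swap_comm, ← hg']
          exact fun h => h1 h.symm
        have h10 : len (swap w u * g) w < s := by
          rw [swap_comm, ← hg']
          exact hx
        have hnr : nr g s w u := near_aux h9 h10
        rw [ind_of hnr, mul_one]
        exact (W248.LR.cnt_mono fun v hv => hv.1).trans hx.le
      · rw [cnt_false (fun v hv => hx hv.2)]
        positivity
    have h5 := W248.LR.cnt_mono hcl
    have h6 := cnt_or_le (fun v => s ≤ len g' v)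
      (fun v => (g'.SameCycle u v ∧ len g' u < s) ∨ (g'.SameCycle w v ∧ len g' w < s))
    have h7 := cnt_or_le (fun v => g'.SameCycle u v ∧ len g' u < s)
      (fun v => g'.SameCycle w v ∧ len g' w < s)
    linarith
  · have h3 : cnt (fun v => s ≤ len g v) ≤ cnt (fun v => s ≤ len (swap u w * g) v) := by
      refine W248.LR.cnt_mono fun v hv => ?_
      by_contra h
      obtain ⟨k, -, -, h5 | h5⟩ := hdam v hv (not_le.1 h)
      · exact hc ⟨(k : ℤ), by rw [zpow_natCast]; exact h5⟩
      · exact hc (Perm.SameCycle.symm ⟨(k : ℤ), by rw [zpow_natCast]; exact h5⟩)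
    have : 0 ≤ s * (ind (nr g s u w) + ind (nr g s w u)) := by positivity
    linarith

end

theorem loss : S_LOSS := by
  intro V _ _ _ g s hs
  have hn : 0 < nn V := by
    unfold nn
    exact_mod_cast Fintype.card_pos
  have hn2 : 0 < nn V ^ 2 := by positivity
  rw [Gg.stp_eq]
  have h1 : ∑ _u : V, ∑ _w : V, cnt (fun v => s ≤ len g v) ≤
      ∑ u, ∑ w, (cnt (fun v => s ≤ len (swap u w * g) v) +
        s * (ind (nr g s u w) + ind (nr g s w u))) :=
    sum_le_sum fun u _ => sum_le_sum fun w _ => loss_pair g hs u w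
  have h2 : ∑ u, ∑ w, ind (nr g s u w) ≤ nn V * s := by
    calc ∑ u, ∑ w, ind (nr g s u w) ≤ ∑ _u : V, s := sum_le_sum fun u _ => cnt_nr g hs.le u
      _ = nn V * s := by simp [nn]
  have h3 : ∑ u, ∑ w, ind (nr g s w u) ≤ nn V * s := by
    rw [sum_comm]
    exact h2
  have h4 : ∑ _u : V, ∑ _w : V, cnt (fun v => s ≤ len g v) =
      nn V ^ 2 * cnt (fun v => s ≤ len g v) := by
    simp [nn]
    ring
  have h5 : ∑ u, ∑ w, (cnt (fun v => s ≤ len (swap u w * g) v) +
        s * (ind (nr g s u w) + ind (nr g s w u))) =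
      (∑ u, ∑ w, cnt (fun v => s ≤ len (swap u w * g) v)) +
        s * ((∑ u, ∑ w, ind (nr g s u w)) + ∑ u, ∑ w, ind (nr g s w u)) := by
    simp only [sum_add_distrib, ← mul_sum]
  have h6 : ∑ u, ∑ w, frac s (swap u w * g) =
      (∑ u, ∑ w, cnt (fun v => s ≤ len (swap u w * g) v)) / nn V := by
    simp only [frac, sum_div]
  rw [h4, h5] at h1
  rw [h6]
  have h7 : s * ((∑ u, ∑ w, ind (nr g s u w)) + ∑ u, ∑ w, ind (nr g s w u)) ≤
      s * (nn V * s + nn V * s) := mul_le_mul_of_nonneg_left (add_le_add h2 h3) hs.le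
  have h8 : frac s g = cnt (fun v => s ≤ len g v) / nn V := rfl
  rw [h8]
  have h9 : (∑ u, ∑ w, cnt (fun v => s ≤ len (swap u w * g) v)) / nn V / nn V ^ 2 -
      cnt (fun v => s ≤ len g v) / nn V - -(2 * s ^ 2 / nn V ^ 2) =
      ((∑ u, ∑ w, cnt (fun v => s ≤ len (swap u w * g) v)) + s * (nn V * s + nn V * s) -
        nn V ^ 2 * cnt (fun v => s ≤ len g v)) / nn V ^ 3 := by
    field_simp
    ring
  rw [← sub_nonneg, h9]
  refine div_nonneg ?_ (by positivity)
  linarith

end Pool.Agent.TH604.ST.Loss
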