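import Pool.Agent.TH604.ST.Stm

/-!
# Mean change of the mass of a partition
-/

set_option autoImplicit false
set_option linter.unusedSectionVars false

namespace Pool.Agent.TH604.ST.Ms

open Finset Equiv Pool.Agent.W805.LR Pool.Agent.TH604.ST

lemma two_mul_le_exp {t : ℝ} (ht : 0 ≤ t) : 2 * t ≤ Real.exp t := by
  have h := Real.quadratic_le_exp_of_nonneg ht
  nlinarith [sq_nonneg (t - 1)]

lemma sq_le_exp {u : ℝ} (hu : 0 ≤ u) : u ^ 2 ≤ Real.exp u := by
  have h := two_mul_le_exp (t := u / 2) (by linarith)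
  have h2 : Real.exp u = Real.exp (u / 2) ^ 2 := by
    rw [← Real.exp_nat_mul]
    congr 1
    push_cast
    ring
  rw [h2]
  have h3 : u = 2 * (u / 2) := by ring
  calc u ^ 2 = (2 * (u / 2)) ^ 2 := by rw [← h3]
    _ ≤ Real.exp (u / 2) ^ 2 := pow_le_pow_left₀ (by linarith) h 2

lemma mul_exp_neg_le {u : ℝ} (hu : 0 ≤ u) : u * Real.exp (-u) ≤ 1 / 2 := by
  have h := two_mul_le_exp hu
  have hp := Real.exp_pos u
  rw [Real.exp_neg, ← div_eq_mul_inv, div_le_iff₀ hp]
  linarith

lemma sq_mul_exp_neg_le {u : ℝ} (hu : 0 ≤ u) : u ^ 2 * Real.exp (-u) ≤ 1 := by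
  have h := sq_le_exp hu
  have hp := Real.exp_pos u
  rw [Real.exp_neg, ← div_eq_mul_inv, div_le_iff₀ hp]
  linarith

section

variable {V : Type} [Fintype V] [DecidableEq V]

/-- `exp (-h |class of v|)` -/
noncomputable def E (h : ℝ) (R : Setoid V) (v : V) : ℝ := Real.exp (-(h * csz R v))

lemma E_pos (h : ℝ) (R : Setoid V) (v : V) : 0 < E h R v := Real.exp_pos _

/-- the symmetric function -/
noncomputable def G (h : ℝ) (R : Setoid V) (x y : V) : ℝ :=
  csz R x * E h R x * (1 - E h R y) + csz R y * E h R y * (1 - E h R x)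

open Classical in
lemma sum_class (R : Setoid V) (x : V) (c : ℝ) :
    ∑ v, (if R.r x v then c else 0) = csz R x * c := by
  unfold csz cnt
  rw [Finset.sum_mul]
  apply Finset.sum_congr rfl
  intro v _
  split_ifs <;> simp

open Classical in
lemma change (hJ : S_JN) (R : Setoid V) (h : ℝ) (x y : V) (hxy : ¬ R.r x y) :
    (∑ v, (1 - Real.exp (-(h * csz (join R x y) v)))) -
      ∑ v, (1 - Real.exp (-(h * csz R v))) = G h R x y := by
  obtain ⟨-, h2, -, h4, -⟩ := hJ V R x y
  obtain ⟨h5, h6⟩ := h4 hxy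
  rw [← Finset.sum_sub_distrib]
  have key : ∀ v, (1 - Real.exp (-(h * csz (join R x y) v))) -
      (1 - Real.exp (-(h * csz R v))) =
      (if R.r x v then (E h R x * (1 - E h R y)) else 0) +
        (if R.r y v then (E h R y * (1 - E h R x)) else 0) := by
    intro v
    by_cases hx : R.r x v
    · have hy : ¬ R.r y v := fun hy => hxy (R.iseqv.trans hx (R.iseqv.symm hy))
      rw [if_pos hx, if_neg hy, h5 v (Or.inl hx), ← h2 x v hx]
      unfold E
      rw [mul_add, neg_add, Real.exp_add]
      ring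
    · by_cases hy : R.r y v
      · rw [if_neg hx, if_pos hy, h5 v (Or.inr hy), ← h2 y v hy]
        unfold E
        rw [mul_add, neg_add, Real.exp_add]
        ring
      · rw [if_neg hx, if_neg hy, h6 v hx hy]
        ring
  rw [Finset.sum_congr rfl (fun v _ => key v), Finset.sum_add_distrib, sum_class, sum_class]
  unfold G
  ring

open Classical in
lemma mass_sub (hJ : S_JN) (R : Setoid V) (h : ℝ) (x y : V) :
    mass h (join R x y) - mass h R = (if R.r x y then 0 else G h R x y) / nn V := by
  by_cases hxy : R.r x y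
  · have h1 := (hJ V R x y).2.2.1 hxy
    rw [if_pos hxy, h1, sub_self, zero_div]
  · rw [if_neg hxy, ← change hJ R h x y hxy]
    unfold mass
    ring

lemma nn_pos [Nonempty V] : 0 < nn V := by
  unfold nn
  exact_mod_cast Fintype.card_pos

lemma sum_G (R : Setoid V) (h : ℝ) : ∑ x, ∑ y, G h R x y =
    2 * ((∑ v, csz R v * E h R v) * ∑ v, (1 - E h R v)) := by
  unfold G
  have h1 : ∑ x, ∑ y, csz R x * E h R x * (1 - E h R y) =
      (∑ v, csz R v * E h R v) * ∑ v, (1 - E h R v) := by
    rw [Finset.sum_mul_sum]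
  have h2 : ∑ x, ∑ y, csz R y * E h R y * (1 - E h R x) =
      (∑ v, csz R v * E h R v) * ∑ v, (1 - E h R v) := by
    rw [Finset.sum_comm, Finset.sum_mul_sum]
  simp only [Finset.sum_add_distrib]
  rw [h1, h2]
  ring

open Classical in
lemma sum_diag (hJ : S_JN) (R : Setoid V) (h : ℝ) :
    ∑ x, ∑ y, (if R.r x y then G h R x y else 0) =
      ∑ x, 2 * (csz R x ^ 2 * E h R x * (1 - E h R x)) := by
  apply Finset.sum_congr rfl
  intro x _
  have h1 : ∀ y, (if R.r x y then G h R x y else 0) =
      (if R.r x y then (2 * (csz R x * E h R x * (1 - E h R x))) else 0) := by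
    intro y
    by_cases hxy : R.r x y
    · rw [if_pos hxy, if_pos hxy]
      have h2 := (hJ V R x y).2.1 x y hxy
      unfold G E
      rw [← h2]
      ring
    · rw [if_neg hxy, if_neg hxy]
  rw [Finset.sum_congr rfl (fun y _ => h1 y), sum_class]
  ring

open Classical in
lemma stp_eq (hJ : S_JN) [Nonempty V] (R : Setoid V) (h : ℝ) :
    stp (unif V) Tj (mass h) R - mass h R = 2 / nn V * wgt h R * mass h R -
      (∑ x, 2 * (csz R x ^ 2 * E h R x * (1 - E h R x))) / nn V ^ 3 := by
  have hn := nn_pos (V := V)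
  have h1 : mass h R = ∑ e : V × V, unif V e * mass h R := by
    rw [← Finset.sum_mul]
    have : ∑ e : V × V, unif V e = 1 := by
      unfold unif
      rw [Finset.sum_const, Finset.card_univ, Fintype.card_prod, nsmul_eq_mul]
      push_cast
      have h2 : (Fintype.card V : ℝ) = nn V := rfl
      rw [h2]
      field_simp
    rw [this, one_mul]
  have h2 : stp (unif V) Tj (mass h) R - mass h R =
      (∑ x, ∑ y, (if R.r x y then 0 else G h R x y)) / nn V ^ 3 := by
    unfold stp
    rw [h1]
    rw [← Finset.sum_sub_distrib, Fintype.sum_prod_type, Finset.sum_div]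
    apply Finset.sum_congr rfl
    intro x _
    rw [Finset.sum_div]
    apply Finset.sum_congr rfl
    intro y _
    rw [← mul_sub]
    show unif V (x, y) * (mass h (join R x y) - mass h R) = _
    rw [mass_sub hJ]
    unfold unif
    field_simp
  have h3 : ∑ x, ∑ y, (if R.r x y then 0 else G h R x y) =
      ∑ x, ∑ y, G h R x y - ∑ x, ∑ y, (if R.r x y then G h R x y else 0) := by
    rw [← Finset.sum_sub_distrib]
    apply Finset.sum_congr rfl
    intro x _
    rw [← Finset.sum_sub_distrib]
    apply Finset.sum_congr rfl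
    intro y _
    split_ifs <;> ring
  rw [h2, h3, sum_G, sum_diag hJ]
  have h4 : wgt h R = (∑ v, csz R v * E h R v) / nn V := rfl
  have h5 : mass h R = (∑ v, (1 - E h R v)) / nn V := rfl
  rw [h4, h5]
  field_simp

lemma csz_pos (hJ : S_JN) (R : Setoid V) (v : V) : 0 < csz R v := by
  have := (hJ V R v v).1 v
  linarith

lemma E_le (hJ : S_JN) (R : Setoid V) {h : ℝ} (hh : 0 < h) (v : V) : E h R v ≤ 1 := by
  unfold E
  rw [Real.exp_le_one_iff]
  have := mul_pos hh (csz_pos hJ R v)
  linarith

lemma sE_le (hJ : S_JN) (R : Setoid V) {h : ℝ} (hh : 0 < h) (v : V) :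
    csz R v * E h R v ≤ 1 / (2 * h) := by
  have h1 := mul_exp_neg_le (mul_pos hh (csz_pos hJ R v)).le
  rw [le_div_iff₀ (by positivity)]
  unfold E
  nlinarith

lemma ssE_le (hJ : S_JN) (R : Setoid V) {h : ℝ} (hh : 0 < h) (v : V) :
    csz R v ^ 2 * E h R v ≤ 1 / h ^ 2 := by
  have h1 := sq_mul_exp_neg_le (mul_pos hh (csz_pos hJ R v)).le
  rw [le_div_iff₀ (by positivity)]
  unfold E
  nlinarith

end

theorem ms : S_JN → S_MS := by
  classical
  intro hJ V _ _ _ R h hh
  have hn := nn_pos (V := V)
  have hE0 := E_pos h R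
  have hE1 := E_le hJ R hh
  have hs := csz_pos hJ R
  have heq := stp_eq hJ R h
  have hcard : ∑ _v : V, (1 : ℝ) = nn V := by
    rw [Finset.sum_const, Finset.card_univ, nsmul_eq_mul, mul_one]
    rfl
  have hw : wgt h R = (∑ v, csz R v * E h R v) / nn V := rfl
  have hm : mass h R = (∑ v, (1 - E h R v)) / nn V := rfl
  refine ⟨?_, ?_, ?_, ?_, ?_, ?_, ?_⟩
  · rw [heq]
    have : 0 ≤ (∑ x, 2 * (csz R x ^ 2 * E h R x * (1 - E h R x))) / nn V ^ 3 := by
      apply div_nonneg _ (by positivity)
      apply Finset.sum_nonneg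
      intro x _
      have h1 := hE0 x
      have h2 : 0 ≤ 1 - E h R x := by linarith [hE1 x]
      positivity
    linarith
  · rw [heq]
    have h1 : ∑ x, 2 * (csz R x ^ 2 * E h R x * (1 - E h R x)) ≤ 2 / h ^ 2 * nn V := by
      rw [← hcard, Finset.mul_sum]
      apply Finset.sum_le_sum
      intro x _
      have h2 : 0 ≤ 1 - E h R x := by linarith [hE1 x]
      have h3 : 1 - E h R x ≤ 1 := by linarith [hE0 x]
      have h4 := ssE_le hJ R hh x
      have h5 : 0 ≤ csz R x ^ 2 * E h R x := by
        have := hE0 x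
        positivity
      have h6 : csz R x ^ 2 * E h R x * (1 - E h R x) ≤ csz R x ^ 2 * E h R x := by
        nlinarith
      have h7 : 2 / h ^ 2 * 1 = 2 * (1 / h ^ 2) := by ring
      rw [h7]
      linarith
    have h2 : (∑ x, 2 * (csz R x ^ 2 * E h R x * (1 - E h R x))) / nn V ^ 3 ≤
        2 / (nn V ^ 2 * h ^ 2) := by
      rw [div_le_iff₀ (by positivity)]
      refine h1.trans (le_of_eq ?_)
      field_simp
    linarith
  · intro x y
    rw [mass_sub hJ]
    by_cases hxy : R.r x y
    · rw [if_pos hxy, zero_div, abs_zero]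
      positivity
    · rw [if_neg hxy]
      have g1 := sE_le hJ R hh x
      have g2 := sE_le hJ R hh y
      have a1 : 0 ≤ csz R x * E h R x := (mul_pos (hs x) (hE0 x)).le
      have a2 : 0 ≤ csz R y * E h R y := (mul_pos (hs y) (hE0 y)).le
      have b1 : 0 ≤ 1 - E h R x := by linarith [hE1 x]
      have b2 : 0 ≤ 1 - E h R y := by linarith [hE1 y]
      have c1 : 1 - E h R x ≤ 1 := by linarith [hE0 x]
      have c2 : 1 - E h R y ≤ 1 := by linarith [hE0 y]
      have hG0 : 0 ≤ G h R x y := by
        unfold G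
        positivity
      have hG1 : G h R x y ≤ 1 / h := by
        unfold G
        have d1 : csz R x * E h R x * (1 - E h R y) ≤ 1 / (2 * h) := by nlinarith
        have d2 : csz R y * E h R y * (1 - E h R x) ≤ 1 / (2 * h) := by nlinarith
        have d3 : 1 / h = 1 / (2 * h) + 1 / (2 * h) := by
          field_simp
          norm_num
        rw [d3]
        linarith
      rw [abs_of_nonneg (by positivity), div_le_iff₀ hn]
      refine hG1.trans (le_of_eq ?_)
      field_simp
  · rw [hw]
    apply div_nonneg _ hn.le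
    apply Finset.sum_nonneg
    intro v _
    exact (mul_pos (hs v) (hE0 v)).le
  · rw [hw, div_le_iff₀ hn, ← hcard, Finset.mul_sum]
    apply Finset.sum_le_sum
    intro v _
    have h1 := sE_le hJ R hh v
    refine h1.trans ?_
    rw [mul_one]
    apply one_div_le_one_div_of_le hh
    linarith
  · rw [hm]
    apply div_nonneg _ hn.le
    apply Finset.sum_nonneg
    intro v _
    linarith [hE1 v]
  · rw [hm, div_le_one hn, ← hcard]
    apply Finset.sum_le_sum
    intro v _
    linarith [hE0 v]

end Pool.Agent.TH604.ST.Ms
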