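import Pool.Agent.TH604.ST.Stm

/-!
# The fixed point equation `m = 1 - ∑ w_i exp (-(a m s_i))`
-/

set_option autoImplicit false

namespace Pool.Agent.TH604.ST.Root

open Finset

section

variable {ι : Type} [Fintype ι]

/-- `M x = 1 - ∑ w_i exp (-(x s_i))`. -/
noncomputable def M (w s : ι → ℝ) (x : ℝ) : ℝ := 1 - ∑ i, w i * Real.exp (-(x * s i))

lemma M_cont (w s : ι → ℝ) : Continuous (M w s) := by
  unfold M; fun_prop

lemma M_zero {w : ι → ℝ} (s : ι → ℝ) (h1 : ∑ i, w i = 1) : M w s 0 = 0 := by
  simp [M, h1]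

lemma exists_pos {w : ι → ℝ} (h0 : ∀ i, 0 ≤ w i) (h1 : ∑ i, w i = 1) : ∃ i, 0 < w i := by
  by_contra hcon
  push Not at hcon
  have : ∑ i, w i = 0 := Finset.sum_eq_zero fun i _ => le_antisymm (hcon i) (h0 i)
  linarith

lemma M_lt_one {w : ι → ℝ} (s : ι → ℝ) (h0 : ∀ i, 0 ≤ w i) (h1 : ∑ i, w i = 1) (x : ℝ) :
    M w s x < 1 := by
  obtain ⟨i, hi⟩ := exists_pos h0 h1
  have : 0 < ∑ i, w i * Real.exp (-(x * s i)) :=
    Finset.sum_pos' (fun i _ => mul_nonneg (h0 i) (Real.exp_pos _).le)
      ⟨i, Finset.mem_univ i, mul_pos hi (Real.exp_pos _)⟩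
  unfold M; linarith

lemma M_mono {w s : ι → ℝ} (h0 : ∀ i, 0 ≤ w i) (hs : ∀ i, 1 ≤ s i) {x y : ℝ} (hxy : x ≤ y) :
    M w s x ≤ M w s y := by
  have : ∑ i, w i * Real.exp (-(y * s i)) ≤ ∑ i, w i * Real.exp (-(x * s i)) := by
    refine Finset.sum_le_sum fun i _ => mul_le_mul_of_nonneg_left ?_ (h0 i)
    apply Real.exp_le_exp.2
    have : x * s i ≤ y * s i := mul_le_mul_of_nonneg_right hxy (by linarith [hs i])
    linarith
  unfold M; linarith

lemma M_hasDerivAt (w s : ι → ℝ) (x : ℝ) :
    HasDerivAt (M w s) (∑ i, w i * (s i * Real.exp (-(x * s i)))) x := by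
  have h : HasDerivAt (fun x => ∑ i, w i * Real.exp (-(x * s i)))
      (∑ i, w i * (Real.exp (-(x * s i)) * -(1 * s i))) x := by
    apply HasDerivAt.fun_sum
    intro i _
    exact (((hasDerivAt_id x).mul_const (s i)).neg.exp).const_mul (w i)
  have h2 := h.const_sub 1
  have he : -(∑ i, w i * (Real.exp (-(x * s i)) * -(1 * s i))) =
      ∑ i, w i * (s i * Real.exp (-(x * s i))) := by
    rw [← Finset.sum_neg_distrib]
    exact Finset.sum_congr rfl fun i _ => by ring
  rw [he] at h2
  exact h2

/-- `(1 + x) exp (-x) + y^2/2 exp (-y) ≤ 1` for `0 ≤ y ≤ x`. -/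
lemma elem {x y : ℝ} (hy : 0 ≤ y) (hxy : y ≤ x) :
    (1 + x) * Real.exp (-x) + y ^ 2 / 2 * Real.exp (-y) ≤ 1 := by
  have e1 : (1 + x) * Real.exp (-x) ≤ (1 + y) * Real.exp (-y) := by
    have h1 : 1 + x ≤ (1 + y) * Real.exp (x - y) := by
      have := Real.add_one_le_exp (x - y)
      have h2 : (1 + y) * (x - y + 1) ≤ (1 + y) * Real.exp (x - y) :=
        mul_le_mul_of_nonneg_left this (by linarith)
      nlinarith [mul_nonneg hy (sub_nonneg.2 hxy)]
    calc (1 + x) * Real.exp (-x) ≤ ((1 + y) * Real.exp (x - y)) * Real.exp (-x) :=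
          mul_le_mul_of_nonneg_right h1 (Real.exp_pos _).le
      _ = (1 + y) * Real.exp (-y) := by
          rw [mul_assoc, ← Real.exp_add]; congr 2; ring
  have e2 : (1 + y + y ^ 2 / 2) * Real.exp (-y) ≤ 1 := by
    have h1 := Real.quadratic_le_exp_of_nonneg hy
    calc (1 + y + y ^ 2 / 2) * Real.exp (-y) ≤ Real.exp y * Real.exp (-y) :=
          mul_le_mul_of_nonneg_right h1 (Real.exp_pos _).le
      _ = 1 := by rw [← Real.exp_add]; simp
  nlinarith [Real.exp_pos (-y)]

/-- `M y / y` decreases with slope at least `exp (-v) / 2` on `(0, v]`. -/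
lemma P_dec {w s : ι → ℝ} (h0 : ∀ i, 0 ≤ w i) (h1 : ∑ i, w i = 1) (hs : ∀ i, 1 ≤ s i)
    {u v : ℝ} (hu : 0 < u) (huv : u ≤ v) :
    M w s v / v + Real.exp (-v) / 2 * (v - u) ≤ M w s u / u := by
  set c : ℝ := Real.exp (-v) / 2 with hc
  have hder : ∀ y, 0 < y → HasDerivAt (fun y => M w s y / y + c * y)
      (((∑ i, w i * (s i * Real.exp (-(y * s i)))) * y - M w s y * 1) / y ^ 2 + c * 1) y := by
    intro y hy
    exact ((M_hasDerivAt w s y).div (hasDerivAt_id y) hy.ne').add
      ((hasDerivAt_id y).const_mul c)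
  have anti : AntitoneOn (fun y => M w s y / y + c * y) (Set.Icc u v) := by
    refine antitoneOn_of_deriv_nonpos (convex_Icc u v) ?_ ?_ ?_
    · intro y hy
      exact (hder y (lt_of_lt_of_le hu hy.1)).continuousAt.continuousWithinAt
    · intro y hy
      rw [interior_Icc] at hy
      exact (hder y (hu.trans hy.1)).differentiableAt.differentiableWithinAt
    · intro y hy
      rw [interior_Icc] at hy
      have hy0 : 0 < y := hu.trans hy.1
      rw [(hder y hy0).deriv]
      have key : (∑ i, w i * (s i * Real.exp (-(y * s i)))) * y - M w s y * 1 ≤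
          -(y ^ 2 / 2 * Real.exp (-y)) := by
        have e : (∑ i, w i * (s i * Real.exp (-(y * s i)))) * y - M w s y * 1 =
            ∑ i, w i * ((1 + y * s i) * Real.exp (-(y * s i))) - 1 := by
          unfold M
          rw [Finset.sum_mul]
          have : ∑ i, w i * ((1 + y * s i) * Real.exp (-(y * s i))) =
              ∑ i, w i * (s i * Real.exp (-(y * s i))) * y +
                ∑ i, w i * Real.exp (-(y * s i)) := by
            rw [← Finset.sum_add_distrib]
            exact Finset.sum_congr rfl fun i _ => by ring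
          rw [this]; ring
        rw [e]
        have hle : ∑ i, w i * ((1 + y * s i) * Real.exp (-(y * s i))) ≤
            ∑ i, w i * (1 - y ^ 2 / 2 * Real.exp (-y)) := by
          refine Finset.sum_le_sum fun i _ => mul_le_mul_of_nonneg_left ?_ (h0 i)
          have := elem (x := y * s i) hy0.le (by nlinarith [hs i])
          linarith
        rw [← Finset.sum_mul, h1] at hle
        linarith
      have hyv : Real.exp (-v) ≤ Real.exp (-y) := Real.exp_le_exp.2 (by linarith [hy.2])
      have h3 : ((∑ i, w i * (s i * Real.exp (-(y * s i)))) * y - M w s y * 1) / y ^ 2 ≤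
          -(Real.exp (-y) / 2) := by
        rw [div_le_iff₀ (by positivity)]
        calc _ ≤ -(y ^ 2 / 2 * Real.exp (-y)) := key
          _ = -(Real.exp (-y) / 2) * y ^ 2 := by ring
      rw [hc]
      linarith
  have h := anti (Set.left_mem_Icc.2 huv) (Set.right_mem_Icc.2 huv) huv
  simp only at h
  nlinarith [h]

/-- A point where `M (a u) ≥ u` lies below a root. -/
lemma ivt {w s : ι → ℝ} (h0 : ∀ i, 0 ≤ w i) (h1 : ∑ i, w i = 1) {a u : ℝ}
    (hu : u ≤ M w s (a * u)) : ∃ q, u ≤ q ∧ q = M w s (a * q) := by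
  have hu1 : u ≤ 1 := hu.trans (M_lt_one s h0 h1 _).le
  have hcont : ContinuousOn (fun q => M w s (a * q) - q) (Set.Icc u 1) :=
    (((M_cont w s).comp (continuous_const.mul continuous_id)).sub continuous_id).continuousOn
  have hz : (0 : ℝ) ∈ Set.Icc ((fun q => M w s (a * q) - q) 1) ((fun q => M w s (a * q) - q) u) := by
    constructor
    · simp only; linarith [M_lt_one s h0 h1 (a * 1)]
    · simp only; linarith
  obtain ⟨q, hq, hq0⟩ := intermediate_value_Icc' hu1 hcont hz
  exact ⟨q, hq.1, by simp only at hq0; linarith⟩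

end

theorem root : S_ROOT := by
  intro ι _ w s h0 h1 hs A a m δ h ha haA hm hδ hh hle
  have hm1 : m = M w s (a * m) := hm.1
  have hmax : ∀ q, q = M w s (a * q) → q ≤ m := fun q hq => hm.2 hq
  change M w s (h + a * (m + δ)) ≤ m + δ
  have hm0 : 0 ≤ m := hmax 0 (by rw [mul_zero, M_zero s h1])
  rcases le_or_gt 1 (m + δ) with h1m | h1m
  · exact (M_lt_one s h0 h1 _).le.trans h1m
  set v : ℝ := m + δ with hv
  have hv0 : 0 < v := by linarith
  have hvδ : δ ≤ v := by linarith
  have hav : 0 < a * v := mul_pos ha hv0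
  have havA : a * v ≤ A := by nlinarith
  set k : ℝ := Real.exp (-A) * a ^ 2 / 2 with hk
  have hk0 : 0 < k := by positivity
  -- the ratio at `u ∈ (m, v)` is at most one
  have hratio : ∀ u, m < u → u < v → M w s (a * u) ≤ u := by
    intro u hmu huv
    by_contra hcon
    push Not at hcon
    obtain ⟨q, hq1, hq2⟩ := ivt h0 h1 hcon.le
    have := hmax q hq2
    linarith
  have hstep : ∀ u, m < u → u < v → M w s (a * v) ≤ v * (1 - k * (v - u)) := by
    intro u hmu huv
    have hu0 : 0 < u := by linarith
    have hau : 0 < a * u := mul_pos ha hu0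
    have hd := P_dec h0 h1 hs hau (mul_le_mul_of_nonneg_left huv.le ha.le)
    have hr : M w s (a * u) / (a * u) ≤ 1 / a := by
      rw [div_le_div_iff₀ hau ha]
      nlinarith [hratio u hmu huv]
    have hexp : Real.exp (-A) ≤ Real.exp (-(a * v)) := Real.exp_le_exp.2 (by linarith)
    have hd2 : M w s (a * v) / (a * v) + Real.exp (-A) / 2 * (a * v - a * u) ≤ 1 / a := by
      have : Real.exp (-A) / 2 * (a * v - a * u) ≤ Real.exp (-(a * v)) / 2 * (a * v - a * u) := by
        apply mul_le_mul_of_nonneg_right (by linarith)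
        nlinarith
      linarith
    have hd3 : M w s (a * v) / (a * v) ≤ (1 - k * (v - u)) / a := by
      have : (1 - k * (v - u)) / a = 1 / a - Real.exp (-A) / 2 * (a * v - a * u) := by
        rw [hk]; field_simp
      rw [this]; linarith
    rw [div_le_div_iff₀ hav ha] at hd3
    have : a * (M w s (a * v)) ≤ a * (v * (1 - k * (v - u))) := by nlinarith
    exact le_of_mul_le_mul_left this ha
  have hlim : M w s (a * v) ≤ v * (1 - k * δ) := by
    apply le_of_forall_pos_le_add
    intro ε hε
    -- choose `u` close to `m`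
    have hvk : 0 < v * k := mul_pos hv0 hk0
    set η : ℝ := min (δ / 2) (ε / (v * k)) with hη
    have hη0 : 0 < η := lt_min (by linarith) (div_pos hε hvk)
    have hηδ : η < δ := (min_le_left _ _).trans_lt (by linarith)
    have hηε : v * k * η ≤ ε := by
      have : η ≤ ε / (v * k) := min_le_right _ _
      calc v * k * η ≤ v * k * (ε / (v * k)) := mul_le_mul_of_nonneg_left this hvk.le
        _ = ε := by field_simp
    have := hstep (m + η) (by linarith) (by linarith)
    have e : v - (m + η) = δ - η := by rw [hv]; ring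
    rw [e] at this
    nlinarith
  -- concavity
  have hpos : 0 ≤ M w s (a * v) := by
    have := M_mono h0 hs hav.le
    rwa [M_zero s h1] at this
  have hcc : M w s (h + a * v) ≤ M w s (a * v) * (1 + h / (a * v)) := by
    have hd := P_dec h0 h1 hs hav (by linarith : a * v ≤ h + a * v)
    have hn : 0 ≤ Real.exp (-(h + a * v)) / 2 * (h + a * v - a * v) := by
      have : 0 ≤ h + a * v - a * v := by linarith
      positivity
    have h2 : M w s (h + a * v) / (h + a * v) ≤ M w s (a * v) / (a * v) := by linarith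
    rw [div_le_div_iff₀ (by linarith) hav] at h2
    have : M w s (a * v) * (1 + h / (a * v)) = M w s (a * v) * (h + a * v) / (a * v) := by
      field_simp; ring
    rw [this, le_div_iff₀ hav]
    exact h2
  have hhk : h / (a * v) ≤ k * δ := by
    rw [div_le_iff₀ hav]
    calc h ≤ Real.exp (-A) * a ^ 3 * δ ^ 2 / 2 := hle
      _ = k * δ * (a * δ) := by rw [hk]; ring
      _ ≤ k * δ * (a * v) := by
          apply mul_le_mul_of_nonneg_left _ (by positivity)
          exact mul_le_mul_of_nonneg_left hvδ ha.le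
  calc M w s (h + a * v) ≤ M w s (a * v) * (1 + h / (a * v)) := hcc
    _ ≤ M w s (a * v) * (1 + k * δ) := by
        apply mul_le_mul_of_nonneg_left _ hpos; linarith
    _ ≤ v * (1 - k * δ) * (1 + k * δ) :=
        mul_le_mul_of_nonneg_right hlim (by positivity)
    _ ≤ v := by nlinarith [mul_nonneg hv0.le (sq_nonneg (k * δ))]

theorem rt2 : S_RT2 := by
  intro ι _ w s h0 h1 hs
  refine ⟨?_, ?_, ?_⟩
  · intro a ha
    change ∃ m, IsGreatest {q : ℝ | q = M w s (a * q)} m
    have hne : (0 : ℝ) ∈ {q : ℝ | q = M w s (a * q)} := by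
      change (0 : ℝ) = M w s (a * 0)
      rw [mul_zero, M_zero s h1]
    have hb : BddAbove {q : ℝ | q = M w s (a * q)} := by
      refine ⟨1, fun q hq => ?_⟩
      have hq' : q = M w s (a * q) := hq
      rw [hq']
      exact (M_lt_one s h0 h1 _).le
    have hcl : IsClosed {q : ℝ | q = M w s (a * q)} :=
      isClosed_eq continuous_id ((M_cont w s).comp (continuous_const.mul continuous_id))
    exact ⟨sSup _, hcl.csSup_mem ⟨0, hne⟩ hb, fun q hq => le_csSup hb hq⟩
  · intro a m ha hm
    have hm1 : m = M w s (a * m) := hm.1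
    have hmax : ∀ q, q = M w s (a * q) → q ≤ m := fun q hq => hm.2 hq
    have hm0 : 0 ≤ m := hmax 0 (by rw [mul_zero, M_zero s h1])
    refine ⟨hm0, ?_, ?_⟩
    · rw [hm1]; exact (M_lt_one s h0 h1 _).le
    · constructor
      · intro hmp
        have ha' : 0 < a := by
          rcases ha.eq_or_lt with h | h
          · exfalso
            rw [← h, zero_mul, M_zero s h1] at hm1
            linarith
          · exact h
        obtain ⟨i, hi⟩ := exists_pos h0 h1
        have hterm : ∀ j, 1 - a * m * s j < Real.exp (-(a * m * s j)) := by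
          intro j
          have hpos : 0 < a * m * s j :=
            mul_pos (mul_pos ha' hmp) (by linarith [hs j])
          have := Real.add_one_lt_exp (x := -(a * m * s j)) (by linarith)
          linarith
        have hlt : ∑ j, w j * (1 - a * m * s j) < ∑ j, w j * Real.exp (-(a * m * s j)) := by
          refine Finset.sum_lt_sum (fun j _ => mul_le_mul_of_nonneg_left (hterm j).le (h0 j))
            ⟨i, Finset.mem_univ i, mul_lt_mul_of_pos_left (hterm i) hi⟩
        have e : ∑ j, w j * (1 - a * m * s j) = 1 - a * m * ∑ j, w j * s j := by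
          have : ∀ j, w j * (1 - a * m * s j) = w j - a * m * (w j * s j) := fun j => by ring
          simp_rw [this]
          rw [Finset.sum_sub_distrib, h1, ← Finset.mul_sum]
        rw [e] at hlt
        have hM : m = 1 - ∑ j, w j * Real.exp (-(a * m * s j)) := hm1
        have h2 : m * 1 < m * (a * ∑ j, w j * s j) := by linarith
        exact lt_of_mul_lt_mul_left h2 hm0
      · intro hL
        set L : ℝ := ∑ i, w i * s i with hLdef
        set K : ℝ := ∑ i, w i * s i ^ 2 with hKdef
        have hK : 0 ≤ K := Finset.sum_nonneg fun i _ => mul_nonneg (h0 i) (sq_nonneg _)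
        have hd : 0 < a * L - 1 := by linarith
        have hlow : ∀ x, 0 ≤ x → x * L - x ^ 2 * K / 2 ≤ M w s x := by
          intro x hx
          have hterm : ∀ j, Real.exp (-(x * s j)) ≤ 1 - x * s j + (x * s j) ^ 2 / 2 := by
            intro j
            have hpos : 0 ≤ x * s j := mul_nonneg hx (by linarith [hs j])
            set y : ℝ := x * s j
            -- exp (-y) * (1 + y + y^2/2) ≤ 1 ≤ (1 - y + y^2/2) (1 + y + y^2/2)
            have hq := Real.quadratic_le_exp_of_nonneg hpos
            have hexp : Real.exp (-y) * Real.exp y = 1 := by rw [← Real.exp_add]; simp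
            have hp : 0 < 1 + y + y ^ 2 / 2 := by positivity
            have h3 : Real.exp (-y) * (1 + y + y ^ 2 / 2) ≤ 1 := by
              calc _ ≤ Real.exp (-y) * Real.exp y :=
                    mul_le_mul_of_nonneg_left hq (Real.exp_pos _).le
                _ = 1 := hexp
            have h4 : 1 ≤ (1 - y + y ^ 2 / 2) * (1 + y + y ^ 2 / 2) := by
              nlinarith [sq_nonneg (y ^ 2)]
            exact le_of_mul_le_mul_right (h3.trans h4) hp
          have : ∑ j, w j * Real.exp (-(x * s j)) ≤
              ∑ j, w j * (1 - x * s j + (x * s j) ^ 2 / 2) :=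
            Finset.sum_le_sum fun j _ => mul_le_mul_of_nonneg_left (hterm j) (h0 j)
          have e : ∑ j, w j * (1 - x * s j + (x * s j) ^ 2 / 2) = 1 - x * L + x ^ 2 * K / 2 := by
            have : ∀ j, w j * (1 - x * s j + (x * s j) ^ 2 / 2) =
                w j - x * (w j * s j) + (x ^ 2 / 2) * (w j * s j ^ 2) := fun j => by ring
            simp_rw [this]
            rw [Finset.sum_add_distrib, Finset.sum_sub_distrib, h1, ← Finset.mul_sum,
              ← Finset.mul_sum]
            ring
          rw [e] at this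
          unfold M
          linarith
        -- a small point
        set q0 : ℝ := (a * L - 1) / (a ^ 2 * K + 1) with hq0
        have hden : 0 < a ^ 2 * K + 1 := by positivity
        have hq0p : 0 < q0 := div_pos hd hden
        have hq0e : q0 * (a ^ 2 * K + 1) = a * L - 1 := by rw [hq0]; field_simp
        have hge : q0 ≤ M w s (a * q0) := by
          refine le_trans ?_ (hlow (a * q0) (mul_nonneg ha hq0p.le))
          have h5 : a * L - 1 - q0 * (a ^ 2 * K) / 2 ≥ 0 := by
            have : q0 * (a ^ 2 * K) ≤ a * L - 1 := by nlinarith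
            have h6 : 0 ≤ q0 * (a ^ 2 * K) := by positivity
            linarith
          nlinarith [mul_nonneg hq0p.le h5]
        obtain ⟨q, hq1, hq2⟩ := ivt h0 h1 hge
        linarith [hmax q hq2]
  · intro a b m q ha hab hm hq
    have hm1 : m = M w s (a * m) := hm.1
    have hmaxa : ∀ q, q = M w s (a * q) → q ≤ m := fun q hq => hm.2 hq
    have hmaxb : ∀ x, x = M w s (b * x) → x ≤ q := fun x hx => hq.2 hx
    have hm0 : 0 ≤ m := hmaxa 0 (by rw [mul_zero, M_zero s h1])
    have hge : m ≤ M w s (b * m) := by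
      calc m = M w s (a * m) := hm1
        _ ≤ M w s (b * m) := M_mono h0 hs (mul_le_mul_of_nonneg_right hab hm0)
    obtain ⟨x, hx1, hx2⟩ := ivt h0 h1 hge
    exact hx1.trans (hmaxb x hx2)

end Pool.Agent.TH604.ST.Root
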