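import Pool.Agent.TH604.ST.Api

/-!
# Poissonised walks: variance bound (job 4230, helper692)
-/

set_option autoImplicit false

namespace Pool.Agent.TH604.ST.Var

open Finset Pool.Agent.TH604.ST Pool.Agent.TH604.ST.Api

/-- the first moment of the exponential series -/
lemma exp_sum1 (s : ℝ) : HasSum (fun k : ℕ => s ^ k / (k.factorial : ℝ) * k) (s * Real.exp s) := by
  rw [← hasSum_nat_add_iff' 1, sum_range_one, Nat.cast_zero, mul_zero, sub_zero]
  refine ((exp_sum s).mul_left s).congr_fun ?_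
  intro k
  rw [Nat.factorial_succ, pow_succ]
  push_cast
  field_simp

/-- the second moment of the exponential series -/
lemma exp_sum2 (s : ℝ) : HasSum (fun k : ℕ => s ^ k / (k.factorial : ℝ) * (k : ℝ) ^ 2)
    ((s ^ 2 + s) * Real.exp s) := by
  rw [← hasSum_nat_add_iff' 1, sum_range_one, Nat.cast_zero, zero_pow (by norm_num), mul_zero,
    sub_zero]
  have h := ((exp_sum1 s).add (exp_sum s)).mul_left s
  have e : s * (s * Real.exp s + Real.exp s) = (s ^ 2 + s) * Real.exp s := by ring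
  rw [e] at h
  refine h.congr_fun ?_
  intro k
  rw [Nat.factorial_succ, pow_succ]
  push_cast
  field_simp

section walk

variable {X ι : Type} [Fintype ι]

/-- the variance after `k` steps -/
lemma var_k {p : ι → ℝ} (T : ι → X → X) (hp : Prb p) {F : X → ℝ} {δ : ℝ} (hδ : 0 ≤ δ)
    (h : ∀ (k : ℕ) (x : X) (i : ι), |((stp p T)^[k] F) (T i x) - ((stp p T)^[k] F) x| ≤ δ)
    (k : ℕ) : ∀ x : X, ((stp p T)^[k] (fun y => F y ^ 2)) x ≤
      ((stp p T)^[k] F) x ^ 2 + k * δ ^ 2 := by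
  induction k with
  | zero =>
    intro x
    rw [Nat.cast_zero, zero_mul, add_zero]
    exact le_rfl
  | succ k ih =>
    intro x
    rw [Function.iterate_succ_apply', Function.iterate_succ_apply']
    set φ := (stp p T)^[k] F with hφ
    have h1 : stp p T ((stp p T)^[k] fun y => F y ^ 2) x ≤
        ∑ i, p i * (φ (T i x) ^ 2 + k * δ ^ 2) :=
      sum_le_sum fun i _ => mul_le_mul_of_nonneg_left (ih (T i x)) (hp.1 i)
    have h2 : ∑ i, p i * (φ (T i x) ^ 2 + k * δ ^ 2) = ∑ i, p i * φ (T i x) ^ 2 + k * δ ^ 2 := by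
      simp only [mul_add]
      rw [sum_add_distrib, ← sum_mul, hp.2, one_mul]
    have h3 : ∑ i, p i * φ (T i x) ^ 2 - (∑ i, p i * φ (T i x)) ^ 2 ≤
        ∑ i, p i * (φ (T i x) - φ x) ^ 2 := by
      have e : ∑ i, p i * (φ (T i x) - φ x) ^ 2 = ∑ i, p i * φ (T i x) ^ 2 -
          2 * φ x * ∑ i, p i * φ (T i x) + φ x ^ 2 * ∑ i, p i := by
        rw [mul_sum, mul_sum, ← sum_sub_distrib, ← sum_add_distrib]
        apply sum_congr rfl
        intro i _
        ring
      rw [e, hp.2]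
      nlinarith [sq_nonneg (∑ i, p i * φ (T i x) - φ x)]
    have h4 : ∑ i, p i * (φ (T i x) - φ x) ^ 2 ≤ δ ^ 2 := by
      calc ∑ i, p i * (φ (T i x) - φ x) ^ 2 ≤ ∑ i, p i * δ ^ 2 := by
            apply sum_le_sum
            intro i _
            apply mul_le_mul_of_nonneg_left _ (hp.1 i)
            exact sq_le_sq' (abs_le.1 (h k x i)).1 (abs_le.1 (h k x i)).2
        _ = δ ^ 2 := by rw [← sum_mul, hp.2, one_mul]
    have h5 : stp p T φ x = ∑ i, p i * φ (T i x) := rfl
    rw [h5]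
    push_cast
    nlinarith

/-- Lipschitz sequences have a point close to all their values -/
lemma lip {φ : ℕ → ℝ} {δ : ℝ} (h : ∀ k, |φ (k + 1) - φ k| ≤ δ) (s : ℝ) (hs : 0 ≤ s) :
    ∃ c : ℝ, ∀ k : ℕ, (φ k - c) ^ 2 ≤ δ ^ 2 * ((k : ℝ) - s) ^ 2 := by
  have hδ : 0 ≤ δ := (abs_nonneg _).trans (h 0)
  have hadd : ∀ (m j : ℕ), |φ (m + j) - φ m| ≤ δ * j := by
    intro m j
    induction j with
    | zero =>
      rw [Nat.add_zero, sub_self, abs_zero, Nat.cast_zero, mul_zero]
    | succ j ih =>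
      have e : φ (m + (j + 1)) - φ m = (φ (m + j + 1) - φ (m + j)) + (φ (m + j) - φ m) := by
        rw [← Nat.add_assoc]
        ring
      rw [e]
      refine (abs_add_le _ _).trans ?_
      push_cast
      linarith [h (m + j)]
  set m := ⌊s⌋₊ with hm
  have hm1 : (m : ℝ) ≤ s := Nat.floor_le hs
  have hm2 : s < m + 1 := Nat.lt_floor_add_one s
  set c : ℝ := φ m + (s - m) * (φ (m + 1) - φ m) with hc
  refine ⟨c, fun k => ?_⟩
  have hD := abs_le.1 (h m)
  have key : |φ k - c| ≤ δ * |(k : ℝ) - s| := by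
    rcases Nat.lt_or_ge m k with hk | hk
    · obtain ⟨j, rfl⟩ := Nat.exists_eq_add_of_le (Nat.succ_le_of_lt hk)
      have h1 := abs_le.1 (hadd (m + 1) j)
      have h2 : |((m.succ + j : ℕ) : ℝ) - s| = (m + 1 + j : ℝ) - s := by
        push_cast
        exact abs_of_nonneg (by
          have : (0 : ℝ) ≤ j := Nat.cast_nonneg j
          linarith)
      rw [h2, abs_le]
      have h3 : m.succ + j = m + 1 + j := rfl
      rw [h3, hc]
      have h4 : 0 ≤ (1 - (s - m)) * (δ - (φ (m + 1) - φ m)) :=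
        mul_nonneg (by linarith) (by linarith)
      have h5 : 0 ≤ (1 - (s - m)) * (δ + (φ (m + 1) - φ m)) :=
        mul_nonneg (by linarith) (by linarith)
      constructor
      · nlinarith
      · nlinarith
    · obtain ⟨j, hj⟩ := Nat.exists_eq_add_of_le hk
      have h1 := abs_le.1 (hadd k j)
      have hkr : (m : ℝ) = k + j := by exact_mod_cast hj
      have h2 : |(k : ℝ) - s| = s - k := by
        rw [abs_sub_comm]
        exact abs_of_nonneg (by
          have : (0 : ℝ) ≤ j := Nat.cast_nonneg j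
          linarith)
      rw [← hj] at h1
      rw [h2, abs_le, hc]
      have h4 : 0 ≤ (s - m) * (δ - (φ (m + 1) - φ m)) :=
        mul_nonneg (by linarith) (by linarith)
      have h5 : 0 ≤ (s - m) * (δ + (φ (m + 1) - φ m)) :=
        mul_nonneg (by linarith) (by linarith)
      have h6 : δ * (s - k) = δ * (s - m) + δ * j := by
        rw [hkr]
        ring
      rw [h6]
      constructor
      · nlinarith
      · nlinarith
  have h1 := pow_le_pow_left₀ (abs_nonneg _) key 2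
  rw [mul_pow, sq_abs, sq_abs] at h1
  exact h1

end walk

theorem var : S_VAR := by
  intro X ι _ p T hp F δ ⟨B, hB⟩ hδ h s hs x
  have hB0 : 0 ≤ B := (abs_nonneg _).trans (hB x)
  have hB2 : ∀ y, |F y ^ 2| ≤ B ^ 2 := by
    intro y
    rw [abs_pow]
    exact pow_le_pow_left₀ (abs_nonneg _) (hB y) 2
  set φ : ℕ → ℝ := fun k => ((stp p T)^[k] F) x with hφ
  have hφB : ∀ k, |φ k| ≤ B := fun k => it_abs T hp hB k x
  have hstep : ∀ k, |φ (k + 1) - φ k| ≤ δ := by
    intro k
    have e : φ (k + 1) - φ k = ∑ i, p i * (((stp p T)^[k] F) (T i x) - φ k) := by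
      simp only [mul_sub]
      rw [sum_sub_distrib, ← sum_mul, hp.2, one_mul]
      have : φ (k + 1) = ∑ i, p i * ((stp p T)^[k] F) (T i x) := by
        simp only [hφ]
        rw [Function.iterate_succ_apply']
        rfl
      rw [this]
    rw [e]
    refine (abs_sum_le_sum_abs _ _).trans ?_
    calc ∑ i, |p i * (((stp p T)^[k] F) (T i x) - φ k)| ≤ ∑ i, p i * δ := by
          apply sum_le_sum
          intro i _
          rw [abs_mul, abs_of_nonneg (hp.1 i)]
          exact mul_le_mul_of_nonneg_left (h k x i) (hp.1 i)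
      _ = δ := by rw [← sum_mul, hp.2, one_mul]
  obtain ⟨c, hc⟩ := lip hstep s hs
  -- the sums
  have hs1 := hsm hφB s
  have hs2 := hsm (fun k => it_abs T hp hB2 k x) s
  have hle : ∀ k : ℕ, s ^ k / (k.factorial : ℝ) * ((stp p T)^[k] fun y => F y ^ 2) x ≤
      (2 * c) * (s ^ k / (k.factorial : ℝ) * φ k) + (δ ^ 2 * s ^ 2 - c ^ 2) *
        (s ^ k / (k.factorial : ℝ)) + (δ ^ 2 - 2 * s * δ ^ 2) * (s ^ k / (k.factorial : ℝ) * k) +
        δ ^ 2 * (s ^ k / (k.factorial : ℝ) * (k : ℝ) ^ 2) := by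
    intro k
    have h1 := var_k T hp hδ h k x
    have h2 := hc k
    have h3 : ((stp p T)^[k] fun y => F y ^ 2) x ≤
        2 * c * φ k + (δ ^ 2 * s ^ 2 - c ^ 2) + (δ ^ 2 - 2 * s * δ ^ 2) * k + δ ^ 2 * (k : ℝ) ^ 2 := by
      have h4 : ((stp p T)^[k] F) x = φ k := rfl
      rw [h4] at h1
      nlinarith
    have h5 : 0 ≤ s ^ k / (k.factorial : ℝ) := by positivity
    have h6 := mul_le_mul_of_nonneg_left h3 h5
    refine h6.trans (le_of_eq ?_)
    ring
  have hr := (((hs1.mul_left (2 * c)).add ((exp_sum s).mul_left (δ ^ 2 * s ^ 2 - c ^ 2))).add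
    ((exp_sum1 s).mul_left (δ ^ 2 - 2 * s * δ ^ 2))).add ((exp_sum2 s).mul_left (δ ^ 2))
  have hfin := hasSum_le hle hs2 hr
  rw [poi_eq, poi_eq]
  have hE : Real.exp (-s) * Real.exp s = 1 := by
    rw [← Real.exp_add, neg_add_cancel, Real.exp_zero]
  have h7 := mul_le_mul_of_nonneg_left hfin (Real.exp_pos (-s)).le
  have h8 : Real.exp (-s) * (2 * c * ga φ s + (δ ^ 2 * s ^ 2 - c ^ 2) * Real.exp s +
      (δ ^ 2 - 2 * s * δ ^ 2) * (s * Real.exp s) + δ ^ 2 * ((s ^ 2 + s) * Real.exp s)) =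
      2 * c * (Real.exp (-s) * ga φ s) + ((δ ^ 2 * s ^ 2 - c ^ 2) +
        (δ ^ 2 - 2 * s * δ ^ 2) * s + δ ^ 2 * (s ^ 2 + s)) * (Real.exp (-s) * Real.exp s) := by
    ring
  rw [h8, hE] at h7
  nlinarith [sq_nonneg (Real.exp (-s) * ga φ s - c)]

end Pool.Agent.TH604.ST.Var
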