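import Pool.Agent.TH604.ST.Asm5
import Pool.Agent.TH604.ST.Api
import Pool.Agent.TH604.ST.Var
import Pool.Agent.TH604.ST.Kn
import Pool.Agent.TH604.ST.Ms
import Pool.Agent.TH604.ST.Burg
import Pool.Agent.TH604.ST.Gg
import Pool.Agent.TH604.ST.Pot
import Pool.Agent.TH604.ST.Cent
import Pool.Agent.TH604.ST.Root
import Pool.Agent.TH604.ST.Loss
import Pool.Agent.TH604.ST.Diag

/-!
# Mean-field perturbation of random stirring: all the parts together
-/

set_option autoImplicit false
set_option maxHeartbeats 400000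

namespace Pool.Agent.TH604.ST

open Finset Equiv Pool.Agent.W805.LR MeasureTheory Filter Topology

theorem p_jn : S_JN := Kn.jn
theorem p_ms : S_MS := Ms.ms p_jn
theorem p_vm : S_VM := Burg.vm Var.var p_jn p_ms
theorem p_burg : S_BURG := Burg.burg Api.der Api.mon Api.lin p_vm p_ms
theorem p_pot : S_POT := Pot.pot Gg.gg Kn.kn Pot.ref
theorem p_fill : S_FILL := Pot.fill Api.der Api.mon Api.lin p_pot Pot.ref
theorem p_bdg : S_BDG := Pot.bdg p_jn p_ms
theorem p_vj : S_VJ := Cent.vj Var.var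

/-- The mass of the long cycles at a fixed strength. -/
theorem fixedK {t D Λ κ A η : ℝ} (ht : 0 < t) (hΛ : 0 < Λ) (hκ : 0 < κ) (hA : 0 < A)
    (hη : 0 < η) :
    ∃ K₀ > 0, ∃ N₀ : ℝ, ∀ (V : Type) [Fintype V] [DecidableEq V]
      [Nonempty V], N₀ ≤ nn V → ∀ J : V → V → ℝ, (∀ x y, 0 ≤ J x y) → rate J ≤ D * nn V →
      ∀ lam, κ ≤ lam → lam ≤ Λ → ∀ m, IsGreatest (Rts J t (lam * t)) m →
        ∀ s, K₀ ≤ s → s ≤ A * √(nn V) →
          stE (fun x y => J x y + lam / nn V) t (fun g => (frac s g - m) ^ 2) ≤ η := by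
  obtain ⟨ρ, hρ⟩ : ∃ ρ, ρ = η / 8 := ⟨_, rfl⟩
  have hρ0 : 0 < ρ := by rw [hρ]; positivity
  obtain ⟨K₀, hK₀, N₁, H₁⟩ := upperK Api.mon Api.lin Api.prj p_ms Pot.ref p_burg p_vm Cent.cent
    Root.root Root.rt2 p_jn p_vj p_bdg (D := D) (Λ := Λ) ht hκ
    (show (0 : ℝ) < 2 * ρ * (η / 4) by positivity)
  obtain ⟨N₂, H₂⟩ := lowerK Api.der Api.mon Api.lin Api.prj p_ms Pot.ref p_burg p_vm p_fill
    Cent.cent Root.root Root.rt2 p_jn p_vj p_bdg Loss.loss (D := D) ht hΛ hκ hA
    (show (0 : ℝ) < η / 4 by positivity)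
  refine ⟨K₀, hK₀, max N₁ N₂, ?_⟩
  intro V _ _ _ hV J hJ hD lam hl hl2 m hm s hs hsA
  have hn : (0 : ℝ) < nn V := nn_pos
  have hl0 : 0 < lam := lt_of_lt_of_le hκ hl
  have h1 := H₁ V ((le_max_left _ _).trans hV) J hJ hD lam hl hl2 m hm s hs
  have h2 := H₂ V ((le_max_right _ _).trans hV) J hJ hD lam hl hl2 m hm s
    (lt_of_lt_of_le hK₀ hs) hsA
  obtain ⟨hm0, hm1, _⟩ := root_bd Root.rt2 p_jn p_vj p_bdg J hJ ht.le (by positivity) hm
  have hJ' : ∀ u v, 0 ≤ J u v + lam / nn V := fun u v =>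
    add_nonneg (hJ u v) (div_nonneg hl0.le hn.le)
  have hv := p_vj V (fun u v => J u v + lam / nn V) t hJ' ht.le
  have h3 : ∀ g : Perm V, (frac s g - m) ^ 2 ≤
      (-1) * frac s g + 1 * ((2 * (1 / (4 * ρ))) * (max 0 (frac s g - m) ^ 2) +
        (2 * ρ + m) * 1) := by
    intro g
    have a0 := frac_nonneg s g
    have a1 := frac_le_one s g
    have a2 : (frac s g - m) ^ 2 ≤ 2 * max 0 (frac s g - m) - (frac s g - m) := by
      rcases le_total 0 (frac s g - m) with hc | hc
      · rw [max_eq_right hc]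
        nlinarith
      · rw [max_eq_left hc]
        nlinarith
    have a3 : max 0 (frac s g - m) ≤ ρ + (1 / (4 * ρ)) * max 0 (frac s g - m) ^ 2 := by
      have c3 : 0 ≤ (1 / (4 * ρ)) * (max 0 (frac s g - m) - 2 * ρ) ^ 2 := by positivity
      have c4 : (1 / (4 * ρ)) * (max 0 (frac s g - m) - 2 * ρ) ^ 2 =
          (1 / (4 * ρ)) * max 0 (frac s g - m) ^ 2 - max 0 (frac s g - m) + ρ := by
        field_simp
        ring
      rw [c4] at c3
      linarith
    linarith
  have h4 := stE_mono hv.2.1 h3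
  have h5 : stE (fun x y => J x y + lam / nn V) t (fun g => (-1) * frac s g +
      1 * ((2 * (1 / (4 * ρ))) * (max 0 (frac s g - m) ^ 2) + (2 * ρ + m) * 1)) =
      (-1) * stE (fun x y => J x y + lam / nn V) t (frac s) +
      1 * ((2 * (1 / (4 * ρ))) * stE (fun x y => J x y + lam / nn V) t
        (fun g => max 0 (frac s g - m) ^ 2) + (2 * ρ + m) * 1) := by
    rw [stE_lin _ _ (-1) 1 (frac s) (fun g => (2 * (1 / (4 * ρ))) * (max 0 (frac s g - m) ^ 2) +
      (2 * ρ + m) * 1), stE_lin _ _ _ _ (fun g => max 0 (frac s g - m) ^ 2) (fun _ => 1), hv.1]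
  rw [h5] at h4
  have h6 : 2 * (1 / (4 * ρ)) * (stE (fun x y => J x y + lam / nn V) t
        (fun g => max 0 (frac s g - m) ^ 2)) ≤ 2 * (1 / (4 * ρ)) * (2 * ρ * (η / 4)) :=
    mul_le_mul_of_nonneg_left h1 (by positivity)
  have h7 : 2 * (1 / (4 * ρ)) * (2 * ρ * (η / 4)) = η / 4 := by
    field_simp
    norm_num
  rw [h7] at h6
  linarith

/-- Comparison of the root with the cycles of the unperturbed process. -/
theorem sandwich {V : Type} [Fintype V] [DecidableEq V] [Nonempty V] (J : V → V → ℝ)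
    (hJ : ∀ x y, 0 ≤ J x y) {t a m : ℝ} (ht : 0 < t) (ha : 0 < a)
    (hm : IsGreatest (Rts J t a) m) (k : ℝ) (hk : 0 < k) :
    stE J t (frac k) - 1 / (a * k) ≤ m ∧ m ≤ stE J t (frac k) + a * k := by
  classical
  have hn : (0 : ℝ) < nn V := nn_pos
  have hv := p_vj V J t hJ ht.le
  obtain ⟨hm0, hm1, _⟩ := root_bd Root.rt2 p_jn p_vj p_bdg J hJ ht.le ha.le hm
  obtain ⟨P, hP⟩ : ∃ P, P = stE J t (frac k) := ⟨_, rfl⟩
  rw [← hP]
  have hw0 := ww_nonneg p_vj J hJ ht.le
  have hws := ww_sum p_vj J hJ ht.le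
  have hPw : ∑ i : Perm V × V, ww J t i * (if k ≤ len i.1 i.2 then 1 else 0) = P := by
    rw [wsum J t (fun g v => if k ≤ len g v then (1 : ℝ) else 0), hP]
    have e : (fun g : Perm V => (∑ v, if k ≤ len g v then (1 : ℝ) else 0) / nn V) = frac k := by
      funext g
      unfold frac cnt
      have e1 : ∀ v : V, (if k ≤ len g v then (1 : ℝ) else 0) =
          @ite ℝ (k ≤ len g v) (Classical.propDecidable _) 1 0 := fun v => by congr
      simp only [e1]
    rw [e]
  obtain ⟨φ, hφ⟩ : ∃ φ : ℝ → ℝ, φ = fun q => 1 - ∑ i : Perm V × V,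
    ww J t i * Real.exp (-(a * q * len i.1 i.2)) := ⟨_, rfl⟩
  have hφc : Continuous φ := by
    rw [hφ]
    fun_prop
  have hmr : m = φ m := by
    have := hm.1
    rw [Rts_eq] at this
    rw [hφ]
    exact this
  have hgr : ∀ q, q = φ q → q ≤ m := by
    intro q hq
    refine hm.2 ?_
    rw [Rts_eq]
    rw [hφ] at hq
    exact hq
  have hφe : ∀ q, φ q = ∑ i : Perm V × V, ww J t i * (1 - Real.exp (-(a * q * len i.1 i.2))) := by
    intro q
    rw [hφ]
    show 1 - ∑ i : Perm V × V, ww J t i * Real.exp (-(a * q * len i.1 i.2)) = _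
    rw [← hws, ← Finset.sum_sub_distrib]
    refine Finset.sum_congr rfl fun i _ => ?_
    rw [hws]
    ring
  constructor
  · by_contra hc
    push Not at hc
    obtain ⟨q, hq⟩ : ∃ q, q = P - 1 / (a * k) := ⟨_, rfl⟩
    rw [← hq] at hc
    have hq0 : 0 < q := lt_of_le_of_lt hm0 hc
    have hP1 : P ≤ 1 := by
      have := stE_mono hv.2.1 (F := frac k) (G := fun _ => 1) (fun g => frac_le_one k g)
      rw [hv.1] at this
      rw [hP]
      exact this
    have hak : 0 < a * k := mul_pos ha hk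
    have hq1 : q ≤ 1 := by
      have : 0 < 1 / (a * k) := by positivity
      linarith
    have hPpos : 0 < P := by
      have : 0 < 1 / (a * k) := by positivity
      linarith
    have h1 : q ≤ φ q := by
      have h2 : P * (1 - Real.exp (-(a * q * k))) ≤ φ q := by
        rw [hφe, ← hPw, Finset.sum_mul]
        refine Finset.sum_le_sum fun i _ => ?_
        rw [mul_assoc]
        refine mul_le_mul_of_nonneg_left ?_ (hw0 i)
        have hl : 0 ≤ len i.1 i.2 := cnt_nonneg _
        split_ifs with hi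
        · rw [one_mul]
          have : Real.exp (-(a * q * len i.1 i.2)) ≤ Real.exp (-(a * q * k)) := by
            refine Real.exp_le_exp.2 ?_
            have := mul_le_mul_of_nonneg_left hi (mul_pos ha hq0).le
            linarith
          linarith
        · rw [zero_mul, sub_nonneg, Real.exp_le_one_iff]
          have : 0 ≤ a * q * len i.1 i.2 := by positivity
          linarith
      refine le_trans ?_ h2
      have h3 : a * q * k = a * k * P - 1 := by
        rw [hq]
        field_simp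
      rw [h3]
      have h4 : a * k * P * Real.exp (-(a * k * P - 1)) ≤ 1 := by
        have h5 := Real.add_one_le_exp (a * k * P - 1)
        have h6 : a * k * P ≤ Real.exp (a * k * P - 1) := by linarith
        rw [Real.exp_neg, ← div_eq_mul_inv, div_le_one (Real.exp_pos _)]
        exact h6
      have h7 : P * Real.exp (-(a * k * P - 1)) ≤ 1 / (a * k) := by
        rw [le_div_iff₀ hak]
        linarith
      rw [hq]
      linarith
    have h8 : φ 1 ≤ 1 := by
      rw [hφ]
      have : 0 ≤ ∑ i : Perm V × V, ww J t i * Real.exp (-(a * 1 * len i.1 i.2)) :=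
        Finset.sum_nonneg fun i _ => mul_nonneg (hw0 i) (Real.exp_pos _).le
      show 1 - ∑ i : Perm V × V, ww J t i * Real.exp (-(a * 1 * len i.1 i.2)) ≤ 1
      linarith
    have h9 : (0 : ℝ) ∈ Set.Icc (φ 1 - 1) (φ q - q) := ⟨by linarith, by linarith⟩
    have h10 := intermediate_value_Icc' hq1 (f := fun x => φ x - x)
      ((hφc.sub continuous_id).continuousOn) h9
    obtain ⟨r, hr, hr2⟩ := h10
    have h11 := hgr r (by
      have : φ r - r = 0 := hr2
      linarith)
    exact absurd (hr.1.trans h11) (not_le.2 hc)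
  · rw [hmr, hφe, ← hPw]
    have h1 : ∀ i : Perm V × V, ww J t i * (1 - Real.exp (-(a * m * len i.1 i.2))) ≤
        ww J t i * (if k ≤ len i.1 i.2 then 1 else 0) + ww J t i * (a * k) := by
      intro i
      rw [← mul_add]
      refine mul_le_mul_of_nonneg_left ?_ (hw0 i)
      have hl : 0 ≤ len i.1 i.2 := cnt_nonneg _
      have hak : 0 < a * k := mul_pos ha hk
      split_ifs with hi
      · have := Real.exp_pos (-(a * m * len i.1 i.2))
        linarith
      · push Not at hi
        have h2 := Real.add_one_le_exp (-(a * m * len i.1 i.2))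
        have h3 : a * m * len i.1 i.2 ≤ a * k := by
          calc a * m * len i.1 i.2 ≤ a * 1 * len i.1 i.2 := by gcongr
            _ = a * len i.1 i.2 := by ring
            _ ≤ a * k := mul_le_mul_of_nonneg_left hi.le ha.le
        linarith
    refine (Finset.sum_le_sum fun i _ => h1 i).trans (le_of_eq ?_)
    rw [Finset.sum_add_distrib, ← Finset.sum_mul, hws, one_mul]

end Pool.Agent.TH604.ST
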