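import Pool.Agent.TH604.ST.Asm6
import Pool.Agent.TH268.PD.StirOrd

/-!
# Mean-field perturbation of random stirring: macroscopic cycles at a fixed strength
-/

set_option autoImplicit false
set_option maxHeartbeats 400000

namespace Pool.Agent.TH604.ST

open Finset Equiv Pool.Agent.W805.LR MeasureTheory Filter Topology

/-- The perturbed rates. -/
noncomputable def pert {V : Type} [Fintype V] [DecidableEq V] (J : V → V → ℝ) (lam : ℝ) :
    V → V → ℝ := fun x y => if x = y then 0 else J x y + lam / nn V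

section conv

variable {V : Type} [Fintype V] [DecidableEq V]

theorem stE_pert (J : V → V → ℝ) (lam t : ℝ) (F : Perm V → ℝ) :
    stE (pert J lam) t F = stE (fun x y => J x y + lam / nn V) t F := by
  have h1 := Diag.diag V (fun x y => J x y + lam / nn V) t F
  rw [← h1]
  rfl

theorem stE_law (J : V → V → ℝ) (t : ℝ) (F : Perm V → ℝ) :
    stE J t F = ∑ g, Pool.Agent.TH268.PD.law J t g * F g := by
  have hsum : ∑ g, stirMass J t g = Real.exp (t * rate J) := Pool.Agent.W805.LR.sum_mass J t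
  unfold stE Pool.Agent.TH268.PD.law
  rw [hsum, Finset.mul_sum]
  refine Finset.sum_congr rfl fun g _ => ?_
  rw [Real.exp_neg]
  field_simp

end conv

/-- Everything at a fixed strength. -/
theorem macro_law (r : ℕ) (f : (Fin r → ℝ) → ℝ) (hfc : Continuous f) (C : ℝ)
    (hC : ∀ u, |f u| ≤ C) {t D Λ κ η : ℝ} (ht : 0 < t) (hκ : 0 < κ) (hκΛ : κ ≤ Λ)
    (hη : 0 < η) :
    ∃ K₀ > 0, ∃ δ₀ > 0, ∃ N₀ : ℝ, ∀ (V : Type) [Fintype V] [DecidableEq V] [Nonempty V],
      N₀ ≤ nn V → ∀ J : V → V → ℝ, (∀ x y, 0 ≤ J x y) → rate J ≤ D * nn V →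
      ∀ lam, κ ≤ lam → lam ≤ Λ → ∀ q, IsGreatest (Rts J t (lam * t)) q →
        (∀ s, K₀ ≤ s → s ≤ δ₀ * nn V → stE (pert J lam) t (fun g => (frac s g - q) ^ 2) ≤ η) ∧
        |stE (pert J lam) t (fun g => f (fun i => Pool.Agent.TH268.PD.top
            (Pool.Agent.TH268.PD.frac g) i)) -
          Pool.Agent.TH268.PD.pdm (fun u : Fin r → ℝ => f (fun i => q * u i))| ≤ η := by
  have hΛ : 0 < Λ := lt_of_lt_of_le hκ hκΛ
  obtain ⟨M, hM, hnear⟩ := Pool.Agent.TH268.PD.pdm_near r f hfc C hC (η / 4) (by positivity)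
  obtain ⟨δ₀, hδ₀, A', hA', H⟩ := Pool.Agent.TH268.PD.stir_ord r f hfc C hC (η / 4) (by positivity)
  obtain ⟨A, hA⟩ : ∃ A, A = A' / √(t * κ) := ⟨_, rfl⟩
  have hA0 : 0 < A := by rw [hA]; positivity
  -- accuracy for the mass
  obtain ⟨ζ, hζ⟩ : ∃ ζ, ζ = min (η / 4) ((η / (4 * (M + 1))) ^ 2) := ⟨_, rfl⟩
  have hζ0 : 0 < ζ := by rw [hζ]; exact lt_min (by positivity) (by positivity)
  have hζ1 : ζ ≤ η / 4 := by rw [hζ]; exact min_le_left _ _
  have hζ2 : ζ ≤ (η / (4 * (M + 1))) ^ 2 := by rw [hζ]; exact min_le_right _ _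
  obtain ⟨K₀, hK₀, N₁, H₁⟩ := fixedK (D := D) ht hΛ hκ hA0 hζ0
  refine ⟨K₀, hK₀, δ₀, hδ₀, max (max N₁ (max A' (A' / (t * κ))))
    (max (K₀ ^ 2 * (t * Λ) / A' ^ 2) ((A / δ₀) ^ 2)), ?_⟩
  intro V _ _ _ hV J hJ hD lam hl hl2 q hq
  have hn : (0 : ℝ) < nn V := nn_pos
  have hl0 : 0 < lam := lt_of_lt_of_le hκ hl
  have hN1 : N₁ ≤ nn V := ((le_max_left _ _).trans (le_max_left _ _)).trans hV
  have hN2 : A' ≤ nn V :=
    (((le_max_left _ _).trans (le_max_right _ _)).trans (le_max_left _ _)).trans hV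
  have hN3 : A' / (t * κ) ≤ nn V :=
    (((le_max_right _ _).trans (le_max_right _ _)).trans (le_max_left _ _)).trans hV
  have hN4 : K₀ ^ 2 * (t * Λ) / A' ^ 2 ≤ nn V :=
    ((le_max_left _ _).trans (le_max_right _ _)).trans hV
  have hN5 : (A / δ₀) ^ 2 ≤ nn V :=
    ((le_max_right _ _).trans (le_max_right _ _)).trans hV
  obtain ⟨hq0, hq1, _⟩ := root_bd Root.rt2 p_jn p_vj p_bdg J hJ ht.le (by positivity) hq
  -- the scale
  have hcard : (Fintype.card V : ℝ) = nn V := rfl
  obtain ⟨K, hK⟩ : ∃ K, K = A' / √(t * (lam / nn V)) := ⟨_, rfl⟩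
  have hln : 0 < lam / nn V := div_pos hl0 hn
  have hKe : K = A' / √(t * lam) * √(nn V) := by
    rw [hK, ← mul_div_assoc, Real.sqrt_div (by positivity)]
    field_simp
  have hK0 : 0 < K := by rw [hK]; positivity
  have hKA : K ≤ A * √(nn V) := by
    rw [hKe, hA]
    refine mul_le_mul_of_nonneg_right ?_ (Real.sqrt_nonneg _)
    refine div_le_div_of_nonneg_left hA'.le (Real.sqrt_pos.2 (by positivity)) ?_
    exact Real.sqrt_le_sqrt (mul_le_mul_of_nonneg_left hl ht.le)
  have hKK₀ : K₀ ≤ K := by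
    have h1 : K₀ ^ 2 ≤ K ^ 2 := by
      rw [hKe, mul_pow, div_pow, Real.sq_sqrt hn.le, Real.sq_sqrt (by positivity)]
      rw [div_le_iff₀ (by positivity)] at hN4
      have h2 : K₀ ^ 2 * (t * lam) ≤ nn V * A' ^ 2 := by
        refine le_trans ?_ hN4
        have : t * lam ≤ t * Λ := mul_le_mul_of_nonneg_left hl2 ht.le
        exact mul_le_mul_of_nonneg_left this (by positivity)
      have h3 : A' ^ 2 / (t * lam) * nn V = nn V * A' ^ 2 / (t * lam) := by ring
      rw [h3, le_div_iff₀ (by positivity)]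
      exact h2
    exact le_of_sq_le_sq h1 hK0.le
  have hKδ : K ≤ δ₀ * nn V := by
    refine hKA.trans ?_
    have h1 : A / δ₀ ≤ √(nn V) := Real.le_sqrt_of_sq_le hN5
    rw [div_le_iff₀ hδ₀] at h1
    have h2 : nn V = √(nn V) * √(nn V) := (Real.mul_self_sqrt hn.le).symm
    have h3 : 0 ≤ √(nn V) := Real.sqrt_nonneg _
    calc A * √(nn V) ≤ √(nn V) * δ₀ * √(nn V) := mul_le_mul_of_nonneg_right h1 h3
      _ = δ₀ * (√(nn V) * √(nn V)) := by ring
      _ = δ₀ * nn V := by rw [← h2]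
  -- the theorem on ordered lengths
  have hpo : ∀ x y : V, x ≠ y → lam / nn V ≤ pert J lam x y := by
    intro x y hxy
    unfold pert
    rw [if_neg hxy]
    have := hJ x y
    linarith
  have hpd : ∀ x : V, pert J lam x x = 0 := fun x => by
    unfold pert
    rw [if_pos rfl]
  have hA4 : A' ≤ t * (lam / nn V) * (Fintype.card V : ℝ) ^ 2 := by
    rw [hcard]
    have h1 : t * (lam / nn V) * nn V ^ 2 = t * lam * nn V := by field_simp
    rw [h1]
    rw [div_le_iff₀ (by positivity)] at hN3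
    refine hN3.trans ?_
    have : t * κ ≤ t * lam := mul_le_mul_of_nonneg_left hl ht.le
    nlinarith
  obtain ⟨h1, h2⟩ := H V (pert J lam) (lam / nn V) t ht hln hpo hpd (by rw [hcard]; exact hN2)
    hA4 K (le_of_eq hK.symm) (by rw [hcard]; exact hKδ)
  have hfm : ∀ s : ℝ, (Pool.Agent.TH268.PD.mas s : Perm V → ℝ) = frac s := fun s => rfl
  rw [← stE_law (pert J lam) t (fun g => f (fun i => Pool.Agent.TH268.PD.top
    (Pool.Agent.TH268.PD.frac g) i)), ← stE_law (pert J lam) t (fun g =>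
    Pool.Agent.TH268.PD.pdm (fun u : Fin r → ℝ => f (fun i =>
      Pool.Agent.TH268.PD.mas K g * u i)))] at h1
  rw [← stE_law (pert J lam) t (fun g => Pool.Agent.TH268.PD.mas K g -
    Pool.Agent.TH268.PD.mas (δ₀ * Fintype.card V) g)] at h2
  rw [hcard] at h2
  simp only [hfm] at h1 h2
  have hJ' : ∀ u v, 0 ≤ J u v + lam / nn V := fun u v =>
    add_nonneg (hJ u v) hln.le
  have hJp : ∀ u v, 0 ≤ pert J lam u v := fun u v => by
    unfold pert
    split_ifs
    · exact le_rfl
    · exact hJ' u v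
  have hv := p_vj V (pert J lam) t hJp ht.le
  have hfix : ∀ s, K₀ ≤ s → s ≤ A * √(nn V) →
      stE (pert J lam) t (fun g => (frac s g - q) ^ 2) ≤ ζ := by
    intro s hs1 hs2
    rw [stE_pert]
    exact H₁ V hN1 J hJ hD lam hl hl2 q hq s hs1 hs2
  have hKfix := hfix K hKK₀ hKA
  constructor
  · intro s hs1 hs2
    rcases le_total s K with hsK | hsK
    · exact (hfix s hs1 (hsK.trans hKA)).trans (hζ1.trans (by linarith))
    · have h3 : ∀ g : Perm V, (frac s g - q) ^ 2 ≤
          2 * (frac K g - q) ^ 2 + 2 * (frac K g - frac (δ₀ * nn V) g) := by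
        intro g
        have a1 : frac s g ≤ frac K g := frac_anti hsK g
        have a2 : frac (δ₀ * nn V) g ≤ frac s g := frac_anti hs2 g
        have a3 : 0 ≤ frac s g := frac_nonneg s g
        have a4 : frac K g ≤ 1 := frac_le_one K g
        have a5 : (frac K g - frac s g) ^ 2 ≤ frac K g - frac s g := by nlinarith
        nlinarith [sq_nonneg ((frac s g - frac K g) - (frac K g - q))]
      have h4 := stE_mono hv.2.1 h3
      rw [stE_lin (pert J lam) t 2 2 (fun g => (frac K g - q) ^ 2)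
        (fun g => frac K g - frac (δ₀ * nn V) g)] at h4
      linarith
  · have h3 : ∀ g : Perm V, |Pool.Agent.TH268.PD.pdm (fun u : Fin r → ℝ =>
          f (fun i => frac K g * u i)) -
        Pool.Agent.TH268.PD.pdm (fun u : Fin r → ℝ => f (fun i => q * u i))| ≤
        η / 4 + M * |frac K g - q| := fun g =>
      hnear _ _ (frac_nonneg K g) (frac_le_one K g) hq0 hq1
    obtain ⟨Φ, hΦ⟩ : ∃ Φ : ℝ → ℝ, Φ = fun x => Pool.Agent.TH268.PD.pdm (fun u : Fin r → ℝ =>
      f (fun i => x * u i)) := ⟨_, rfl⟩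
    have e1 : ∀ x, Pool.Agent.TH268.PD.pdm (fun u : Fin r → ℝ => f (fun i => x * u i)) = Φ x :=
      fun x => by rw [hΦ]
    simp only [e1] at h1 h3 ⊢
    obtain ⟨σ, hσ⟩ : ∃ σ, σ = η / (4 * (M + 1)) := ⟨_, rfl⟩
    have hσ0 : 0 < σ := by rw [hσ]; positivity
    have hMσ : M * σ ≤ η / 4 := by
      rw [hσ, mul_div_assoc', div_le_iff₀ (by positivity)]
      nlinarith
    -- mean of the absolute value
    have h4 : ∀ g : Perm V, |frac K g - q| ≤ (1 / (4 * σ)) * (frac K g - q) ^ 2 + σ * 1 := by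
      intro g
      have c3 : 0 ≤ (1 / (4 * σ)) * (|frac K g - q| - 2 * σ) ^ 2 := by positivity
      have c4 : (1 / (4 * σ)) * (|frac K g - q| - 2 * σ) ^ 2 =
          (1 / (4 * σ)) * (frac K g - q) ^ 2 - |frac K g - q| + σ := by
        rw [← sq_abs (frac K g - q)]
        field_simp
        ring
      rw [c4] at c3
      linarith
    have h5 : ∀ g : Perm V, Φ (frac K g) - Φ q ≤
        (M * (1 / (4 * σ))) * (frac K g - q) ^ 2 + (η / 4 + M * σ) * 1 := by
      intro g
      have a1 := (abs_le.1 (h3 g)).2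
      have a2 := mul_le_mul_of_nonneg_left (h4 g) hM
      linarith
    have h6 : ∀ g : Perm V, Φ q - Φ (frac K g) ≤
        (M * (1 / (4 * σ))) * (frac K g - q) ^ 2 + (η / 4 + M * σ) * 1 := by
      intro g
      have a1 := (abs_le.1 (h3 g)).1
      have a2 := mul_le_mul_of_nonneg_left (h4 g) hM
      linarith
    have h7 := stE_mono hv.2.1 h5
    have h8 := stE_mono hv.2.1 h6
    rw [stE_lin (pert J lam) t (M * (1 / (4 * σ))) (η / 4 + M * σ)
      (fun g => (frac K g - q) ^ 2) (fun _ => 1), hv.1] at h7 h8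
    have e2 : stE (pert J lam) t (fun g => Φ (frac K g) - Φ q) =
        stE (pert J lam) t (fun g => Φ (frac K g)) - Φ q := by
      have := stE_lin (pert J lam) t 1 (-Φ q) (fun g => Φ (frac K g)) (fun _ => 1)
      rw [hv.1] at this
      have e3 : (fun g : Perm V => Φ (frac K g) - Φ q) =
          fun g => 1 * Φ (frac K g) + -Φ q * 1 := by
        funext g
        ring
      rw [e3, this]
      ring
    have e4 : stE (pert J lam) t (fun g => Φ q - Φ (frac K g)) =
        Φ q - stE (pert J lam) t (fun g => Φ (frac K g)) := by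
      have := stE_lin (pert J lam) t (-1) (Φ q) (fun g => Φ (frac K g)) (fun _ => 1)
      rw [hv.1] at this
      have e3 : (fun g : Perm V => Φ q - Φ (frac K g)) =
          fun g => (-1) * Φ (frac K g) + Φ q * 1 := by
        funext g
        ring
      rw [e3, this]
      ring
    rw [e2] at h7
    rw [e4] at h8
    have h9 : M * (1 / (4 * σ)) * stE (pert J lam) t (fun g => (frac K g - q) ^ 2) ≤ η / 16 := by
      have b1 : stE (pert J lam) t (fun g => (frac K g - q) ^ 2) ≤ σ ^ 2 := by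
        rw [hσ]
        exact hKfix.trans hζ2
      calc M * (1 / (4 * σ)) * stE (pert J lam) t (fun g => (frac K g - q) ^ 2)
          ≤ M * (1 / (4 * σ)) * σ ^ 2 := mul_le_mul_of_nonneg_left b1 (by positivity)
        _ = M * σ / 4 := by field_simp
        _ ≤ η / 16 := by linarith
    have h10 : |stE (pert J lam) t (fun g => Φ (frac K g)) - Φ q| ≤ η / 16 + η / 4 + η / 4 := by
      rw [abs_le]
      constructor <;> linarith
    have h11 := abs_sub_le (stE (pert J lam) t (fun g => f (fun i => Pool.Agent.TH268.PD.top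
      (Pool.Agent.TH268.PD.frac g) i))) (stE (pert J lam) t (fun g => Φ (frac K g))) (Φ q)
    linarith

end Pool.Agent.TH604.ST
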