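import Pool.Agent.TH604.ST.Asm7

/-!
# Mean-field perturbation of random stirring: cycle lengths divided by their mass
-/

set_option autoImplicit false
set_option maxHeartbeats 400000

namespace Pool.Agent.TH604.ST

open Finset Equiv Pool.Agent.W805.LR MeasureTheory Filter Topology

/-- Uniform continuity under scaling. -/
lemma scale_unif {r : ℕ} {f : (Fin r → ℝ) → ℝ} (hfc : Continuous f) (B : ℝ) {e : ℝ}
    (he : 0 < e) : ∃ ω > 0, ∀ u : Fin r → ℝ, (∀ i, 0 ≤ u i ∧ u i ≤ 1) → ∀ x y : ℝ,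
      0 ≤ x → x ≤ B → 0 ≤ y → y ≤ B → |x - y| ≤ ω →
        |f (fun i => x * u i) - f (fun i => y * u i)| ≤ e := by
  have hcomp : IsCompact ((Set.pi Set.univ fun _ : Fin r => Set.Icc (0 : ℝ) 1) ×ˢ
      Set.Icc (0 : ℝ) B) := (isCompact_univ_pi fun _ => isCompact_Icc).prod isCompact_Icc
  have hcont : ContinuousOn (fun z : (Fin r → ℝ) × ℝ => f (fun i => z.2 * z.1 i))
      ((Set.pi Set.univ fun _ : Fin r => Set.Icc (0 : ℝ) 1) ×ˢ Set.Icc (0 : ℝ) B) :=
    (hfc.comp (by fun_prop)).continuousOn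
  have huc := hcomp.uniformContinuousOn_of_continuous hcont
  rw [Metric.uniformContinuousOn_iff] at huc
  obtain ⟨ω, hω, H⟩ := huc e he
  refine ⟨ω / 2, by positivity, fun u hu x y hx0 hx1 hy0 hy1 hxy => ?_⟩
  have h1 := H (u, x) ⟨fun i _ => hu i, hx0, hx1⟩ (u, y) ⟨fun i _ => hu i, hy0, hy1⟩ (by
    rw [Prod.dist_eq, dist_self, Real.dist_eq]
    exact max_lt hω (by linarith))
  rw [Real.dist_eq] at h1
  exact h1.le

/-- The normalised law. -/
theorem norm_law (r : ℕ) (f : (Fin r → ℝ) → ℝ) (hfc : Continuous f) (C : ℝ)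
    (hC : ∀ u, |f u| ≤ C) {t D Λ κ η c : ℝ} (ht : 0 < t) (hκ : 0 < κ) (hκΛ : κ ≤ Λ)
    (hη : 0 < η) (hc : 0 < c) :
    ∃ N₀ : ℝ, ∀ (V : Type) [Fintype V] [DecidableEq V] [Nonempty V],
      N₀ ≤ nn V → ∀ J : V → V → ℝ, (∀ x y, 0 ≤ J x y) → rate J ≤ D * nn V →
      ∀ lam, κ ≤ lam → lam ≤ Λ → ∀ q, IsGreatest (Rts J t (lam * t)) q → c ≤ q →
        |stE (pert J lam) t (fun g => f (fun i => Pool.Agent.TH268.PD.top
            (Pool.Agent.TH268.PD.frac g) i / q)) - Pool.Agent.TH268.PD.pdm f| ≤ η := by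
  have hΛ : 0 < Λ := lt_of_lt_of_le hκ hκΛ
  obtain ⟨ω, hω, hun⟩ := scale_unif hfc (max 1 (1 / c)) (show (0 : ℝ) < η / 4 by positivity)
  -- the mesh
  obtain ⟨w, hw⟩ : ∃ w, w = min (ω * c ^ 2) (ω * c) := ⟨_, rfl⟩
  have hw0 : 0 < w := by rw [hw]; exact lt_min (by positivity) (by positivity)
  have hw1 : w ≤ ω * c ^ 2 := by rw [hw]; exact min_le_left _ _
  have hw2 : w ≤ ω * c := by rw [hw]; exact min_le_right _ _
  obtain ⟨θ, hθ⟩ : ∃ θ : ℕ → ℝ, θ = fun j : ℕ => c + (j : ℝ) * w := ⟨_, rfl⟩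
  have hθc : ∀ j, c ≤ θ j := fun j => by
    rw [hθ]
    have : (0 : ℝ) ≤ j * w := by positivity
    show c ≤ c + j * w
    linarith
  have hfj : ∀ j : ℕ, Continuous (fun u : Fin r → ℝ => f (fun i => u i / θ j)) := fun j =>
    hfc.comp (by fun_prop)
  have hN : ∀ j : ℕ, ∃ N₀ : ℝ, ∀ (V : Type) [Fintype V] [DecidableEq V] [Nonempty V],
      N₀ ≤ nn V → ∀ J : V → V → ℝ, (∀ x y, 0 ≤ J x y) → rate J ≤ D * nn V →
      ∀ lam, κ ≤ lam → lam ≤ Λ → ∀ q, IsGreatest (Rts J t (lam * t)) q →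
        |stE (pert J lam) t (fun g => f (fun i => Pool.Agent.TH268.PD.top
            (Pool.Agent.TH268.PD.frac g) i / θ j)) -
          Pool.Agent.TH268.PD.pdm (fun u : Fin r → ℝ => f (fun i => q * u i / θ j))| ≤
            η / 4 := by
    intro j
    obtain ⟨K₀, _, δ₀, _, N₀, H⟩ := macro_law r (fun u : Fin r → ℝ => f (fun i => u i / θ j))
      (hfj j) C (fun u => hC _) (D := D) ht hκ hκΛ (show (0 : ℝ) < η / 4 by positivity)
    exact ⟨N₀, fun V _ _ _ hV J hJ hD lam hl hl2 q hq => (H V hV J hJ hD lam hl hl2 q hq).2⟩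
  choose N hN using hN
  refine ⟨∑ j ∈ Finset.range (⌈1 / w⌉₊ + 1), |N j|, ?_⟩
  intro V _ _ _ hV J hJ hD lam hl hl2 q hq hcq
  have hn : (0 : ℝ) < nn V := nn_pos
  have hl0 : 0 < lam := lt_of_lt_of_le hκ hl
  obtain ⟨hq0, hq1, _⟩ := root_bd Root.rt2 p_jn p_vj p_bdg J hJ ht.le (by positivity) hq
  have hqp : 0 < q := lt_of_lt_of_le hc hcq
  obtain ⟨j, hj⟩ : ∃ j, j = ⌈(q - c) / w⌉₊ := ⟨_, rfl⟩
  have hjr : j ∈ Finset.range (⌈1 / w⌉₊ + 1) := by
    rw [Finset.mem_range, hj]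
    have : ⌈(q - c) / w⌉₊ ≤ ⌈1 / w⌉₊ :=
      Nat.ceil_mono (div_le_div_of_nonneg_right (by linarith) hw0.le)
    omega
  have hNj : N j ≤ nn V := by
    refine (le_abs_self _).trans (le_trans ?_ hV)
    exact Finset.single_le_sum (f := fun j => |N j|) (fun _ _ => abs_nonneg _) hjr
  have hqθ : q ≤ θ j := by
    have h1 : (q - c) / w ≤ j := by rw [hj]; exact Nat.le_ceil _
    rw [div_le_iff₀ hw0] at h1
    rw [hθ]
    show q ≤ c + j * w
    linarith
  have hθq : θ j ≤ q + w := by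
    have h1 : (j : ℝ) < (q - c) / w + 1 := by
      rw [hj]
      exact Nat.ceil_lt_add_one (div_nonneg (by linarith) hw0.le)
    have h2 : (j : ℝ) * w < ((q - c) / w + 1) * w := mul_lt_mul_of_pos_right h1 hw0
    have h3 : ((q - c) / w + 1) * w = q - c + w := by field_simp
    rw [hθ]
    show c + j * w ≤ q + w
    linarith
  have hθ0 : 0 < θ j := lt_of_lt_of_le hc (hθc j)
  have hmain := hN j V hNj J hJ hD lam hl hl2 q hq
  have hJp : ∀ u v, 0 ≤ pert J lam u v := fun u v => by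
    unfold pert
    split_ifs
    · exact le_rfl
    · exact add_nonneg (hJ u v) (div_nonneg hl0.le hn.le)
  have hv := p_vj V (pert J lam) t hJp ht.le
  have hB1 : (1 : ℝ) ≤ max 1 (1 / c) := le_max_left _ _
  have hBc : 1 / c ≤ max 1 (1 / c) := le_max_right _ _
  have hiq : 1 / q ≤ max 1 (1 / c) := (one_div_le_one_div_of_le hc hcq).trans hBc
  have hiθ : 1 / θ j ≤ max 1 (1 / c) := (one_div_le_one_div_of_le hc (hθc j)).trans hBc
  -- first comparison
  have h1 : ∀ g : Perm V, |f (fun i => Pool.Agent.TH268.PD.top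
      (Pool.Agent.TH268.PD.frac g) i / q) - f (fun i => Pool.Agent.TH268.PD.top
      (Pool.Agent.TH268.PD.frac g) i / θ j)| ≤ η / 4 := by
    intro g
    have hf0 : ∀ γ, 0 ≤ Pool.Agent.TH268.PD.frac g γ := fun γ => by
      unfold Pool.Agent.TH268.PD.frac
      positivity
    have hf1 : ∀ γ, Pool.Agent.TH268.PD.frac g γ ≤ 1 := fun γ => by
      unfold Pool.Agent.TH268.PD.frac
      have hcard : (0 : ℝ) < Fintype.card V := hn
      rw [div_le_one hcard]
      have h5 : Nat.card {w : V // Pool.Agent.TH268.PD.cyOf g w = γ} ≤ Fintype.card V := by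
        rw [← Nat.card_eq_fintype_card]
        exact Nat.card_le_card_of_injective _ Subtype.val_injective
      exact_mod_cast h5
    have h2 := hun (fun i => Pool.Agent.TH268.PD.top (Pool.Agent.TH268.PD.frac g) i)
      (fun i => ⟨Pool.Agent.TH268.PD.top_nonneg _ hf0 i,
        Pool.Agent.TH268.PD.top_le_one _ hf0 hf1 i⟩) (1 / q) (1 / θ j) (by positivity) hiq
      (by positivity) hiθ (by
        have e : 1 / q - 1 / θ j = (θ j - q) / (q * θ j) := by field_simp
        rw [e, abs_of_nonneg (div_nonneg (by linarith) (by positivity)),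
          div_le_iff₀ (by positivity)]
        have h3 : c ^ 2 ≤ q * θ j := by
          rw [sq]
          exact mul_le_mul hcq (hθc j) hc.le hqp.le
        have h4 : ω * c ^ 2 ≤ ω * (q * θ j) := mul_le_mul_of_nonneg_left h3 hω.le
        linarith)
    have e1 : ∀ (a : ℝ) (i : Fin r), Pool.Agent.TH268.PD.top (Pool.Agent.TH268.PD.frac g) i / a =
        1 / a * Pool.Agent.TH268.PD.top (Pool.Agent.TH268.PD.frac g) i := fun a i => by ring
    simp only [e1]
    exact h2
  -- last comparison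
  have h2 : |Pool.Agent.TH268.PD.pdm (fun u : Fin r → ℝ => f (fun i => q * u i / θ j)) -
      Pool.Agent.TH268.PD.pdm f| ≤ η / 4 := by
    refine Pool.Agent.TH268.PD.Unif.pdm_diff Pool.Agent.TH268.PD.pdl (hfc.comp (by fun_prop)) hfc
      (fun u => hC _) hC fun u hu => ?_
    have h3 := hun u hu (q / θ j) 1 (by positivity)
      (((div_le_one hθ0).2 hqθ).trans hB1) zero_le_one hB1 (by
        have e : q / θ j - 1 = -((θ j - q) / θ j) := by field_simp; ring
        rw [e, abs_neg, abs_of_nonneg (div_nonneg (by linarith) hθ0.le), div_le_iff₀ hθ0]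
        have h4 : ω * c ≤ ω * θ j := mul_le_mul_of_nonneg_left (hθc j) hω.le
        linarith)
    have e1 : ∀ i : Fin r, q * u i / θ j = q / θ j * u i := fun i => by ring
    have e2 : ∀ i : Fin r, (1 : ℝ) * u i = u i := fun i => one_mul _
    show |f (fun i => q * u i / θ j) - f (fun i => u i)| ≤ η / 4
    simp only [e2] at h3
    simp only [e1]
    exact h3
  obtain ⟨X, hX⟩ : ∃ X : Perm V → ℝ, X = fun g => f (fun i => Pool.Agent.TH268.PD.top
      (Pool.Agent.TH268.PD.frac g) i / q) := ⟨_, rfl⟩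
  obtain ⟨Y, hY⟩ : ∃ Y : Perm V → ℝ, Y = fun g => f (fun i => Pool.Agent.TH268.PD.top
      (Pool.Agent.TH268.PD.frac g) i / θ j) := ⟨_, rfl⟩
  rw [← hX]
  rw [← hY] at hmain
  have h3 : |stE (pert J lam) t X - stE (pert J lam) t Y| ≤ η / 4 := by
    have e1 : stE (pert J lam) t X - stE (pert J lam) t Y =
        stE (pert J lam) t (fun g => 1 * X g + (-1) * Y g) := by
      rw [stE_lin]
      ring
    rw [e1, abs_le]
    constructor
    · have h4 := stE_mono hv.2.1 (F := fun _ => -(η / 4)) (G := fun g => 1 * X g + (-1) * Y g)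
        (fun g => by
          have := (abs_le.1 (h1 g)).1
          rw [hX, hY]
          show -(η / 4) ≤ 1 * _ + (-1) * _
          linarith)
      rw [stE_const hv.1] at h4
      exact h4
    · have h4 := stE_mono hv.2.1 (F := fun g => 1 * X g + (-1) * Y g) (G := fun _ => η / 4)
        (fun g => by
          have := (abs_le.1 (h1 g)).2
          rw [hX, hY]
          show 1 * _ + (-1) * _ ≤ η / 4
          linarith)
      rw [stE_const hv.1] at h4
      exact h4
  have a1 := abs_sub_le (stE (pert J lam) t X) (stE (pert J lam) t Y)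
    (Pool.Agent.TH268.PD.pdm (fun u : Fin r → ℝ => f (fun i => q * u i / θ j)))
  have a2 := abs_sub_le (stE (pert J lam) t X)
    (Pool.Agent.TH268.PD.pdm (fun u : Fin r → ℝ => f (fun i => q * u i / θ j)))
    (Pool.Agent.TH268.PD.pdm f)
  linarith

end Pool.Agent.TH604.ST
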