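import Pool.Agent.W805.LR.Defs

/-!
# Mean-field perturbation of random stirring: definitions
-/

set_option autoImplicit false

namespace Pool.Agent.TH604.ST

open Finset Equiv Pool.Agent.W805.LR

section walk

variable {X ι : Type} [Fintype ι]

/-- One step of a walk: with probability `p i` the state `x` becomes `T i x`. -/
noncomputable def stp (p : ι → ℝ) (T : ι → X → X) (F : X → ℝ) (x : X) : ℝ := ∑ i, p i * F (T i x)

/-- Expectation of `F` after a Poisson number (mean `s`) of steps, started at `x`. -/
noncomputable def poi (p : ι → ℝ) (T : ι → X → X) (s : ℝ) (F : X → ℝ) (x : X) : ℝ :=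
  ∑' k : ℕ, Real.exp (-s) * s ^ k / (k.factorial : ℝ) * ((stp p T)^[k] F) x

/-- `p` is a probability vector. -/
def Prb (p : ι → ℝ) : Prop := (∀ i, 0 ≤ p i) ∧ ∑ i, p i = 1

/-- `F` is bounded. -/
def Bdd (F : X → ℝ) : Prop := ∃ B : ℝ, ∀ x, |F x| ≤ B

end walk

section part

variable {V : Type} [Fintype V] [DecidableEq V]

/-- The size of the class of `v`. -/
noncomputable def csz (R : Setoid V) (v : V) : ℝ := cnt fun w => R.r v w

/-- The classes of `x` and of `y` are united. -/
def join (R : Setoid V) (x y : V) : Setoid V where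
  r v w := R.r v w ∨ ((R.r x v ∨ R.r y v) ∧ (R.r x w ∨ R.r y w))
  iseqv := by
    refine ⟨fun v => Or.inl (R.iseqv.refl v), ?_, ?_⟩
    · rintro v w (h | ⟨h1, h2⟩)
      · exact Or.inl (R.iseqv.symm h)
      · exact Or.inr ⟨h2, h1⟩
    · rintro u v w (h | ⟨h1, h2⟩) (k | ⟨k1, k2⟩)
      · exact Or.inl (R.iseqv.trans h k)
      · refine Or.inr ⟨?_, k2⟩
        rcases k1 with k1 | k1
        · exact Or.inl (R.iseqv.trans k1 (R.iseqv.symm h))
        · exact Or.inr (R.iseqv.trans k1 (R.iseqv.symm h))
      · refine Or.inr ⟨h1, ?_⟩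
        rcases h2 with h2 | h2
        · exact Or.inl (R.iseqv.trans h2 k)
        · exact Or.inr (R.iseqv.trans h2 k)
      · exact Or.inr ⟨h1, k2⟩

/-- Multiplication by the transposition of the pair `e`. -/
def Tg (e : V × V) (g : Perm V) : Perm V := swap e.1 e.2 * g

/-- The classes of the two points of `e` are united. -/
def Tj (e : V × V) (R : Setoid V) : Setoid V := join R e.1 e.2

/-- Both at the same time. -/
def Tp (e : V × V) (z : Perm V × Setoid V) : Perm V × Setoid V := (Tg e z.1, Tj e z.2)

/-- The number of points. -/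
noncomputable def nn (V : Type) [Fintype V] : ℝ := (Fintype.card V : ℝ)

/-- The uniform distribution on the ordered pairs. -/
noncomputable def unif (V : Type) [Fintype V] : V × V → ℝ := fun _ => 1 / nn V ^ 2

/-- Fraction of the points in cycles of length at least `s`. -/
noncomputable def frac (s : ℝ) (g : Perm V) : ℝ := (cnt fun v => s ≤ len g v) / nn V

/-- `(1/n) ∑ (1 - exp (-h |class of v|))`. -/
noncomputable def mass (h : ℝ) (R : Setoid V) : ℝ :=
  (∑ v, (1 - Real.exp (-(h * csz R v)))) / nn V

/-- `(1/n) ∑ |class of v| exp (-h |class of v|)`, the derivative of `mass` in `h`. -/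
noncomputable def wgt (h : ℝ) (R : Setoid V) : ℝ :=
  (∑ v, csz R v * Real.exp (-(h * csz R v))) / nn V

/-- Probability that two random points are in the same class. -/
noncomputable def cc (R : Setoid V) : ℝ := (∑ v, csz R v) / nn V ^ 2

/-- The number of classes. -/
noncomputable def NK (R : Setoid V) : ℝ := ∑ v, 1 / csz R v

/-- `∑ over the classes of 1 - exp (-h size)`. -/
noncomputable def kap (h : ℝ) (R : Setoid V) : ℝ := ∑ v, (1 - Real.exp (-(h * csz R v))) / csz R v

/-- Probability that two random points are in the same cycle. -/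
noncomputable def ss (g : Perm V) : ℝ := (∑ v, len g v) / nn V ^ 2

/-- The number of cycles. -/
noncomputable def NG (g : Perm V) : ℝ := ∑ v, 1 / len g v

/-- The number of cycles of length at least `s`. -/
noncomputable def NE (s : ℝ) (g : Perm V) : ℝ :=
  open Classical in ∑ v, (if s ≤ len g v then 1 else 0) / len g v

/-- The cycles refine the classes. -/
def Ref (z : Perm V × Setoid V) : Prop := ∀ x y, z.1.SameCycle x y → z.2.r x y

/-- The potential. -/
noncomputable def pot (h s : ℝ) (z : Perm V × Setoid V) : ℝ :=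
  NE s z.1 - kap h z.2 + NK z.2 - NG z.1

/-- Total rate. -/
noncomputable def rate (J : V → V → ℝ) : ℝ := ∑ x, ∑ y, J x y / 2

/-- Expectation of `F` under stirring with rates `J` at time `t`. -/
noncomputable def stE (J : V → V → ℝ) (t : ℝ) (F : Perm V → ℝ) : ℝ :=
  Real.exp (-(t * rate J)) * ∑ g, stirMass J t g * F g

end part

end Pool.Agent.TH604.ST
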