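import Pool.Agent.TH604.ST.Defs

/-!
# Mean-field perturbation of random stirring: statements of the parts
-/

set_option autoImplicit false

namespace Pool.Agent.TH604.ST

open Finset Equiv Pool.Agent.W805.LR

/-! ## Poissonised walks -/

/-- Derivative in time. -/
def S_DER : Prop := ∀ (X ι : Type) [Fintype ι] (p : ι → ℝ) (T : ι → X → X), Prb p →
  ∀ F : X → ℝ, Bdd F → ∀ (s : ℝ) (x : X),
    HasDerivAt (fun u => poi p T u F x) (poi p T s (fun y => stp p T F y - F y) x) s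

/-- Monotonicity on an invariant set. -/
def S_MON : Prop := ∀ (X ι : Type) [Fintype ι] (p : ι → ℝ) (T : ι → X → X), Prb p →
  ∀ Y : X → Prop, (∀ i x, Y x → Y (T i x)) → ∀ F G : X → ℝ, Bdd F → Bdd G →
    (∀ x, Y x → F x ≤ G x) → ∀ s : ℝ, 0 ≤ s → ∀ x, Y x → poi p T s F x ≤ poi p T s G x

/-- Linearity, constants, time zero. -/
def S_LIN : Prop := ∀ (X ι : Type) [Fintype ι] (p : ι → ℝ) (T : ι → X → X), Prb p →
  (∀ F G : X → ℝ, Bdd F → Bdd G → ∀ (a b s : ℝ) (x : X),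
    poi p T s (fun y => a * F y + b * G y) x = a * poi p T s F x + b * poi p T s G x) ∧
  (∀ (c s : ℝ) (x : X), poi p T s (fun _ => c) x = c) ∧
  (∀ (F : X → ℝ) (x : X), poi p T 0 F x = F x)

/-- Functions of a projection. -/
def S_PRJ : Prop := ∀ (X X' ι : Type) [Fintype ι] (p : ι → ℝ) (T : ι → X → X) (T' : ι → X' → X')
  (f : X → X'), (∀ i x, f (T i x) = T' i (f x)) → ∀ (G : X' → ℝ) (s : ℝ) (x : X),
    poi p T s (fun y => G (f y)) x = poi p T' s G (f x)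

/-- Variance bound. -/
def S_VAR : Prop := ∀ (X ι : Type) [Fintype ι] (p : ι → ℝ) (T : ι → X → X), Prb p →
  ∀ (F : X → ℝ) (δ : ℝ), Bdd F → 0 ≤ δ →
    (∀ (k : ℕ) (x : X) (i : ι), |((stp p T)^[k] F) (T i x) - ((stp p T)^[k] F) x| ≤ δ) →
    ∀ s : ℝ, 0 ≤ s → ∀ x : X,
      poi p T s (fun y => F y ^ 2) x - poi p T s F x ^ 2 ≤ 2 * s * δ ^ 2

/-! ## Partitions -/

/-- Sizes after uniting two classes; commutation. -/
def S_JN : Prop := ∀ (V : Type) [Fintype V] [DecidableEq V] (R : Setoid V) (x y : V),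
  (∀ v, 1 ≤ csz R v) ∧ (∀ v w, R.r v w → csz R v = csz R w) ∧
  (R.r x y → join R x y = R) ∧
  (¬ R.r x y → (∀ v, R.r x v ∨ R.r y v → csz (join R x y) v = csz R x + csz R y) ∧
    ∀ v, ¬ R.r x v → ¬ R.r y v → csz (join R x y) v = csz R v) ∧
  ∀ u v, join (join R x y) u v = join (join R u v) x y

/-- Mean change of the number of classes and of `kap`. -/
def S_KN : Prop := ∀ (V : Type) [Fintype V] [DecidableEq V] [Nonempty V] (R : Setoid V) (h : ℝ),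
  0 < h →
  stp (unif V) Tj NK R - NK R = -(1 - cc R) ∧
  stp (unif V) Tj (kap h) R - kap h R ≤ -(mass h R) ^ 2 + cc R ∧
  0 ≤ kap h R ∧ kap h R ≤ h * nn V

/-- Mean change of `mass`. -/
def S_MS : Prop := ∀ (V : Type) [Fintype V] [DecidableEq V] [Nonempty V] (R : Setoid V) (h : ℝ),
  0 < h →
  stp (unif V) Tj (mass h) R - mass h R ≤ 2 / nn V * wgt h R * mass h R ∧
  2 / nn V * wgt h R * mass h R - 2 / (nn V ^ 2 * h ^ 2) ≤
    stp (unif V) Tj (mass h) R - mass h R ∧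
  (∀ x y, |mass h (join R x y) - mass h R| ≤ 1 / (nn V * h)) ∧
  0 ≤ wgt h R ∧ wgt h R ≤ 1 / h ∧ 0 ≤ mass h R ∧ mass h R ≤ 1

/-- Burgers: comparison along the characteristic lines. -/
def S_BURG : Prop := ∀ (V : Type) [Fintype V] [DecidableEq V] [Nonempty V] (R : Setoid V)
  (h S m η : ℝ), 0 < h → 0 ≤ S → 0 ≤ m → m ≤ 1 → 0 ≤ η →
  (m - η ≤ mass (h + 2 * S / nn V * m) R →
    m - Real.exp (2 * S / (nn V * h)) * (η + S * (2 / (nn V * h) * (√(2 * S) / (nn V * h)) +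
      2 / (nn V ^ 2 * h ^ 2))) ≤ poi (unif V) Tj S (mass h) R) ∧
  (mass (h + 2 * S / nn V * m) R ≤ m + η →
    poi (unif V) Tj S (mass h) R ≤
      m + Real.exp (2 * S / (nn V * h)) * (η + S * (2 / (nn V * h) * (√(2 * S) / (nn V * h)) +
      2 / (nn V ^ 2 * h ^ 2))))

/-- Variance of `mass`. -/
def S_VM : Prop := ∀ (V : Type) [Fintype V] [DecidableEq V] [Nonempty V] (R : Setoid V)
  (h S : ℝ), 0 < h → 0 ≤ S →
  poi (unif V) Tj S (fun Q => mass h Q ^ 2) R - poi (unif V) Tj S (mass h) R ^ 2 ≤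
    2 * S * (1 / (nn V * h)) ^ 2

/-! ## Permutations -/

/-- Mean change of the number of cycles and of the number of long cycles. -/
def S_GG : Prop := ∀ (V : Type) [Fintype V] [DecidableEq V] [Nonempty V] (g : Perm V) (ε : ℝ),
  0 < ε →
  stp (unif V) Tg NG g - NG g = 2 * ss g - 1 / nn V - 1 ∧
  2 * ss g - frac (ε * nn V) g ^ 2 - 1 / nn V - 6 * ε ≤
    stp (unif V) Tg (NE (ε * nn V)) g - NE (ε * nn V) g ∧
  0 ≤ NE (ε * nn V) g ∧ NE (ε * nn V) g ≤ 1 / ε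

/-- Cycles and classes. -/
def S_REF : Prop := ∀ (V : Type) [Fintype V] [DecidableEq V] [Nonempty V]
  (z : Perm V × Setoid V), Ref z →
  (∀ e, Ref (Tp e z)) ∧ (∀ v, len z.1 v ≤ csz z.2 v) ∧ NK z.2 ≤ NG z.1 ∧
  (∀ h s : ℝ, 0 < h → 0 < s → frac s z.1 ≤ mass h z.2 + Real.exp (-(h * s)))

/-- The potential. -/
def S_POT : Prop := ∀ (V : Type) [Fintype V] [DecidableEq V] [Nonempty V] (h ε : ℝ),
  0 < h → 0 < ε →
  (∀ z : Perm V × Setoid V, Ref z →
    (mass h z.2 - frac (ε * nn V) z.1) ^ 2 - 6 * ε - 3 * Real.exp (-(h * (ε * nn V))) ≤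
      stp (unif V) Tp (pot h (ε * nn V)) z - pot h (ε * nn V) z ∧
    pot h (ε * nn V) z ≤ 1 / ε) ∧
  ∀ g : Perm V, -(h * nn V) ≤ pot h (ε * nn V) (g, Perm.SameCycle.setoid g)

/-- The long cycles fill the large classes, on average over time. -/
def S_FILL : Prop := ∀ (V : Type) [Fintype V] [DecidableEq V] [Nonempty V] (h ε S : ℝ)
  (g : Perm V), 0 < h → 0 < ε → 0 ≤ S →
  ∫ s in (0 : ℝ)..S, poi (unif V) Tp s (fun z => (mass h z.2 - frac (ε * nn V) z.1) ^ 2)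
      (g, Perm.SameCycle.setoid g) ≤
    h * nn V + 1 / ε + S * (6 * ε + 3 * Real.exp (-(h * (ε * nn V))))

/-! ## The stirring process -/

/-- The uniform part of the rates is central. -/
def S_CENT : Prop := ∀ (V : Type) [Fintype V] [DecidableEq V] [Nonempty V] (J : V → V → ℝ)
  (lam t : ℝ) (F : Perm V → ℝ),
  stE (fun x y => J x y + lam / nn V) t F =
    stE J t (fun g => poi (unif V) Tg (lam * t * nn V / 2) F g)

/-- Stirring expectations: mass one, positivity, variance bound. -/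
def S_VJ : Prop := ∀ (V : Type) [Fintype V] [DecidableEq V] [Nonempty V] (J : V → V → ℝ)
  (t : ℝ), (∀ x y, 0 ≤ J x y) → 0 ≤ t →
  stE J t (fun _ => 1) = 1 ∧ (∀ g, 0 ≤ stirMass J t g) ∧
  ∀ (F : Perm V → ℝ) (δ : ℝ), 0 ≤ δ → (∀ x y g, |F (swap x y * g) - F g| ≤ δ) →
    stE J t (fun g => F g ^ 2) - stE J t F ^ 2 ≤ 2 * (t * rate J) * δ ^ 2

/-- Change of the mass function of the cycles under a transposition. -/
def S_BDG : Prop := ∀ (V : Type) [Fintype V] [DecidableEq V] [Nonempty V] (h : ℝ), 0 < h →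
  (∀ (g : Perm V) (v : V), csz (Perm.SameCycle.setoid g) v = len g v) ∧
  ∀ (x y : V) (g : Perm V), |mass h (Perm.SameCycle.setoid (swap x y * g)) -
    mass h (Perm.SameCycle.setoid g)| ≤ 1 / (nn V * h)

/-! ## The fixed point equation -/

/-- Just above the largest root. -/
def S_ROOT : Prop := ∀ (ι : Type) [Fintype ι] (w s : ι → ℝ), (∀ i, 0 ≤ w i) → ∑ i, w i = 1 →
  (∀ i, 1 ≤ s i) → ∀ A a m δ h : ℝ, 0 < a → a ≤ A →
  IsGreatest {q : ℝ | q = 1 - ∑ i, w i * Real.exp (-(a * q * s i))} m → 0 < δ → 0 < h →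
  h ≤ Real.exp (-A) * a ^ 3 * δ ^ 2 / 2 →
  1 - ∑ i, w i * Real.exp (-((h + a * (m + δ)) * s i)) ≤ m + δ

/-- Existence, bounds and monotonicity of the largest root, and when it is positive. -/
def S_RT2 : Prop := ∀ (ι : Type) [Fintype ι] (w s : ι → ℝ), (∀ i, 0 ≤ w i) → ∑ i, w i = 1 →
  (∀ i, 1 ≤ s i) →
  (∀ a : ℝ, 0 ≤ a → ∃ m, IsGreatest {q : ℝ | q = 1 - ∑ i, w i * Real.exp (-(a * q * s i))} m) ∧
  (∀ a m : ℝ, 0 ≤ a → IsGreatest {q : ℝ | q = 1 - ∑ i, w i * Real.exp (-(a * q * s i))} m →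
    0 ≤ m ∧ m ≤ 1 ∧ (0 < m ↔ 1 < a * ∑ i, w i * s i)) ∧
  (∀ a b m q : ℝ, 0 ≤ a → a ≤ b →
    IsGreatest {q : ℝ | q = 1 - ∑ i, w i * Real.exp (-(a * q * s i))} m →
    IsGreatest {q : ℝ | q = 1 - ∑ i, w i * Real.exp (-(b * q * s i))} q → m ≤ q)

end Pool.Agent.TH604.ST
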